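import Pool.Agent.Lib.MP_2f3286_ag.Gl.Defs

/-!
# The Fermat curve as a superelliptic curve with a totally ramified place at infinity   (module HX)

`r ^ p + 1 = q ^ p`, `X = 1 / (r + ζ ^ l)`, `Y = q X`: `Y ^ p = ∏_{m < p, m ≠ l} (1 + (ζ ^ m - ζ ^ l) X)`, of degree `p - 1`. Let `hpol ζ l p = ∏_{m ∈ (range p).erase l} (1 + C (ζ ^ m - ζ ^ l) * X)`.
PROOFS. `ζ ^ m ≠ ζ ^ l` for `m ≠ l` (`m, l < p`, `IsPrimitiveRoot.pow_inj`); let `e_m = ζ ^ m - ζ ^ l ≠ 0`. `natDegree`: a product of `p - 1` polynomials of degree one (`natDegree_prod`). Leading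
coefficient: `∏ e_m`. Roots: `eval a = 0` iff `1 + e_m a = 0` for some `m`, `a = - 1 / e_m`; they are distinct, so separable (`separable_prod'` or: `hpol = C (∏ e_m) * ∏ (X - C (- 1 / e_m))`,
`separable_prod_X_sub_C_iff`). `hx_eq`: `r ^ p + 1 = ∏_{m < p} (r + ζ ^ m)` (`p` odd, `IsPrimitiveRoot.pow_add_pow_eq_prod_add_mul`, see `Fer/VNum.lean` for this product), and
`r + ζ ^ m = (r + ζ ^ l) (1 + e_m / (r + ζ ^ l))`.
`hx_val`: for a valuation `v` with `v (ζ ^ i - 1) = 1` for all `i` not divisible by `p`: `v ζ = 1`, `v e_m = 1` (`Fer/VNum.lean`, `vnum_ne`, same argument), so the coefficients of `hpol` have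
valuation `≤ 1` (the subring `v.integer`, product of polynomials with coefficients in it), the leading one has valuation one, and for two roots `- 1 / e_m`, `- 1 / e_m'`, distinct: the
difference is `(e_m - e_m') / (e_m e_m')` up to sign with `e_m - e_m' = ζ ^ m - ζ ^ m'`.
`hx_sup`: `Transcendental C X`: `r = 1 / X - ζ ^ l` (if `X` is algebraic over `C`, so is `r`). `gen`: `adjoin C {X, Y} = ⊤` because it contains `r = 1 / X - ζ ^ l` and `q = Y / X` (`X ≠ 0`).
-/

open Polynomial IntermediateField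

namespace Pool.Agent.Lib.MP_2f3286_ag.Gl

/-- `∏_{m < p, m ≠ l} (1 + (ζ ^ m - ζ ^ l) X)` -/
noncomputable def hpol {F : Type*} [Field F] (ζ : F) (p l : ℕ) : F[X] :=
  ∏ m ∈ (Finset.range p).erase l, (1 + Polynomial.C (ζ ^ m - ζ ^ l) * Polynomial.X)

section

private theorem HX_ne {p : ℕ} {F : Type*} [Field F] {ζ : F} (hζ : IsPrimitiveRoot ζ p) {l : ℕ}
    (hl : l < p) {m : ℕ} (hm : m < p) (hml : m ≠ l) : ζ ^ m - ζ ^ l ≠ 0 :=
  sub_ne_zero.2 fun h => hml (hζ.pow_inj hm hl h)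

private theorem HX_form {p : ℕ} {F : Type*} [Field F] {ζ : F} (hζ : IsPrimitiveRoot ζ p) {l : ℕ}
    (hl : l < p) : hpol ζ p l = Polynomial.C (∏ m ∈ (Finset.range p).erase l, (ζ ^ m - ζ ^ l)) *
      ∏ m ∈ (Finset.range p).erase l, (X - Polynomial.C (-(ζ ^ m - ζ ^ l)⁻¹)) := by
  unfold hpol
  rw [map_prod, ← Finset.prod_mul_distrib]
  refine Finset.prod_congr rfl fun m hm => ?_
  rw [Finset.mem_erase, Finset.mem_range] at hm
  have h := HX_ne hζ hl hm.2 hm.1
  rw [mul_sub, ← C_mul, mul_neg, mul_inv_cancel₀ h, C_neg, C_1]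
  ring

private theorem HX_prod_ne {p : ℕ} {F : Type*} [Field F] {ζ : F} (hζ : IsPrimitiveRoot ζ p) {l : ℕ}
    (hl : l < p) : ∏ m ∈ (Finset.range p).erase l, (ζ ^ m - ζ ^ l) ≠ 0 := by
  refine Finset.prod_ne_zero_iff.2 fun m hm => ?_
  rw [Finset.mem_erase, Finset.mem_range] at hm
  exact HX_ne hζ hl hm.2 hm.1

private theorem HX_z {p : ℕ} (hp : p.Prime) {C : Type*} [Field C] {Γ : Type*}
    [LinearOrderedCommGroupWithZero Γ] (v : Valuation C Γ)
    {z : C} (hz : IsPrimitiveRoot z p) (i : ℕ) : v (z ^ i) = 1 := by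
  have h1 : v z ^ p = 1 := by rw [← map_pow, hz.pow_eq_one, map_one]
  have h2 : v z = 1 := by
    rcases lt_trichotomy (v z) 1 with h | h | h
    · exact absurd h1 (pow_lt_one₀ zero_le' h hp.ne_zero).ne
    · exact h
    · exact absurd h1 (one_lt_pow₀ h hp.ne_zero).ne'
  rw [map_pow, h2, one_pow]

private theorem HX_lt {p : ℕ} (hp : p.Prime) {C : Type*} [Field C] {Γ : Type*}
    [LinearOrderedCommGroupWithZero Γ] (v : Valuation C Γ)
    {z : C} (hz : IsPrimitiveRoot z p) (h1 : ∀ i : ℕ, ¬ p ∣ i → v (z ^ i - 1) = 1) {i j : ℕ}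
    (hij : i ≤ j) (hne : z ^ i ≠ z ^ j) : v (z ^ i - z ^ j) = 1 := by
  obtain ⟨k, rfl⟩ := Nat.exists_eq_add_of_le hij
  have h2 : z ^ i - z ^ (i + k) = -(z ^ i * (z ^ k - 1)) := by
    rw [pow_add]
    ring
  have h3 : ¬ p ∣ k := by
    rintro ⟨c, rfl⟩
    apply hne
    rw [pow_add, pow_mul, hz.pow_eq_one, one_pow, mul_one]
  rw [h2, Valuation.map_neg, map_mul, HX_z hp v hz, h1 k h3, mul_one]

private theorem HX_vne {p : ℕ} (hp : p.Prime) {C : Type*} [Field C] {Γ : Type*}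
    [LinearOrderedCommGroupWithZero Γ] (v : Valuation C Γ)
    {z : C} (hz : IsPrimitiveRoot z p) (h1 : ∀ i : ℕ, ¬ p ∣ i → v (z ^ i - 1) = 1) {i j : ℕ}
    (hne : z ^ i ≠ z ^ j) : v (z ^ i - z ^ j) = 1 := by
  rcases le_total i j with h | h
  · exact HX_lt hp v hz h1 h hne
  · rw [Valuation.map_sub_swap]
    exact HX_lt hp v hz h1 h (Ne.symm hne)

private theorem HX_mul {F : Type*} [Field F] {Γ : Type*} [LinearOrderedCommGroupWithZero Γ]
    (v : Valuation F Γ) (f g : F[X]) (hf : ∀ i, v (f.coeff i) ≤ 1) (hg : ∀ i, v (g.coeff i) ≤ 1)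
    (i : ℕ) : v ((f * g).coeff i) ≤ 1 := by
  rw [coeff_mul]
  refine Valuation.map_sum_le v fun x _ => ?_
  rw [map_mul]
  exact mul_le_one' (hf _) (hg _)

variable {p : ℕ} (hp : p.Prime) {F : Type*} [Field F] {ζ : F} (hζ : IsPrimitiveRoot ζ p) {l : ℕ}
  (hl : l < p)

include hp hζ hl in
theorem hpol_natDegree : (hpol ζ p l).natDegree = p - 1 := by
  rw [HX_form hζ hl, natDegree_C_mul (HX_prod_ne hζ hl), natDegree_finset_prod_X_sub_C_eq_card,
    Finset.card_erase_of_mem (Finset.mem_range.2 hl), Finset.card_range]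

include hp hζ hl in
theorem hpol_separable : (hpol ζ p l).Separable := by
  rw [HX_form hζ hl]
  refine Separable.unit_mul (isUnit_C.2 (HX_prod_ne hζ hl).isUnit)
    (separable_prod_X_sub_C_iff'.2 fun m hm m' hm' h => ?_)
  rw [Finset.mem_erase, Finset.mem_range] at hm hm'
  have h1 : ζ ^ m - ζ ^ l = ζ ^ m' - ζ ^ l := inv_injective (neg_injective h)
  exact hζ.pow_inj hm.2 hm'.2 (sub_left_injective h1)

theorem hpol_map {F' : Type*} [Field F'] (φ : F →+* F') :
    (hpol ζ p l).map φ = hpol (φ ζ) p l := by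
  unfold hpol
  rw [Polynomial.map_prod]
  refine Finset.prod_congr rfl fun m _ => ?_
  rw [Polynomial.map_add, Polynomial.map_mul, Polynomial.map_one, map_X, map_C, map_sub, map_pow,
    map_pow]

include hp hζ hl in
theorem hpol_root {a : F} : (hpol ζ p l).eval a = 0 ↔
    ∃ m < p, m ≠ l ∧ a = - (ζ ^ m - ζ ^ l)⁻¹ := by
  have h0 : (hpol ζ p l).eval a
      = ∏ m ∈ (Finset.range p).erase l, (1 + (ζ ^ m - ζ ^ l) * a) := by
    unfold hpol
    rw [eval_prod]
    refine Finset.prod_congr rfl fun m _ => ?_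
    rw [eval_add, eval_mul, eval_one, eval_X, eval_C]
  rw [h0, Finset.prod_eq_zero_iff]
  constructor
  · rintro ⟨m, hm, h⟩
    rw [Finset.mem_erase, Finset.mem_range] at hm
    refine ⟨m, hm.2, hm.1, ?_⟩
    have h1 := HX_ne hζ hl hm.2 hm.1
    field_simp
    linear_combination h
  · rintro ⟨m, hm, hml, rfl⟩
    refine ⟨m, Finset.mem_erase.2 ⟨hml, Finset.mem_range.2 hm⟩, ?_⟩
    rw [mul_neg, mul_inv_cancel₀ (HX_ne hζ hl hm hml)]
    ring

include hp hζ hl in
theorem hx_eq (h2 : p ≠ 2) {r : F} (hr : r + ζ ^ l ≠ 0) :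
    (r ^ p + 1) * ((r + ζ ^ l)⁻¹) ^ p = (hpol ζ p l).eval (r + ζ ^ l)⁻¹ := by
  have hodd : Odd p := hp.odd_of_ne_two h2
  have hprod : r ^ p + 1 = ∏ m ∈ Finset.range p, (r + ζ ^ m) := by
    have e1 := hζ.pow_add_pow_eq_prod_add_mul r 1 hodd
    rw [one_pow] at e1
    rw [e1]
    refine (Finset.prod_bij (fun m _ => ζ ^ m) ?_ ?_ ?_ ?_).symm
    · intro m _
      rw [Polynomial.mem_nthRootsFinset hp.pos, ← pow_mul, mul_comm, pow_mul, hζ.pow_eq_one,
        one_pow]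
    · intro a ha b hb hab
      exact hζ.pow_inj (Finset.mem_range.1 ha) (Finset.mem_range.1 hb) hab
    · intro x hx
      rw [Polynomial.mem_nthRootsFinset hp.pos] at hx
      haveI : NeZero p := ⟨hp.ne_zero⟩
      obtain ⟨m, hm, hmx⟩ := hζ.eq_pow_of_pow_eq_one hx
      exact ⟨m, Finset.mem_range.2 hm, hmx⟩
    · intro m _
      rw [mul_one]
  have h0 : (hpol ζ p l).eval (r + ζ ^ l)⁻¹
      = ∏ m ∈ (Finset.range p).erase l, ((r + ζ ^ m) * (r + ζ ^ l)⁻¹) := by
    unfold hpol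
    rw [eval_prod]
    refine Finset.prod_congr rfl fun m _ => ?_
    rw [eval_add, eval_mul, eval_one, eval_X, eval_C]
    have h1 : (r + ζ ^ l) * (r + ζ ^ l)⁻¹ = 1 := mul_inv_cancel₀ hr
    linear_combination -h1
  have h3 : (r ^ p + 1) * ((r + ζ ^ l)⁻¹) ^ p
      = ∏ m ∈ Finset.range p, ((r + ζ ^ m) * (r + ζ ^ l)⁻¹) := by
    rw [Finset.prod_mul_distrib, Finset.prod_const, Finset.card_range, hprod]
  rw [h3, h0, ← Finset.mul_prod_erase (Finset.range p) _ (Finset.mem_range.2 hl),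
    mul_inv_cancel₀ hr, one_mul]

include hp hζ hl in
theorem hx_val {Γ : Type*} [LinearOrderedCommGroupWithZero Γ] (v : Valuation F Γ)
    (h1 : ∀ i : ℕ, ¬ p ∣ i → v (ζ ^ i - 1) = 1) :
    (∀ i, v ((hpol ζ p l).coeff i) ≤ 1) ∧ v (hpol ζ p l).leadingCoeff = 1 ∧
      ∀ a b : F, (hpol ζ p l).eval a = 0 → (hpol ζ p l).eval b = 0 → a ≠ b → v (a - b) = 1 := by
  have hv : ∀ m < p, m ≠ l → v (ζ ^ m - ζ ^ l) = 1 := fun m hm hml =>
    HX_vne hp v hζ h1 fun h => hml (hζ.pow_inj hm hl h)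
  refine ⟨?_, ?_, ?_⟩
  · unfold hpol
    refine Finset.prod_induction (M := F[X]) _ (fun f : F[X] => ∀ i, v (f.coeff i) ≤ 1)
      (fun f g hf hg i => HX_mul v f g hf hg i) ?_ ?_
    · intro i
      rw [coeff_one]
      split_ifs
      · rw [map_one]
      · rw [map_zero]
        exact zero_le'
    · intro m hm i
      rw [Finset.mem_erase, Finset.mem_range] at hm
      rw [coeff_add, coeff_one, coeff_C_mul, coeff_X]
      refine (v.map_add _ _).trans (max_le ?_ ?_)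
      · split_ifs
        · rw [map_one]
        · rw [map_zero]
          exact zero_le'
      · rw [map_mul, hv m hm.2 hm.1, one_mul]
        split_ifs
        · rw [map_one]
        · rw [map_zero]
          exact zero_le'
  · rw [HX_form hζ hl, leadingCoeff_mul, leadingCoeff_C,
      (monic_prod_of_monic _ _ fun m _ => monic_X_sub_C _).leadingCoeff, mul_one, map_prod]
    refine Finset.prod_eq_one fun m hm => ?_
    rw [Finset.mem_erase, Finset.mem_range] at hm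
    exact hv m hm.2 hm.1
  · intro a b ha hb hab
    obtain ⟨m, hm, hml, rfl⟩ := (hpol_root hp hζ hl).1 ha
    obtain ⟨n, hn, hnl, rfl⟩ := (hpol_root hp hζ hl).1 hb
    have e1 := HX_ne hζ hl hm hml
    have e2 := HX_ne hζ hl hn hnl
    have hmn : ζ ^ m ≠ ζ ^ n := by
      intro h
      rw [h] at hab
      exact hab rfl
    have e3 : -(ζ ^ m - ζ ^ l)⁻¹ - -(ζ ^ n - ζ ^ l)⁻¹
        = (ζ ^ m - ζ ^ n) * ((ζ ^ m - ζ ^ l)⁻¹ * (ζ ^ n - ζ ^ l)⁻¹) := by
      field_simp
      ring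
    rw [e3, map_mul, map_mul, map_inv₀, map_inv₀, hv m hm hml, hv n hn hnl,
      HX_vne hp v hζ h1 hmn, inv_one, mul_one, mul_one]

end

theorem hx_sup {p : ℕ} (hp : p.Prime) (h2 : p ≠ 2) {C L : Type*} [Field C] [Field L] [Algebra C L]
    {ζ : C} (hζ : IsPrimitiveRoot ζ p) {l : ℕ} (hl : l < p) {r q : L} (hr : Transcendental C r)
    (hrq : r ^ p + 1 = q ^ p) (gen : IntermediateField.adjoin C {r, q} = ⊤) :
    IsSup p (r + algebraMap C L (ζ ^ l))⁻¹ (q * (r + algebraMap C L (ζ ^ l))⁻¹) (hpol ζ p l) := by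
  have hne : r + algebraMap C L (ζ ^ l) ≠ 0 := by
    intro h
    apply hr
    rw [eq_neg_of_add_eq_zero_left h]
    exact (isAlgebraic_algebraMap (ζ ^ l)).neg
  refine ⟨?_, ?_, ?_, ?_, ?_⟩
  · intro h
    apply hr
    have h3 := (h.inv).sub (isAlgebraic_algebraMap (R := C) (A := L) (ζ ^ l))
    rwa [inv_inv, add_sub_cancel_right] at h3
  · have hζ' : IsPrimitiveRoot (algebraMap C L ζ) p :=
      hζ.map_of_injective (algebraMap C L).injective
    have h3 := hx_eq hp hζ' hl h2 (r := r) (by rw [← map_pow]; exact hne)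
    rw [mul_pow, ← hrq, ← map_pow] at *
    rw [h3, aeval_def, eval₂_eq_eval_map, hpol_map]
  · refine top_le_iff.1 ?_
    rw [← gen]
    refine IntermediateField.adjoin_le_iff.2 ?_
    have hx : (r + algebraMap C L (ζ ^ l))⁻¹ ∈ IntermediateField.adjoin C
        {(r + algebraMap C L (ζ ^ l))⁻¹, q * (r + algebraMap C L (ζ ^ l))⁻¹} :=
      IntermediateField.subset_adjoin _ _ (Set.mem_insert _ _)
    have hy : q * (r + algebraMap C L (ζ ^ l))⁻¹ ∈ IntermediateField.adjoin C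
        {(r + algebraMap C L (ζ ^ l))⁻¹, q * (r + algebraMap C L (ζ ^ l))⁻¹} :=
      IntermediateField.subset_adjoin _ _ (Set.mem_insert_of_mem _ (Set.mem_singleton _))
    have hx' := inv_mem hx
    rw [inv_inv] at hx'
    rintro z (rfl | rfl)
    · have h3 := sub_mem hx' (IntermediateField.algebraMap_mem (IntermediateField.adjoin C
        {(z + algebraMap C L (ζ ^ l))⁻¹, q * (z + algebraMap C L (ζ ^ l))⁻¹}) (ζ ^ l))
      rwa [add_sub_cancel_right] at h3
    · have h3 := mul_mem hy hx'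
      rwa [mul_assoc, inv_mul_cancel₀ hne, mul_one] at h3
  · rw [hpol_natDegree hp hζ hl]
    have h4 := hp.two_le
    refine (hp.coprime_iff_not_dvd).2 fun h => ?_
    have h5 := Nat.le_of_dvd (by omega) h
    omega
  · exact hpol_separable hp hζ hl

end Pool.Agent.Lib.MP_2f3286_ag.Gl
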