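import Pool.Agent.Lib.MP_2f3286_ag.Gl.GC

/-!
# Superelliptic function fields: uniqueness, semilinear automorphisms   (module SK)

PROOF of `iso`. Define `Θ f` for `f * b(x) = ev p x y a`, `b ≠ 0`, by `Θ f = ev p x' y' a / b(x')`. Or: `L = K₀⟮y⟯`, `K₀ = adjoin C {x}`, with the minimal polynomial `Y ^ p - h(x)` of `y` (see SA, SB);
`K₀ ≃ K₀' = adjoin C {x'}` (both are the field of rational functions: `x`, `x'` transcendental; `IntermediateField.adjoinSimple...`, or both are fraction fields of `C[X]`: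
`IsFractionRing.algEquiv...`, `IsLocalization.algEquiv`), extend it by `y ↦ y'` (`AdjoinRoot`, `minpoly` transported). By `ev_indep` and `repr` for both sides a
homomorphism `L → L'` over `C` with `x ↦ x'`, `y ↦ y'` is bijective (its image contains `C`, `x'`, `y'`, so it is `⊤`).
Another way: `L` and `L'` are both isomorphic to the fraction field of `C[X][Y] / (Y ^ p - h)` (`AdjoinRoot (X ^ p - C h : C[X][X])`, a domain which embeds in `L` by `ev_indep`), by `repr`.
PROOF of `exists_semi`. Let `L'` be the field `L` with the `C`-algebra structure `(algebraMap C L).comp (δ⁻¹)` (use a copy of the type or `@`): then `IsSup p x y h` holds for `L'` as well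
(`aeval` of `h` in `L'` is the value at `x` of the polynomial with coefficients `δ⁻¹ (h_i) = h_i`; `x` is transcendental, `adjoin` is the same set of elements: the
subfield generated by `C`, `x`, `y`). `iso` gives `Θ : L ≃ₐ[C] L'` with `x ↦ x`, `y ↦ y`, `Θ (algebraMap C L c) = algebraMap C L (δ⁻¹ c)`; `τ = Θ⁻¹`. Or apply `iso` directly in the
general form with a base ring isomorphism, or define `τ` by hand: `τ f = ev (δ a) / (δ b)(x)` if `f b(x) = ev a`.
-/

open Polynomial IntermediateField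

namespace Pool.Agent.Lib.MP_2f3286_ag.Gl

variable {p : ℕ} {C L : Type*} [Field C] [Field L] [Algebra C L] {x y : L} {h : C[X]}

/-- the evaluation of a polynomial in two variables -/
private noncomputable def skE (x y : L) : C[X][X] →+* L :=
  eval₂RingHom ((aeval x : C[X] →ₐ[C] L) : C[X] →+* L) y

private theorem skE_C (x y : L) (b : C[X]) : skE x y (Polynomial.C b) = aeval x b := by
  unfold skE
  rw [coe_eval₂RingHom, eval₂_C]
  rfl

private theorem skE_X (x y : L) : skE x y (X : C[X][X]) = y := by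
  unfold skE
  rw [coe_eval₂RingHom, eval₂_X]

private theorem skE_zero (eq : y ^ p = aeval x h) {g : C[X][X]}
    (hg : X ^ p - Polynomial.C h ∣ g) : skE x y g = 0 := by
  obtain ⟨q, rfl⟩ := hg
  rw [map_mul, map_sub, map_pow, skE_X, skE_C, eq, sub_self, zero_mul]

private theorem skE_dvd (hp : p.Prime) (tr : Transcendental C x) (eq : y ^ p = aeval x h)
    (deg : p.Coprime h.natDegree) {g : C[X][X]} (hg : skE x y g = 0) :
    X ^ p - Polynomial.C h ∣ g := by
  have hmon : (X ^ p - Polynomial.C h : C[X][X]).Monic := monic_X_pow_sub_C h hp.ne_zero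
  have hne1 : (X ^ p - Polynomial.C h : C[X][X]) ≠ 1 := by
    intro hc
    have h1 := natDegree_X_pow_sub_C (n := p) (r := h)
    rw [hc, natDegree_one] at h1
    exact hp.ne_zero h1.symm
  have hdeg : (g %ₘ (X ^ p - Polynomial.C h)).natDegree < p := by
    have h1 := natDegree_modByMonic_lt g hmon hne1
    rwa [natDegree_X_pow_sub_C] at h1
  have hr : skE x y (g %ₘ (X ^ p - Polynomial.C h)) = 0 := by
    have h1 := modByMonic_add_div g (X ^ p - Polynomial.C h)
    have h2 := congrArg (skE x y) h1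
    rw [map_add, skE_zero eq (Dvd.intro _ rfl), add_zero, hg] at h2
    exact h2
  have hev : ev p x y (fun i => (g %ₘ (X ^ p - Polynomial.C h)).coeff i) = 0 := by
    rw [← hr]
    unfold ev skE
    rw [coe_eval₂RingHom, eval₂_eq_sum_range' _ hdeg]
    rfl
  have h0 := ev_indep hp tr eq deg hev
  rw [← modByMonic_eq_zero_iff_dvd hmon]
  ext1 i
  rw [coeff_zero]
  by_cases hi : i < p
  · exact h0 i hi
  · exact coeff_eq_zero_of_natDegree_lt (by omega)

private theorem sk_repr (hp : p.Prime) (H : IsSup p x y h) (f : L) :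
    ∃ (g : C[X][X]) (b : C[X]), b ≠ 0 ∧ f * aeval x b = skE x y g := by
  obtain ⟨a, b, hb, hab⟩ := H.repr hp f
  refine ⟨∑ i ∈ Finset.range p, Polynomial.C (a i) * X ^ i, b, hb, ?_⟩
  rw [hab, map_sum]
  unfold ev
  refine Finset.sum_congr rfl fun i _ => ?_
  rw [map_mul, map_pow, skE_C, skE_X]

private theorem sk_core (hp : p.Prime) (H : IsSup p x y h) {L' : Type*} [Field L'] [Algebra C L']
    {x' y' : L'} (tr : Transcendental C x') (eq : y' ^ p = aeval x' h) :
    ∃ φ : L →+* L', (∀ c, φ (algebraMap C L c) = algebraMap C L' c) ∧ φ x = x' ∧ φ y = y' := by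
  choose g b hb hg using sk_repr hp H
  have ne' : ∀ b : C[X], b ≠ 0 → aeval x' b ≠ 0 := fun b hb h0 =>
    hb ((transcendental_iff.1 tr) b h0)
  have key : ∀ (f : L) (g' : C[X][X]) (b' : C[X]), b' ≠ 0 → f * aeval x b' = skE x y g' →
      skE x' y' (g f) / aeval x' (b f) = skE x' y' g' / aeval x' b' := by
    intro f g' b' hb' hg'
    have h1 : skE x y (g f * Polynomial.C b' - g' * Polynomial.C (b f)) = 0 := by
      rw [map_sub, map_mul, map_mul, skE_C, skE_C, ← hg f, ← hg']
      ring
    have h3 := skE_zero eq (skE_dvd hp H.tr H.eq H.deg h1)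
    rw [map_sub, map_mul, map_mul, skE_C, skE_C, sub_eq_zero] at h3
    rw [div_eq_div_iff (ne' _ (hb f)) (ne' _ hb')]
    exact h3
  have key1 : ∀ (f : L) (g' : C[X][X]), f = skE x y g' →
      skE x' y' (g f) / aeval x' (b f) = skE x' y' g' := by
    intro f g' hg'
    have h1 := key f g' 1 one_ne_zero (by rw [map_one, mul_one]; exact hg')
    rw [h1, map_one, div_one]
  refine ⟨{ toFun := fun f => skE x' y' (g f) / aeval x' (b f)
            map_one' := ?_
            map_mul' := ?_
            map_zero' := ?_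
            map_add' := ?_ }, ?_, ?_, ?_⟩
  · rw [key1 1 1 (map_one _).symm, map_one]
  · intro f₁ f₂
    rw [key (f₁ * f₂) (g f₁ * g f₂) (b f₁ * b f₂) (mul_ne_zero (hb _) (hb _))
      (by rw [map_mul, map_mul, ← hg, ← hg]; ring), map_mul, map_mul, mul_div_mul_comm]
  · rw [key1 0 0 (map_zero _).symm, map_zero]
  · intro f₁ f₂
    rw [key (f₁ + f₂) (g f₁ * Polynomial.C (b f₂) + g f₂ * Polynomial.C (b f₁)) (b f₁ * b f₂)
      (mul_ne_zero (hb _) (hb _))
      (by rw [map_add, map_mul, map_mul, map_mul, skE_C, skE_C, ← hg, ← hg]; ring),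
      map_add, map_mul, map_mul, map_mul, skE_C, skE_C,
      div_add_div _ _ (ne' _ (hb f₁)) (ne' _ (hb f₂))]
    ring
  · intro c
    refine (key1 _ (Polynomial.C (Polynomial.C c)) ?_).trans ?_
    · rw [skE_C, aeval_C]
    · rw [skE_C, aeval_C]
  · refine (key1 _ (Polynomial.C X) ?_).trans ?_
    · rw [skE_C, aeval_X]
    · rw [skE_C, aeval_X]
  · refine (key1 _ X ?_).trans ?_
    · rw [skE_X]
    · rw [skE_X]

private theorem sk_core' (hp : p.Prime) (H : IsSup p x y h) {L' : Type*} [Field L'] (j : C →+* L')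
    {x' y' : L'} (tr : ∀ q : C[X], eval₂ j x' q = 0 → q = 0) (eq : y' ^ p = eval₂ j x' h) :
    ∃ φ : L →+* L', (∀ c, φ (algebraMap C L c) = j c) ∧ φ x = x' ∧ φ y = y' := by
  letI : Algebra C L' := j.toAlgebra
  have tr' : Transcendental C x' := transcendental_iff.2 (fun q hq => tr q hq)
  have eq' : y' ^ p = aeval x' h := eq
  exact sk_core hp H tr' eq'

private theorem sk_surj (H : IsSup p x y h) {L' : Type*} [Field L'] (φ : L' →+* L)
    (h1 : ∀ c : C, ∃ z, φ z = algebraMap C L c) (h2 : ∃ z, φ z = x) (h3 : ∃ z, φ z = y) :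
    Function.Surjective φ := by
  intro f
  have hf : f ∈ IntermediateField.adjoin C {x, y} := by
    rw [H.gen]
    trivial
  induction hf using IntermediateField.adjoin_induction with
  | mem z hz =>
    rcases hz with rfl | hz
    · exact h2
    · rw [Set.mem_singleton_iff] at hz
      subst hz
      exact h3
  | algebraMap c => exact h1 c
  | add a b _ _ ha hb =>
    obtain ⟨u, rfl⟩ := ha
    obtain ⟨v, rfl⟩ := hb
    exact ⟨u + v, map_add _ _ _⟩
  | inv a _ ha =>
    obtain ⟨u, rfl⟩ := ha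
    exact ⟨u⁻¹, map_inv₀ _ _⟩
  | mul a b _ _ ha hb =>
    obtain ⟨u, rfl⟩ := ha
    obtain ⟨v, rfl⟩ := hb
    exact ⟨u * v, map_mul _ _ _⟩

theorem IsSup.iso (hp : p.Prime) (H : IsSup p x y h) {L' : Type*} [Field L'] [Algebra C L']
    {x' y' : L'} (H' : IsSup p x' y' h) : ∃ Θ : L ≃ₐ[C] L', Θ x = x' ∧ Θ y = y' := by
  obtain ⟨φ, h1, h2, h3⟩ := sk_core hp H H'.tr H'.eq
  have hs : Function.Surjective φ := sk_surj H' φ (fun c => ⟨_, h1 c⟩) ⟨_, h2⟩ ⟨_, h3⟩
  refine ⟨AlgEquiv.ofRingEquiv (f := RingEquiv.ofBijective φ ⟨φ.injective, hs⟩) h1, h2, h3⟩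

theorem IsSup.exists_semi (hp : p.Prime) (H : IsSup p x y h) {δ : C ≃+* C}
    (hδ : ∀ i, δ (h.coeff i) = h.coeff i) : ∃ τ : L ≃+* L, IsSemi x y δ τ := by
  have hm : h.map (δ : C →+* C) = h := by
    ext1 i
    rw [coeff_map]
    exact hδ i
  obtain ⟨φ, h1, h2, h3⟩ := sk_core' hp H ((algebraMap C L).comp (δ : C →+* C)) (x' := x)
    (y' := y) (by
      intro q hq
      rw [← eval₂_map] at hq
      have h4 := (transcendental_iff.1 H.tr) _ hq
      exact (Polynomial.map_eq_zero_iff δ.injective).1 h4) (by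
      rw [← eval₂_map, hm, H.eq]
      rfl)
  have hs : Function.Surjective φ := sk_surj H φ (fun c => ⟨algebraMap C L (δ.symm c), by
    rw [h1]
    simp⟩) ⟨_, h2⟩ ⟨_, h3⟩
  exact ⟨RingEquiv.ofBijective φ ⟨φ.injective, hs⟩, ⟨h1, h2, h3⟩⟩

end Pool.Agent.Lib.MP_2f3286_ag.Gl
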