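import Pool.Agent.Lib.MP_2f3286_ag.Gl.GLT
import Pool.Agent.Lib.MP_2f3286_ag.Gl.HX
import Pool.Agent.Lib.MP_2f3286_ag.Gl.SK
import Pool.Agent.Lib.MP_2f3286_ag.Fer.VNum

/-!
# The quotients of the factors of `r ^ p + 1`   (module PQ)

We write `a : F` for its image in `M`. PROOF. Suppose not `PV p w c`. (0) Choose `l < p`, `l ≠ i, j` (`p ≥ 3`). `PV p w e`: `w e = w t ^ p`, `t ≠ 0`; replace `e`, `q` by `e / t ^ p`, `t q`: so `w e = 1`. Let `ε : kb`,
`ε ^ p = e`, `q' = ε q`, so `r ^ p + 1 = q' ^ p`. (1) `L = L₁ = IntermediateField.adjoin kb {r, q'}` (a subfield of `M`), `r₀`, `q₀` the elements `r`, `q'` of `L`; `X = (r₀ + ζ ^ l)⁻¹`, `Y = q₀ X`. `hx_sup`: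
`IsSup p X Y (hpol ζ p l)` over `kb` (`adjoin kb {r₀, q₀} = ⊤` in `L`), and `hpol (ζ : kb) p l = (hpol ζ p l).map` (`hpol_map`). `t = X`, `IsSup.finDim`. (2) The valuation `w.valuation F`: `w (ζ ^ i - 1) = 1` for `¬ p ∣ i`
(`∏_{0 < i < p} (1 - ζ ^ i) = p`, a `w`-unit, see `Fer/Away.lean`): `hint`, `hlead`, `hdiff` by `hx_val`; `hsplit`: the roots of the image of `hpol` are images of elements of `F` (`hpol_root`).
(3) `s σ q' = (σ ε) q = ξ q'` with `ξ = σ ε / ε`, `ξ ^ p = 1`, so `ξ` is a power of `ζ`; `s σ r = r`. So `s σ` maps `L` to `L` (`hst`, `hst₁`), `s σ X = X`, `s σ Y = ξ Y`, so `(s σ)^[p] Y = ξ ^ p Y = Y` (`ξ` is fixed by `σ`):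
`hΦ`. `hτ`: if `σ` fixes the `p`-th roots of all `e'` with `PV p w e'` then `σ ε = ε` (`w e = 1`), so `s σ` restricted to `L` is a `τ` with `IsSemi X Y σ τ`. `hker` clear (`L₁ = L`: take `f = u ^ p`; `Algebra.id`).
`glt`: `δ`. (4) `𝒪`: `exists_inf` for `X` in `M` (transcendental over `kb`): `kb ⊆ 𝒪`, `v X⁻¹ < 1`, `X ∉ 𝒪`. For every `σ`, the valuation rings `𝒪 ∩ L` and `(s σ)⁻¹ 𝒪 ∩ L` of `L` (`ValuationSubring.comap`) contain `kb`, not
`X`, so they are equal (`IsSup.inf_unique`). (5) `f = (r + ζ ^ i) / (r + ζ ^ j) ∈ L` satisfies `DivAt p f Q` for every valuation ring `Q` of `L` (and of `M`) which contains `kb`: `Fer.vnum` with `v = Q.valuation`,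
`z = ζ`, `e = 1`, `ρ = r`, `κ = q'` (`v` of a nonzero constant is one). `hrad`: `β ∈ M`, `β ^ p = f` (`𝒱`). So `IsJ p kb L β`. (6) `v (r + ζ ^ l) < 1`, so `v (f - a) < 1` with `a = (ζ ^ i - ζ ^ l) / (ζ ^ j - ζ ^ l) : F`,
`w a = 1` (a quotient of `w`-units). `Z ^ p - a` is a product of linear factors over `kb`: `v (β - b) < 1`, `b ^ p = a`, `b ≠ 0`. `glt`: `v (s δ β - δ b) < 1`, `δ b = b` (`PV p w a`). `s δ β = ξ β` with `ξ ^ p = 1`,
`ξ ∈ kb` (`(s δ β) ^ p = s δ f = f`), so `v (ξ b - b) < 1`, `ξ b = b`, `ξ = 1`: `s δ β = β`. (7) `β ^ p = c g ^ p`, so `(β / g) ^ p = c = γ ^ p`, `β / g = ξ' γ` with `ξ' ^ p = 1`, a power of `ζ`; `s δ` fixes `β / g` and `ξ'`, so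
`s δ γ = γ`, `δ γ = γ`, contradiction (`γ : kb` chosen at the start with `γ ^ p = c`).
-/

open Polynomial IntermediateField IsDedekindDomain NumberField

namespace Pool.Agent.Lib.MP_2f3286_ag.Gl

open Pool.Agent.Lib.MP_2f3286_ag.Fer (PV)
open Pool.Agent.Lib.MP_2f3286_ag.Pt (IsPlc DivAt)

private theorem pq_const {kb M : Type*} [Field kb] [Field M] [Algebra kb M]
    (Q : ValuationSubring M) (hQ : ∀ a : kb, algebraMap kb M a ∈ Q) {c : kb} (hc : c ≠ 0) :
    Q.valuation (algebraMap kb M c) = 1 := by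
  apply le_antisymm
  · exact (Q.valuation_le_one_iff _).2 (hQ c)
  · have h1 := (Q.valuation_le_one_iff _).2 (hQ c⁻¹)
    rw [map_inv₀, map_inv₀] at h1
    have h0 : Q.valuation (algebraMap kb M c) ≠ 0 :=
      (Valuation.ne_zero_iff _).2 ((_root_.map_ne_zero _).2 hc)
    exact (inv_le_one₀ (zero_lt_iff.2 h0)).1 h1

private theorem pq_sub {F : Type*} [Field F] [NumberField F] {p : ℕ} (hp : p.Prime) {ζ : F}
    (hζ : IsPrimitiveRoot ζ p) (w : HeightOneSpectrum (𝓞 F)) (hpw : (p : 𝓞 F) ∉ w.asIdeal)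
    {i l : ℕ} (hi : i < p) (hl : l < p) (hil : i ≠ l) : w.valuation F (ζ ^ i - ζ ^ l) = 1 := by
  have key : ∀ i l : ℕ, i < l → l < p → w.valuation F (ζ ^ i - ζ ^ l) = 1 := by
    intro i l h1 h2
    have e1 : ζ ^ i - ζ ^ l = -(ζ ^ i * (ζ ^ (l - i) - 1)) := by
      have h3 : ζ ^ l = ζ ^ i * ζ ^ (l - i) := by
        rw [← pow_add]
        congr 1
        omega
      rw [h3]
      ring
    rw [e1, Valuation.map_neg, map_mul, Fer.zeta_unit hp hζ w i, one_mul,
      Fer.away_unit hp hζ w hpw]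
    intro h3
    have := Nat.le_of_dvd (by omega) h3
    omega
  rcases lt_or_gt_of_ne hil with h | h
  · exact key i l h hl
  · rw [Valuation.map_sub_swap]
    exact key l i h hi

private theorem pq_root {M : Type*} [Field M] {p : ℕ} (hp : p.Prime) {z : M}
    (hz : IsPrimitiveRoot z p) {a b : M} (hb : b ≠ 0) (h : a ^ p = b ^ p) :
    ∃ k : ℕ, a = z ^ k * b := by
  have : NeZero p := ⟨hp.ne_zero⟩
  have h1 : (a / b) ^ p = 1 := by rw [div_pow, h, div_self (pow_ne_zero _ hb)]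
  obtain ⟨k, _, hk⟩ := hz.eq_pow_of_pow_eq_one h1
  exact ⟨k, by rw [hk, div_mul_cancel₀ _ hb]⟩

private theorem pq_factor {M : Type*} [Field M] {p : ℕ} (hp : p.Prime) {z : M}
    (hz : IsPrimitiveRoot z p) {Γ : Type*} [LinearOrderedCommGroupWithZero Γ]
    (v : Valuation M Γ) {β b : M} (h : v (β ^ p - b ^ p) < 1) :
    ∃ k : ℕ, v (β - z ^ k * b) < 1 := by
  have : NeZero p := ⟨hp.ne_zero⟩
  by_contra hcon
  push Not at hcon
  rw [hz.pow_sub_pow_eq_prod_sub_mul β b hp.pos, map_prod] at h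
  refine absurd h (not_lt.2 (Finset.one_le_prod' fun x hx => ?_))
  rw [Polynomial.mem_nthRootsFinset hp.pos] at hx
  obtain ⟨k, _, rfl⟩ := hz.eq_pow_of_pow_eq_one hx
  exact hcon k

private theorem pq_mem {kb M : Type*} [Field kb] [Field M] [Algebra kb M]
    (L : IntermediateField kb M) {S : Set M} (φ : M →+* M)
    (hc : ∀ a : kb, φ (algebraMap kb M a) ∈ L) (hS : ∀ x ∈ S, φ x ∈ L) {f : M}
    (hf : f ∈ IntermediateField.adjoin kb S) : φ f ∈ L := by
  induction hf using IntermediateField.adjoin_induction with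
  | mem x hx => exact hS x hx
  | algebraMap x => exact hc x
  | add x y _ _ hx hy => rw [map_add]; exact L.add_mem hx hy
  | inv x _ hx => rw [map_inv₀]; exact L.inv_mem hx
  | mul x y _ _ hx hy => rw [map_mul]; exact L.mul_mem hx hy

private theorem pq_gen {kb M : Type*} [Field kb] [Field M] [Algebra kb M] {r q : M}
    (hr : r ∈ IntermediateField.adjoin kb ({r, q} : Set M))
    (hq : q ∈ IntermediateField.adjoin kb ({r, q} : Set M)) :
    IntermediateField.adjoin kb ({⟨r, hr⟩, ⟨q, hq⟩} :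
      Set (IntermediateField.adjoin kb ({r, q} : Set M))) = ⊤ := by
  apply IntermediateField.lift_injective (IntermediateField.adjoin kb ({r, q} : Set M))
  rw [IntermediateField.lift_adjoin, IntermediateField.lift_top]
  congr 1
  rw [Set.image_insert_eq, Set.image_singleton]

private theorem pq_div {kb E : Type*} [Field kb] [Field E] [Algebra kb E] {p : ℕ} (hp : p.Prime)
    (hp2 : p ≠ 2) {z : kb} (hz : IsPrimitiveRoot z p) {r q : E} (hrt : Transcendental kb r)
    (hrq : r ^ p + 1 = q ^ p) (i j : ℕ) (V : ValuationSubring E)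
    (hV : ∀ a : kb, algebraMap kb E a ∈ V) :
    DivAt p ((r + algebraMap kb E z ^ i) / (r + algebraMap kb E z ^ j)) V := by
  have hrne : ∀ m : ℕ, r + algebraMap kb E z ^ m ≠ 0 := by
    intro m h0
    apply hrt
    have h1 : r = algebraMap kb E (-(z ^ m)) := by
      rw [map_neg, map_pow]
      exact eq_neg_of_add_eq_zero_left h0
    rw [h1]
    exact isAlgebraic_algebraMap _
  obtain ⟨y, hy, hvy⟩ := Fer.vnum hp hp2 V.valuation
    (hz.map_of_injective (algebraMap kb E).injective) (fun m hm => by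
      have h1 : algebraMap kb E z ^ m - 1 = algebraMap kb E (z ^ m - 1) := by
        rw [map_sub, map_pow, map_one]
      rw [h1]
      apply pq_const V hV
      intro h2
      exact hm (hz.dvd_of_pow_eq_one m (sub_eq_zero.1 h2))) (ρ := r) (e := 1) (κ := q)
    (by rw [one_mul]; exact hrq) ⟨1, one_ne_zero, by rw [map_one, one_pow]⟩ i j (hrne i)
    (hrne j)
  refine ⟨y, hy, ?_⟩
  have h0 : V.valuation y ≠ 0 := (Valuation.ne_zero_iff _).2 hy
  rw [map_mul, hvy, map_inv₀, map_pow, mul_inv_cancel₀ (pow_ne_zero _ h0)]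

private theorem pq_isJ {kb M : Type*} [Field kb] [Field M] [Algebra kb M] {p : ℕ} (hp : p.Prime)
    (hp2 : p ≠ 2) {z : kb} (hz : IsPrimitiveRoot z p) {r q : M} (hrt : Transcendental kb r)
    (hrq : r ^ p + 1 = q ^ p) {i j : ℕ} (L : IntermediateField kb M) (hrL : r ∈ L) (hqL : q ∈ L)
    {β : M} (hβ0 : β ≠ 0)
    (hβ : β ^ p = (r + algebraMap kb M z ^ i) / (r + algebraMap kb M z ^ j)) : IsJ p kb L β := by
  have hr₀t : Transcendental kb (⟨r, hrL⟩ : L) := by
    intro h1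
    exact hrt (h1.algebraMap (A := M))
  have hrq0 : (⟨r, hrL⟩ : L) ^ p + 1 = (⟨q, hqL⟩ : L) ^ p := by
    apply Subtype.ext
    push_cast
    exact hrq
  refine ⟨hβ0, 1, (⟨r, hrL⟩ + algebraMap kb L z ^ i) / (⟨r, hrL⟩ + algebraMap kb L z ^ j),
    ?_, ?_⟩
  · rw [pow_one, hβ, map_div₀, map_add, map_add, map_pow, map_pow]
    rfl
  · intro Q hQ
    rw [pow_one]
    exact pq_div hp hp2 hz hr₀t hrq0 i j Q hQ.1

/-- the restriction of an automorphism -/
private noncomputable def pqTau {kb M : Type*} [Field kb] [Field M] [Algebra kb M]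
    (L : IntermediateField kb M) (φ : M ≃+* M) (h1 : ∀ x ∈ L, φ x ∈ L)
    (h2 : ∀ x ∈ L, φ.symm x ∈ L) : L ≃+* L where
  toFun x := ⟨φ x, h1 x x.2⟩
  invFun x := ⟨φ.symm x, h2 x x.2⟩
  left_inv x := Subtype.ext (φ.symm_apply_apply x)
  right_inv x := Subtype.ext (φ.apply_symm_apply x)
  map_mul' _ _ := Subtype.ext (map_mul φ _ _)
  map_add' _ _ := Subtype.ext (map_add φ _ _)

section

variable {F kb K M : Type*} [Field F] [NumberField F] [Field kb] [Algebra F kb]
    [IsGalois F kb] [IsAlgClosed kb] [Field K] [Field M] [Algebra K M] [Algebra kb M]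
    [Algebra.IsAlgebraic K M] (s : Gal(kb/F) →* Gal(M/K)) (hs : Continuous s)
    (hsec : ∀ σ a, s σ (algebraMap kb M a) = algebraMap kb M (σ a)) {p : ℕ} (hp : p.Prime)
    (hp2 : p ≠ 2)
    (𝒱 : Set (ValuationSubring M)) (h𝒱 : ∀ V ∈ 𝒱, ∀ a : kb, algebraMap kb M a ∈ V)
    (hrad : ∀ ρ : M, ρ ≠ 0 → (∀ V ∈ 𝒱, DivAt p ρ V) → ∃ β : M, β ^ p = ρ)
    {ζ : F} (hζ : IsPrimitiveRoot ζ p) (w : HeightOneSpectrum (𝓞 F))
    (hpw : (p : 𝓞 F) ∉ w.asIdeal) {r : M} (hr : ∀ σ, s σ r = r) (hrt : Transcendental kb r)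
    {e : F} (he : w.valuation F e = 1) {ε : kb} (hε : ε ^ p = algebraMap F kb e)
    {q : M} (hq : ∀ σ, s σ q = q)
    (hrq : r ^ p + 1 = (algebraMap kb M ε * q) ^ p) {l : ℕ} (hl : l < p)
    {c : F} (hc : c ≠ 0) (hPc : ¬ PV p w c) {γ : kb} (hγ : γ ^ p = algebraMap F kb c)

omit [NumberField F] [IsGalois F kb] [IsAlgClosed kb] [Algebra.IsAlgebraic K M] in
include hsec hr hq in
private theorem pq_stab (hε0 : ε ≠ 0) (σ : Gal(kb/F)) {x : M}
    (hx : x ∈ IntermediateField.adjoin kb ({r, algebraMap kb M ε * q} : Set M)) :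
    s σ x ∈ IntermediateField.adjoin kb ({r, algebraMap kb M ε * q} : Set M) := by
  have hrL : r ∈ IntermediateField.adjoin kb ({r, algebraMap kb M ε * q} : Set M) :=
    IntermediateField.subset_adjoin kb _ (by simp)
  have hqL : algebraMap kb M ε * q ∈
      IntermediateField.adjoin kb ({r, algebraMap kb M ε * q} : Set M) :=
    IntermediateField.subset_adjoin kb _ (by simp)
  have hqc : algebraMap kb M ε⁻¹ * (algebraMap kb M ε * q) = q := by
    rw [← mul_assoc, ← map_mul, inv_mul_cancel₀ hε0, map_one, one_mul]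
  have hqLL : q ∈ IntermediateField.adjoin kb ({r, algebraMap kb M ε * q} : Set M) := by
    have h1 := mul_mem (IntermediateField.algebraMap_mem
      (IntermediateField.adjoin kb ({r, algebraMap kb M ε * q} : Set M)) ε⁻¹) hqL
    rwa [hqc] at h1
  refine pq_mem _ ((s σ : M ≃+* M) : M →+* M) ?_ ?_ hx
  · intro a
    have h1 := hsec σ a
    have h2 : ((s σ : M ≃+* M) : M →+* M) (algebraMap kb M a) = algebraMap kb M (σ a) := h1
    rw [h2]
    exact IntermediateField.algebraMap_mem _ _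
  · intro y hy
    have h2 : ((s σ : M ≃+* M) : M →+* M) y = s σ y := rfl
    rw [h2]
    rcases hy with h3 | hy
    · rw [h3, hr]
      exact hrL
    · rw [Set.mem_singleton_iff] at hy
      rw [hy, map_mul, hsec, hq]
      exact mul_mem (IntermediateField.algebraMap_mem _ _) hqLL

include hs hsec hp hp2 h𝒱 hrad hζ hpw hr hrt he hε hq hrq hl hc hPc hγ in
/-- the application of `glt` -/
private theorem pq_gltL {q' : M} (hq' : algebraMap kb M ε * q = q') (L : IntermediateField kb M)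
    (hrL : r ∈ L) (hqL : q' ∈ L)
    (hgen : IntermediateField.adjoin kb ({⟨r, hrL⟩, ⟨q', hqL⟩} : Set L) = ⊤)
    (hstab : ∀ σ, ∀ x ∈ L, s σ x ∈ L) : ∃ δ : Gal(kb/F), δ γ ≠ γ ∧
      (∀ e : F, e ≠ 0 → PV p w e → ∀ y : kb, y ^ p = algebraMap F kb e → δ y = y) ∧
      ∀ 𝒪 : ValuationSubring M, (∀ a : kb, algebraMap kb M a ∈ 𝒪) →
        (r + algebraMap kb M (algebraMap F kb ζ ^ l))⁻¹ ∉ 𝒪 →
        ∀ z : M, IsJ p kb L z →
          ∀ c : kb, c ≠ 0 → 𝒪.valuation (z - algebraMap kb M c) < 1 →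
          𝒪.valuation (s δ z - algebraMap kb M (δ c)) < 1 := by
  have he0 : e ≠ 0 := by
    rintro rfl
    rw [map_zero] at he
    exact zero_ne_one he
  have hε0 : ε ≠ 0 := by
    rintro rfl
    rw [zero_pow hp.ne_zero] at hε
    exact he0 ((map_eq_zero (algebraMap F kb)).1 hε.symm)
  have hζ' : IsPrimitiveRoot (algebraMap F kb ζ) p :=
    hζ.map_of_injective (algebraMap F kb).injective
  have hσF : ∀ (σ : Gal(kb/F)) (a : F), σ (algebraMap F kb a) = algebraMap F kb a :=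
    fun σ a => σ.commutes a
  have hξ : ∀ σ : Gal(kb/F), ∃ k : ℕ, σ ε = algebraMap F kb ζ ^ k * ε := by
    intro σ
    apply pq_root hp hζ' hε0
    rw [← map_pow, hε, hσF]
  have hsq : ∀ σ, s σ q' = algebraMap kb M (σ ε) * q := by
    intro σ
    rw [← hq', map_mul, hsec, hq]
  rw [hq'] at hrq
  have hr₀t : Transcendental kb (⟨r, hrL⟩ : L) := by
    intro h1
    exact hrt (h1.algebraMap (A := M))
  have hrq0 : (⟨r, hrL⟩ : L) ^ p + 1 = (⟨q', hqL⟩ : L) ^ p := by
    apply Subtype.ext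
    push_cast
    exact hrq
  have H := hx_sup hp hp2 hζ' hl hr₀t hrq0 hgen
  rw [← hpol_map (algebraMap F kb)] at H
  have hXM : algebraMap L M (⟨r, hrL⟩ + algebraMap kb L (algebraMap F kb ζ ^ l))⁻¹ =
      (r + algebraMap kb M (algebraMap F kb ζ ^ l))⁻¹ := by
    rw [map_inv₀, map_add]
    rfl
  have hYM : algebraMap L M (⟨q', hqL⟩ *
      (⟨r, hrL⟩ + algebraMap kb L (algebraMap F kb ζ ^ l))⁻¹) =
      q' * (r + algebraMap kb M (algebraMap F kb ζ ^ l))⁻¹ := by
    rw [map_mul, hXM]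
    rfl
  have hsX : ∀ σ, s σ (r + algebraMap kb M (algebraMap F kb ζ ^ l))⁻¹ =
      (r + algebraMap kb M (algebraMap F kb ζ ^ l))⁻¹ := by
    intro σ
    rw [map_inv₀, map_add, hr, hsec, map_pow, hσF]
  generalize hX : (⟨r, hrL⟩ + algebraMap kb L (algebraMap F kb ζ ^ l))⁻¹ = X at *
  generalize hY : (⟨q', hqL⟩ * X : L) = Y at *
  generalize hXM' : (r + algebraMap kb M (algebraMap F kb ζ ^ l))⁻¹ = XM at *
  have : FiniteDimensional (IntermediateField.adjoin kb {X}) L := H.finDim hp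
  obtain ⟨hv1, hv2, hv3⟩ := hx_val hp hζ hl (w.valuation F)
    (fun i hi => Fer.away_unit hp hζ w hpw hi)
  obtain ⟨δ, h1, h2, h3⟩ := glt s hs hsec hp 𝒱 h𝒱 hrad hζ w hpw hc hPc hγ (L₁ := L) (L := L)
    X H.tr H hv1 hv2 (by
      intro α hα
      rw [hpol_map, hpol_root hp hζ' hl] at hα
      obtain ⟨m, _, _, rfl⟩ := hα
      exact ⟨-(ζ ^ m - ζ ^ l)⁻¹, by rw [map_neg, map_inv₀, map_sub, map_pow, map_pow]⟩) hv3
    (fun σ f => ⟨⟨s σ f, hstab σ f f.2⟩, rfl⟩) (fun σ f => ⟨⟨s σ f, hstab σ f f.2⟩, rfl⟩) (by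
      intro σ hσ
      have h4 : σ ε = ε := hσ e he0 (PV.of_unit he) ε hε
      have h5 : s σ q' = q' := by rw [hsq, h4, hq']
      have h6 : ∀ x ∈ L, (s σ : M ≃+* M).symm x ∈ L := by
        intro x hx
        have h7 : (s σ : M ≃+* M).symm x = s σ⁻¹ x := by
          rw [map_inv]
          rfl
        rw [h7]
        exact hstab _ x hx
      refine ⟨pqTau L (s σ : M ≃+* M) (hstab σ) h6, ⟨?_, ?_, ?_⟩, ?_⟩
      · intro a
        apply Subtype.ext
        exact hsec σ a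
      · apply Subtype.ext
        show s σ (algebraMap L M X) = algebraMap L M X
        rw [hXM, hsX]
      · apply Subtype.ext
        show s σ (algebraMap L M Y) = algebraMap L M Y
        rw [hYM, map_mul, hsX, h5]
      · intro f
        rfl) (by
      intro σ
      constructor
      · rw [hXM]
        exact Function.iterate_fixed (hsX σ) p
      · obtain ⟨k, hk⟩ := hξ σ
        have h4 : s σ q' = algebraMap kb M (algebraMap F kb ζ ^ k) * q' := by
          rw [hsq, hk, map_mul, mul_assoc, hq']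
        rw [hYM]
        have h5 : ∀ n : ℕ, (s σ)^[n] (q' * XM) =
            algebraMap kb M (algebraMap F kb ζ ^ k) ^ n * (q' * XM) := by
          intro n
          induction n with
          | zero => rw [Function.iterate_zero, id, pow_zero, one_mul]
          | succ n ih =>
            rw [Function.iterate_succ_apply', ih, map_mul, map_pow, hsec, map_pow, hσF, map_mul,
              hsX, h4]
            ring
        rw [h5, ← map_pow, ← pow_mul, mul_comm k p, pow_mul, hζ'.pow_eq_one, one_pow, map_one,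
          one_mul]) (fun u n _ => ⟨u ^ p, rfl⟩)
  refine ⟨δ, h1, h2, fun 𝒪 h4 h5 z hz c hc hzc => h3 𝒪 h4 ⟨X, by rw [hXM]; exact h5⟩ ?_ z hz c hc
      hzc⟩
  intro σ f
  have h6 : 𝒪.comap (((s σ : M ≃+* M) : M →+* M).comp (algebraMap L M)) =
      𝒪.comap (algebraMap L M) := by
    apply H.inf_unique hp
    · intro a
      have h7 : (((s σ : M ≃+* M) : M →+* M).comp (algebraMap L M)) (algebraMap kb L a) =
        algebraMap kb M (σ a) := hsec σ a
      rw [ValuationSubring.mem_comap, h7]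
      exact h4 _
    · intro a
      exact h4 a
    · intro h7
      apply h5
      rw [ValuationSubring.mem_comap] at h7
      have h8 : (((s σ : M ≃+* M) : M →+* M).comp (algebraMap L M)) X = XM := by
        have h9 : (((s σ : M ≃+* M) : M →+* M).comp (algebraMap L M)) X =
          s σ (algebraMap L M X) := rfl
        rw [h9, hXM, hsX]
      rwa [h8] at h7
    · intro h7
      apply h5
      rw [← hXM]
      exact h7
  have h7 : f ∈ 𝒪.comap (((s σ : M ≃+* M) : M →+* M).comp (algebraMap L M)) ↔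
    f ∈ 𝒪.comap (algebraMap L M) := by rw [h6]
  exact h7

include hs hsec hp hp2 h𝒱 hrad hζ hpw hr hrt he hε hq hrq hl hc hPc hγ in
/-- the application of `glt` -/
private theorem pq_glt : ∃ δ : Gal(kb/F), δ γ ≠ γ ∧
      (∀ e : F, e ≠ 0 → PV p w e → ∀ y : kb, y ^ p = algebraMap F kb e → δ y = y) ∧
      ∀ 𝒪 : ValuationSubring M, (∀ a : kb, algebraMap kb M a ∈ 𝒪) →
        (r + algebraMap kb M (algebraMap F kb ζ ^ l))⁻¹ ∉ 𝒪 →
        ∀ z : M, IsJ p kb (IntermediateField.adjoin kb ({r, algebraMap kb M ε * q} : Set M)) z →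
          ∀ c : kb, c ≠ 0 → 𝒪.valuation (z - algebraMap kb M c) < 1 →
          𝒪.valuation (s δ z - algebraMap kb M (δ c)) < 1 := by
  have hε0 : ε ≠ 0 := by
    rintro rfl
    rw [zero_pow hp.ne_zero] at hε
    rw [(map_eq_zero (algebraMap F kb)).1 hε.symm, map_zero] at he
    exact zero_ne_one he
  exact pq_gltL s hs hsec hp hp2 𝒱 h𝒱 hrad hζ w hpw hr hrt he hε hq hrq hl hc hPc hγ rfl _
    (IntermediateField.subset_adjoin kb _ (by simp))
    (IntermediateField.subset_adjoin kb _ (by simp)) (pq_gen _ _)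
    (fun σ x hx => pq_stab s hsec hr hq hε0 σ hx)

end

section

variable {F kb K M : Type*} [Field F] [NumberField F] [Field kb] [Algebra F kb]
    [IsGalois F kb] [IsAlgClosed kb] [Field K] [Field M] [Algebra K M] [Algebra kb M]
    [Algebra.IsAlgebraic K M] (s : Gal(kb/F) →* Gal(M/K)) (hs : Continuous s)
    (hsec : ∀ σ a, s σ (algebraMap kb M a) = algebraMap kb M (σ a)) {p : ℕ} (hp : p.Prime)
    (hp2 : p ≠ 2)
    (𝒱 : Set (ValuationSubring M)) (h𝒱 : ∀ V ∈ 𝒱, ∀ a : kb, algebraMap kb M a ∈ V)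
    (hrad : ∀ ρ : M, ρ ≠ 0 → (∀ V ∈ 𝒱, DivAt p ρ V) → ∃ β : M, β ^ p = ρ)
    {ζ : F} (hζ : IsPrimitiveRoot ζ p) (w : HeightOneSpectrum (𝓞 F))
    (hpw : (p : 𝓞 F) ∉ w.asIdeal) {r : M} (hr : ∀ σ, s σ r = r) (hrt : Transcendental kb r)
    {e : F} (he : w.valuation F e = 1) {ε : kb} (hε : ε ^ p = algebraMap F kb e)
    {q : M} (hq : ∀ σ, s σ q = q)
    (hrq : r ^ p + 1 = (algebraMap kb M ε * q) ^ p) {l : ℕ} (hl : l < p)
    {c : F} (hc : c ≠ 0) (hPc : ¬ PV p w c) {γ : kb} (hγ : γ ^ p = algebraMap F kb c)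

include hs hsec hp hp2 h𝒱 hrad hζ hpw hr hrt he hε hq hrq hl hc hPc hγ in
private theorem pq_core {i j : ℕ} (hi : i < p) (hj : j < p) (hij : i ≠ l) (hjl : j ≠ l) {g : M}
    (hg : ∀ σ, s σ g = g)
    (h : r + algebraMap kb M (algebraMap F kb (ζ ^ i)) =
      algebraMap kb M (algebraMap F kb c) * g ^ p *
        (r + algebraMap kb M (algebraMap F kb (ζ ^ j)))) : False := by
  have : NeZero p := ⟨hp.ne_zero⟩
  obtain ⟨δ, hδγ, hδ, hglt⟩ := pq_glt s hs hsec hp hp2 𝒱 h𝒱 hrad hζ w hpw hr hrt he hε hq hrq hl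
    hc hPc hγ
  have hσF : ∀ (σ : Gal(kb/F)) (a : F), σ (algebraMap F kb a) = algebraMap F kb a :=
    fun σ a => σ.commutes a
  have hιF : ∀ a : F, s δ (algebraMap kb M (algebraMap F kb a)) =
      algebraMap kb M (algebraMap F kb a) := fun a => by rw [hsec, hσF]
  -- the root of unity in `M`
  set z : M := algebraMap kb M (algebraMap F kb ζ) with hzdef
  have hz : IsPrimitiveRoot z p :=
    (hζ.map_of_injective (algebraMap F kb).injective).map_of_injective (algebraMap kb M).injective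
  have hzp : ∀ m : ℕ, algebraMap kb M (algebraMap F kb (ζ ^ m)) = z ^ m := by
    intro m
    rw [map_pow, map_pow]
  have hzp' : ∀ m : ℕ, algebraMap kb M (algebraMap F kb ζ ^ m) = z ^ m := by
    intro m
    rw [map_pow]
  have hsz : s δ z = z := hιF ζ
  rw [hzp, hzp] at h
  -- `r + z ^ m ≠ 0`
  have hrne : ∀ m : ℕ, r + z ^ m ≠ 0 := by
    intro m h0
    apply hrt
    have h1 : r = algebraMap kb M (-(algebraMap F kb ζ ^ m)) := by
      rw [map_neg, hzp']
      exact eq_neg_of_add_eq_zero_left h0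
    rw [h1]
    exact isAlgebraic_algebraMap _
  -- the place
  have hXt : Transcendental kb (r + z ^ l)⁻¹ := by
    intro h0
    apply hrt
    have h1 := h0.inv
    rw [inv_inv] at h1
    have h2 : IsAlgebraic kb (z ^ l) := by
      rw [← hzp']
      exact isAlgebraic_algebraMap _
    have h3 := h1.sub h2
    rwa [add_sub_cancel_right] at h3
  obtain ⟨𝒪, h𝒪, hlt, hnot⟩ := exists_inf hXt
  rw [inv_inv] at hlt
  have hcst : ∀ a : kb, algebraMap kb M a ∈ 𝒪 := h𝒪.1
  have hv1 : ∀ a : kb, a ≠ 0 → 𝒪.valuation (algebraMap kb M a) = 1 := fun a ha =>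
    pq_const 𝒪 hcst ha
  have hle1 : ∀ a : kb, 𝒪.valuation (algebraMap kb M a) ≤ 1 := fun a =>
    (𝒪.valuation_le_one_iff _).2 (hcst a)
  have hglt' := hglt 𝒪 hcst (by rw [hzp']; exact hnot)
  -- the function
  have hdiv : ∀ (V : ValuationSubring M), (∀ a : kb, algebraMap kb M a ∈ V) →
      DivAt p ((r + z ^ i) / (r + z ^ j)) V := fun V hV =>
    pq_div hp hp2 (hζ.map_of_injective (algebraMap F kb).injective) hrt hrq i j V hV
  have hf0 : (r + z ^ i) / (r + z ^ j) ≠ 0 := div_ne_zero (hrne i) (hrne j)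
  obtain ⟨β, hβ⟩ := hrad ((r + z ^ i) / (r + z ^ j)) hf0 fun V hV => hdiv V (h𝒱 V hV)
  have hβ0 : β ≠ 0 := by
    rintro rfl
    rw [zero_pow hp.ne_zero] at hβ
    exact hf0 hβ.symm
  -- `β` is in the group
  have hJ : IsJ p kb (IntermediateField.adjoin kb ({r, algebraMap kb M ε * q} : Set M)) β :=
    pq_isJ hp hp2 (hζ.map_of_injective (algebraMap F kb).injective) hrt hrq _
      (IntermediateField.subset_adjoin kb _ (by simp))
      (IntermediateField.subset_adjoin kb _ (by simp)) hβ0 hβ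
  -- the value of `β`
  set a : F := (ζ ^ i - ζ ^ l) / (ζ ^ j - ζ ^ l) with hadef
  have hwa : w.valuation F a = 1 := by
    rw [hadef, map_div₀, pq_sub hp hζ w hpw hi hl hij, pq_sub hp hζ w hpw hj hl hjl, div_one]
  have ha0 : a ≠ 0 := by
    intro h0
    rw [h0, map_zero] at hwa
    exact zero_ne_one hwa
  obtain ⟨b, hb⟩ := IsAlgClosed.exists_pow_nat_eq (algebraMap F kb a) hp.pos
  have hb0 : b ≠ 0 := by
    rintro rfl
    rw [zero_pow hp.ne_zero] at hb
    exact ha0 ((map_eq_zero (algebraMap F kb)).1 hb.symm)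
  have hvjl : ∀ m : ℕ, m < p → m ≠ l → 𝒪.valuation (z ^ m - z ^ l) = 1 := by
    intro m hm hml
    have h1 : z ^ m - z ^ l = algebraMap kb M (algebraMap F kb ζ ^ m - algebraMap F kb ζ ^ l) := by
      rw [map_sub, hzp', hzp']
    rw [h1]
    apply hv1
    intro h2
    apply hml
    apply hζ.pow_inj hm hl
    apply (algebraMap F kb).injective
    rw [map_pow, map_pow]
    exact sub_eq_zero.1 h2
  have hvr : 𝒪.valuation (r + z ^ j) = 1 := by
    have h1 : r + z ^ j = (r + z ^ l) + (z ^ j - z ^ l) := by ring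
    rw [h1, Valuation.map_add_eq_of_lt_right _ (by rw [hvjl j hj hjl]; exact hlt), hvjl j hj hjl]
  have hfa : 𝒪.valuation (β ^ p - algebraMap kb M b ^ p) < 1 := by
    have h1 : algebraMap kb M b ^ p = (z ^ i - z ^ l) / (z ^ j - z ^ l) := by
      rw [← map_pow, hb, hadef, map_div₀, map_sub, map_sub, map_div₀, map_sub, map_sub, hzp, hzp,
        hzp]
    have h2 : z ^ j - z ^ l ≠ 0 := by
      intro h0
      have h3 := hvjl j hj hjl
      rw [h0, map_zero] at h3
      exact zero_ne_one h3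
    have h3 : β ^ p - algebraMap kb M b ^ p =
        (r + z ^ l) * ((z ^ j - z ^ i) / ((z ^ j - z ^ l) * (r + z ^ j))) := by
      rw [hβ, h1]
      have h4 := hrne j
      field_simp
      ring
    rw [h3, map_mul]
    have h5 : 𝒪.valuation ((z ^ j - z ^ i) / ((z ^ j - z ^ l) * (r + z ^ j))) ≤ 1 := by
      rw [map_div₀, map_mul, hvjl j hj hjl, hvr, one_mul, div_one]
      have h6 : z ^ j - z ^ i =
          algebraMap kb M (algebraMap F kb ζ ^ j - algebraMap F kb ζ ^ i) := by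
        rw [map_sub, hzp', hzp']
      rw [h6]
      exact hle1 _
    calc 𝒪.valuation (r + z ^ l) * 𝒪.valuation ((z ^ j - z ^ i) / ((z ^ j - z ^ l) * (r + z ^ j)))
        ≤ 𝒪.valuation (r + z ^ l) * 1 := mul_le_mul_right h5 _
      _ < 1 := by rw [mul_one]; exact hlt
  obtain ⟨k, hk⟩ := pq_factor hp hz 𝒪.valuation hfa
  have hk' : z ^ k * algebraMap kb M b = algebraMap kb M (algebraMap F kb ζ ^ k * b) := by
    rw [map_mul, hzp']
  rw [hk'] at hk
  generalize hb' : algebraMap F kb ζ ^ k * b = b' at *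
  have hb'p : b' ^ p = algebraMap F kb a := by
    rw [← hb', mul_pow, hb, ← pow_mul, mul_comm k p, pow_mul, ← map_pow, hζ.pow_eq_one, map_one,
      one_pow, one_mul]
  have hb'0 : b' ≠ 0 := by
    intro h0
    rw [h0, zero_pow hp.ne_zero] at hb'p
    exact ha0 ((map_eq_zero (algebraMap F kb)).1 hb'p.symm)
  have hδb : δ b' = b' := hδ a ha0 (PV.of_unit hwa) b' hb'p
  have h1 := hglt' β hJ b' hb'0 hk
  rw [hδb] at h1
  -- `s δ β = β`
  have h2 : (s δ β) ^ p = β ^ p := by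
    rw [← map_pow, hβ, map_div₀, map_add, map_add, hr, map_pow, map_pow, hsz]
  obtain ⟨m, hm⟩ := pq_root hp hz hβ0 h2
  have h3 : s δ β = β := by
    have h4 : 𝒪.valuation (z ^ m * β - z ^ m * algebraMap kb M b') < 1 := by
      rw [← mul_sub, map_mul, ← hzp']
      calc 𝒪.valuation (algebraMap kb M (algebraMap F kb ζ ^ m)) *
            𝒪.valuation (β - algebraMap kb M b')
          ≤ 1 * 𝒪.valuation (β - algebraMap kb M b') := mul_le_mul_left (hle1 _) _
        _ < 1 := by rw [one_mul]; exact hk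
    rw [hm] at h1
    have h5 : 𝒪.valuation (z ^ m * algebraMap kb M b' - algebraMap kb M b') < 1 := by
      have h6 : z ^ m * algebraMap kb M b' - algebraMap kb M b' =
          (z ^ m * β - algebraMap kb M b') - (z ^ m * β - z ^ m * algebraMap kb M b') := by ring
      rw [h6]
      exact lt_of_le_of_lt (Valuation.map_sub _ _ _) (max_lt h1 h4)
    have h6 : z ^ m * algebraMap kb M b' - algebraMap kb M b' =
        algebraMap kb M (algebraMap F kb ζ ^ m * b' - b') := by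
      rw [map_sub, map_mul, hzp']
    rw [h6] at h5
    have h7 : algebraMap F kb ζ ^ m * b' - b' = 0 := by
      by_contra h8
      rw [hv1 _ h8] at h5
      exact lt_irrefl _ h5
    have h8 : z ^ m = 1 := by
      rw [h7, map_zero] at h6
      have h9 : algebraMap kb M b' ≠ 0 := (_root_.map_ne_zero _).2 hb'0
      exact mul_right_cancel₀ h9 (by rw [one_mul]; exact sub_eq_zero.1 h6)
    rw [hm, h8, one_mul]
  -- the contradiction
  have hg0 : g ≠ 0 := by
    rintro rfl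
    rw [zero_pow hp.ne_zero, mul_zero, zero_mul] at h
    exact hrne i h
  have h4 : β ^ p = (algebraMap kb M γ * g) ^ p := by
    rw [hβ, h, mul_div_assoc, div_self (hrne j), mul_one, mul_pow, ← map_pow, hγ]
  have hγ0 : γ ≠ 0 := by
    rintro rfl
    rw [zero_pow hp.ne_zero] at hγ
    exact hc ((map_eq_zero (algebraMap F kb)).1 hγ.symm)
  have hγg : algebraMap kb M γ * g ≠ 0 := mul_ne_zero ((_root_.map_ne_zero _).2 hγ0) hg0
  obtain ⟨n, hn⟩ := pq_root hp hz hγg h4
  apply hδγ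
  apply (algebraMap kb M).injective
  rw [← hsec]
  have h5 : algebraMap kb M γ = β / (z ^ n * g) := by
    rw [hn]
    have h6 : z ^ n ≠ 0 := pow_ne_zero _ (hz.ne_zero hp.ne_zero)
    field_simp
  rw [h5, map_div₀, map_mul, map_pow, h3, hsz, hg]

end

theorem pv_quot2 {F kb K M : Type*} [Field F] [NumberField F] [Field kb] [Algebra F kb]
    [IsGalois F kb] [IsAlgClosed kb] [Field K] [Field M] [Algebra K M] [Algebra kb M]
    [Algebra.IsAlgebraic K M] (s : Gal(kb/F) →* Gal(M/K)) (hs : Continuous s)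
    (hsec : ∀ σ a, s σ (algebraMap kb M a) = algebraMap kb M (σ a)) {p : ℕ} (hp : p.Prime)
    (hp2 : p ≠ 2)
    (𝒱 : Set (ValuationSubring M)) (h𝒱 : ∀ V ∈ 𝒱, ∀ a : kb, algebraMap kb M a ∈ V)
    (hrad : ∀ ρ : M, ρ ≠ 0 → (∀ V ∈ 𝒱, DivAt p ρ V) → ∃ β : M, β ^ p = ρ)
    {ζ : F} (hζ : IsPrimitiveRoot ζ p) (w : HeightOneSpectrum (𝓞 F))
    (hpw : (p : 𝓞 F) ∉ w.asIdeal) {r : M} (hr : ∀ σ, s σ r = r) (hrt : Transcendental kb r)
    {e : F} (he : e ≠ 0) (hPe : PV p w e) {q : M} (hq : ∀ σ, s σ q = q)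
    (hrq : r ^ p + 1 = algebraMap kb M (algebraMap F kb e) * q ^ p) {i j : ℕ} (hi : i < p)
    (hj : j < p) {c : F} (hc : c ≠ 0) {g : M} (hg : ∀ σ, s σ g = g)
    (h : r + algebraMap kb M (algebraMap F kb (ζ ^ i)) =
      algebraMap kb M (algebraMap F kb c) * g ^ p *
        (r + algebraMap kb M (algebraMap F kb (ζ ^ j)))) : PV p w c := by
  by_contra hPc
  have hp3 : 2 < p := lt_of_le_of_ne hp.two_le (Ne.symm hp2)
  obtain ⟨l, hl, hli, hlj⟩ : ∃ l < p, i ≠ l ∧ j ≠ l := by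
    by_cases h0 : i ≠ 0 ∧ j ≠ 0
    · exact ⟨0, by omega, h0.1, h0.2⟩
    · by_cases h1 : i ≠ 1 ∧ j ≠ 1
      · exact ⟨1, by omega, h1.1, h1.2⟩
      · exact ⟨2, by omega, by omega, by omega⟩
  obtain ⟨t, ht0, ht⟩ := hPe
  obtain ⟨γ, hγ⟩ := IsAlgClosed.exists_pow_nat_eq (algebraMap F kb c) hp.pos
  obtain ⟨ε, hε⟩ := IsAlgClosed.exists_pow_nat_eq (algebraMap F kb (e / t ^ p)) hp.pos
  have hwt : w.valuation F t ≠ 0 := (Valuation.ne_zero_iff _).2 ht0
  have he1 : w.valuation F (e / t ^ p) = 1 := by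
    rw [map_div₀, map_pow, ht, div_self (pow_ne_zero _ hwt)]
  refine pq_core s hs hsec hp hp2 𝒱 h𝒱 hrad hζ w hpw hr hrt he1 hε
    (q := algebraMap kb M (algebraMap F kb t) * q) ?_ ?_ hl hc hPc hγ hi hj hli hlj hg h
  · intro σ
    rw [map_mul, hsec, hq, AlgEquiv.commutes]
  · rw [hrq, mul_pow, mul_pow, ← map_pow, hε, ← mul_assoc, map_div₀, map_div₀, map_pow, map_pow]
    have h1 : algebraMap kb M (algebraMap F kb t) ≠ 0 :=
      (_root_.map_ne_zero _).2 ((_root_.map_ne_zero _).2 ht0)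
    rw [div_mul_cancel₀ _ (pow_ne_zero _ h1)]


end Pool.Agent.Lib.MP_2f3286_ag.Gl
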