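import Pool.Agent.Lib.MP_2f3286_ag.Fer.Tp.TR
import Pool.Agent.Lib.MP_2f3286_ag.Gl.PQ

/-!
# The data given by a section with a place at the prime above `p`, for all curves
-/

open IsDedekindDomain NumberField

namespace Pool.Agent.Lib.MP_2f3286_ag.Gl

open Pool.Agent.Lib.MP_2f3286_ag.Fer (Good PV Plc kum_root vnum)
open Pool.Agent.Lib.MP_2f3286_ag.Fer.Tp
open Pool.Agent.Lib.MP_2f3286_ag.Pt (IsPlc DivAt)

/-- constants -/
theorem const_of_fixed {F kb K M : Type*} [Field F] [Field kb] [Algebra F kb] [IsGalois F kb]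
    [IsAlgClosed kb] [Field K] [Field M] [Algebra K M] [Algebra kb M]
    (s : Gal(kb/F) →* Gal(M/K))
    (hsec : ∀ σ a, s σ (algebraMap kb M a) = algebraMap kb M (σ a)) {r : M}
    (hr : ∀ σ, s σ r = r) (hrc : ∀ c : F, r ≠ algebraMap kb M (algebraMap F kb c)) :
    Transcendental kb r := by
  intro halg
  have hint : IsIntegral kb r := halg.isIntegral
  obtain ⟨b, hb⟩ := minpoly.mem_range_of_degree_eq_one kb r
    (IsAlgClosed.degree_eq_one_of_irreducible kb (minpoly.irreducible hint))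
  have h1 : ∀ g : Gal(kb/F), g b = b := by
    intro g
    apply (algebraMap kb M).injective
    rw [← hsec, hb, hr]
  obtain ⟨c, hc⟩ := IntermediateField.mem_bot.1 ((InfiniteGalois.mem_bot_iff_fixed b).2 h1)
  exact hrc c (by rw [hc, hb])

/-- the quotients of the factors of `r ^ p + 1` have valuations divisible by `p` -/
theorem divAt_factor {p : ℕ} (hp : p.Prime) (hp2 : p ≠ 2) {M : Type*} [Field M]
    (V : ValuationSubring M) {kb : Type*} [Field kb] [Algebra kb M]
    (hV : ∀ a : kb, algebraMap kb M a ∈ V) {z : kb} (hz : IsPrimitiveRoot z p) {r q : M}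
    (hrq : r ^ p + 1 = q ^ p) (i j : ℕ) (hi : r + algebraMap kb M (z ^ i) ≠ 0)
    (hj : r + algebraMap kb M (z ^ j) ≠ 0) :
    DivAt p ((r + algebraMap kb M (z ^ i)) / (r + algebraMap kb M (z ^ j))) V := by
  have hz' : IsPrimitiveRoot (algebraMap kb M z) p :=
    hz.map_of_injective (algebraMap kb M).injective
  have h1 : ∀ i : ℕ, ¬ p ∣ i → V.valuation (algebraMap kb M z ^ i - 1) = 1 := by
    intro i hi
    have h2 : z ^ i - 1 ≠ 0 := by
      intro h0
      exact hi ((hz.pow_eq_one_iff_dvd i).1 (sub_eq_zero.1 h0))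
    have h3 : algebraMap kb M z ^ i - 1 = algebraMap kb M (z ^ i - 1) := by
      rw [map_sub, map_pow, map_one]
    rw [h3]
    exact Pool.Agent.Lib.MP_2f3286_ag.Pt.Ex1.val_C V hV _ h2
  rw [map_pow] at hi hj
  obtain ⟨y, hy, hy1⟩ := vnum hp hp2 V.valuation hz' h1 (ρ := r) (e := 1) (κ := q)
    (by rw [one_mul]; exact hrq) ⟨1, one_ne_zero, by rw [map_one, one_pow]⟩ i j hi hj
  refine ⟨y, hy, ?_⟩
  rw [map_pow, map_pow, map_mul, hy1, map_inv₀, map_pow, mul_inv_cancel₀]
  exact pow_ne_zero _ ((Valuation.ne_zero_iff _).2 hy)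

/-- The data given by a section of `Gal(M/K)`, where `M` contains the `p`-th roots of its elements
with divisible valuations at the places of `𝒱`, with a place over the completion at `P`. -/
theorem exists_dataP {p : ℕ} (hp : p.Prime) (hp2 : p ≠ 2) {F : Type*} [Field F] [NumberField F]
    {ζ : F} (hζ : IsPrimitiveRoot ζ p) {P : HeightOneSpectrum (𝓞 F)}
    (hP : ∀ w : HeightOneSpectrum (𝓞 F), w ≠ P → (p : 𝓞 F) ∉ w.asIdeal) {K : Type*}
    [Field K] {M : Type*} [Field M] [Algebra K M] [Algebra.IsAlgebraic K M]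
    [Algebra (AlgebraicClosure F) M] [Algebra F M] [IsScalarTower F (AlgebraicClosure F) M]
    (𝒱 : Set (ValuationSubring M))
    (h𝒱 : ∀ V ∈ 𝒱, ∀ a : AlgebraicClosure F, algebraMap (AlgebraicClosure F) M a ∈ V)
    (hrad : ∀ ρ : M, ρ ≠ 0 → (∀ V ∈ 𝒱, DivAt p ρ V) → ∃ β : M, β ^ p = ρ)
    (s : Gal(AlgebraicClosure F/F) →* Gal(M/K)) (hs : Continuous s)
    (hsec : ∀ σ a, s σ (algebraMap (AlgebraicClosure F) M a) =
      algebraMap (AlgebraicClosure F) M (σ a))
    {L : Type*} [Field L] [Algebra F L] [Algebra L M] [IsScalarTower F L M]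
    (hL : ∀ (x : L) σ, s σ (algebraMap L M x) = algebraMap L M x)
    (hfix : ∀ x : M, (∀ σ, s σ x = x) → ∃ y : L, algebraMap L M y = x)
    (ι : AlgebraicClosure F →ₐ[F] AlgebraicClosure (P.adicCompletion F))
    (A : ValuationSubring M)
    (φ : A →+* AlgebraicClosure (P.adicCompletion F))
    (hφ : MP_2f3286_bir.IsPlaceOf s (P.adicCompletion F)
      (ι : _ →+* AlgebraicClosure (P.adicCompletion F)) A φ) :
    ∃ D : DataP p P ζ L, (∀ (x : L) (y : P.adicCompletion F),
      D.pl.Has x y ↔ ∃ h : algebraMap L M x ∈ A, φ ⟨_, h⟩ = algebraMap _ _ y) ∧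
      ∀ x, x ∈ D.W ↔ x ≠ 0 := by
  classical
  have hp0 : p ≠ 0 := hp.ne_zero
  have hodd : Odd p := hp.odd_of_ne_two hp2
  obtain ⟨Q, hQb, hQ⟩ := exists_plc s hL ι A φ hφ
  have hFL : ∀ a : F, algebraMap L M (algebraMap F L a) =
      algebraMap (AlgebraicClosure F) M (algebraMap F (AlgebraicClosure F) a) := by
    intro a
    rw [← IsScalarTower.algebraMap_apply F L M,
      ← IsScalarTower.algebraMap_apply F (AlgebraicClosure F) M]
  have hadd : ∀ r : L, r ^ p + 1 ≠ 0 → ∀ i : ℕ, r + algebraMap F L (ζ ^ i) ≠ 0 := by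
    intro r hr1 i h0
    apply hr1
    have hzp : (algebraMap F L (ζ ^ i)) ^ p = 1 := by
      rw [← map_pow, ← pow_mul, mul_comm, pow_mul, hζ.pow_eq_one, one_pow, map_one]
    have h1 := factor_mul hodd hzp r
    rw [← h1, h0, zero_mul]
  refine ⟨⟨Q, hQb, {x | x ≠ 0}, fun u hu v hv => mul_ne_zero hu hv,
    fun u hu => inv_ne_zero hu, fun a ha => (_root_.map_ne_zero _).2 ha,
    fun u hu => fun h0 => hu (by rw [h0, zero_pow hp0]), fun r _ hr1 => hadd r hr1,
    fun r hr hr1 hgood i j hi hj => ?_⟩, hQ, fun x => Iff.rfl⟩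
  have hWi := hadd r hr1 i
  have hWj := hadd r hr1 j
  obtain ⟨hnc, e, he, hPe, q, hq⟩ := hgood
  set u : M := algebraMap L M (r + algebraMap F L (ζ ^ i)) /
    algebraMap L M (r + algebraMap F L (ζ ^ j)) with hu
  have hMi : algebraMap L M (r + algebraMap F L (ζ ^ i)) ≠ 0 := (_root_.map_ne_zero _).2 hWi
  have hMj : algebraMap L M (r + algebraMap F L (ζ ^ j)) ≠ 0 := (_root_.map_ne_zero _).2 hWj
  have hu0 : u ≠ 0 := div_ne_zero hMi hMj
  have hform : ∀ i : ℕ, algebraMap L M (r + algebraMap F L (ζ ^ i)) =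
      algebraMap L M r + algebraMap (AlgebraicClosure F) M
        (algebraMap F (AlgebraicClosure F) (ζ ^ i)) := by
    intro i
    rw [map_add, hFL]
  have hrq : algebraMap L M r ^ p + 1 =
      algebraMap (AlgebraicClosure F) M (algebraMap F (AlgebraicClosure F) e) *
        algebraMap L M q ^ p := by
    have h1 := congrArg (algebraMap L M) hq
    rw [map_add, map_pow, map_one, map_mul, map_pow, hFL] at h1
    exact h1
  obtain ⟨ε, hε⟩ := IsAlgClosed.exists_pow_nat_eq (algebraMap F (AlgebraicClosure F) e) hp.pos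
  have hζ' : IsPrimitiveRoot (algebraMap F (AlgebraicClosure F) ζ) p :=
    hζ.map_of_injective (algebraMap F (AlgebraicClosure F)).injective
  obtain ⟨β, hβ⟩ := hrad u hu0 (fun V hV => by
    have h1 := divAt_factor hp hp2 V (h𝒱 V hV) hζ' (r := algebraMap L M r)
      (q := algebraMap (AlgebraicClosure F) M ε * algebraMap L M q)
      (by rw [mul_pow, ← map_pow (algebraMap (AlgebraicClosure F) M) ε, hε]; exact hrq) i j
      (by rw [← map_pow, ← hform]; exact hMi) (by rw [← map_pow, ← hform]; exact hMj)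
    rw [← map_pow, ← map_pow, ← hform, ← hform] at h1
    exact h1)
  have hus : ∀ σ, s σ u = u := by
    intro σ
    rw [hu, map_div₀, hL, hL]
  obtain ⟨c, hc, y, hy, hy0, hxy⟩ := kum_root s hs hsec hus hu0
    (Nat.one_le_iff_ne_zero.2 hp0) hβ
  obtain ⟨g, hg⟩ := hfix y hy
  have hrel : algebraMap L M (r + algebraMap F L (ζ ^ i)) =
      algebraMap (AlgebraicClosure F) M (algebraMap F (AlgebraicClosure F) c) * y ^ p *
        algebraMap L M (r + algebraMap F L (ζ ^ j)) := by
    rw [← hxy, hu, div_mul_cancel₀ _ hMj]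
  have hrt : Transcendental (AlgebraicClosure F) (algebraMap L M r) := by
    refine const_of_fixed s hsec (fun σ => hL r σ) fun c hc => hnc c ?_
    apply (algebraMap L M).injective
    rw [hc, hFL]
  refine ⟨c, hc, fun w hw => ?_, g, ?_, ?_⟩
  · refine pv_quot2 s hs hsec hp hp2 𝒱 h𝒱 hrad hζ w (hP w hw) (r := algebraMap L M r)
      (fun σ => hL r σ) hrt he (hPe w hw) (q := algebraMap L M q)
      (fun σ => hL q σ) hrq hi hj hc hy ?_
    have h1 := hrel
    rw [hform, hform] at h1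
    exact h1
  · rintro rfl
    rw [map_zero] at hg
    exact hy0 hg.symm
  · apply (algebraMap L M).injective
    rw [hrel, map_mul (algebraMap L M) _ (r + _), map_mul (algebraMap L M) _ (g ^ p),
      map_pow (algebraMap L M) g, hg, hFL]

end Pool.Agent.Lib.MP_2f3286_ag.Gl
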