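import Pool.Agent.Lib.MP_2f3286_ag.Kummer

/-!
# Kummer extensions of degree `p`: elements with a power in the base field   (module KER)

PROOF. `L = L₁⟮x⟯`, `x ^ p = A ∈ L₁`. If `x ∈ L₁` (the image) then `L₁ → L` is surjective and the claim is clear. Otherwise `A` is not a `p`-th power in `L₁`: `b ^ p = A` would give
`(x / b) ^ p = 1`, a root of unity, in `C ⊆ L₁` (`root_of_unity_mem C L`), so `x ∈ L₁` (`A = 0`: `x = 0 ∈ L₁`). So `X ^ p - C A` is irreducible over `L₁`
(`X_pow_sub_C_irreducible_of_prime`), the minimal polynomial of `x`, and `Module.finrank L₁ L = p` (`IntermediateField.adjoin.finrank`, `hgen`). Let `u ^ (p ^ n) = f ∈ L₁`, `N` the norm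
(`Algebra.norm L₁`): `N (u) ^ (p ^ n) = N (f) = f ^ p` (`Algebra.norm_algebraMap`) `= (u ^ p) ^ (p ^ n)`. If `u = 0` clear. Otherwise `(N (u) / u ^ p) ^ (p ^ n) = 1`, so `N (u) = ξ u ^ p` with
`ξ` (the image of) an element of `C`, and `u ^ p = ξ⁻¹ N (u) ∈ L₁`.
-/

open Polynomial IntermediateField

namespace Pool.Agent.Lib.MP_2f3286_ag.Gl

theorem ker_pow {p : ℕ} (hp : p.Prime) {C L₁ L : Type*} [Field C] [IsAlgClosed C] [Field L₁]
    [Algebra C L₁] [Field L] [Algebra C L] [Algebra L₁ L] [IsScalarTower C L₁ L] {x : L} {A : L₁}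
    (hx : x ^ p = algebraMap L₁ L A) (hgen : IntermediateField.adjoin L₁ {x} = ⊤) (u : L) (n : ℕ)
    (hu : ∃ f : L₁, u ^ p ^ n = algebraMap L₁ L f) : ∃ f : L₁, u ^ p = algebraMap L₁ L f := by
  obtain ⟨f, hf⟩ := hu
  by_cases hxL : ∃ a : L₁, algebraMap L₁ L a = x
  · obtain ⟨a, rfl⟩ := hxL
    have htop : (⊤ : IntermediateField L₁ L) = ⊥ := by
      rw [← hgen, IntermediateField.adjoin_eq_bot_iff]
      rintro _ rfl
      exact IntermediateField.algebraMap_mem _ a
    have hmem : u ^ p ∈ (⊤ : IntermediateField L₁ L) := trivial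
    rw [htop, IntermediateField.mem_bot] at hmem
    obtain ⟨b, hb⟩ := hmem
    exact ⟨b, hb.symm⟩
  · have hA : ∀ b : L₁, b ^ p ≠ A := by
      intro b hb
      have h1 : x ^ p = (algebraMap L₁ L b) ^ p := by rw [hx, ← hb, map_pow]
      by_cases hb0 : b = 0
      · subst hb0
        rw [map_zero, zero_pow hp.ne_zero] at h1
        exact hxL ⟨0, by rw [map_zero]; exact ((pow_eq_zero_iff hp.ne_zero).1 h1).symm⟩
      · have hb1 : algebraMap L₁ L b ≠ 0 := (map_ne_zero (algebraMap L₁ L)).2 hb0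
        have h2 : (x / algebraMap L₁ L b) ^ p = 1 := by
          rw [div_pow, h1, div_self (pow_ne_zero _ hb1)]
        obtain ⟨c, hc⟩ := root_of_unity_mem C L hp.pos h2
        exact hxL ⟨algebraMap C L₁ c * b, by
          rw [map_mul, ← IsScalarTower.algebraMap_apply C L₁ L, hc, div_mul_cancel₀ _ hb1]⟩
    have hirr : Irreducible (X ^ p - Polynomial.C A : L₁[X]) :=
      X_pow_sub_C_irreducible_of_prime hp hA
    have hmonic : (X ^ p - Polynomial.C A : L₁[X]).Monic := monic_X_pow_sub_C A hp.ne_zero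
    have hroot : aeval x (X ^ p - Polynomial.C A : L₁[X]) = 0 := by
      rw [map_sub, map_pow, aeval_X, aeval_C, hx, sub_self]
    have hmin : minpoly L₁ x = X ^ p - Polynomial.C A :=
      (minpoly.eq_of_irreducible_of_monic hirr hroot hmonic).symm
    have hint : IsIntegral L₁ x := ⟨_, hmonic, hroot⟩
    have hfr : Module.finrank L₁ L = p := by
      have h3 := IntermediateField.adjoin.finrank hint
      rw [hgen, hmin, natDegree_X_pow_sub_C, IntermediateField.finrank_top'] at h3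
      exact h3
    have hN : algebraMap L₁ L (Algebra.norm L₁ u) ^ p ^ n = (u ^ p) ^ p ^ n := by
      rw [← map_pow, ← map_pow, hf, Algebra.norm_algebraMap, hfr, map_pow, ← hf, ← pow_mul,
        ← pow_mul, mul_comm]
    by_cases hu0 : u = 0
    · exact ⟨0, by rw [hu0, zero_pow hp.ne_zero, map_zero]⟩
    have hup : u ^ p ≠ 0 := pow_ne_zero _ hu0
    have h4 : (algebraMap L₁ L (Algebra.norm L₁ u) / u ^ p) ^ p ^ n = 1 := by
      rw [div_pow, hN, div_self (pow_ne_zero _ hup)]
    obtain ⟨c, hc⟩ := root_of_unity_mem C L (pow_pos hp.pos n) h4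
    have hc0 : algebraMap C L c ≠ 0 := by
      intro h0
      rw [hc] at h0
      rw [h0, zero_pow (pow_ne_zero _ hp.ne_zero)] at h4
      exact zero_ne_one h4
    refine ⟨Algebra.norm L₁ u / algebraMap C L₁ c, ?_⟩
    rw [map_div₀, ← IsScalarTower.algebraMap_apply C L₁ L, eq_div_iff hc0, hc, mul_comm,
      div_mul_cancel₀ _ hup]

end Pool.Agent.Lib.MP_2f3286_ag.Gl
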