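import Pool.Agent.Lib.MP_2f3286_ag.Gl.SL
import Pool.Agent.Lib.MP_2f3286_ag.Kummer

/-!
# The curves `A ^ a (1 - A) ^ b = B ^ p`   (module PZ1)

PROOF of `pz_divAt`. `v = Q.valuation`. If `v A < 1`: `v (1 - A) = 1`, `v A ^ a = v B ^ p`; `u a + u' p = 1` with integers, so `v A = v (B ^ u * A ^ u') ^ p`: take `c = B ^ u A ^ u'`; for `1 - A` take `1`. If
`v A = 1`: take `1` for `A`, and `v (1 - A) ^ b = v B ^ p`, same argument (`1 - A ≠ 0`). If `v A > 1`: `v (1 - A) = v A`, `v A ^ (a + b) = v B ^ p`, same argument. (See `z0_val` in `Fer/Z0.lean`.)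
PROOF of `pz_fin`. `finDim_weak` with `h = X ^ a * (1 - X) ^ b`.
PROOF of `pz_unique_one`. `tot_unique` with `x = A`, `y = B`, `hrepr` from `repr_weak` (`h = X ^ a (1 - X) ^ b`), `n P = - rootMultiplicity 1 P`, `d = - b`. For `Q` with `v (A - 1) < 1`: `v A = 1` and `v B ^ p = v (1 - A) ^ b`;
`u p + u' b = 1` with integers, `g = (v (1 - A) ^ u * v B ^ u')⁻¹`, `g ^ (- p) = v (1 - A) ^ (u p) v B ^ (p u') = v (1 - A) ^ (u p + b u') = v (1 - A)`, `g ^ (- b) = v (1 - A) ^ (b u) v B ^ (u' b) = v B ^ (p u + u' b) = v B`;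
`v (1 - A) < 1` and is not zero, so `g > 1`. `P = (X - 1) ^ m P₁`, `P₁(1) ≠ 0`: `v (P(A)) = v (A - 1) ^ m = g ^ (- p m)` (`v (P₁(A)) = 1` as `P₁(A) - P₁(1)` is divisible by `A - 1` in `Q`).
PROOF of `pz_unique_zero`. The same with `n P = - rootMultiplicity 0 P`, `d = - a`, `v B ^ p = v A ^ a`.
PROOF of `pz_gen`. `E = adjoin L₁ {x}` contains `x`; `B = ξ x ^ a y ^ b` with `ξ ^ p = 1` (`(x ^ a y ^ b) ^ p = A ^ a (1 - A) ^ b = B ^ p`), `ξ` a constant (`root_of_unity_mem`), `x ≠ 0`, so `y ^ b ∈ E`; `y ^ p = 1 - A ∈ E`, `u b + u' p = 1` with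
integers, `y ≠ 0`, so `y ∈ E`. As `adjoin C {x, y} = ⊤` and `C ⊆ L₁ ⊆ E`, `E = ⊤`.
-/

open Polynomial IntermediateField

namespace Pool.Agent.Lib.MP_2f3286_ag.Gl

open Pool.Agent.Lib.MP_2f3286_ag.Pt (IsPlc DivAt)

/-- valuations in the situation of step zero -/
private theorem PZ1_val {p : ℕ} (hp : p.Prime) {L Γ : Type*} [Field L]
    [LinearOrderedCommGroupWithZero Γ]
    (v : Valuation L Γ) {A B : L} (hA : A ≠ 0) (hA1 : 1 - A ≠ 0) {a b : ℤ} (ha : ¬ (p : ℤ) ∣ a)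
    (hb : ¬ (p : ℤ) ∣ b) (hab : ¬ (p : ℤ) ∣ a + b) (h : A ^ a * (1 - A) ^ b = B ^ p) :
    (∃ y : L, y ≠ 0 ∧ v A = v y ^ p) ∧ ∃ y : L, y ≠ 0 ∧ v (1 - A) = v y ^ p := by
  have hq : Prime (p : ℤ) := Nat.prime_iff_prime_int.1 hp
  have hB : B ≠ 0 := by
    rintro rfl
    rw [zero_pow hp.ne_zero] at h
    exact mul_ne_zero (zpow_ne_zero _ hA) (zpow_ne_zero _ hA1) h
  have key : ∀ (x : L) (m : ℤ), x ≠ 0 → ¬ (p : ℤ) ∣ m → v x ^ m = v B ^ p →
      ∃ y : L, y ≠ 0 ∧ v x = v y ^ p := by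
    intro x m hx hm hxm
    obtain ⟨u, w, huw⟩ := ((Prime.coprime_iff_not_dvd hq).2 hm)
    have hvx : v x ≠ 0 := by rwa [Ne, Valuation.zero_iff]
    refine ⟨x ^ u * B ^ w, mul_ne_zero (zpow_ne_zero _ hx) (zpow_ne_zero _ hB), ?_⟩
    have e1 : v x ^ (u * (p : ℤ)) = (v x ^ u) ^ p := by rw [zpow_mul, zpow_natCast]
    have e2 : v x ^ (w * m) = (v B ^ w) ^ p := by
      rw [mul_comm w m, zpow_mul, hxm, ← zpow_natCast (v B) p, ← zpow_natCast (v B ^ w) p,
        ← zpow_mul, ← zpow_mul, mul_comm (p : ℤ) w]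
    have e3 : v x ^ (u * (p : ℤ) + w * m) = v x := by rw [huw, zpow_one]
    rw [map_mul, map_zpow₀, map_zpow₀, mul_pow, ← e1, ← e2, ← zpow_add₀ hvx, e3]
  have h1 : v A ^ a * v (1 - A) ^ b = v B ^ p := by
    rw [← map_zpow₀, ← map_zpow₀, ← map_mul, h, map_pow]
  rcases lt_trichotomy (v A) 1 with hlt | heq | hgt
  · have hv1 : v (1 - A) = 1 := Valuation.map_one_sub_of_lt _ hlt
    rw [hv1, one_zpow, mul_one] at h1
    exact ⟨key A a hA ha h1, 1, one_ne_zero, by rw [hv1, map_one, one_pow]⟩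
  · rw [heq, one_zpow, one_mul] at h1
    exact ⟨⟨1, one_ne_zero, by rw [heq, map_one, one_pow]⟩, key (1 - A) b hA1 hb h1⟩
  · have hv1 : v (1 - A) = v A :=
      Valuation.map_sub_eq_of_lt_right _ (by rw [map_one]; exact hgt)
    have hvA : v A ≠ 0 := by rwa [Ne, Valuation.zero_iff]
    rw [hv1, ← zpow_add₀ hvA] at h1
    obtain ⟨y, hy⟩ := key A (a + b) hA hab h1
    exact ⟨⟨y, hy⟩, y, hy.1, by rw [hv1]; exact hy.2⟩

private theorem PZ1_div {p : ℕ} {L : Type*} [Field L] (Q : ValuationSubring L) {A : L}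
    (h : ∃ y : L, y ≠ 0 ∧ Q.valuation A = Q.valuation y ^ p) : DivAt p A Q := by
  obtain ⟨y, hy, h1⟩ := h
  refine ⟨y, hy, ?_⟩
  rw [map_mul, map_inv₀, map_pow, h1, mul_inv_cancel₀]
  exact pow_ne_zero _ (by rwa [Ne, Valuation.zero_iff])

/-- a polynomial in an element of the valuation ring -/
private theorem PZ1_mem {C L : Type*} [Field C] [Field L] [Algebra C L] {Q : ValuationSubring L}
    (hQ : ∀ c : C, algebraMap C L c ∈ Q) {A : L} (hA : A ∈ Q) (P : C[X]) : aeval A P ∈ Q := by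
  rw [aeval_eq_sum_range]
  refine sum_mem fun i _ => ?_
  rw [Algebra.smul_def]
  exact mul_mem (hQ _) (pow_mem hA i)

private theorem PZ1_const {C L : Type*} [Field C] [Field L] [Algebra C L] {Q : ValuationSubring L}
    (hQ : ∀ c : C, algebraMap C L c ∈ Q) {c : C} (hc : c ≠ 0) :
    Q.valuation (algebraMap C L c) = 1 := by
  have h1 : Q.valuation (algebraMap C L c) ≤ 1 := (Q.valuation_le_one_iff _).2 (hQ c)
  have h2 : Q.valuation (algebraMap C L c⁻¹) ≤ 1 := (Q.valuation_le_one_iff _).2 (hQ c⁻¹)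
  refine le_antisymm h1 ?_
  have h3 : Q.valuation (algebraMap C L c) * Q.valuation (algebraMap C L c⁻¹) = 1 := by
    rw [← map_mul, ← map_mul, mul_inv_cancel₀ hc, map_one, map_one]
  rw [← h3]
  exact mul_le_of_le_one_right' h2

/-- values of polynomials at a totally ramified point -/
private theorem PZ1_gen {p : ℕ} (hp : p.Prime) {C L : Type*} [Field C] [Field L] [Algebra C L]
    {A B : L} (tr : Transcendental C A) {Q : ValuationSubring L}
    (hQ : ∀ c : C, algebraMap C L c ∈ Q) (x0 : C)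
    (ht : Q.valuation (A - algebraMap C L x0) < 1) {m : ℕ} (hm : ¬ p ∣ m)
    (hB : Q.valuation B ^ p = Q.valuation (A - algebraMap C L x0) ^ m) :
    ∃ g : Q.ValueGroup, 1 < g ∧
      (∀ P : C[X], P ≠ 0 → Q.valuation (aeval A P) =
        g ^ ((p : ℤ) * (-(P.rootMultiplicity x0 : ℤ)))) ∧
      Q.valuation B = g ^ (-(m : ℤ)) := by
  have hq : Prime (p : ℤ) := Nat.prime_iff_prime_int.1 hp
  have hA : A ∈ Q := by
    have h1 : A = (A - algebraMap C L x0) + algebraMap C L x0 := by ring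
    rw [h1]
    exact add_mem ((Q.valuation_le_one_iff _).1 ht.le) (hQ x0)
  have hne : A - algebraMap C L x0 ≠ 0 := by
    intro h0
    have h1 : A = algebraMap C L x0 := sub_eq_zero.1 h0
    rw [h1] at tr
    exact tr (isAlgebraic_algebraMap x0)
  set t := Q.valuation (A - algebraMap C L x0) with htdef
  set s := Q.valuation B with hsdef
  have ht0 : t ≠ 0 := by rwa [Ne, htdef, Valuation.zero_iff]
  have hs0 : s ≠ 0 := by
    intro h0
    rw [h0, zero_pow hp.ne_zero] at hB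
    exact pow_ne_zero m ht0 hB.symm
  have hm' : ¬ (p : ℤ) ∣ (m : ℤ) := by rwa [Int.natCast_dvd_natCast]
  obtain ⟨u, w, huw⟩ := ((Prime.coprime_iff_not_dvd hq).2 hm')
  set g : Q.ValueGroup := (t ^ u * s ^ w)⁻¹ with hg
  have hg0 : g ≠ 0 := inv_ne_zero (mul_ne_zero (zpow_ne_zero _ ht0) (zpow_ne_zero _ hs0))
  have hBz : s ^ (p : ℤ) = t ^ (m : ℤ) := by rw [zpow_natCast, zpow_natCast, hB]
  have e1 : g ^ (-(p : ℤ)) = t := by
    rw [hg, inv_zpow, zpow_neg, inv_inv, mul_zpow, ← zpow_mul, ← zpow_mul, mul_comm w (p : ℤ),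
      zpow_mul s, hBz, ← zpow_mul, ← zpow_add₀ ht0, mul_comm (m : ℤ) w, huw, zpow_one]
  have e2 : g ^ (-(m : ℤ)) = s := by
    rw [hg, inv_zpow, zpow_neg, inv_inv, mul_zpow, ← zpow_mul, ← zpow_mul, mul_comm u (m : ℤ),
      zpow_mul t, ← hBz, ← zpow_mul, ← zpow_add₀ hs0, mul_comm (p : ℤ) u, huw, zpow_one]
  have hg1 : 1 < g := by
    by_contra hle
    rw [not_lt] at hle
    have h1 : g ^ p ≤ 1 := pow_le_one' hle p
    have h2 : t * g ^ p = 1 := by
      rw [← e1, zpow_neg, zpow_natCast, inv_mul_cancel₀ (pow_ne_zero _ hg0)]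
    have h3 : t * g ^ p < 1 := lt_of_le_of_lt (mul_le_of_le_one_right' h1) ht
    exact absurd h2 h3.ne
  refine ⟨g, hg1, ?_, e2.symm⟩
  intro P hP
  obtain ⟨P₁, hP₁, hnd⟩ := Polynomial.exists_eq_pow_rootMultiplicity_mul_and_not_dvd P hP x0
  set k := P.rootMultiplicity x0 with hk
  have hev : P₁.eval x0 ≠ 0 := by
    intro h0
    exact hnd (Polynomial.dvd_iff_isRoot.2 h0)
  obtain ⟨R, hR⟩ := Polynomial.X_sub_C_dvd_sub_C_eval (a := x0) (p := P₁)
  have h1 : aeval A P₁ = algebraMap C L (P₁.eval x0) + (A - algebraMap C L x0) * aeval A R := by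
    have h2 := congrArg (aeval A) hR
    rw [map_sub, map_mul, map_sub, aeval_X, aeval_C, aeval_C] at h2
    linear_combination h2
  have h2 : Q.valuation (aeval A P₁) = 1 := by
    rw [h1, Valuation.map_add_eq_of_lt_left, PZ1_const hQ hev]
    rw [PZ1_const hQ hev, map_mul]
    exact lt_of_le_of_lt (mul_le_of_le_one_right'
      ((Q.valuation_le_one_iff _).2 (PZ1_mem hQ hA R))) ht
  have h3 : Q.valuation (aeval A P) = t ^ k := by
    conv_lhs => rw [hP₁]
    rw [map_mul, map_pow, map_sub, aeval_X, aeval_C, map_mul, map_pow, h2, mul_one]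
  rw [h3, ← e1, ← zpow_natCast, ← zpow_mul]
  congr 1
  ring

theorem pz_divAt {p : ℕ} (hp : p.Prime) {L : Type*} [Field L] (Q : ValuationSubring L) {A B : L}
    (hA : A ≠ 0) (hA1 : 1 - A ≠ 0) {a b : ℕ} (ha : ¬ p ∣ a) (hb : ¬ p ∣ b) (hab : ¬ p ∣ a + b)
    (h : A ^ a * (1 - A) ^ b = B ^ p) : DivAt p A Q ∧ DivAt p (1 - A) Q := by
  have h' : A ^ (a : ℤ) * (1 - A) ^ (b : ℤ) = B ^ p := by rw [zpow_natCast, zpow_natCast, h]
  obtain ⟨h1, h2⟩ := PZ1_val hp Q.valuation hA hA1 (a := (a : ℤ)) (b := (b : ℤ))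
    (by rwa [Int.natCast_dvd_natCast]) (by rwa [Int.natCast_dvd_natCast])
    (by rw [← Nat.cast_add, Int.natCast_dvd_natCast]; exact hab) h'
  exact ⟨PZ1_div Q h1, PZ1_div Q h2⟩

section

variable {p : ℕ} (hp : p.Prime) {C L : Type*} [Field C] [Field L] [Algebra C L] {A B : L}
  (tr : Transcendental C A) (gen : IntermediateField.adjoin C {A, B} = ⊤) {a b : ℕ}
  (ha : ¬ p ∣ a) (hb : ¬ p ∣ b) (h : A ^ a * (1 - A) ^ b = B ^ p)

include hp gen h in
theorem pz_fin : FiniteDimensional (IntermediateField.adjoin C {A}) L := by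
  refine finDim_weak (p := p) hp.two_le (x := A) (y := B) (h := X ^ a * (1 - X) ^ b) ?_ gen
  rw [← h, map_mul, map_pow, map_pow, map_sub, map_one, aeval_X]

include hp tr gen h in
private theorem PZ1_repr (f : L) :
    ∃ (a' : ℕ → C[X]) (b' : C[X]), b' ≠ 0 ∧ f * aeval A b' = ev p A B a' := by
  refine repr_weak (p := p) hp.two_le (x := A) (y := B) (h := X ^ a * (1 - X) ^ b) tr ?_ gen f
  rw [← h, map_mul, map_pow, map_pow, map_sub, map_one, aeval_X]

include tr h in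
private theorem PZ1_one {Q : ValuationSubring L} (h1 : Q.valuation (A - 1) < 1) :
    Q.valuation B ^ p = Q.valuation (A - algebraMap C L 1) ^ b := by
  have hA : Q.valuation A = 1 := by
    have e1 : A = 1 + (A - 1) := by ring
    rw [e1]
    exact Valuation.map_one_add_of_lt _ h1
  rw [map_one (algebraMap C L), ← map_pow, ← h, map_mul, map_pow, map_pow, hA, one_pow, one_mul,
    Valuation.map_sub_swap]

include tr h in
private theorem PZ1_zero {Q : ValuationSubring L} (h1 : Q.valuation A < 1) :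
    Q.valuation B ^ p = Q.valuation (A - algebraMap C L 0) ^ a := by
  have hA : Q.valuation (1 - A) = 1 := Valuation.map_one_sub_of_lt _ h1
  rw [map_zero (algebraMap C L), sub_zero, ← map_pow, ← h, map_mul, map_pow, map_pow, hA, one_pow,
    mul_one]

include hp tr gen hb h in
theorem pz_unique_one {Q Q' : ValuationSubring L} (hQ : ∀ c : C, algebraMap C L c ∈ Q)
    (hQ' : ∀ c : C, algebraMap C L c ∈ Q') (h1 : Q.valuation (A - 1) < 1)
    (h1' : Q'.valuation (A - 1) < 1) : Q = Q' := by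
  obtain ⟨g, hg, e1, e2⟩ := PZ1_gen hp tr hQ 1 (by rw [map_one]; exact h1) hb (PZ1_one tr h h1)
  obtain ⟨g', hg', e1', e2'⟩ :=
    PZ1_gen hp tr hQ' 1 (by rw [map_one]; exact h1') hb (PZ1_one tr h h1')
  exact tot_unique hp tr (PZ1_repr hp tr gen h) (fun P => -(P.rootMultiplicity 1 : ℤ))
    (d := -(b : ℤ)) (by rw [dvd_neg, Int.natCast_dvd_natCast]; exact hb) hg hg' e1 e1' e2 e2'

include hp tr gen ha h in
theorem pz_unique_zero {Q Q' : ValuationSubring L} (hQ : ∀ c : C, algebraMap C L c ∈ Q)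
    (hQ' : ∀ c : C, algebraMap C L c ∈ Q') (h1 : Q.valuation A < 1)
    (h1' : Q'.valuation A < 1) : Q = Q' := by
  obtain ⟨g, hg, e1, e2⟩ :=
    PZ1_gen hp tr hQ 0 (by rw [map_zero, sub_zero]; exact h1) ha (PZ1_zero tr h h1)
  obtain ⟨g', hg', e1', e2'⟩ :=
    PZ1_gen hp tr hQ' 0 (by rw [map_zero, sub_zero]; exact h1') ha (PZ1_zero tr h h1')
  exact tot_unique hp tr (PZ1_repr hp tr gen h) (fun P => -(P.rootMultiplicity 0 : ℤ))
    (d := -(a : ℤ)) (by rw [dvd_neg, Int.natCast_dvd_natCast]; exact ha) hg hg' e1 e1' e2 e2'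

end

theorem pz_gen {p : ℕ} (hp : p.Prime) {C L₁ L : Type*} [Field C] [IsAlgClosed C] [Field L₁]
    [Algebra C L₁] [Field L] [Algebra C L] [Algebra L₁ L] [IsScalarTower C L₁ L] {A B : L₁}
    {x y : L} (hx0 : x ≠ 0) (hy0 : y ≠ 0) (hx : x ^ p = algebraMap L₁ L A)
    (hy : y ^ p = 1 - algebraMap L₁ L A) {a b : ℕ} (hb : ¬ p ∣ b)
    (h : A ^ a * (1 - A) ^ b = B ^ p) (gen : IntermediateField.adjoin C {x, y} = ⊤) :
    IntermediateField.adjoin L₁ {x} = ⊤ := by
  have hq : Prime (p : ℤ) := Nat.prime_iff_prime_int.1 hp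
  set E : IntermediateField L₁ L := IntermediateField.adjoin L₁ {x} with hE
  have hxE : x ∈ E := IntermediateField.mem_adjoin_simple_self L₁ x
  have hEalg : ∀ z : L₁, algebraMap L₁ L z ∈ E := fun z => E.algebraMap_mem z
  have hEC : ∀ c : C, algebraMap C L c ∈ E := fun c => by
    rw [IsScalarTower.algebraMap_apply C L₁ L]
    exact hEalg _
  have hxy : x ^ a * y ^ b ≠ 0 := mul_ne_zero (pow_ne_zero _ hx0) (pow_ne_zero _ hy0)
  have h1 : (x ^ a * y ^ b) ^ p = algebraMap L₁ L B ^ p := by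
    rw [← map_pow, ← h, mul_pow, ← pow_mul, ← pow_mul, mul_comm a p, mul_comm b p, pow_mul,
      pow_mul, hx, hy, map_mul, map_pow, map_pow, map_sub, map_one]
  obtain ⟨c, hc⟩ := root_of_unity_mem C L hp.pos (ξ := algebraMap L₁ L B / (x ^ a * y ^ b)) (by
    rw [div_pow, h1, div_self]
    rw [← h1]
    exact pow_ne_zero _ hxy)
  have hc0 : algebraMap C L c ≠ 0 := by
    intro h0
    rw [h0] at hc
    have h2 : (algebraMap L₁ L B / (x ^ a * y ^ b)) ^ p = 1 := by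
      rw [div_pow, h1, div_self]
      rw [← h1]
      exact pow_ne_zero _ hxy
    rw [← hc, zero_pow hp.ne_zero] at h2
    exact zero_ne_one h2
  have hyb : y ^ b ∈ E := by
    have h2 : y ^ b = algebraMap L₁ L B / (algebraMap C L c * x ^ a) := by
      rw [hc]
      have hB : algebraMap L₁ L B ≠ 0 := by
        intro h0
        rw [h0, zero_pow hp.ne_zero] at h1
        exact pow_ne_zero _ hxy h1
      have hxa : x ^ a ≠ 0 := pow_ne_zero _ hx0
      have hyb0 : y ^ b ≠ 0 := pow_ne_zero _ hy0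
      field_simp
    rw [h2]
    exact div_mem (hEalg B) (mul_mem (hEC c) (pow_mem hxE a))
  have hyp : y ^ p ∈ E := by
    rw [hy]
    exact sub_mem (one_mem E) (hEalg A)
  have hyE : y ∈ E := by
    have hb' : ¬ (p : ℤ) ∣ (b : ℤ) := by rwa [Int.natCast_dvd_natCast]
    obtain ⟨u, w, huw⟩ := ((Prime.coprime_iff_not_dvd hq).2 hb')
    have h2 : y = (y ^ p) ^ u * (y ^ b) ^ w := by
      rw [← zpow_natCast y p, ← zpow_natCast y b, ← zpow_mul, ← zpow_mul, ← zpow_add₀ hy0,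
        mul_comm (p : ℤ) u, mul_comm (b : ℤ) w, huw, zpow_one]
    rw [h2]
    exact mul_mem (zpow_mem hyp u) (zpow_mem hyb w)
  have h3 : IntermediateField.adjoin C {x, y} ≤ E.restrictScalars C := by
    rw [IntermediateField.adjoin_le_iff]
    rintro z (rfl | rfl)
    · exact hxE
    · exact hyE
  rw [gen] at h3
  rw [eq_top_iff]
  intro z _
  exact h3 (IntermediateField.mem_top)

end Pool.Agent.Lib.MP_2f3286_ag.Gl
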