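import Pool.Agent.Lib.MP_2f3286_ag.Gl.SF
import Pool.Agent.Lib.MP_2f3286_ag.Full.Gauss

/-!
# Superelliptic function fields: the divisor of a polynomial in `x`   (module SG)

PROOF of `exists_above`. `Full.exists_dominating` for `φ = aeval x : C[X] →+* L` and the prime ideal `Ideal.span {X - C α}`
(a polynomial is in it iff `f.eval α = 0`, `Polynomial.dvd_iff_isRoot`; prime: `Polynomial.prime_X_sub_C`); `φ` is injective as
`x` is transcendental. The valuation ring contains `C` and `x`, `v (x - α) < 1`; it is not `⊤` as `v (x - α) ≠ 0`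
(`x ≠ α`, `x` transcendental) is `< 1` (in `⊤` every nonzero element has valuation one: `x - α` would be a unit).
PROOF of `ratDiv`. Take `Q` above `α`. `P = (X - α) ^ m * P₁`, `m = rootMultiplicity α P`, `P₁(α) ≠ 0`
(`Polynomial.exists_eq_pow_rootMultiplicity_mul_and_not_dvd`), so `v (P₁(x)) = 1` (`v (P₁(x) - P₁(α)) < 1`), `v (P(x)) =
v (x - α) ^ m`. `DivAt`: `v (P(x)) = v c ^ p`, `c ≠ 0`, and `v c = v (x - α) ^ n` (`fin_place`, first case as `h(α) ≠ 0`). As
`v (x - α)` is `≠ 0` and `< 1`, `m = p n` (`zpow` is injective: `zpow_right_injective₀` or strict monotonicity).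
-/

open Polynomial IntermediateField
open Pool.Agent.Lib.MP_2f3286_ag.Pt (IsPlc DivAt)

namespace Pool.Agent.Lib.MP_2f3286_ag.Gl

variable {p : ℕ} {C L : Type*} [Field C] [Field L] [Algebra C L] {x y : L} {h : C[X]}

theorem exists_above (tr : Transcendental C x) (α : C) :
    ∃ Q : ValuationSubring L, IsPlc C Q ∧ x ∈ Q ∧ Q.valuation (x - algebraMap C L α) < 1 := by
  have hprime : (Ideal.span {(X - Polynomial.C α : C[X])}).IsPrime := by
    rw [Ideal.span_singleton_prime (X_sub_C_ne_zero α)]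
    exact prime_X_sub_C α
  have hinj : Function.Injective (aeval x : C[X] →ₐ[C] L) := transcendental_iff_injective.1 tr
  obtain ⟨Q, h1, h2, _⟩ := Full.exists_dominating ((aeval x : C[X] →ₐ[C] L) : C[X] →+* L)
    (Ideal.span {(X - Polynomial.C α : C[X])}) (fun a ha => by
      have h0 : a = 0 := by
        apply hinj
        rw [map_zero]
        exact ha
      rw [h0]
      exact Ideal.zero_mem _)
  have hx : x ∈ Q := by
    have := h1 X
    simpa using this
  have hlt : Q.valuation (x - algebraMap C L α) < 1 := by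
    have := h2 (X - Polynomial.C α) (Ideal.mem_span_singleton_self _)
    simpa using this
  have hne : x - algebraMap C L α ≠ 0 := by
    intro h
    apply tr
    refine ⟨X - Polynomial.C α, X_sub_C_ne_zero α, ?_⟩
    simpa using h
  refine ⟨Q, ⟨fun a => ?_, ?_⟩, hx, hlt⟩
  · have := h1 (Polynomial.C a)
    simpa using this
  · intro htop
    have h3 : (x - algebraMap C L α)⁻¹ ∈ Q := by
      rw [htop]
      trivial
    rw [← Q.valuation_le_one_iff, map_inv₀] at h3
    have h4 := (inv_le_one₀ (zero_lt_iff.2 ((Valuation.ne_zero_iff _).2 hne))).1 h3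
    exact absurd hlt (not_lt.2 h4)

theorem IsSup.ratDiv [IsAlgClosed C] (hp : p.Prime) (hpC : (p : C) ≠ 0) (H : IsSup p x y h)
    {P : C[X]} (hP : P ≠ 0)
    (hdiv : ∀ Q : ValuationSubring L, IsPlc C Q → x ∈ Q → DivAt p (aeval x P) Q) {α : C}
    (hα : h.eval α ≠ 0) : p ∣ P.rootMultiplicity α := by
  obtain ⟨Q, hQ, hx, hlt⟩ := exists_above (L := L) H.tr α
  have hne : x - algebraMap C L α ≠ 0 := by
    intro h
    apply H.tr
    refine ⟨X - Polynomial.C α, X_sub_C_ne_zero α, ?_⟩
    simpa using h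
  have hv0 : Q.valuation (x - algebraMap C L α) ≠ 0 := (Valuation.ne_zero_iff _).2 hne
  have hvpos : 0 < Q.valuation (x - algebraMap C L α) := zero_lt_iff.2 hv0
  obtain ⟨P₁, hP₁, hP₁'⟩ := exists_eq_pow_rootMultiplicity_mul_and_not_dvd P hP α
  have hev : (P₁.comp (X + Polynomial.C α)).coeff 0 ≠ 0 := by
    rw [coeff_zero_eq_eval_zero, eval_comp]
    simp only [eval_add, eval_X, eval_C, zero_add]
    intro h0
    exact hP₁' (dvd_iff_isRoot.2 h0)
  have hu := Pt.Ex1.val_unit Q hQ.1 (x - algebraMap C L α) hlt _ hev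
  rw [aeval_comp] at hu
  have e1 : (aeval (x - algebraMap C L α)) (X + Polynomial.C α) = x := by simp
  rw [e1] at hu
  have hvP : Q.valuation (aeval x P) = Q.valuation (x - algebraMap C L α) ^
      (P.rootMultiplicity α) := by
    conv_lhs => rw [hP₁]
    rw [map_mul, map_mul, hu, mul_one, map_pow, map_pow]
    congr 2
    simp
  obtain ⟨c, hc, hcv⟩ := hdiv Q hQ hx
  have hfin : ∃ n : ℤ, Q.valuation c = Q.valuation (x - algebraMap C L α) ^ n := by
    rcases H.fin_place hp hpC hQ hx hlt with h1 | h1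
    · exact h1.2.2 c hc
    · exact absurd h1.1 hα
  obtain ⟨n, hn⟩ := hfin
  have hvc0 : Q.valuation (c ^ p) ≠ 0 := (Valuation.ne_zero_iff _).2 (pow_ne_zero _ hc)
  have e2 : Q.valuation (aeval x P) = Q.valuation c ^ p := by
    rw [map_mul, map_inv₀] at hcv
    have h2 := congrArg (· * Q.valuation (c ^ p)) hcv
    simp only [one_mul] at h2
    rw [inv_mul_cancel_right₀ hvc0, map_pow] at h2
    exact h2
  rw [hvP, hn, ← zpow_natCast, ← zpow_natCast, ← zpow_mul] at e2
  have hinj : Function.Injective fun k : ℤ => Q.valuation (x - algebraMap C L α) ^ k :=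
    zpow_right_injective₀ hvpos hlt.ne
  have e3 : ((P.rootMultiplicity α : ℕ) : ℤ) = n * (p : ℤ) := hinj e2
  have e4 : (p : ℤ) ∣ ((P.rootMultiplicity α : ℕ) : ℤ) := ⟨n, by rw [e3]; ring⟩
  exact_mod_cast e4

end Pool.Agent.Lib.MP_2f3286_ag.Gl
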