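import Pool.Agent.Lib.MP_2f3286_ag.Gl.GLT
import Pool.Agent.Lib.MP_2f3286_ag.Gl.HX
import Pool.Agent.Lib.MP_2f3286_ag.Gl.SK
import Pool.Agent.Lib.MP_2f3286_ag.Gl.KER
import Pool.Agent.Lib.MP_2f3286_ag.Gl.PZ1
import Pool.Agent.Lib.MP_2f3286_ag.Gl.SG
import Pool.Agent.Lib.MP_2f3286_ag.Fer.Away

/-!
# Step zero at the places which do not divide `p`   (module PZ)

We write `a : F` for its image in `M`. PROOF. Suppose one of `PV p w c`, `PV p w c'` is false; call it `c₀`, `γ₀ ^ p = c₀` in `kb`. We apply `glt` with `c₀`, `γ₀`. (0) `γ ^ p = c`, `γ' ^ p = c'` in `kb` (one of them is `γ₀`), `x = γ x₀`,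
`y = γ' y₀`: `x ^ p = A`, `y ^ p = 1 - A`, both `≠ 0`. `L₁ = adjoin kb {A, B}`, `L = adjoin kb {x, y}` in `M`; `A = x ^ p`, `B = ξ x ^ a y ^ b` with `ξ ^ p = 1`, so `L₁ ≤ L`; the algebra `L₁ → L` is the inclusion
(`IntermediateField.inclusion`, `.toAlgebra`). `t = A`, `pz_fin`. (1) `r = - x`: `r ^ p + 1 = 1 - A = y ^ p` (`p` odd). `X = (r + ζ ^ 0)⁻¹`, `Y = y X` in `L`: `hx_sup` with `l = 0`: `IsSup p X Y (hpol ζ p 0)` (`x` is transcendental over
`kb` as `A` is; `adjoin kb {r, y} = ⊤`). `hint`, `hlead`, `hdiff`, `hsplit` as in module PQ. (2) `s σ x = ξ_σ x` with `ξ_σ ^ p = 1` (`(s σ x) ^ p = A`), `ξ_σ` a power of `ζ`, the same for `y`; `s σ` fixes `A`, `B`. So `L`, `L₁` are stable, and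
`(s σ)^[p]` fixes `x`, `y`, so `X`, `Y` (`hΦ`). (3) `hτ`: for every `σ`, `IsSup.exists_semi` (the coefficients of `hpol` are in `F`, fixed by `σ`) gives `τ : L ≃+* L` over `σ` which fixes `X` and `Y`, so `r`, `x`, `y`, so `A` and `B = ξ x ^ a y ^ b`
(`ξ` is a power of `ζ`, fixed). So `τ` and `s σ` agree on `kb`, `A`, `B`, so on `L₁` (`IntermediateField.adjoin_induction` for the set of `f ∈ L₁` with `τ f = s σ f`). (4) `hker`: `ker_pow` with `x ^ p = A`, `pz_gen`.
`glt`: `δ`. (5) `𝒪₁`: `exists_above` for `A` in `M`, `α = 1`: `v (A - 1) < 1`; stable: for every `σ` the valuation rings `𝒪₁ ∩ L₁` and `(s σ)⁻¹ 𝒪₁ ∩ L₁` of `L₁` are equal by `pz_unique_one`; some element of `L₁` is not in `𝒪₁`: `(A - 1)⁻¹`.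
`IsJ p kb L₁ x`: `x ^ p = A`, `pz_divAt`. `v (x ^ p - 1) < 1`, so `v (x - b₀) < 1` with `b₀ ^ p = 1` (factorisation of `Z ^ p - 1`), `b₀` a power of `ζ`, `δ b₀ = b₀`. `glt`: `v (s δ x - b₀) < 1`. `s δ x = ξ x`, so `v (ξ b₀ - b₀) < 1`, `ξ = 1`: `s δ x = x`, so
`δ γ = γ` (`x = γ x₀`, `s δ x₀ = x₀ ≠ 0`). (6) `𝒪₀`: `exists_above` for `A`, `α = 0`, stable by `pz_unique_zero`. `y ^ p = 1 - A ≡ 1`, `IsJ p kb L₁ y`, the same argument: `s δ y = y`, `δ γ' = γ'`. So `δ γ₀ = γ₀` in both cases: contradiction.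
PROOF of `pv_zero3` (integer exponents): take natural numbers `a'`, `b'` with `p ∣ a' - a`, `p ∣ b' - b`, `B' = B * A ^ ((a' - a) / p) * (1 - A) ^ ((b' - b) / p)`; `A ^ a' (1 - A) ^ b' = B' ^ p`.
-/

open Polynomial IntermediateField IsDedekindDomain NumberField

namespace Pool.Agent.Lib.MP_2f3286_ag.Gl

open Pool.Agent.Lib.MP_2f3286_ag.Fer (PV)
open Pool.Agent.Lib.MP_2f3286_ag.Pt (IsPlc DivAt)

/-! ### valuation rings -/

theorem pz_lt {E : Type*} [Field E] (Q : ValuationSubring E) {z : E} (hz : z ≠ 0) :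
    Q.valuation z < 1 ↔ z⁻¹ ∉ Q := by
  rw [← Q.valuation_le_one_iff, map_inv₀, not_le]
  have h0 : 0 < Q.valuation z := zero_lt_iff.mpr ((Valuation.ne_zero_iff _).mpr hz)
  exact (one_lt_inv₀ h0).symm

/-- a section element which acts as a power of `ζ` on `z`, `z ^ p ≡ 1`, fixes `z` -/
theorem pz_fix {F kb M : Type*} [Field F] [Field kb] [Algebra F kb] [Field M] [Algebra kb M]
    {p : ℕ} (hp : p.Prime) {ζ : F} (hζ : IsPrimitiveRoot ζ p) (O : ValuationSubring M)
    (hO : ∀ a : kb, algebraMap kb M a ∈ O) {z z' : M} (hz : O.valuation (z ^ p - 1) < 1) {k : ℕ}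
    (hz' : z' = algebraMap kb M (algebraMap F kb (ζ ^ k)) * z)
    (H : ∀ i : ℕ, O.valuation (z - algebraMap kb M (algebraMap F kb (ζ ^ i))) < 1 →
      O.valuation (z' - algebraMap kb M (algebraMap F kb (ζ ^ i))) < 1) : z' = z := by
  haveI : NeZero p := ⟨hp.ne_zero⟩
  have hζk : IsPrimitiveRoot (algebraMap F kb ζ) p :=
    hζ.map_of_injective (algebraMap F kb).injective
  have hζM : IsPrimitiveRoot (algebraMap kb M (algebraMap F kb ζ)) p :=
    hζk.map_of_injective (algebraMap kb M).injective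
  have hcst : ∀ c : F, c ≠ 0 → O.valuation (algebraMap kb M (algebraMap F kb c)) = 1 := by
    intro c hc
    exact Pt.Ex1.val_C O hO _ (by rwa [Ne, map_eq_zero])
  obtain ⟨i, hi⟩ : ∃ i : ℕ, O.valuation (z - algebraMap kb M (algebraMap F kb (ζ ^ i))) < 1 := by
    by_contra hcon
    push Not at hcon
    have h1 := hζM.pow_sub_pow_eq_prod_sub_mul z 1 hp.pos
    rw [one_pow] at h1
    rw [h1, map_prod] at hz
    refine absurd hz (not_lt.mpr ?_)
    refine Finset.one_le_prod' (fun ξ hξ => ?_)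
    rw [Polynomial.mem_nthRootsFinset hp.pos] at hξ
    obtain ⟨i, _, hi⟩ := hζM.eq_pow_of_pow_eq_one hξ
    have h2 := hcon i
    rw [map_pow, map_pow, hi] at h2
    rw [mul_one]
    exact h2
  have h1 := H i hi
  have hζ0 : ζ ≠ 0 := hζ.ne_zero hp.ne_zero
  set e := algebraMap kb M (algebraMap F kb (ζ ^ k)) with he
  set f := algebraMap kb M (algebraMap F kb (ζ ^ i)) with hf
  have hve : O.valuation e = 1 := hcst _ (pow_ne_zero _ hζ0)
  have hvf : O.valuation f = 1 := hcst _ (pow_ne_zero _ hζ0)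
  have h2 : O.valuation (e * (z - f)) < 1 := by
    rw [map_mul, hve, one_mul]; exact hi
  have h3 : O.valuation ((e - 1) * f) < 1 := by
    have h4 : (e - 1) * f = (z' - f) - e * (z - f) := by rw [hz']; ring
    rw [h4]
    exact lt_of_le_of_lt (Valuation.map_sub _ _ _) (max_lt h1 h2)
  rw [map_mul, hvf, mul_one] at h3
  have h5 : e - 1 = algebraMap kb M (algebraMap F kb (ζ ^ k - 1)) := by
    rw [he, map_sub, map_sub, map_one, map_one]
  have h6 : ζ ^ k - 1 = 0 := by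
    by_contra h7
    rw [h5, hcst _ h7] at h3
    exact lt_irrefl _ h3
  rw [h6, map_zero, map_zero, sub_eq_zero] at h5
  rw [hz', h5, one_mul]

/-! ### generation -/

/-- two homomorphisms which agree on generators -/
theorem pz_agree {C E M : Type*} [Field C] [Field E] [Algebra C E] [Field M] (φ ψ : E →+* M)
    (hC : ∀ c : C, φ (algebraMap C E c) = ψ (algebraMap C E c)) {S : Set E}
    (hS : IntermediateField.adjoin C S = ⊤) (h : ∀ f ∈ S, φ f = ψ f) (f : E) : φ f = ψ f := by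
  have hf : f ∈ IntermediateField.adjoin C S := by rw [hS]; trivial
  induction hf using IntermediateField.adjoin_induction with
  | mem x hx => exact h x hx
  | algebraMap x => exact hC x
  | add x y _ _ hx hy => rw [map_add, map_add, hx, hy]
  | inv x _ hx => rw [map_inv₀, map_inv₀, hx]
  | mul x y _ _ hx hy => rw [map_mul, map_mul, hx, hy]

/-- stability is seen on generators -/
theorem pz_stable {C E M : Type*} [Field C] [Field E] [Algebra C E] [Field M] [Algebra E M]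
    (T : M →+* M) (hC : ∀ c : C, ∃ f' : E, T (algebraMap E M (algebraMap C E c)) = algebraMap E M f')
    {S : Set E} (hS : IntermediateField.adjoin C S = ⊤)
    (h : ∀ f ∈ S, ∃ f' : E, T (algebraMap E M f) = algebraMap E M f') (f : E) :
    ∃ f' : E, T (algebraMap E M f) = algebraMap E M f' := by
  have hf : f ∈ IntermediateField.adjoin C S := by rw [hS]; trivial
  induction hf using IntermediateField.adjoin_induction with
  | mem x hx => exact h x hx
  | algebraMap x => exact hC x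
  | add x y _ _ hx hy =>
    obtain ⟨u, hu⟩ := hx
    obtain ⟨v, hv⟩ := hy
    exact ⟨u + v, by rw [map_add, map_add, map_add, hu, hv]⟩
  | inv x _ hx =>
    obtain ⟨u, hu⟩ := hx
    exact ⟨u⁻¹, by rw [map_inv₀, map_inv₀, map_inv₀, hu]⟩
  | mul x y _ _ hx hy =>
    obtain ⟨u, hu⟩ := hx
    obtain ⟨v, hv⟩ := hy
    exact ⟨u * v, by rw [map_mul, map_mul, map_mul, hu, hv]⟩

theorem pz_gen_sub {C M : Type*} [Field C] [Field M] [Algebra C M] (u v : M) :
    IntermediateField.adjoin C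
      ({⟨u, IntermediateField.subset_adjoin C {u, v} (by simp)⟩,
        ⟨v, IntermediateField.subset_adjoin C {u, v} (by simp)⟩} :
        Set (IntermediateField.adjoin C ({u, v} : Set M))) = ⊤ := by
  apply IntermediateField.lift_injective
  rw [IntermediateField.lift_adjoin, IntermediateField.lift_top, Set.image_pair]

theorem pz_iter {K M : Type*} [Field K] [Field M] [Algebra K M] (T : Gal(M/K)) (n : ℕ) (u : M) :
    (T : M → M)^[n] u = (T ^ n) u := by
  induction n with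
  | zero => rfl
  | succ n ih => rw [Function.iterate_succ_apply', ih, pow_succ', AlgEquiv.mul_apply]

/-- the valuation rings above `u` are stable -/
theorem pz_stab {C E K M : Type*} [Field C] [Field E] [Algebra C E] [Field K] [Field M]
    [Algebra K M] [Algebra E M] [Algebra C M] [IsScalarTower C E M] (T : Gal(M/K)) (O : ValuationSubring M)
    (hO : ∀ c : C, algebraMap C M c ∈ O) (hT : ∀ c : C, T (algebraMap C M c) ∈ O) {u : E}
    (hu0 : u ≠ 0) (hu : T (algebraMap E M u) = algebraMap E M u)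
    (huv : O.valuation (algebraMap E M u) < 1)
    (hU : ∀ Q Q' : ValuationSubring E, (∀ c : C, algebraMap C E c ∈ Q) →
      (∀ c : C, algebraMap C E c ∈ Q') → Q.valuation u < 1 → Q'.valuation u < 1 → Q = Q')
    (f : E) : T (algebraMap E M f) ∈ O ↔ algebraMap E M f ∈ O := by
  have hu1 : algebraMap E M u ≠ 0 := by rwa [Ne, map_eq_zero]
  have h1 := hU (O.comap (algebraMap E M)) (O.comap ((T : M →+* M).comp (algebraMap E M)))
    (fun c => by
      rw [ValuationSubring.mem_comap, ← IsScalarTower.algebraMap_apply]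
      exact hO c)
    (fun c => by
      rw [ValuationSubring.mem_comap, RingHom.comp_apply, ← IsScalarTower.algebraMap_apply]
      exact hT c)
    (by
      rw [pz_lt _ hu0, ValuationSubring.mem_comap, map_inv₀]
      exact (pz_lt O hu1).mp huv)
    (by
      rw [pz_lt _ hu0, ValuationSubring.mem_comap, map_inv₀, RingHom.comp_apply]
      change (T (algebraMap E M u))⁻¹ ∉ O
      rw [hu]
      exact (pz_lt O hu1).mp huv)
  have h2 : f ∈ O.comap (algebraMap E M) ↔ f ∈ O.comap ((T : M →+* M).comp (algebraMap E M)) := by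
    rw [h1]
  rw [ValuationSubring.mem_comap, ValuationSubring.mem_comap, RingHom.comp_apply] at h2
  exact h2.symm

theorem pz_core {F kb K M : Type*} [Field F] [NumberField F] [Field kb] [Algebra F kb]
    [IsGalois F kb] [IsAlgClosed kb] [Field K] [Field M] [Algebra K M] [Algebra kb M]
    [Algebra.IsAlgebraic K M] (s : Gal(kb/F) →* Gal(M/K)) (hs : Continuous s)
    (hsec : ∀ σ a, s σ (algebraMap kb M a) = algebraMap kb M (σ a)) {p : ℕ} (hp : p.Prime)
    (hp2 : p ≠ 2)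
    (𝒱 : Set (ValuationSubring M)) (h𝒱 : ∀ V ∈ 𝒱, ∀ a : kb, algebraMap kb M a ∈ V)
    (hrad : ∀ ρ : M, ρ ≠ 0 → (∀ V ∈ 𝒱, DivAt p ρ V) → ∃ β : M, β ^ p = ρ)
    {ζ : F} (hζ : IsPrimitiveRoot ζ p) (w : HeightOneSpectrum (𝓞 F))
    (hpw : (p : 𝓞 F) ∉ w.asIdeal) {A B x₀ y₀ : M} (hAt : Transcendental kb A)
    (hA : ∀ σ, s σ A = A) (hB : ∀ σ, s σ B = B)
    (hx : ∀ σ, s σ x₀ = x₀) (hy : ∀ σ, s σ y₀ = y₀) {γ γ' : kb}
    (hγ : ∃ c : F, γ ^ p = algebraMap F kb c) (hγ' : ∃ c : F, γ' ^ p = algebraMap F kb c)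
    (hAc : (algebraMap kb M γ * x₀) ^ p = A) (hAc' : (algebraMap kb M γ' * y₀) ^ p = 1 - A)
    {L₁ L : Type*} [Field L₁] [Algebra kb L₁] [Field L] [Algebra kb L] [Algebra L₁ L]
    [IsScalarTower kb L₁ L] [Algebra L M] [IsScalarTower kb L M] [Algebra L₁ M]
    [IsScalarTower L₁ L M] [IsScalarTower kb L₁ M] {A₁ B₁ : L₁} {x₁ y₁ : L}
    (hA₁ : algebraMap L₁ M A₁ = A) (hB₁ : algebraMap L₁ M B₁ = B)
    (hx₁ : algebraMap L M x₁ = algebraMap kb M γ * x₀)
    (hy₁ : algebraMap L M y₁ = algebraMap kb M γ' * y₀)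
    (gen₁ : IntermediateField.adjoin kb {A₁, B₁} = ⊤)
    (gen : IntermediateField.adjoin kb {x₁, y₁} = ⊤) {a b : ℕ} (ha : ¬ p ∣ a) (hb : ¬ p ∣ b)
    (hab : ¬ p ∣ a + b) (h : A ^ a * (1 - A) ^ b = B ^ p) {c₀ : F} (hc₀ : c₀ ≠ 0)
    (hc₀' : ¬ PV p w c₀) {γ₀ : kb} (hγ₀ : γ₀ ^ p = algebraMap F kb c₀) :
    ∃ δ : Gal(kb/F), δ γ₀ ≠ γ₀ ∧ δ γ = γ ∧ δ γ' = γ' := by
  haveI : NeZero p := ⟨hp.ne_zero⟩
  have hζ0 : ζ ≠ 0 := hζ.ne_zero hp.ne_zero
  have hζk : IsPrimitiveRoot (algebraMap F kb ζ) p :=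
    hζ.map_of_injective (algebraMap F kb).injective
  -- elementary facts
  have hA0 : A ≠ 0 := by
    rintro rfl
    exact hAt isAlgebraic_zero
  have hA1 : 1 - A ≠ 0 := by
    intro h0
    have h1 : A = 1 := (sub_eq_zero.mp h0).symm
    rw [h1] at hAt
    exact hAt isAlgebraic_one
  have hx0M : algebraMap kb M γ * x₀ ≠ 0 := by
    intro h0
    rw [h0, zero_pow hp.ne_zero] at hAc
    exact hA0 hAc.symm
  have hy0M : algebraMap kb M γ' * y₀ ≠ 0 := by
    intro h0
    rw [h0, zero_pow hp.ne_zero] at hAc'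
    exact hA1 hAc'.symm
  have hroot : ∀ ξ : kb, ξ ^ p = 1 → ∃ i : ℕ, ξ = algebraMap F kb (ζ ^ i) := by
    intro ξ hξ
    obtain ⟨i, _, hi⟩ := hζk.eq_pow_of_pow_eq_one hξ
    exact ⟨i, by rw [map_pow, hi]⟩
  -- the action on `ι γ * x₀`
  have hact : ∀ (g : kb) (u : M), (∃ c : F, g ^ p = algebraMap F kb c) → (∀ σ, s σ u = u) →
      algebraMap kb M g * u ≠ 0 → ∀ σ, ∃ i : ℕ, s σ (algebraMap kb M g * u) =
        algebraMap kb M (algebraMap F kb (ζ ^ i)) * (algebraMap kb M g * u) := by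
    intro g u hg hu hne σ
    obtain ⟨c, hc⟩ := hg
    have hg0 : g ≠ 0 := by
      rintro rfl
      rw [map_zero, zero_mul] at hne
      exact hne rfl
    obtain ⟨i, hi⟩ := hroot (σ g / g) (by
      rw [div_pow, ← map_pow, hc, σ.commutes, ← hc, div_self (pow_ne_zero _ hg0)])
    refine ⟨i, ?_⟩
    rw [← hi, map_mul, hsec, hu, ← mul_assoc, ← map_mul, div_mul_cancel₀ _ hg0]
  have hcF : ∀ σ (c : F), s σ (algebraMap kb M (algebraMap F kb c)) =
      algebraMap kb M (algebraMap F kb c) := by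
    intro σ c
    rw [hsec, σ.commutes]
  have hpow : ∀ (σ : Gal(kb/F)) (z : M) (i : ℕ),
      s σ z = algebraMap kb M (algebraMap F kb (ζ ^ i)) * z → ((s σ) ^ p) z = z := by
    intro σ z i hz
    have h1 : ∀ n : ℕ, ((s σ) ^ n) z = algebraMap kb M (algebraMap F kb (ζ ^ i)) ^ n * z := by
      intro n
      induction n with
      | zero => rw [pow_zero, pow_zero, one_mul]; rfl
      | succ n ih =>
        rw [pow_succ', AlgEquiv.mul_apply, ih, map_mul, map_pow, hcF, hz]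
        ring
    rw [h1 p, ← map_pow, ← map_pow, ← pow_mul, mul_comm i p, pow_mul, hζ.pow_eq_one, one_pow,
      map_one, map_one, one_mul]
  -- the fields
  have hinj₁ : Function.Injective (algebraMap L₁ M) := (algebraMap L₁ M).injective
  have hinj : Function.Injective (algebraMap L M) := (algebraMap L M).injective
  have htA₁ : Transcendental kb A₁ := by
    rw [← transcendental_algebraMap_iff hinj₁, hA₁]
    exact hAt
  have htow : ∀ f : L₁, algebraMap L M (algebraMap L₁ L f) = algebraMap L₁ M f :=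
    fun f => (IsScalarTower.algebraMap_apply L₁ L M f).symm
  have hxA : x₁ ^ p = algebraMap L₁ L A₁ := by
    apply hinj
    rw [map_pow, hx₁, hAc, htow, hA₁]
  have hyA : y₁ ^ p = 1 - algebraMap L₁ L A₁ := by
    apply hinj
    rw [map_pow, hy₁, hAc', map_sub, map_one, htow, hA₁]
  have hrel : A₁ ^ a * (1 - A₁) ^ b = B₁ ^ p := by
    apply hinj₁
    rw [map_mul, map_pow, map_pow, map_pow, map_sub, map_one, hA₁, hB₁, h]
  have hx10 : x₁ ≠ 0 := by
    intro h0
    rw [h0, map_zero] at hx₁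
    exact hx0M hx₁.symm
  have hy10 : y₁ ≠ 0 := by
    intro h0
    rw [h0, map_zero] at hy₁
    exact hy0M hy₁.symm
  have hA₁0 : A₁ ≠ 0 := by
    intro h0
    rw [h0, map_zero] at hA₁
    exact hA0 hA₁.symm
  have hA₁1 : 1 - A₁ ≠ 0 := by
    intro h0
    apply hA1
    rw [← hA₁, ← map_one (algebraMap L₁ M), ← map_sub, h0, map_zero]
  have htx : Transcendental kb (-x₁) := by
    intro halg
    apply htA₁
    rw [← isAlgebraic_algebraMap_iff (A := L) (algebraMap L₁ L).injective, ← hxA]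
    have h1 := halg.neg
    rw [neg_neg] at h1
    exact h1.pow p
  have hodd : Odd p := hp.odd_of_ne_two hp2
  have hrq : (-x₁) ^ p + 1 = y₁ ^ p := by
    rw [hodd.neg_pow, hxA, hyA]
    ring
  have gen' : IntermediateField.adjoin kb {-x₁, y₁} = ⊤ := by
    rw [eq_top_iff, ← gen, IntermediateField.adjoin_le_iff]
    intro f hf
    rcases hf with rfl | hf
    · have h1 := neg_mem (IntermediateField.subset_adjoin kb {-f, y₁} (Set.mem_insert (-f) {y₁}))
      rw [neg_neg] at h1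
      exact h1
    · rw [Set.mem_singleton_iff] at hf
      rw [hf]
      exact IntermediateField.subset_adjoin kb _ (by simp)
  have Hs := hx_sup hp hp2 hζk (l := 0) hp.pos htx hrq gen'
  have hXe : -x₁ + algebraMap kb L ((algebraMap F kb ζ) ^ 0) = 1 - x₁ := by
    rw [pow_zero, map_one]; ring
  rw [hXe] at Hs
  have hx1ne : 1 - x₁ ≠ 0 := by
    intro h0
    apply hA₁1
    have h1 : x₁ = 1 := (sub_eq_zero.mp h0).symm
    rw [h1, one_pow] at hxA
    have h2 : A₁ = 1 := by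
      apply (algebraMap L₁ L).injective
      rw [← hxA, map_one]
    rw [h2, sub_self]
  set X : L := (1 - x₁)⁻¹ with hX
  set Y : L := y₁ * X with hY
  have H : IsSup p X Y ((hpol ζ p 0).map (algebraMap F kb)) := by
    rw [hpol_map]
    exact Hs
  obtain ⟨hint, hlead, hdiff⟩ := hx_val hp hζ (l := 0) hp.pos (w.valuation F)
    (fun i hi => Fer.away_unit hp hζ w hpw hi)
  have hsplit : ∀ α : kb, ((hpol ζ p 0).map (algebraMap F kb)).eval α = 0 →
      ∃ a : F, algebraMap F kb a = α := by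
    intro α hα
    rw [hpol_map, hpol_root hp hζk hp.pos] at hα
    obtain ⟨m, _, _, hm⟩ := hα
    refine ⟨-(ζ ^ m - ζ ^ 0)⁻¹, ?_⟩
    rw [hm, map_neg, map_inv₀, map_sub, map_pow, map_pow]
  haveI : FiniteDimensional (IntermediateField.adjoin kb {A₁}) L₁ := pz_fin hp gen₁ hrel
  -- stability
  have hcst₁ : ∀ (σ : Gal(kb/F)) (c : kb), ∃ f' : L₁,
      (s σ : M →+* M) (algebraMap L₁ M (algebraMap kb L₁ c)) = algebraMap L₁ M f' := by
    intro σ c
    refine ⟨algebraMap kb L₁ (σ c), ?_⟩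
    rw [← IsScalarTower.algebraMap_apply, ← IsScalarTower.algebraMap_apply]
    exact hsec σ c
  have hst₁ : ∀ σ (f : L₁), ∃ f' : L₁, s σ (algebraMap L₁ M f) = algebraMap L₁ M f' := by
    intro σ f
    refine pz_stable (s σ : M →+* M) (hcst₁ σ) gen₁ ?_ f
    intro f hf
    rcases hf with rfl | hf
    · refine ⟨f, ?_⟩
      change s σ (algebraMap L₁ M f) = _
      rw [hA₁, hA]
    · rw [Set.mem_singleton_iff] at hf
      refine ⟨f, ?_⟩
      change s σ (algebraMap L₁ M f) = _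
      rw [hf, hB₁, hB]
  have hcst : ∀ (σ : Gal(kb/F)) (c : kb), ∃ f' : L,
      (s σ : M →+* M) (algebraMap L M (algebraMap kb L c)) = algebraMap L M f' := by
    intro σ c
    refine ⟨algebraMap kb L (σ c), ?_⟩
    rw [← IsScalarTower.algebraMap_apply, ← IsScalarTower.algebraMap_apply]
    exact hsec σ c
  have hactx : ∀ σ, ∃ i : ℕ, s σ (algebraMap L M x₁) =
      algebraMap kb M (algebraMap F kb (ζ ^ i)) * algebraMap L M x₁ := by
    intro σ
    rw [hx₁]
    exact hact γ x₀ hγ hx hx0M σ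
  have hacty : ∀ σ, ∃ i : ℕ, s σ (algebraMap L M y₁) =
      algebraMap kb M (algebraMap F kb (ζ ^ i)) * algebraMap L M y₁ := by
    intro σ
    rw [hy₁]
    exact hact γ' y₀ hγ' hy hy0M σ
  have hst : ∀ σ (f : L), ∃ f' : L, s σ (algebraMap L M f) = algebraMap L M f' := by
    intro σ f
    refine pz_stable (s σ : M →+* M) (hcst σ) gen ?_ f
    intro f hf
    rcases hf with hf | hf
    · obtain ⟨i, hi⟩ := hactx σ
      refine ⟨algebraMap kb L (algebraMap F kb (ζ ^ i)) * x₁, ?_⟩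
      change s σ (algebraMap L M f) = _
      rw [hf, hi, map_mul, ← IsScalarTower.algebraMap_apply kb L M]
    · rw [Set.mem_singleton_iff] at hf
      obtain ⟨i, hi⟩ := hacty σ
      refine ⟨algebraMap kb L (algebraMap F kb (ζ ^ i)) * y₁, ?_⟩
      change s σ (algebraMap L M f) = _
      rw [hf, hi, map_mul, ← IsScalarTower.algebraMap_apply kb L M]
  -- the element `B` in terms of `x`, `y`
  obtain ⟨iB, hiB⟩ : ∃ i : ℕ, algebraMap L₁ L B₁ =
      algebraMap kb L (algebraMap F kb (ζ ^ i)) * (x₁ ^ a * y₁ ^ b) := by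
    have hne : x₁ ^ a * y₁ ^ b ≠ 0 := mul_ne_zero (pow_ne_zero _ hx10) (pow_ne_zero _ hy10)
    have h1 : (algebraMap L₁ L B₁ / (x₁ ^ a * y₁ ^ b)) ^ p = 1 := by
      rw [div_pow, ← map_pow, ← hrel, mul_pow, ← pow_mul, ← pow_mul, mul_comm a, mul_comm b,
        pow_mul, pow_mul, hxA, hyA, map_mul, map_pow, map_pow, map_sub, map_one]
      apply div_self
      rw [← map_one (algebraMap L₁ L), ← map_sub]
      refine mul_ne_zero (pow_ne_zero _ ?_) (pow_ne_zero _ ?_)
      · rwa [Ne, map_eq_zero]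
      · rwa [Ne, map_eq_zero]
    obtain ⟨c, hc⟩ := root_of_unity_mem kb L hp.pos h1
    have h2 : c ^ p = 1 := by
      apply (algebraMap kb L).injective
      rw [map_pow, hc, h1, map_one]
    obtain ⟨i, hi⟩ := hroot c h2
    refine ⟨i, ?_⟩
    rw [← hi, hc, div_mul_cancel₀ _ hne]
  have hτ : ∀ σ : Gal(kb/F), (∀ e : F, e ≠ 0 → PV p w e → ∀ y : kb, y ^ p = algebraMap F kb e →
      σ y = y) → ∃ τ : L ≃+* L, IsSemi X Y (σ : kb ≃+* kb) τ ∧
        ∀ f : L₁, algebraMap L M (τ (algebraMap L₁ L f)) = s σ (algebraMap L₁ M f) := by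
    intro σ _
    obtain ⟨τ, hτ⟩ := H.exists_semi hp (δ := (σ : kb ≃+* kb)) (fun i => by
      rw [Polynomial.coeff_map]
      exact σ.commutes _)
    refine ⟨τ, hτ, ?_⟩
    have hX1 : x₁ = 1 - X⁻¹ := by rw [hX, inv_inv]; ring
    have hX0 : X ≠ 0 := inv_ne_zero hx1ne
    have hY1 : y₁ = Y * X⁻¹ := by rw [hY, mul_assoc, mul_inv_cancel₀ hX0, mul_one]
    have hτx : τ x₁ = x₁ := by
      rw [hX1, map_sub, map_one, map_inv₀, hτ.fx]
    have hτy : τ y₁ = y₁ := by
      rw [hY1, map_mul, map_inv₀, hτ.fx, hτ.fy]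
    have hτc : ∀ c : kb, τ (algebraMap kb L c) = algebraMap kb L (σ c) := hτ.const
    have hτA : τ (algebraMap L₁ L A₁) = algebraMap L₁ L A₁ := by
      rw [← hxA, map_pow, hτx]
    have hτB : τ (algebraMap L₁ L B₁) = algebraMap L₁ L B₁ := by
      rw [hiB, map_mul τ, map_mul τ, hτc, σ.commutes, map_pow τ x₁, map_pow τ y₁, hτx, hτy]
    intro f
    refine pz_agree (C := kb) ((algebraMap L M).comp ((τ : L →+* L).comp (algebraMap L₁ L)))
      ((s σ : M →+* M).comp (algebraMap L₁ M)) ?_ gen₁ ?_ f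
    · intro c
      change algebraMap L M (τ (algebraMap L₁ L (algebraMap kb L₁ c))) =
        s σ (algebraMap L₁ M (algebraMap kb L₁ c))
      rw [← IsScalarTower.algebraMap_apply kb L₁ L, hτc, ← IsScalarTower.algebraMap_apply kb L M,
        ← IsScalarTower.algebraMap_apply kb L₁ M, hsec]
    · intro f hf
      change algebraMap L M (τ (algebraMap L₁ L f)) = s σ (algebraMap L₁ M f)
      rcases hf with hf | hf
      · rw [hf, hτA, htow, hA₁, hA]
      · rw [Set.mem_singleton_iff] at hf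
        rw [hf, hτB, htow, hB₁, hB]
  have hΦ : ∀ σ, (s σ)^[p] (algebraMap L M X) = algebraMap L M X ∧
      (s σ)^[p] (algebraMap L M Y) = algebraMap L M Y := by
    intro σ
    obtain ⟨i, hi⟩ := hactx σ
    obtain ⟨j, hj⟩ := hacty σ
    have h1 := hpow σ _ i hi
    have h2 := hpow σ _ j hj
    have h3 : ((s σ) ^ p) (algebraMap L M X) = algebraMap L M X := by
      rw [hX, map_inv₀, map_inv₀, map_sub, map_sub, map_one, map_one, h1]
    rw [pz_iter, pz_iter]
    refine ⟨h3, ?_⟩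
    rw [hY, map_mul, map_mul, h3, h2]
  have hker : ∀ (u : L) (n : ℕ), (∃ f : L₁, u ^ p ^ n = algebraMap L₁ L f) →
      ∃ f : L₁, u ^ p = algebraMap L₁ L f :=
    fun u n hu => ker_pow (C := kb) hp hxA (pz_gen (C := kb) hp hx10 hy10 hxA hyA hb hrel gen) u n hu
  obtain ⟨δ, hδ1, _, hδ3⟩ := glt s hs hsec hp 𝒱 h𝒱 hrad hζ w hpw hc₀ hc₀' hγ₀ A₁ htA₁ H hint hlead
    hsplit hdiff hst₁ hst hτ hΦ hker
  refine ⟨δ, hδ1, ?_, ?_⟩
  -- the two places
  · have hmain : s δ (algebraMap kb M γ * x₀) = algebraMap kb M γ * x₀ := by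
      obtain ⟨O, hO, _, hOA⟩ := exists_above hAt (1 : kb)
      rw [map_one] at hOA
      have hne : A₁ - 1 ≠ 0 := by
        intro h0
        apply hA₁1
        rw [sub_eq_zero] at h0
        rw [h0, sub_self]
      have hv : O.valuation (algebraMap L₁ M (A₁ - 1)) < 1 := by
        rw [map_sub, map_one, hA₁]; exact hOA
      have hδO := hδ3 O hO.1 ⟨(A₁ - 1)⁻¹, by
          rw [map_inv₀]
          exact (pz_lt O (by rwa [Ne, map_eq_zero])).mp hv⟩
        (fun σ f => pz_stab (s σ) O hO.1 (fun c => by rw [hsec]; exact hO.1 _) hne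
          (by rw [map_sub, map_sub, map_one, map_one, hA₁, hA]) hv
          (fun Q Q' hQ hQ' h1 h1' => pz_unique_one hp htA₁ gen₁ hb hrel hQ hQ' h1 h1') f)
        (algebraMap kb M γ * x₀)
        ⟨hx0M, 1, A₁, by rw [pow_one, hAc, hA₁], fun Q hQ => by
          rw [pow_one]
          exact (pz_divAt hp Q hA₁0 hA₁1 ha hb hab hrel).1⟩
      obtain ⟨k, hk⟩ := hact γ x₀ hγ hx hx0M δ
      refine pz_fix hp hζ O hO.1 (by rw [hAc]; exact hOA) hk ?_
      intro i hi
      have h1 := hδO (algebraMap F kb (ζ ^ i)) (by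
        rw [Ne, map_eq_zero]; exact pow_ne_zero _ hζ0) hi
      rwa [δ.commutes] at h1
    rw [map_mul, hsec, hx] at hmain
    have hx00 : x₀ ≠ 0 := right_ne_zero_of_mul hx0M
    exact (algebraMap kb M).injective (mul_right_cancel₀ hx00 hmain)
  · have hmain : s δ (algebraMap kb M γ' * y₀) = algebraMap kb M γ' * y₀ := by
      obtain ⟨O, hO, _, hOA⟩ := exists_above hAt (0 : kb)
      rw [map_zero, sub_zero] at hOA
      have hv : O.valuation (algebraMap L₁ M A₁) < 1 := by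
        rw [hA₁]; exact hOA
      have hδO := hδ3 O hO.1 ⟨A₁⁻¹, by
          rw [map_inv₀]
          exact (pz_lt O (by rwa [Ne, map_eq_zero])).mp hv⟩
        (fun σ f => pz_stab (s σ) O hO.1 (fun c => by rw [hsec]; exact hO.1 _) hA₁0
          (by rw [hA₁, hA]) hv
          (fun Q Q' hQ hQ' h1 h1' => pz_unique_zero hp htA₁ gen₁ ha hrel hQ hQ' h1 h1') f)
        (algebraMap kb M γ' * y₀)
        ⟨hy0M, 1, 1 - A₁, by rw [pow_one, hAc', map_sub, map_one, hA₁], fun Q hQ => by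
          rw [pow_one]
          exact (pz_divAt hp Q hA₁0 hA₁1 ha hb hab hrel).2⟩
      obtain ⟨k, hk⟩ := hact γ' y₀ hγ' hy hy0M δ
      refine pz_fix hp hζ O hO.1 ?_ hk ?_
      · rw [hAc']
        have h1 : 1 - A - 1 = -A := by ring
        rw [h1, Valuation.map_neg]
        exact hOA
      intro i hi
      have h1 := hδO (algebraMap F kb (ζ ^ i)) (by
        rw [Ne, map_eq_zero]; exact pow_ne_zero _ hζ0) hi
      rwa [δ.commutes] at h1
    rw [map_mul, hsec, hy] at hmain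
    have hy00 : y₀ ≠ 0 := right_ne_zero_of_mul hy0M
    exact (algebraMap kb M).injective (mul_right_cancel₀ hy00 hmain)

section

variable {F kb K M : Type*} [Field F] [NumberField F] [Field kb] [Algebra F kb]
    [IsGalois F kb] [IsAlgClosed kb] [Field K] [Field M] [Algebra K M] [Algebra kb M]
    [Algebra.IsAlgebraic K M] (s : Gal(kb/F) →* Gal(M/K)) (hs : Continuous s)
    (hsec : ∀ σ a, s σ (algebraMap kb M a) = algebraMap kb M (σ a)) {p : ℕ} (hp : p.Prime)
    (hp2 : p ≠ 2)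
    (𝒱 : Set (ValuationSubring M)) (h𝒱 : ∀ V ∈ 𝒱, ∀ a : kb, algebraMap kb M a ∈ V)
    (hrad : ∀ ρ : M, ρ ≠ 0 → (∀ V ∈ 𝒱, DivAt p ρ V) → ∃ β : M, β ^ p = ρ)
    {ζ : F} (hζ : IsPrimitiveRoot ζ p) (w : HeightOneSpectrum (𝓞 F))
    (hpw : (p : 𝓞 F) ∉ w.asIdeal) {A B x₀ y₀ : M} (hAt : Transcendental kb A)
    (hA : ∀ σ, s σ A = A) (hB : ∀ σ, s σ B = B)
    (hx : ∀ σ, s σ x₀ = x₀) (hy : ∀ σ, s σ y₀ = y₀) {c c' : F} (hc : c ≠ 0) (hc' : c' ≠ 0)
    (hAc : A = algebraMap kb M (algebraMap F kb c) * x₀ ^ p)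
    (hAc' : 1 - A = algebraMap kb M (algebraMap F kb c') * y₀ ^ p)


include hs hsec hp hp2 h𝒱 hrad hζ hpw hAt hA hB hx hy hc hc' hAc hAc' in
theorem pv_zero2 {a b : ℕ} (ha : ¬ p ∣ a) (hb : ¬ p ∣ b) (hab : ¬ p ∣ a + b)
    (h : A ^ a * (1 - A) ^ b = B ^ p) : PV p w c ∧ PV p w c' := by
  obtain ⟨γ, hγ⟩ := IsAlgClosed.exists_pow_nat_eq (algebraMap F kb c) hp.pos
  obtain ⟨γ', hγ'⟩ := IsAlgClosed.exists_pow_nat_eq (algebraMap F kb c') hp.pos
  have hxp : (algebraMap kb M γ * x₀) ^ p = A := by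
    rw [mul_pow, ← map_pow, hγ, ← hAc]
  have hyp : (algebraMap kb M γ' * y₀) ^ p = 1 - A := by
    rw [mul_pow, ← map_pow, hγ', ← hAc']
  have hA0 : A ≠ 0 := by
    intro h0
    rw [h0] at hAt
    exact hAt isAlgebraic_zero
  have hA1 : 1 - A ≠ 0 := by
    intro h0
    have h1 : A = 1 := (sub_eq_zero.mp h0).symm
    rw [h1] at hAt
    exact hAt isAlgebraic_one
  set x : M := algebraMap kb M γ * x₀ with hxd
  set y : M := algebraMap kb M γ' * y₀ with hyd
  have hxL : x ∈ IntermediateField.adjoin kb ({x, y} : Set M) :=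
    IntermediateField.subset_adjoin kb _ (by simp)
  have hyL : y ∈ IntermediateField.adjoin kb ({x, y} : Set M) :=
    IntermediateField.subset_adjoin kb _ (by simp)
  have hAL : A ∈ IntermediateField.adjoin kb ({x, y} : Set M) := by
    rw [← hxp]; exact pow_mem hxL p
  have hBL : B ∈ IntermediateField.adjoin kb ({x, y} : Set M) := by
    have hne : x ^ a * y ^ b ≠ 0 := by
      refine mul_ne_zero (pow_ne_zero _ ?_) (pow_ne_zero _ ?_)
      · intro h0
        rw [h0, zero_pow hp.ne_zero] at hxp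
        exact hA0 hxp.symm
      · intro h0
        rw [h0, zero_pow hp.ne_zero] at hyp
        exact hA1 hyp.symm
    have h1 : (B / (x ^ a * y ^ b)) ^ p = 1 := by
      rw [div_pow, ← h, mul_pow, ← pow_mul, ← pow_mul, mul_comm a, mul_comm b,
        pow_mul, pow_mul, hxp, hyp]
      exact div_self (mul_ne_zero (pow_ne_zero _ hA0) (pow_ne_zero _ hA1))
    obtain ⟨d, hd⟩ := root_of_unity_mem kb M hp.pos h1
    have h2 : B = algebraMap kb M d * (x ^ a * y ^ b) := by
      rw [hd, div_mul_cancel₀ _ hne]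
    rw [h2]
    exact mul_mem (IntermediateField.algebraMap_mem _ d)
      (mul_mem (pow_mem hxL a) (pow_mem hyL b))
  have hle : IntermediateField.adjoin kb ({A, B} : Set M) ≤
      IntermediateField.adjoin kb ({x, y} : Set M) := by
    rw [IntermediateField.adjoin_le_iff]
    intro f hf
    rcases hf with hf | hf
    · rw [hf]; exact hAL
    · rw [Set.mem_singleton_iff] at hf
      rw [hf]; exact hBL
  letI : Algebra (IntermediateField.adjoin kb ({A, B} : Set M))
      (IntermediateField.adjoin kb ({x, y} : Set M)) :=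
    (IntermediateField.inclusion hle).toRingHom.toAlgebra
  haveI : IsScalarTower kb (IntermediateField.adjoin kb ({A, B} : Set M))
      (IntermediateField.adjoin kb ({x, y} : Set M)) :=
    IsScalarTower.of_algebraMap_eq (fun _ => rfl)
  haveI : IsScalarTower (IntermediateField.adjoin kb ({A, B} : Set M))
      (IntermediateField.adjoin kb ({x, y} : Set M)) M :=
    IsScalarTower.of_algebraMap_eq (fun _ => rfl)
  have key : ∀ c₀ : F, c₀ ≠ 0 → ¬ PV p w c₀ → ∀ γ₀ : kb, γ₀ ^ p = algebraMap F kb c₀ →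
      ∃ δ : Gal(kb/F), δ γ₀ ≠ γ₀ ∧ δ γ = γ ∧ δ γ' = γ' := by
    intro c₀ hc₀ hc₀' γ₀ hγ₀
    exact pz_core s hs hsec hp hp2 𝒱 h𝒱 hrad hζ w hpw hAt hA hB hx hy ⟨c, hγ⟩ ⟨c', hγ'⟩ hxp hyp
      (L₁ := IntermediateField.adjoin kb ({A, B} : Set M))
      (L := IntermediateField.adjoin kb ({x, y} : Set M))
      (A₁ := ⟨A, IntermediateField.subset_adjoin kb {A, B} (by simp)⟩)
      (B₁ := ⟨B, IntermediateField.subset_adjoin kb {A, B} (by simp)⟩)
      (x₁ := ⟨x, IntermediateField.subset_adjoin kb {x, y} (by simp)⟩)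
      (y₁ := ⟨y, IntermediateField.subset_adjoin kb {x, y} (by simp)⟩)
      rfl rfl rfl rfl (pz_gen_sub A B) (pz_gen_sub x y) ha hb hab h hc₀ hc₀' hγ₀
  constructor
  · by_contra hcon
    obtain ⟨δ, h1, h2, _⟩ := key c hc hcon γ hγ
    exact h1 h2
  · by_contra hcon
    obtain ⟨δ, h1, _, h2⟩ := key c' hc' hcon γ' hγ'
    exact h1 h2

include hs hsec hp hp2 h𝒱 hrad hζ hpw hAt hA hB hx hy hc hc' hAc hAc' in
theorem pv_zero3 {a b : ℤ} (ha : ¬ (p : ℤ) ∣ a) (hb : ¬ (p : ℤ) ∣ b)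
    (hab : ¬ (p : ℤ) ∣ a + b) (h : A ^ a * (1 - A) ^ b = B ^ p) : PV p w c ∧ PV p w c' := by
  have hA0 : A ≠ 0 := by
    intro h0
    rw [h0] at hAt
    exact hAt isAlgebraic_zero
  have hA1 : 1 - A ≠ 0 := by
    intro h0
    have h1 : A = 1 := (sub_eq_zero.mp h0).symm
    rw [h1] at hAt
    exact hAt isAlgebraic_one
  have hpz : (1 : ℤ) ≤ p := by exact_mod_cast hp.pos
  have hex : ∀ a : ℤ, ∃ (a' n : ℕ), (a' : ℤ) = a + (n : ℤ) * p := by
    intro a
    have h1 : 0 ≤ a + (a.natAbs : ℤ) * p := by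
      have h2 : (a.natAbs : ℤ) = |a| := Int.natCast_natAbs a
      rw [h2]
      have h3 := neg_abs_le a
      nlinarith [abs_nonneg a]
    exact ⟨(a + (a.natAbs : ℤ) * p).toNat, a.natAbs, Int.toNat_of_nonneg h1⟩
  obtain ⟨a', n, han⟩ := hex a
  obtain ⟨b', m, hbm⟩ := hex b
  refine pv_zero2 s hs hsec hp hp2 𝒱 h𝒱 hrad hζ w hpw hAt hA (B := B * (A ^ n * (1 - A) ^ m))
    ?_ hx hy hc hc' hAc hAc' (a := a') (b := b') ?_ ?_ ?_ ?_
  · intro σ
    rw [map_mul, map_mul, map_pow, map_pow, map_sub, map_one, hA, hB]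
  · intro hd
    apply ha
    have h1 : (p : ℤ) ∣ (a' : ℤ) := Int.natCast_dvd_natCast.mpr hd
    rw [han] at h1
    exact (dvd_add_left (Dvd.intro_left _ rfl)).mp h1
  · intro hd
    apply hb
    have h1 : (p : ℤ) ∣ (b' : ℤ) := Int.natCast_dvd_natCast.mpr hd
    rw [hbm] at h1
    exact (dvd_add_left (Dvd.intro_left _ rfl)).mp h1
  · intro hd
    apply hab
    have h1 : (p : ℤ) ∣ ((a' + b' : ℕ) : ℤ) := Int.natCast_dvd_natCast.mpr hd
    have h2 : ((a' + b' : ℕ) : ℤ) = (a + b) + ((n : ℤ) + m) * p := by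
      push_cast
      rw [han, hbm]
      ring
    rw [h2] at h1
    exact (dvd_add_left (Dvd.intro_left _ rfl)).mp h1
  · rw [mul_pow, ← h, ← zpow_natCast A a', ← zpow_natCast (1 - A) b', han, hbm, zpow_add₀ hA0,
      zpow_add₀ hA1, mul_pow, zpow_mul, zpow_mul, zpow_natCast, zpow_natCast, zpow_natCast,
      zpow_natCast]
    ring

end

end Pool.Agent.Lib.MP_2f3286_ag.Gl
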