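import Mathlib

/-!
# A surjectivity statement for divisible groups   (module AG)

PROOF of `ag_core` (`J` a commutative group in multiplicative notation, `Φ` an endomorphism). `J[m] := {z | z ^ m = 1}`. By `hfin`, `J[p]` is finite, so
all `J[p ^ n]` are finite (induction: `z ↦ z ^ p` maps `J[p ^ (n + 1)]` to `J[p ^ n]` with finite fibres, cosets of `J[p]`). The kernel `K` of `D z = Φ z / z` is
contained in `J[p ^ a₀]` (`hfix`), finite, of order dividing a power `p ^ b` of `p` (a finite group killed by a power of `p` is a `p`-group: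
`IsPGroup`, Cauchy); we use: `|K| = p ^ b`. Let `z : J`, `z ^ (p ^ n) = 1` (`htor`), `z = w ^ (p ^ b)` (`hdiv`), `w ∈ J[p ^ (n + b)] =: G`, a finite group, stable under
`D`. `|G / D(G)| = |ker (D : G → G)|` divides `|K|` (subgroup) `= p ^ b`; so `w ^ (p ^ b) ∈ D(G)` (the order of an element of the quotient divides the order of
the quotient). 
PROOF of `ag`. Apply `ag_core` to the quotient `J = A ⧸ N` (`N.subgroupOf A`) with the map induced by `Φ` (`QuotientGroup.map`).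
-/

namespace Pool.Agent.Lib.MP_2f3286_ag.Gl

private theorem ag_fin {J : Type*} [CommGroup J] {p : ℕ}
    (hfin : {z : J | z ^ p = 1}.Finite) (n : ℕ) : {z : J | z ^ p ^ n = 1}.Finite := by
  induction n with
  | zero => simp
  | succ n ih =>
    have h1 : {z : J | z ^ p ^ (n + 1) = 1} = (fun z : J => z ^ p) ⁻¹' {z : J | z ^ p ^ n = 1} := by
      ext z
      simp only [Set.mem_setOf_eq, Set.mem_preimage]
      rw [← pow_mul, pow_succ']
    rw [h1]
    apply Set.Finite.preimage' ih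
    intro b _
    by_cases hb : ∃ x0 : J, x0 ^ p = b
    · obtain ⟨x0, hx0⟩ := hb
      apply (hfin.image (fun z => z * x0)).subset
      intro x hx
      have hx' : x ^ p = b := hx
      refine ⟨x / x0, ?_, ?_⟩
      · show (x / x0) ^ p = 1
        rw [div_pow, hx', hx0, div_self']
      · show x / x0 * x0 = x
        exact div_mul_cancel x x0
    · apply Set.finite_empty.subset
      intro x hx
      exact (hb ⟨x, hx⟩).elim

private theorem ag_div {J : Type*} [CommGroup J] {p : ℕ}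
    (hdiv : ∀ z : J, ∃ w, w ^ p = z) (n : ℕ) (z : J) : ∃ w, w ^ p ^ n = z := by
  induction n generalizing z with
  | zero => exact ⟨z, by simp⟩
  | succ n ih =>
    obtain ⟨w, hw⟩ := ih z
    obtain ⟨v, hv⟩ := hdiv w
    refine ⟨v, ?_⟩
    rw [pow_succ', pow_mul, hv, hw]

theorem ag_core {J : Type*} [CommGroup J] {p : ℕ} (hp : p.Prime) (Φ : J →* J)
    (htor : ∀ z : J, ∃ n : ℕ, z ^ p ^ n = 1) (hdiv : ∀ z : J, ∃ w, w ^ p = z)
    (hfin : {z : J | z ^ p = 1}.Finite) {a₀ : ℕ} (hfix : ∀ z, Φ z = z → z ^ p ^ a₀ = 1) (z : J) :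
    ∃ w, Φ w = w * z := by
  haveI : Fact p.Prime := ⟨hp⟩
  let D : J →* J := Φ / MonoidHom.id J
  have hD : ∀ x, D x = Φ x / x := fun x => rfl
  have hKsub : (D.ker : Set J) ⊆ {z : J | z ^ p ^ a₀ = 1} := by
    intro x hx
    have h1 : D x = 1 := hx
    rw [hD, div_eq_one] at h1
    exact hfix x h1
  haveI hKfin : Finite D.ker := ((ag_fin hfin a₀).subset hKsub).to_subtype
  have hKp : IsPGroup p D.ker := by
    intro x
    refine ⟨a₀, ?_⟩
    apply Subtype.ext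
    exact hKsub x.2
  obtain ⟨b, hb⟩ := (IsPGroup.iff_card).1 hKp
  obtain ⟨n, hn⟩ := htor z
  obtain ⟨w, hw⟩ := ag_div hdiv b z
  let G : Subgroup J := (powMonoidHom (p ^ (b + n)) : J →* J).ker
  have hG : ∀ x, x ∈ G ↔ x ^ p ^ (b + n) = 1 := fun x => Iff.rfl
  haveI hGfin : Finite G := (ag_fin hfin (b + n)).to_subtype
  have hDG : ∀ x ∈ G, D x ∈ G := by
    intro x hx
    rw [hG] at hx ⊢
    rw [← map_pow, hx, map_one]
  have hwG : w ∈ G := by
    rw [hG, pow_add, pow_mul, hw, hn]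
  let E : G →* G := (D.comp G.subtype).codRestrict G (fun x => hDG x.1 x.2)
  have h1 : E.range.index = Nat.card E.ker := Subgroup.index_range
  have h2 : Nat.card E.ker ∣ Nat.card D.ker := by
    let ι : E.ker →* D.ker := (G.subtype.comp E.ker.subtype).codRestrict D.ker (fun x => by
      have hx : E x.1 = 1 := x.2
      have hx' := congrArg Subtype.val hx
      exact hx')
    apply Subgroup.card_dvd_of_injective ι
    intro x y hxy
    have h3 := congrArg Subtype.val hxy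
    exact Subtype.ext (Subtype.ext h3)
  have h4 : (⟨w, hwG⟩ : G) ^ E.range.index ∈ E.range := Subgroup.pow_index_mem _ _
  have h5 : (⟨w, hwG⟩ : G) ^ p ^ b ∈ E.range := by
    rw [hb] at h2
    rw [← h1] at h2
    obtain ⟨k, hk⟩ := h2
    rw [hk, pow_mul]
    exact Subgroup.pow_mem _ h4 k
  obtain ⟨u, hu⟩ := h5
  refine ⟨u.1, ?_⟩
  have h6 : D u.1 = w ^ p ^ b := congrArg Subtype.val hu
  rw [hD, hw, div_eq_iff_eq_mul] at h6
  rw [h6, mul_comm]

theorem ag {G : Type*} [CommGroup G] {p : ℕ} (hp : p.Prime) (A N : Subgroup G) (hNA : N ≤ A)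
    (Φ : G →* G) (hΦA : ∀ z ∈ A, Φ z ∈ A) (hΦN : ∀ z ∈ N, Φ z ∈ N)
    (htor : ∀ z ∈ A, ∃ n : ℕ, z ^ p ^ n ∈ N) (hdiv : ∀ z ∈ A, ∃ w ∈ A, ∃ c ∈ N, w ^ p = z * c)
    (hfin : ∃ T : Finset G, ∀ z ∈ A, z ^ p ∈ N → ∃ t ∈ T, z / t ∈ N) {a₀ : ℕ}
    (hfix : ∀ z ∈ A, Φ z / z ∈ N → z ^ p ^ a₀ ∈ N) {z : G} (hz : z ∈ A) :
    ∃ w ∈ A, ∃ c ∈ N, Φ w = w * z * c := by
  classical
  let N' : Subgroup A := N.subgroupOf A
  have hN' : ∀ x : A, x ∈ N' ↔ x.1 ∈ N := fun x => Subgroup.mem_subgroupOf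
  let ΦA : A →* A := (Φ.comp A.subtype).codRestrict A (fun x => hΦA x.1 x.2)
  have hΦA1 : ∀ x : A, (ΦA x).1 = Φ x.1 := fun x => rfl
  have hle : N' ≤ N'.comap ΦA := by
    intro x hx
    show ΦA x ∈ N'
    rw [hN', hΦA1]
    exact hΦN _ ((hN' x).1 hx)
  let Ψ : A ⧸ N' →* A ⧸ N' := QuotientGroup.map N' N' ΦA hle
  have hΨ : ∀ x : A, Ψ (x : A ⧸ N') = (ΦA x : A ⧸ N') := fun x => rfl
  have hone : ∀ x : A, ((x : A ⧸ N') = 1) ↔ x.1 ∈ N := by
    intro x
    rw [QuotientGroup.eq_one_iff, hN']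
  have h := ag_core hp Ψ (a₀ := a₀) ?_ ?_ ?_ ?_ ((⟨z, hz⟩ : A) : A ⧸ N')
  · obtain ⟨j, hj⟩ := h
    obtain ⟨w, rfl⟩ := QuotientGroup.mk_surjective j
    have h1 : ((ΦA w / (w * ⟨z, hz⟩) : A) : A ⧸ N') = 1 := by
      rw [QuotientGroup.mk_div, QuotientGroup.mk_mul, div_eq_one, ← hj]
      exact (hΨ w).symm
    rw [hone] at h1
    refine ⟨w.1, w.2, _, h1, ?_⟩
    show Φ w.1 = w.1 * z * (Φ w.1 / (w.1 * z))
    rw [mul_div_cancel]
  · intro j
    obtain ⟨x, rfl⟩ := QuotientGroup.mk_surjective j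
    obtain ⟨n, hn⟩ := htor x.1 x.2
    refine ⟨n, ?_⟩
    rw [← QuotientGroup.mk_pow]
    exact (hone _).2 hn
  · intro j
    obtain ⟨x, rfl⟩ := QuotientGroup.mk_surjective j
    obtain ⟨w, hw, c, hc, h1⟩ := hdiv x.1 x.2
    refine ⟨((⟨w, hw⟩ : A) : A ⧸ N'), ?_⟩
    have h2 : (((⟨w, hw⟩ : A) ^ p / x : A) : A ⧸ N') = 1 := by
      rw [hone]
      show w ^ p / x.1 ∈ N
      rw [h1, mul_div_cancel_left]
      exact hc
    rw [QuotientGroup.mk_div, div_eq_one, QuotientGroup.mk_pow] at h2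
    exact h2
  · obtain ⟨T, hT⟩ := hfin
    apply (T.finite_toSet.image (fun t => if h : t ∈ A then
      ((⟨t, h⟩ : A) : A ⧸ N') else 1)).subset
    intro j hj
    obtain ⟨x, rfl⟩ := QuotientGroup.mk_surjective j
    have h1 : x.1 ^ p ∈ N := by
      have h2 : ((x ^ p : A) : A ⧸ N') = 1 := by
        rw [QuotientGroup.mk_pow]
        exact hj
      exact (hone _).1 h2
    obtain ⟨t, ht, ht'⟩ := hT x.1 x.2 h1
    have htA : t ∈ A := by
      have h3 := A.div_mem x.2 (hNA ht')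
      rwa [div_div_cancel] at h3
    refine ⟨t, ht, ?_⟩
    simp only [dif_pos htA]
    have h4 : ((x / ⟨t, htA⟩ : A) : A ⧸ N') = 1 := (hone _).2 ht'
    rw [QuotientGroup.mk_div, div_eq_one] at h4
    exact h4.symm
  · intro j hj
    obtain ⟨x, rfl⟩ := QuotientGroup.mk_surjective j
    have h1 : ((ΦA x / x : A) : A ⧸ N') = 1 := by
      rw [QuotientGroup.mk_div, div_eq_one]
      exact hj
    have h2 := hfix x.1 x.2 ((hone _).1 h1)
    rw [← QuotientGroup.mk_pow]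
    exact (hone _).2 h2

end Pool.Agent.Lib.MP_2f3286_ag.Gl
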