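import Mathlib

/-!
# Endomorphisms of order `p` modulo `p`-th powers   (module DP)

`G` is a commutative group, `η` an endomorphism with `η ^ p = 1`, `Δ f = f / η f`. PROOF. Suppose `f` satisfies `P` and is no
`p`-th power. Then all `Δ ^ i f` satisfy `P` and are no `p`-th powers (`hP`, `hstep`). But `Δ ^ p f` is a `p`-th power: in the ring
`AddMonoid.End (Additive G)` with `e` the endomorphism given by `η`, `(1 - e) ^ p = (1 + (-e)) ^ p = 1 + (-e) ^ p + p r`
for some `r` (`Commute.exists_add_pow_prime_eq`, `1` and `-e` commute), and `(-e) ^ p = (-1) ^ p e ^ p = (-1) ^ p`. For `p` odd this is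
`p r`, for `p = 2` it is `2 + 2 r`. So `(1 - e) ^ p = p r'`, i.e. `Δ ^ p f = (r' f) ^ p`. (Or expand the product
`∏ i ≤ p, (η ^ i f) ^ ((-1) ^ i * choose p i)` by hand.)
-/

namespace Pool.Agent.Lib.MP_2f3286_ag.Gl

private theorem DP_ring {R : Type*} [Ring R] {p : ℕ} (hp : p.Prime) (e : R) (hep : e ^ p = 1) :
    ∃ r : R, (1 - e) ^ p = (p : R) * r := by
  obtain ⟨r, hr⟩ := Commute.exists_add_pow_prime_eq hp (Commute.one_left (-e))
  rw [← sub_eq_add_neg] at hr
  rcases hp.eq_two_or_odd' with h2 | hodd
  · subst h2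
    refine ⟨1 + 1 * (-e) * r, ?_⟩
    rw [hr, neg_sq, hep, one_pow]
    push_cast
    noncomm_ring
  · refine ⟨1 * (-e) * r, ?_⟩
    rw [hr, hodd.neg_pow, hep, one_pow]
    noncomm_ring

theorem delta_pow {G : Type*} [CommGroup G] {p : ℕ} (hp : p.Prime) (η : G →* G)
    (hη : ∀ f, η^[p] f = f) (P : G → Prop) (hP : ∀ f, P f → P (f / η f))
    (hstep : ∀ f, P f → (∃ u, u ^ p = f / η f) → ∃ u, u ^ p = f) {f : G} (hf : P f) :
    ∃ u, u ^ p = f := by
  classical
  set D : G → G := fun f => f / η f with hD
  set e : AddMonoid.End (Additive G) := MonoidHom.toAdditive η with he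
  have hpow : ∀ (n : ℕ) (g : G), (e ^ n) (Additive.ofMul g) = Additive.ofMul (η^[n] g) := by
    intro n
    induction n with
    | zero => intro g; rfl
    | succ n ih =>
      intro g
      rw [pow_succ, Function.iterate_succ_apply]
      exact ih (η g)
  have hep : e ^ p = 1 := by
    ext g
    have h1 := hpow p (Additive.toMul g)
    rw [hη] at h1
    exact h1
  have hDn : ∀ (n : ℕ) (g : G), ((1 - e) ^ n) (Additive.ofMul g) = Additive.ofMul (D^[n] g) := by
    intro n
    induction n with
    | zero => intro g; rfl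
    | succ n ih =>
      intro g
      rw [pow_succ, Function.iterate_succ_apply]
      exact ih (D g)
  have hr : ∃ r : AddMonoid.End (Additive G), (1 - e) ^ p = (p : AddMonoid.End (Additive G)) * r :=
    DP_ring hp e hep
  obtain ⟨r, hr⟩ := hr
  have hlast : ∃ u, u ^ p = D^[p] f := by
    have h1 := hDn p f
    rw [hr] at h1
    change (p : AddMonoid.End (Additive G)) (r (Additive.ofMul f)) = _ at h1
    refine ⟨Additive.toMul (r (Additive.ofMul f)), ?_⟩
    have h2 : ((p : AddMonoid.End (Additive G)) (r (Additive.ofMul f))) =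
        p • (r (Additive.ofMul f)) := by
      simp
    rw [h2] at h1
    exact h1
  have hPn : ∀ n, P (D^[n] f) := by
    intro n
    induction n with
    | zero => exact hf
    | succ n ih => rw [Function.iterate_succ_apply']; exact hP _ ih
  have hdown : ∀ n, (∃ u, u ^ p = D^[n] f) → ∃ u, u ^ p = f := by
    intro n
    induction n with
    | zero => exact id
    | succ n ih =>
      intro h1
      rw [Function.iterate_succ_apply'] at h1
      exact ih (hstep _ (hPn n) h1)
  exact hdown p hlast

end Pool.Agent.Lib.MP_2f3286_ag.Gl
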