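import Mathlib
import Pool.Agent.Lib.MP_2f3286_ag.Pt.PropDefs
import Pool.Agent.Lib.MP_2f3286_ag.Fer.FDef

/-!
# Good reduction of superelliptic function fields: the definitions
-/

open Polynomial IntermediateField

namespace Pool.Agent.Lib.MP_2f3286_ag.Gl

open Pool.Agent.Lib.MP_2f3286_ag.Pt (DivAt IsPlc)
open Pool.Agent.Lib.MP_2f3286_ag.Fer (Plc)

/-- `L = C(x, y)` with `x` transcendental, `y ^ p = h(x)`, `h` separable of degree prime to `p`. -/
structure IsSup (p : ℕ) {C L : Type*} [Field C] [Field L] [Algebra C L] (x y : L) (h : C[X]) :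
    Prop where
  tr : Transcendental C x
  eq : y ^ p = aeval x h
  gen : IntermediateField.adjoin C {x, y} = ⊤
  deg : p.Coprime h.natDegree
  sep : h.Separable

/-- `∑ i < p, a i (x) y ^ i` -/
noncomputable def ev {C L : Type*} [Field C] [Field L] [Algebra C L] (p : ℕ) (x y : L)
    (a : ℕ → C[X]) : L := ∑ i ∈ Finset.range p, aeval x (a i) * y ^ i

/-- A reduction of the field `L` over the constants `C` to the field `k` over the constants `κ`. -/
structure Red (C L κ k : Type*) [Field C] [Field L] [Algebra C L] [Field κ] [Field k]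
    [Algebra κ k] where
  /-- the place of the constants -/
  V : Plc C κ
  /-- the place of the field -/
  W : Plc L k
  base : ∀ c z, V.Has c z → W.Has (algebraMap C L c) (algebraMap κ k z)
  surjV : ∀ z, ∃ c, V.Has c z
  surjW : ∀ g, ∃ f, W.Has f g

/-- The reduction of `y ^ p = h(x)` is `yb ^ p = hb(xb)`: good reduction, `xb` is transcendental. -/
structure GRed (p : ℕ) {C L κ k : Type*} [Field C] [Field L] [Algebra C L] [Field κ] [Field k]
    [Algebra κ k] (D : Red C L κ k) (x y : L) (h : C[X]) (xb yb : k) (hb : κ[X]) : Prop where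
  sup : IsSup p x y h
  hx : D.W.Has x xb
  hy : D.W.Has y yb
  tr : Transcendental κ xb
  hh : ∀ i, D.V.Has (h.coeff i) (hb.coeff i)
  dg : hb.natDegree = h.natDegree
  sepb : hb.Separable

/-- `τ` is semilinear over `δ` and fixes `x` and `y` -/
structure IsSemi {C L : Type*} [Field C] [Field L] [Algebra C L] (x y : L) (δ : C ≃+* C)
    (τ : L ≃+* L) : Prop where
  const : ∀ c : C, τ (algebraMap C L c) = algebraMap C L (δ c)
  fx : τ x = x
  fy : τ y = y

end Pool.Agent.Lib.MP_2f3286_ag.Gl
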