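import Pool.Agent.Lib.MP_2f3286_ag.Gl.SA
import Pool.Agent.Lib.MP_2f3286_ag.Full.Pole

/-!
# The class group over a finite field is finite   (module F1)

PROOF. `K₀` is a finite extension of `κ₀(x)` (`IsSup.finDim`), separable (`y ^ p = h(x)`, `p ≠ 0` in `κ₀`, `h(x) ≠ 0`, so `Y ^ p - h(x)` is
separable; `K₀ = κ₀(x)(y)`). `B` = the integral closure of `κ₀[x] = Algebra.adjoin κ₀ {x}` in `K₀` (as a `κ₀`-subalgebra:
`(integralClosure (Algebra.adjoin κ₀ {x}) K₀).restrictScalars κ₀`). `κ₀[x]` is isomorphic to the polynomial ring (`x` transcendental), a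
Euclidean domain, so `B` is a Dedekind domain (`integralClosure.isDedekindDomain`, see also `Pt/Ex2.lean` for the same over an algebraically
closed field), its fraction field is `K₀`. Finiteness: `Mathlib.NumberTheory.ClassNumber.FunctionField`
(`FunctionField.RingOfIntegers.instFintypeClassGroup` for `ringOfIntegers κ₀ K₀ = integralClosure κ₀[X] K₀`) with the algebra structures
`κ₀[X] → K₀`, `X ↦ x` (`(aeval x).toAlgebra`), `RatFunc κ₀ → K₀` (`RatFunc.liftAlgHom`, or `IsLocalization.lift`), or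
`ClassGroup.fintypeOfAdmissibleOfFinite` with `Polynomial.cardPowDegreeIsAdmissible`. You may take `B` to be the image of
`integralClosure κ₀[X] K₀` from the start (the same set: integral over `κ₀[X]` via `X ↦ x` is integral over `Algebra.adjoin κ₀ {x}`); a ring
isomorphism transports `Finite (ClassGroup _)` (`ClassGroup.equiv`).
`y` is integral: `y ^ p = h(x)`.
-/

open Polynomial IntermediateField

namespace Pool.Agent.Lib.MP_2f3286_ag.Gl

private theorem F1_sep {p : ℕ} {κ₀ K₀ : Type*} [Field κ₀] [Field K₀]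
    [Algebra κ₀ K₀] {x y : K₀} {h : κ₀[X]} (hpκ : (p : κ₀) ≠ 0) (H : IsSup p x y h) :
    Algebra.IsSeparable κ₀⟮x⟯ K₀ := by
  obtain ⟨c, hc⟩ : ∃ c : κ₀⟮x⟯, algebraMap κ₀⟮x⟯ K₀ c = aeval x h := by
    refine ⟨aeval (AdjoinSimple.gen κ₀ x) h, ?_⟩
    rw [← aeval_algebraMap_apply, AdjoinSimple.algebraMap_gen]
  have hc0 : c ≠ 0 := by
    rintro rfl
    rw [map_zero] at hc
    exact H.sep.ne_zero (transcendental_iff.1 H.tr h hc.symm)
  have hp0 : ((p : ℕ) : κ₀⟮x⟯) ≠ 0 := by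
    rw [← map_natCast (algebraMap κ₀ κ₀⟮x⟯) p]
    exact (_root_.map_ne_zero _).2 hpκ
  have hsep : (X ^ p - C c : κ₀⟮x⟯[X]).Separable := separable_X_pow_sub_C c hp0 hc0
  have hroot : aeval y (X ^ p - C c : κ₀⟮x⟯[X]) = 0 := by
    rw [map_sub, map_pow, aeval_X, aeval_C, hc, H.eq, sub_self]
  have hy : IsSeparable κ₀⟮x⟯ y := hsep.of_dvd (minpoly.dvd _ _ hroot)
  have htop : (κ₀⟮x⟯⟮y⟯ : IntermediateField κ₀⟮x⟯ K₀) = ⊤ := by
    rw [← IntermediateField.restrictScalars_eq_top_iff (K := κ₀), adjoin_adjoin_left, Set.singleton_union]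
    exact H.gen
  have h1 := (isSeparable_adjoin_simple_iff_isSeparable κ₀⟮x⟯ K₀).2 hy
  rw [htop] at h1
  exact AlgEquiv.Algebra.isSeparable IntermediateField.topEquiv

private theorem F1_cls {κ₀ K₀ : Type*} [Field κ₀] [Finite κ₀] [Field K₀] [Algebra κ₀ K₀] (x : K₀) (tr : Transcendental κ₀ x)
    [FiniteDimensional κ₀⟮x⟯ K₀] [Algebra.IsSeparable κ₀⟮x⟯ K₀] :
    Finite (ClassGroup (integralClosure (Algebra.adjoin κ₀ {x}) K₀)) := by
  classical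
  cases nonempty_fintype κ₀
  letI a1 : Algebra κ₀[X] K₀ := (aeval x : κ₀[X] →ₐ[κ₀] K₀).toRingHom.toAlgebra
  letI a2 : Algebra κ₀[X] κ₀⟮x⟯ := (aeval (AdjoinSimple.gen κ₀ x) : κ₀[X] →ₐ[κ₀] κ₀⟮x⟯).toRingHom.toAlgebra
  letI a3 : Algebra κ₀[X] (Algebra.adjoin κ₀ {x}) :=
    (aeval (⟨x, Algebra.self_mem_adjoin_singleton κ₀ x⟩ : Algebra.adjoin κ₀ {x}) : κ₀[X] →ₐ[κ₀] Algebra.adjoin κ₀ {x}).toRingHom.toAlgebra
  have e1 : ∀ q : κ₀[X], algebraMap κ₀[X] K₀ q = aeval x q := fun _ => rfl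
  have e2 : ∀ q : κ₀[X], algebraMap κ₀[X] κ₀⟮x⟯ q = aeval (AdjoinSimple.gen κ₀ x) q := fun _ => rfl
  have e3 : ∀ q : κ₀[X], algebraMap κ₀[X] (Algebra.adjoin κ₀ {x}) q =
    aeval (⟨x, Algebra.self_mem_adjoin_singleton κ₀ x⟩ : Algebra.adjoin κ₀ {x}) q := fun _ => rfl
  haveI t1 : IsScalarTower κ₀[X] κ₀⟮x⟯ K₀ := IsScalarTower.of_algebraMap_eq fun q => by
    rw [e1, e2, ← aeval_algebraMap_apply, AdjoinSimple.algebraMap_gen]
  haveI t2 : IsScalarTower κ₀[X] (Algebra.adjoin κ₀ {x}) K₀ := IsScalarTower.of_algebraMap_eq fun q => by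
    rw [e1, e3, ← aeval_algebraMap_apply]
    rfl
  have hinj : Function.Injective (algebraMap κ₀[X] κ₀⟮x⟯) := by
    rw [injective_iff_map_eq_zero]
    intro q hq
    have h1 : algebraMap κ₀[X] K₀ q = 0 := by
      rw [IsScalarTower.algebraMap_apply κ₀[X] κ₀⟮x⟯ K₀, hq, map_zero]
    exact transcendental_iff.1 tr q h1
  haveI f1 : FaithfulSMul κ₀[X] κ₀⟮x⟯ := (faithfulSMul_iff_algebraMap_injective _ _).2 hinj
  haveI fr : IsFractionRing κ₀[X] κ₀⟮x⟯ := by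
    refine IsFractionRing.of_field _ _ ?_
    rintro ⟨z, hz⟩
    obtain ⟨r, s, hrs⟩ := (mem_adjoin_simple_iff κ₀ z).1 hz
    refine ⟨r, s, Subtype.ext ?_⟩
    have h1 : ∀ q : κ₀[X], ((algebraMap κ₀[X] κ₀⟮x⟯ q : κ₀⟮x⟯) : K₀) = aeval x q := fun q =>
      (IsScalarTower.algebraMap_apply κ₀[X] κ₀⟮x⟯ K₀ q).symm
    rw [IntermediateField.coe_div, h1, h1]
    exact hrs
  haveI int1 : Algebra.IsIntegral κ₀[X] (Algebra.adjoin κ₀ {x}) := by
    refine Algebra.isIntegral_of_surjective ?_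
    rintro ⟨z, hz⟩
    obtain ⟨q, hq⟩ := (Pool.Agent.Lib.MP_2f3286_ag.Full.Pole.mem_adj x z).1 hz
    refine ⟨q, Subtype.ext ?_⟩
    exact (IsScalarTower.algebraMap_apply κ₀[X] (Algebra.adjoin κ₀ {x}) K₀ q).symm.trans hq
  haveI ic : IsIntegralClosure (integralClosure (Algebra.adjoin κ₀ {x}) K₀) κ₀[X] K₀ := by
    refine ⟨Subtype.val_injective, ?_⟩
    intro z
    constructor
    · intro hz
      exact ⟨⟨z, hz.tower_top⟩, rfl⟩
    · rintro ⟨w, rfl⟩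
      exact isIntegral_trans (R := κ₀[X]) (A := Algebra.adjoin κ₀ {x}) _ w.2
  exact @Finite.of_fintype _ (ClassGroup.fintypeOfAdmissibleOfFinite κ₀⟮x⟯ K₀
    (Polynomial.cardPowDegreeIsAdmissible :
      AbsoluteValue.IsAdmissible (Polynomial.cardPowDegree : AbsoluteValue κ₀[X] ℤ)))

theorem cls_fin {p : ℕ} (hp : p.Prime) {κ₀ K₀ : Type*} [Field κ₀] [Finite κ₀] [Field K₀]
    [Algebra κ₀ K₀] {x y : K₀} {h : κ₀[X]} (hpκ : (p : κ₀) ≠ 0) (H : IsSup p x y h) :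
    ∃ B : Subalgebra κ₀ K₀, IsDedekindDomain B ∧ IsFractionRing B K₀ ∧ x ∈ B ∧ y ∈ B ∧
      (∀ f ∈ B, IsIntegral (Algebra.adjoin κ₀ {x}) f) ∧ Finite (ClassGroup B) := by
  haveI : Algebra.IsSeparable κ₀⟮x⟯ K₀ := F1_sep hpκ H
  haveI : FiniteDimensional κ₀⟮x⟯ K₀ := H.finDim hp
  obtain ⟨i1, i2, -⟩ := Pool.Agent.Lib.MP_2f3286_ag.Full.Pole.facts (F := κ₀) x
  have i3 := F1_cls (κ₀ := κ₀) x H.tr
  let B : Subalgebra κ₀ K₀ := (integralClosure (Algebra.adjoin κ₀ {x}) K₀).restrictScalars κ₀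
  have j1 : IsDedekindDomain B := i1
  have j2 : IsFractionRing B K₀ := i2
  have j3 : Finite (ClassGroup B) := i3
  refine ⟨B, j1, j2, ?_, ?_, fun f hf => hf, j3⟩
  · exact isIntegral_algebraMap (R := Algebra.adjoin κ₀ {x}) (x := ⟨x, Algebra.self_mem_adjoin_singleton κ₀ x⟩)
  · have h1 : IsIntegral (Algebra.adjoin κ₀ {x}) (y ^ p) := by
      rw [H.eq]
      exact isIntegral_algebraMap (R := Algebra.adjoin κ₀ {x}) (x := ⟨aeval x h,
        (Pool.Agent.Lib.MP_2f3286_ag.Full.Pole.mem_adj x _).2 ⟨h, rfl⟩⟩)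
    exact IsIntegral.of_pow hp.pos h1

end Pool.Agent.Lib.MP_2f3286_ag.Gl
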