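import Pool.Agent.Lib.MP_2f3286_ag.Pt.Ex3

/-!
# Elements with all orders divisible by a power of `p`, in a finite class group   (module F2)

PROOF. Let `M = Nat.card (ClassGroup B) = p ^ a * N`, `¬ p ∣ N` (`Nat.exists_eq_pow_mul_and_not_dvd`, `M ≠ 0`). For a nonzero ideal `I`, `I ^ M` is
principal (`pow_card_eq_one'`, `ClassGroup.mk0_eq_one_iff`). `Pt.divAt_all_iff` for `p ^ n ≥ 1`: `ρ y = x`, `(x) J ^ (p ^ n) = (y) I ^ (p ^ n)`. Raise to
the power `M`: `I ^ M = (i)`, `J ^ M = (j)`, `i, j ≠ 0`: `(x ^ M j ^ (p ^ n)) = (y ^ M i ^ (p ^ n))`, so the generators are associated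
(`Ideal.span_singleton_eq_span_singleton`): `x ^ M j ^ (p ^ n) = u y ^ M i ^ (p ^ n)`, `u` a unit. So `ρ ^ M = (x / y) ^ M = u (i / j) ^ (p ^ n)`.
-/

open IsDedekindDomain

namespace Pool.Agent.Lib.MP_2f3286_ag.Gl

open Pool.Agent.Lib.MP_2f3286_ag.Pt (DivAt)

theorem cls_pow {B L : Type*} [CommRing B] [IsDedekindDomain B] [Field L] [Algebra B L]
    [IsFractionRing B L] [Finite (ClassGroup B)] {p : ℕ} (hp : p.Prime) :
    ∃ a N : ℕ, ¬ p ∣ N ∧ ∀ (n : ℕ) (ρ : L), ρ ≠ 0 →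
      (∀ v : HeightOneSpectrum B, DivAt (p ^ n) ρ (v.valuation L).valuationSubring) →
      ∃ (u : Bˣ) (g : L), g ≠ 0 ∧ ρ ^ (p ^ a * N) = algebraMap B L u * g ^ p ^ n := by
  classical
  have hM : Nat.card (ClassGroup B) ≠ 0 := Nat.card_pos.ne'
  obtain ⟨a, N, hN, hMe⟩ := Nat.exists_eq_pow_mul_and_not_dvd hM p hp.ne_one
  refine ⟨a, N, hN, ?_⟩
  rw [← hMe]
  set M := Nat.card (ClassGroup B) with hMdef
  have hprin : ∀ I : Ideal B, I ≠ ⊥ → ∃ i : B, i ≠ 0 ∧ I ^ M = Ideal.span {i} := by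
    intro I hI
    have hI' : I ∈ nonZeroDivisors (Ideal B) := mem_nonZeroDivisors_iff_ne_zero.2 hI
    have h1 : ClassGroup.mk0 (⟨I, hI'⟩ : nonZeroDivisors (Ideal B)) ^ M = 1 := pow_card_eq_one'
    rw [← map_pow, ClassGroup.mk0_eq_one_iff] at h1
    obtain ⟨i, hi⟩ := h1.principal
    rw [SubmonoidClass.coe_pow] at hi
    refine ⟨i, ?_, hi⟩
    rintro rfl
    have h0 : I ^ M = ⊥ := by
      rw [hi]; simp
    exact hI (pow_eq_zero_iff hM |>.1 h0)
  intro n ρ hρ hv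
  have hq : 1 ≤ p ^ n := Nat.one_le_pow _ _ hp.pos
  obtain ⟨x, y, I, J, hx, hy, hI, hJ, hxy, hIJ⟩ :=
    (Pool.Agent.Lib.MP_2f3286_ag.Pt.divAt_all_iff (p ^ n) hq ρ hρ).1 hv
  obtain ⟨i, hi0, hi⟩ := hprin I hI
  obtain ⟨j, hj0, hj⟩ := hprin J hJ
  have h1 : Ideal.span {x ^ M * j ^ p ^ n} = Ideal.span {y ^ M * i ^ p ^ n} := by
    have h2 := congrArg (fun K => K ^ M) hIJ
    simp only [mul_pow] at h2
    rw [← pow_mul, ← pow_mul, mul_comm (p ^ n) M, pow_mul, pow_mul, hi, hj,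
      Ideal.span_singleton_pow, Ideal.span_singleton_pow, Ideal.span_singleton_pow,
      Ideal.span_singleton_pow, Ideal.span_singleton_mul_span_singleton,
      Ideal.span_singleton_mul_span_singleton] at h2
    exact h2
  obtain ⟨u, hu⟩ := Ideal.span_singleton_eq_span_singleton.1 h1
  have hinj : Function.Injective (algebraMap B L) := IsFractionRing.injective B L
  have hy' : algebraMap B L y ≠ 0 := by
    rwa [Ne, map_eq_zero_iff _ hinj]
  have hi' : algebraMap B L i ≠ 0 := by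
    rwa [Ne, map_eq_zero_iff _ hinj]
  have hj' : algebraMap B L j ≠ 0 := by
    rwa [Ne, map_eq_zero_iff _ hinj]
  refine ⟨u⁻¹, algebraMap B L i / algebraMap B L j, div_ne_zero hi' hj', ?_⟩
  have h3 := congrArg (algebraMap B L) hu
  rw [map_mul, map_mul, map_mul, map_pow, map_pow, map_pow, map_pow, ← hxy, mul_pow] at h3
  have h4 : algebraMap B L (u : B) * algebraMap B L ((u⁻¹ : Bˣ) : B) = 1 := by
    rw [← map_mul, Units.mul_inv, map_one]
  have hyM : algebraMap B L y ^ M ≠ 0 := pow_ne_zero _ hy'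
  have hjM : algebraMap B L j ^ p ^ n ≠ 0 := pow_ne_zero _ hj'
  have h5 : ρ ^ M * algebraMap B L j ^ p ^ n * algebraMap B L (u : B) = algebraMap B L i ^ p ^ n := by
    apply mul_left_cancel₀ hyM
    rw [← h3]; ring
  rw [div_pow, mul_div_assoc', eq_div_iff hjM, ← h5]
  calc ρ ^ M * algebraMap B L j ^ p ^ n
      = ρ ^ M * algebraMap B L j ^ p ^ n * (algebraMap B L (u : B) * algebraMap B L ((u⁻¹ : Bˣ) : B)) := by
        rw [h4, mul_one]
    _ = _ := by ring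

end Pool.Agent.Lib.MP_2f3286_ag.Gl
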