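import Pool.Agent.Lib.MP_2f3286_ag.Gl.SA
import Pool.Agent.Lib.MP_2f3286_ag.Full.Gauss
import Pool.Agent.Lib.MP_2f3286_ag.Pt.Cof

/-!
# Superelliptic function fields: the place at infinity   (module SH)

PROOF of `inf_val`. Let `d = h.natDegree`, prime to `p`, `h ≠ 0`. For `f ≠ 0` choose `a`, `b` from `IsSup.repr`; not all
`a i`, `i < p`, are zero. Define `N f = max_{i < p, a i ≠ 0} (p * deg (a i) + d * i) - p * deg b` (`Finset.sup'`, or any index
`i` which attains the maximum: choose it), `N 0 = 0`. Let `Q` be a place over `C` with `x ∉ Q`, `v = Q.valuation`. By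
`Pt.Cof.val_aeval`, `v (P(x)) = v x ^ deg P` for `P ≠ 0`; `v y ^ p = v (h(x)) = v x ^ d`. Let `u p + w d = 1` with integers
`u`, `w` (`Nat.isCoprime_iff_coprime`), `g = v x ^ u * v y ^ w`. Then `g ^ p = v x ^ (u p) v x ^ (w d) = v x` and
`g ^ d = v x ^ (u d) v y ^ (w d) = v y ^ (p u) v y ^ (w d) = v y`. `v x > 1` as `x ∉ Q`, so `g > 1`. So
`v ((a i)(x) y ^ i) = g ^ (p deg (a i) + d i)` if `a i ≠ 0`, and these exponents are distinct for distinct `i < p` (they are
`d i` modulo `p`). So the valuation of the sum is the largest one (`Valuation.map_sum_eq_of_lt` or by hand: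
the unique largest term and `Valuation.map_add_eq_of_lt_left`, `Valuation.map_sum_lt`), and
`v f = v (ev a) / v (b(x)) = g ^ N f`.
PROOF of `inf_unique`. For `f ≠ 0`, `f ∈ Q ↔ v f ≤ 1 ↔ g ^ N f ≤ 1 ↔ N f ≤ 0` (`zpow_le_one_iff_right₀` or similar) and the
same for `Q'`; `N` does not depend on the place.
PROOF of `exists_inf`. `Full.exists_dominating` for `aeval x⁻¹ : C[X] →+* L` (injective, `x⁻¹` is transcendental) and the prime
ideal `Ideal.span {X}`: `v x⁻¹ < 1`, so `x ∉ Q`.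
-/

open Polynomial IntermediateField
open Pool.Agent.Lib.MP_2f3286_ag.Pt (IsPlc)

namespace Pool.Agent.Lib.MP_2f3286_ag.Gl

variable {p : ℕ} {C L : Type*} [Field C] [Field L] [Algebra C L] {x y : L} {h : C[X]}

private theorem SH_g (hp : p.Prime) (H : IsSup p x y h) {u w : ℤ}
    (huw : u * p + w * h.natDegree = 1) (Q : ValuationSubring L)
    (hQ : ∀ a : C, algebraMap C L a ∈ Q) (hx : x ∉ Q) :
    1 < Q.valuation x ^ u * Q.valuation y ^ w ∧
      Q.valuation x = (Q.valuation x ^ u * Q.valuation y ^ w) ^ p ∧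
      Q.valuation y = (Q.valuation x ^ u * Q.valuation y ^ w) ^ h.natDegree := by
  have hh0 : h ≠ 0 := by
    rintro rfl
    have := H.deg
    rw [natDegree_zero, Nat.coprime_zero_right] at this
    exact hp.one_lt.ne' this
  have hx1 : 1 < Q.valuation x := by
    rw [← not_le, Q.valuation_le_one_iff]; exact hx
  have hx0 : Q.valuation x ≠ 0 := (zero_lt_one.trans hx1).ne'
  have hyp : Q.valuation y ^ p = Q.valuation x ^ h.natDegree := by
    rw [← map_pow, H.eq]
    exact Pt.Cof.val_aeval Q hQ x hx h hh0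
  have hy0 : Q.valuation y ≠ 0 := by
    intro h0
    rw [h0, zero_pow hp.ne_zero] at hyp
    exact pow_ne_zero _ hx0 hyp.symm
  generalize hγ : Q.valuation x = γ at *
  generalize hδ : Q.valuation y = δ at *
  have hyp' : δ ^ (p : ℤ) = γ ^ (h.natDegree : ℤ) := by exact_mod_cast hyp
  have e1 : (γ ^ u * δ ^ w) ^ p = γ := by
    rw [← zpow_natCast, mul_zpow, ← zpow_mul, ← zpow_mul, mul_comm w, zpow_mul δ, hyp', ← zpow_mul,
      ← zpow_add₀ hx0]
    rw [mul_comm (h.natDegree : ℤ) w, huw, zpow_one]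
  have e2 : (γ ^ u * δ ^ w) ^ h.natDegree = δ := by
    rw [← zpow_natCast, mul_zpow, ← zpow_mul, ← zpow_mul, mul_comm u, zpow_mul γ, ← hyp',
      ← zpow_mul, ← zpow_add₀ hy0]
    rw [mul_comm (p : ℤ) u, huw, zpow_one]
  refine ⟨?_, e1.symm, e2.symm⟩
  rw [← not_le]
  intro hle
  have h1 := pow_le_one₀ (n := p) zero_le' hle
  rw [e1] at h1
  exact absurd h1 (not_le.2 hx1)

private theorem SH_N (hp : p.Prime) (H : IsSup p x y h) {u w : ℤ}
    (huw : u * p + w * h.natDegree = 1) (f : L) (hf : f ≠ 0) :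
    ∃ n : ℤ, ∀ Q : ValuationSubring L, (∀ a : C, algebraMap C L a ∈ Q) → x ∉ Q →
      Q.valuation f = (Q.valuation x ^ u * Q.valuation y ^ w) ^ n := by
  classical
  obtain ⟨a, b, hb, hab⟩ := H.repr hp f
  have hinj : ∀ q : C[X], aeval x q = 0 → q = 0 := fun q hq => (transcendental_iff.1 H.tr) q hq
  have hne : ((Finset.range p).filter fun i => a i ≠ 0).Nonempty := by
    by_contra hcon
    rw [Finset.not_nonempty_iff_eq_empty, Finset.filter_eq_empty_iff] at hcon
    have h0 : ev p x y a = 0 := by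
      unfold ev
      refine Finset.sum_eq_zero fun i hi => ?_
      have := hcon hi
      push Not at this
      rw [this, map_zero, zero_mul]
    rw [h0] at hab
    rcases mul_eq_zero.1 hab with h1 | h1
    · exact hf h1
    · exact hb (hinj b h1)
  obtain ⟨i₀, hi₀, hmax⟩ := Finset.exists_max_image _
    (fun i => p * (a i).natDegree + h.natDegree * i) hne
  rw [Finset.mem_filter, Finset.mem_range] at hi₀
  have hcop : IsCoprime (p : ℤ) (h.natDegree : ℤ) := Nat.isCoprime_iff_coprime.2 H.deg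
  have hlt : ∀ i < p, a i ≠ 0 → i ≠ i₀ → p * (a i).natDegree + h.natDegree * i <
      p * (a i₀).natDegree + h.natDegree * i₀ := by
    intro i hi hai hne'
    refine lt_of_le_of_ne (hmax i (by rw [Finset.mem_filter, Finset.mem_range]; exact ⟨hi, hai⟩)) ?_
    intro heq
    have h1 : (p : ℤ) ∣ (h.natDegree : ℤ) * ((i : ℤ) - i₀) := by
      refine ⟨((a i₀).natDegree : ℤ) - (a i).natDegree, ?_⟩
      have h2 : (p : ℤ) * (a i).natDegree + h.natDegree * i =
        p * (a i₀).natDegree + h.natDegree * i₀ := by exact_mod_cast heq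
      linear_combination h2
    have h3 : (p : ℤ) ∣ (i : ℤ) - i₀ := hcop.dvd_of_dvd_mul_left h1
    have h4 : (i : ℤ) - i₀ = 0 := by
      refine Int.eq_zero_of_abs_lt_dvd h3 ?_
      rw [abs_lt]
      constructor <;> omega
    exact hne' (by omega)
  refine ⟨((p * (a i₀).natDegree + h.natDegree * i₀ : ℕ) : ℤ) - ((p * b.natDegree : ℕ) : ℤ),
    fun Q hQ hx => ?_⟩
  obtain ⟨hg1, hgx, hgy⟩ := SH_g hp H huw Q hQ hx
  generalize hg : Q.valuation x ^ u * Q.valuation y ^ w = g at *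
  have hg0 : g ≠ 0 := (zero_lt_one.trans hg1).ne'
  have hterm : ∀ i, a i ≠ 0 → Q.valuation (aeval x (a i) * y ^ i) =
      g ^ (p * (a i).natDegree + h.natDegree * i) := by
    intro i hi
    rw [map_mul, map_pow, Pt.Cof.val_aeval Q hQ x hx (a i) hi, hgx, hgy, ← pow_mul, ← pow_mul,
      ← pow_add]
  have hev : Q.valuation (ev p x y a) = g ^ (p * (a i₀).natDegree + h.natDegree * i₀) := by
    unfold ev
    rw [← Finset.add_sum_erase _ _ (Finset.mem_range.2 hi₀.1)]
    rw [Valuation.map_add_eq_of_lt_left]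
    · exact hterm i₀ hi₀.2
    · rw [hterm i₀ hi₀.2]
      refine Valuation.map_sum_lt _ (pow_ne_zero _ hg0) fun i hi => ?_
      rw [Finset.mem_erase, Finset.mem_range] at hi
      by_cases hai : a i = 0
      · rw [hai, map_zero, zero_mul, map_zero]
        exact zero_lt_iff.2 (pow_ne_zero _ hg0)
      · rw [hterm i hai]
        exact pow_lt_pow_right₀ hg1 (hlt i hi.2 hai hi.1)
  have h5 : Q.valuation f * g ^ (p * b.natDegree) =
      g ^ (p * (a i₀).natDegree + h.natDegree * i₀) := by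
    rw [← hev, ← hab, map_mul, Pt.Cof.val_aeval Q hQ x hx b hb, hgx, ← pow_mul]
  rw [zpow_sub₀ hg0, zpow_natCast, zpow_natCast, ← h5, mul_div_assoc,
    div_self (pow_ne_zero _ hg0), mul_one]

theorem IsSup.inf_val (hp : p.Prime) (H : IsSup p x y h) :
    ∃ N : L → ℤ, ∀ Q : ValuationSubring L, (∀ a : C, algebraMap C L a ∈ Q) → x ∉ Q →
      ∃ g : Q.ValueGroup, 1 < g ∧ Q.valuation x = g ^ p ∧ Q.valuation y = g ^ h.natDegree ∧
        ∀ f : L, f ≠ 0 → Q.valuation f = g ^ N f := by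
  classical
  obtain ⟨u, w, huw⟩ := Nat.isCoprime_iff_coprime.2 H.deg
  choose N hN using SH_N hp H huw
  refine ⟨fun f => if hf : f = 0 then 0 else N f hf, fun Q hQ hx => ?_⟩
  obtain ⟨hg1, hgx, hgy⟩ := SH_g hp H huw Q hQ hx
  refine ⟨_, hg1, hgx, hgy, fun f hf => ?_⟩
  simp only [hf, dite_false]
  exact hN f hf Q hQ hx

theorem IsSup.inf_unique (hp : p.Prime) (H : IsSup p x y h) {Q Q' : ValuationSubring L}
    (hQ : ∀ a : C, algebraMap C L a ∈ Q) (hQ' : ∀ a : C, algebraMap C L a ∈ Q') (hx : x ∉ Q)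
    (hx' : x ∉ Q') : Q = Q' := by
  obtain ⟨N, hN⟩ := H.inf_val hp
  obtain ⟨g, hg, -, -, h1⟩ := hN Q hQ hx
  obtain ⟨g', hg', -, -, h1'⟩ := hN Q' hQ' hx'
  ext f
  by_cases hf : f = 0
  · subst hf
    exact ⟨fun _ => Q'.zero_mem, fun _ => Q.zero_mem⟩
  · rw [← Q.valuation_le_one_iff, ← Q'.valuation_le_one_iff, h1 f hf, h1' f hf,
      zpow_le_one_iff_right₀ hg, zpow_le_one_iff_right₀ hg']

theorem exists_inf (tr : Transcendental C x) :
    ∃ Q : ValuationSubring L, IsPlc C Q ∧ Q.valuation x⁻¹ < 1 ∧ x ∉ Q := by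
  have htr : Transcendental C x⁻¹ := by
    intro h1
    have h2 := h1.inv
    rw [inv_inv] at h2
    exact tr h2
  have hprime : (Ideal.span {(X : C[X])}).IsPrime :=
    (Ideal.span_singleton_prime X_ne_zero).2 prime_X
  obtain ⟨W, h1, h2, -⟩ := Full.exists_dominating (A := C[X])
    ((aeval x⁻¹ : C[X] →ₐ[C] L) : C[X] →+* L) (Ideal.span {(X : C[X])}) (by
      intro a ha
      have h3 : a = 0 := (transcendental_iff.1 htr) a ha
      rw [h3]; exact zero_mem _)
  have hlt : W.valuation x⁻¹ < 1 := by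
    have h3 := h2 X (Ideal.mem_span_singleton_self X)
    have h4 : ((aeval x⁻¹ : C[X] →ₐ[C] L) : C[X] →+* L) X = x⁻¹ := aeval_X _
    rwa [h4] at h3
  have hx : x ∉ W := by
    intro hxW
    rw [← W.valuation_le_one_iff] at hxW
    rw [map_inv₀] at hlt
    by_cases hx0 : x = 0
    · subst hx0
      exact tr isAlgebraic_zero
    · have h5 : W.valuation x ≠ 0 := (Valuation.ne_zero_iff _).2 hx0
      have h6 : 1 ≤ (W.valuation x)⁻¹ := (one_le_inv₀ (zero_lt_iff.2 h5)).2 hxW
      exact absurd hlt (not_lt.2 h6)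
  refine ⟨W, ⟨fun a => ?_, ?_⟩, hlt, hx⟩
  · have h3 := h1 (Polynomial.C a)
    have h4 : ((aeval x⁻¹ : C[X] →ₐ[C] L) : C[X] →+* L) (Polynomial.C a) = algebraMap C L a :=
      aeval_C _ _
    rwa [h4] at h3
  · rintro rfl
    exact hx trivial

end Pool.Agent.Lib.MP_2f3286_ag.Gl
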