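import Pool.Agent.Lib.MP_2f3286_ag.Pt.Defs
import Pool.Agent.Lib.MP_2f3286_ag.Full.Gauss
import Pool.Agent.Lib.MP_2f3286_ag.Pt.Ex1

/-!
# Orders at a prime element and at a place   (module U3)

PROOF of `zpow_dvd`. (`r`, `τ` with `v r = v τ ^ k`, `v τ = v r ^ l`, `v τ < 1`, `v τ ≠ 0`: `v τ = v τ ^ (k l)`, so `k l = 1`, `k = ± 1`.) `DivAt m f`:
`v f = v c ^ m`, `v c = v τ ^ e` so `v f = v τ ^ (e m)`; `v f = v r ^ n = v τ ^ (k n)`; so `k n = e m`, `m ∣ n`. (`zpow` of an element `≠ 0`, `< 1` is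
injective.)
PROOF of `val_prime`. `v = Q.valuation ∘ φ`. Every nonzero `a : S` is `r ^ i a'` with `¬ r ∣ a'` (finite multiplicity:
`UniqueFactorizationMonoid` or `WfDvdMonoid`, `FiniteMultiplicity.of_prime_left`...), so `v a = v r ^ i`. So `v f = v r ^ n`, and
`v τ = v a / v b` is a power of `v r` with an integer exponent; `hgen` for `φ r ≠ 0` (`φ` injective). `zpow_dvd`.
PROOF of `exists_prime_place`. `Full.exists_dominating` for `φ` and the prime ideal `Ideal.span {r}` (`φ a = 0` gives `a = 0`). It contains `C`: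
`hC`: every constant is algebraic over ... see the statement: `F₁` is a field with `φ (O) ⊆ F₁`-constants; an element of `F₁` is a
quotient of elements of `S` which are not divisible by `r` up to ... (`hF`): each `e : F₁` is `φ a / φ b` with `¬ r ∣ b`; so `e ∈ Q`; `C` is
algebraic over `F₁`, so `C ⊆ Q` (`Pt.Ex1.alg_mem` with constants `F₁`). `Q ≠ ⊤` as `v r < 1`, `φ r ≠ 0`.
-/

namespace Pool.Agent.Lib.MP_2f3286_ag.Gl

open Pool.Agent.Lib.MP_2f3286_ag.Pt (DivAt)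

theorem zpow_dvd {L : Type*} [Field L] (Q : ValuationSubring L) {r τ f : L} (hτ : τ ≠ 0)
    (hτ1 : Q.valuation τ < 1) (hr : r ≠ 0)
    (hgen : ∀ z : L, z ≠ 0 → ∃ n : ℤ, Q.valuation z = Q.valuation τ ^ n) {l : ℤ}
    (hl : Q.valuation τ = Q.valuation r ^ l) {m : ℕ} {n : ℤ}
    (hf : Q.valuation f = Q.valuation r ^ n) (hdiv : DivAt m f Q) : (m : ℤ) ∣ n := by
  have h0 : 0 < Q.valuation τ := zero_lt_iff.mpr ((Valuation.ne_zero_iff _).mpr hτ)
  have hinj := zpow_right_injective₀ h0 hτ1.ne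
  obtain ⟨k, hk⟩ := hgen r hr
  have h1 : k * l = 1 := by
    apply hinj
    change Q.valuation τ ^ (k * l) = Q.valuation τ ^ (1 : ℤ)
    rw [zpow_mul, ← hk, ← hl, zpow_one]
  obtain ⟨c, hc, hcv⟩ := hdiv
  obtain ⟨e, he⟩ := hgen c hc
  have h2 : Q.valuation f = Q.valuation c ^ m := by
    rw [map_mul, map_inv₀, map_pow] at hcv
    have h3 : Q.valuation c ^ m ≠ 0 := pow_ne_zero _ ((Valuation.ne_zero_iff _).mpr hc)
    exact (mul_inv_eq_one₀ h3).mp hcv
  have h3 : k * n = e * m := by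
    apply hinj
    change Q.valuation τ ^ (k * n) = Q.valuation τ ^ (e * (m : ℤ))
    rw [zpow_mul, ← hk, ← hf, h2, he, zpow_mul, zpow_natCast]
  have h4 : (m : ℤ) ∣ k * n := ⟨e, by rw [h3]; ring⟩
  have h5 : n = l * (k * n) := by
    calc n = (k * l) * n := by rw [h1, one_mul]
      _ = l * (k * n) := by ring
  rw [h5]
  exact h4.mul_left l

private theorem u3_val {S L : Type*} [CommRing S] [IsDomain S] [UniqueFactorizationMonoid S]
    [Field L] (φ : S →+* L) {r : S} (hr : Prime r) (Q : ValuationSubring L)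
    (hQ2 : ∀ a, ¬ r ∣ a → Q.valuation (φ a) = 1) {a : S} (ha : a ≠ 0) :
    ∃ i : ℕ, Q.valuation (φ a) = Q.valuation (φ r) ^ i := by
  have hfm : FiniteMultiplicity r a := FiniteMultiplicity.of_not_isUnit hr.not_unit ha
  obtain ⟨c, hc, hcd⟩ := hfm.exists_eq_pow_mul_and_not_dvd
  refine ⟨multiplicity r a, ?_⟩
  conv_lhs => rw [hc]
  rw [map_mul, map_mul, map_pow, map_pow, hQ2 c hcd, mul_one]

theorem val_prime {S L : Type*} [CommRing S] [IsDomain S] [UniqueFactorizationMonoid S] [Field L]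
    (φ : S →+* L) (hφ : Function.Injective φ) {r : S} (hr : Prime r) (Q : ValuationSubring L)
    (hQ1 : ∀ a, r ∣ a → Q.valuation (φ a) < 1) (hQ2 : ∀ a, ¬ r ∣ a → Q.valuation (φ a) = 1)
    {τ : L} {a b : S} (ha : a ≠ 0) (hb : b ≠ 0) (hτ : τ * φ b = φ a) (hτ1 : Q.valuation τ < 1)
    (hgen : ∀ z : L, z ≠ 0 → ∃ n : ℤ, Q.valuation z = Q.valuation τ ^ n) {f : S} (hf : f ≠ 0)
    {n : ℕ} (h1 : r ^ n ∣ f) (h2 : ¬ r ^ (n + 1) ∣ f) {m : ℕ} (hdiv : DivAt m (φ f) Q) :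
    m ∣ n := by
  have hne : ∀ s : S, s ≠ 0 → φ s ≠ 0 := fun s hs => (map_ne_zero_iff φ hφ).mpr hs
  have hτ0 : τ ≠ 0 := by
    rintro rfl
    rw [zero_mul] at hτ
    exact hne a ha hτ.symm
  have hr0 := hne r hr.ne_zero
  obtain ⟨i, hi⟩ := u3_val φ hr Q hQ2 ha
  obtain ⟨j, hj⟩ := u3_val φ hr Q hQ2 hb
  have hvr : Q.valuation (φ r) ≠ 0 := (Valuation.ne_zero_iff _).mpr hr0
  have hl : Q.valuation τ = Q.valuation (φ r) ^ ((i : ℤ) - j) := by
    have h3 : Q.valuation τ * Q.valuation (φ r) ^ j = Q.valuation (φ r) ^ i := by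
      rw [← hi, ← hj, ← map_mul, hτ]
    rw [zpow_sub₀ hvr, zpow_natCast, zpow_natCast, ← h3, mul_div_cancel_right₀ _ (pow_ne_zero _ hvr)]
  obtain ⟨c, hc⟩ := h1
  have hcd : ¬ r ∣ c := by
    rintro ⟨d, rfl⟩
    apply h2
    exact ⟨d, by rw [hc]; ring⟩
  have hfv : Q.valuation (φ f) = Q.valuation (φ r) ^ (n : ℤ) := by
    rw [hc, map_mul, map_mul, map_pow, map_pow, hQ2 c hcd, mul_one, zpow_natCast]
  have h4 := zpow_dvd Q hτ0 hτ1 hr0 hgen hl hfv hdiv
  exact_mod_cast h4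

theorem exists_prime_place {S L F₁ C : Type*} [CommRing S] [IsDomain S] [Field L] [Field F₁]
    [Field C] [Algebra F₁ C] [Algebra.IsAlgebraic F₁ C] [Algebra C L] (φ : S →+* L)
    (hφ : Function.Injective φ) {r : S} (hr : Prime r)
    (hF : ∀ e : F₁, ∃ a b : S, ¬ r ∣ b ∧ algebraMap C L (algebraMap F₁ C e) * φ b = φ a) :
    ∃ Q : ValuationSubring L, (∀ c : C, algebraMap C L c ∈ Q) ∧ Q ≠ ⊤ ∧ (∀ a, φ a ∈ Q) ∧
      (∀ a, r ∣ a → Q.valuation (φ a) < 1) ∧ ∀ a, ¬ r ∣ a → Q.valuation (φ a) = 1 := by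
  have hPp : (Ideal.span {r}).IsPrime := (Ideal.span_singleton_prime hr.ne_zero).mpr hr
  obtain ⟨Q, h1, h2, h3⟩ := Full.exists_dominating φ (Ideal.span {r}) (fun a ha => by
    rw [(map_eq_zero_iff φ hφ).mp ha]
    exact Ideal.zero_mem _)
  have hQ1 : ∀ a, r ∣ a → Q.valuation (φ a) < 1 := fun a ha =>
    h2 a (Ideal.mem_span_singleton.mpr ha)
  have hQ2 : ∀ a, ¬ r ∣ a → Q.valuation (φ a) = 1 := fun a ha =>
    h3 a (fun h => ha (Ideal.mem_span_singleton.mp h))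
  refine ⟨Q, ?_, ?_, h1, hQ1, hQ2⟩
  · letI : Algebra F₁ L := ((algebraMap C L).comp (algebraMap F₁ C)).toAlgebra
    haveI : IsScalarTower F₁ C L := IsScalarTower.of_algebraMap_eq (fun _ => rfl)
    intro c
    apply Pt.Ex1.alg_mem (C := F₁) Q
    · intro e
      obtain ⟨a, b, hb, hab⟩ := hF e
      change algebraMap C L (algebraMap F₁ C e) ∈ Q
      rw [← Q.valuation_le_one_iff]
      have h4 : Q.valuation (algebraMap C L (algebraMap F₁ C e)) * Q.valuation (φ b) =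
          Q.valuation (φ a) := by rw [← map_mul, hab]
      rw [hQ2 b hb, mul_one] at h4
      rw [h4, Q.valuation_le_one_iff]
      exact h1 a
    · exact (Algebra.IsAlgebraic.isAlgebraic (R := F₁) c).algebraMap
  · intro htop
    have h4 := hQ1 r dvd_rfl
    have h5 : (φ r)⁻¹ ∈ Q := by rw [htop]; exact ValuationSubring.mem_top _
    rw [← Q.valuation_le_one_iff, map_inv₀] at h5
    have h6 : 0 < Q.valuation (φ r) :=
      zero_lt_iff.mpr ((Valuation.ne_zero_iff _).mpr ((map_ne_zero_iff φ hφ).mpr hr.ne_zero))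
    exact absurd h5 (not_le.mpr (one_lt_inv₀ h6 |>.mpr h4))

end Pool.Agent.Lib.MP_2f3286_ag.Gl
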