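import Pool.Agent.Lib.MP_2f3286_ag.Gl.SJ
import Pool.Agent.Lib.MP_2f3286_ag.Gl.SH
import Pool.Agent.Lib.MP_2f3286_ag.Gl.U3
import Pool.Agent.Lib.MP_2f3286_ag.Pt.Ex3
import Pool.Agent.Lib.MP_2f3286_ag.Pt.Ex2

/-!
# Orders over a finite field of constants; units are constants   (module F3)

PROOF of `divAt_down`. `Full.exists_dominating` for the inclusion `B → k` and the prime ideal `v.asIdeal`: a valuation ring `Q` of `k` which contains
`B`, elements of `v` have `Q`-valuation `< 1`, elements of `B` outside `v` have `Q`-valuation one. `κ₀ ⊆ B ⊆ Q`, `κ` is algebraic over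
`κ₀`, so `κ ⊆ Q` (`Pt.Ex1.alg_mem`); `Q ≠ ⊤` (`v ≠ ⊥`). `x ∈ Q`. `IsSup.gen_low` with `F₁ = κ₀` (`PerfectField`: finite): `τ ∈ adjoin κ₀ {x, y}` (so `τ`
is an element of `K₀`) generates the value group of `Q`, `Q.valuation τ < 1`. Let `r : K₀` with `v.valuation K₀ r = exp (-1)`
(`HeightOneSpectrum.valuation_exists_uniformizer`). Every nonzero `z : K₀` has `v.valuation K₀ z = exp (-n) = v.valuation K₀ (r ^ n)`, and an element of
`v`-valuation one is a quotient of two elements of `B` outside `v` (`Pt.Ex2.exists_frac` for it and its inverse), so has `Q`-valuation one; so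
`Q.valuation z = Q.valuation r ^ n`. In particular `Q.valuation τ = Q.valuation r ^ l`. `zpow_dvd` for `f`: `m ∣ n` where `v f = exp (-n)`.
`Pt.divAt_iff`.
PROOF of `unit_const`. Let `Q₀` be a place with `x ∉ Q₀` (`exists_inf`); it is the only one (`inf_unique`). If `u ∈ Q₀` then `u` is in every valuation ring of
`k` over `κ` (`⊤` too), so constant (`Pt.Ex3.const_of_mem_all`). Otherwise `u⁻¹ ∈ Q₀` and `u⁻¹` has valuation one at the others: `u⁻¹` is a constant.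
-/

open Polynomial IntermediateField IsDedekindDomain

namespace Pool.Agent.Lib.MP_2f3286_ag.Gl

open Pool.Agent.Lib.MP_2f3286_ag.Pt (DivAt IsPlc)

variable {p : ℕ} {κ k : Type*} [Field κ] [IsAlgClosed κ] [Field k] [Algebra κ k] {x y : k}

private theorem f3_val_one {κ₀ : Type*} [Field κ₀] [Algebra κ₀ k] (K₀ : IntermediateField κ₀ k)
    (B : Subalgebra κ₀ K₀) [IsDedekindDomain B] [IsFractionRing B K₀] (v : HeightOneSpectrum B)
    (Q : ValuationSubring k)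
    (h3 : ∀ a : B, a ∉ v.asIdeal → Q.valuation (((a : K₀)) : k) = 1) (z : K₀)
    (hz : v.valuation K₀ z = 1) : Q.valuation (z : k) = 1 := by
  obtain ⟨c, s, hs, hzs⟩ := Pt.Ex2.exists_frac v z hz.le
  have hs1 : v.valuation K₀ (algebraMap B K₀ s) = 1 :=
    (HeightOneSpectrum.valuation_eq_one_iff_notMem v).2 hs
  have hc1 : v.valuation K₀ (algebraMap B K₀ c) = 1 := by
    rw [← hzs, map_mul, hz, hs1, one_mul]
  have hc : c ∉ v.asIdeal := (HeightOneSpectrum.valuation_eq_one_iff_notMem v).1 hc1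
  have h4 : (z : k) * ((s : K₀) : k) = ((c : K₀) : k) := by
    have := congrArg (algebraMap K₀ k) hzs
    rw [map_mul] at this
    exact this
  have h5 := congrArg Q.valuation h4
  rw [map_mul, h3 s hs, h3 c hc, mul_one] at h5
  exact h5

private theorem f3_main (hp : p.Prime) (hpκ : (p : κ) ≠ 0) {h : κ[X]} (H : IsSup p x y h)
    {κ₀ : Type*} [Field κ₀] [PerfectField κ₀] [Algebra κ₀ κ] [Algebra.IsAlgebraic κ₀ κ]
    [Algebra κ₀ k] [IsScalarTower κ₀ κ k] (K₀ : IntermediateField κ₀ k)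
    (hK₀ : K₀ = IntermediateField.adjoin κ₀ {x, y}) (B : Subalgebra κ₀ K₀)
    [IsDedekindDomain B] [IsFractionRing B K₀]
    (hx : ∃ hxK : x ∈ K₀, (⟨x, hxK⟩ : K₀) ∈ B) {m : ℕ} (hm : 1 ≤ m)
    {f : K₀} (hf : f ≠ 0)
    (hdiv : ∀ Q : ValuationSubring k, IsPlc κ Q → x ∈ Q → DivAt m (f : k) Q)
    (v : HeightOneSpectrum B) : DivAt m f (v.valuation K₀).valuationSubring := by
  obtain ⟨hxK, hxB⟩ := hx
  let φ : B →+* k := (algebraMap K₀ k).comp (algebraMap B K₀)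
  have hφv : ∀ a : B, φ a = ((a : K₀) : k) := fun a => rfl
  have hφ0 : ∀ a : B, φ a = 0 → a = 0 := by
    intro a ha
    rw [hφv] at ha
    exact Subtype.ext (Subtype.ext ha)
  have := v.isPrime
  obtain ⟨Q, h1, h2, h3⟩ := Full.exists_dominating φ v.asIdeal (fun a ha => by
    rw [hφ0 a ha]; exact v.asIdeal.zero_mem)
  have hκ₀ : ∀ e : κ₀, algebraMap κ₀ k e ∈ Q := by
    intro e
    exact h1 (algebraMap κ₀ B e)
  have hκ : ∀ c : κ, algebraMap κ k c ∈ Q := by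
    intro c
    exact Pt.Ex1.alg_mem (C := κ₀) Q hκ₀ _ ((Algebra.IsAlgebraic.isAlgebraic c).algebraMap)
  have hQtop : Q ≠ ⊤ := by
    intro htop
    obtain ⟨a, ha, ha0⟩ := (Submodule.ne_bot_iff _).1 v.ne_bot
    have h4 := h2 a ha
    have h5 : (φ a)⁻¹ ∈ Q := by rw [htop]; trivial
    rw [← Q.valuation_le_one_iff, map_inv₀] at h5
    have h6 : Q.valuation (φ a) ≠ 0 := (Valuation.ne_zero_iff _).2 (fun h => ha0 (hφ0 a h))
    exact absurd ((inv_le_one₀ (zero_lt_iff.2 h6)).1 h5) (not_le.2 h4)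
  have hQ : IsPlc κ Q := ⟨hκ, hQtop⟩
  have hxQ : x ∈ Q := h1 ⟨⟨x, hxK⟩, hxB⟩
  obtain ⟨τ, hτK, hτ1, hgen⟩ := H.gen_low hp hpκ (F₁ := κ₀) hQ hxQ
  rw [← hK₀] at hτK
  have hτ0 : τ ≠ 0 := by
    rintro rfl
    obtain ⟨a, ha, ha0⟩ := (Submodule.ne_bot_iff _).1 v.ne_bot
    obtain ⟨n, hn⟩ := hgen (φ a) (fun h => ha0 (hφ0 a h))
    have h4 := h2 a ha
    have h6 : Q.valuation (φ a) ≠ 0 := (Valuation.ne_zero_iff _).2 (fun h => ha0 (hφ0 a h))
    rw [map_zero] at hn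
    rcases eq_or_ne n 0 with hn0 | hn0
    · rw [hn0, zpow_zero] at hn
      exact absurd hn h4.ne
    · rw [zero_zpow _ hn0] at hn
      exact h6 hn
  obtain ⟨r, hr⟩ := v.valuation_exists_uniformizer K₀
  have hr0 : r ≠ 0 := by
    rintro rfl
    rw [map_zero] at hr
    exact WithZero.exp_ne_zero hr.symm
  have h3' : ∀ a : B, a ∉ v.asIdeal → Q.valuation (((a : K₀)) : k) = 1 := fun a ha => h3 a ha
  have hpow : ∀ z : K₀, z ≠ 0 → ∃ n : ℤ, v.valuation K₀ z = WithZero.exp (-n) ∧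
      Q.valuation (z : k) = Q.valuation (r : k) ^ n := by
    intro z hz
    have hvz : v.valuation K₀ z ≠ 0 := (Valuation.ne_zero_iff _).2 hz
    obtain ⟨n, hn⟩ : ∃ n : ℤ, v.valuation K₀ z = WithZero.exp (-n) :=
      ⟨-WithZero.log (v.valuation K₀ z), by rw [neg_neg, WithZero.exp_log hvz]⟩
    refine ⟨n, hn, ?_⟩
    have h4 : v.valuation K₀ (z * (r ^ n)⁻¹) = 1 := by
      rw [map_mul, map_inv₀, map_zpow₀, hr, ← WithZero.exp_zsmul, ← WithZero.exp_neg, hn,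
        ← WithZero.exp_add, ← WithZero.exp_zero]
      congr 1
      simp
    have h5 := f3_val_one K₀ B v Q h3' _ h4
    have h6 : ((z * (r ^ n)⁻¹ : K₀) : k) = (z : k) * ((r : k) ^ n)⁻¹ := by
      push_cast
      rfl
    rw [h6, map_mul, map_inv₀, map_zpow₀] at h5
    have h7 : Q.valuation (r : k) ≠ 0 := (Valuation.ne_zero_iff _).2 (by
      intro h; exact hr0 (Subtype.ext h))
    exact (mul_inv_eq_one₀ (zpow_ne_zero _ h7)).1 h5
  obtain ⟨l, -, hl⟩ := hpow ⟨τ, hτK⟩ (fun h => hτ0 (congrArg Subtype.val h))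
  obtain ⟨n, hn1, hn2⟩ := hpow f hf
  have hdvd := zpow_dvd Q hτ0 hτ1 (fun h => hr0 (Subtype.ext h)) hgen hl hn2 (hdiv Q hQ hxQ)
  obtain ⟨e, he⟩ := hdvd
  rw [Pt.divAt_iff v m hm f hf]
  refine ⟨-e, ?_⟩
  rw [hn1, he]
  congr 1
  ring

theorem divAt_down (hp : p.Prime) (hpκ : (p : κ) ≠ 0) {h : κ[X]} (H : IsSup p x y h) {κ₀ : Type*}
    [Field κ₀] [PerfectField κ₀] [Algebra κ₀ κ] [Algebra.IsAlgebraic κ₀ κ] [Algebra κ₀ k]
    [IsScalarTower κ₀ κ k] (B : Subalgebra κ₀ (IntermediateField.adjoin κ₀ {x, y}))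
    [IsDedekindDomain B] [IsFractionRing B (IntermediateField.adjoin κ₀ {x, y})]
    (hx : ⟨x, IntermediateField.subset_adjoin _ _ (by simp)⟩ ∈ B) {m : ℕ} (hm : 1 ≤ m)
    {f : IntermediateField.adjoin κ₀ {x, y}} (hf : f ≠ 0)
    (hdiv : ∀ Q : ValuationSubring k, IsPlc κ Q → x ∈ Q → DivAt m (f : k) Q)
    (v : HeightOneSpectrum B) : DivAt m f (v.valuation _).valuationSubring :=
  f3_main hp hpκ H (IntermediateField.adjoin κ₀ {x, y}) rfl B ⟨_, hx⟩ hm hf hdiv v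

theorem IsSup.unit_const (hp : p.Prime) {h : κ[X]} (H : IsSup p x y h) {u : k} (hu : u ≠ 0)
    (h1 : ∀ Q : ValuationSubring k, IsPlc κ Q → x ∈ Q → Q.valuation u = 1) :
    ∃ c : κ, u = algebraMap κ k c := by
  obtain ⟨Q₀, hQ₀, -, hx₀⟩ := exists_inf (C := κ) H.tr
  have hmain : ∀ w : k, w ∈ Q₀ → (∀ Q : ValuationSubring k, IsPlc κ Q → x ∈ Q → Q.valuation w = 1) →
      ∃ c : κ, w = algebraMap κ k c := by
    intro w hw hw1
    refine Pt.Ex3.const_of_mem_all w fun V hV => ?_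
    by_cases hVt : V = ⊤
    · rw [hVt]; trivial
    by_cases hxV : x ∈ V
    · rw [← V.valuation_le_one_iff]
      exact (hw1 V ⟨hV, hVt⟩ hxV).le
    · rw [H.inf_unique hp hV hQ₀.1 hxV hx₀]
      exact hw
  by_cases huQ : u ∈ Q₀
  · exact hmain u huQ h1
  · have h2 : u⁻¹ ∈ Q₀ := (Q₀.mem_or_inv_mem u).resolve_left huQ
    obtain ⟨c, hc⟩ := hmain u⁻¹ h2 (fun Q hQ hxQ => by rw [map_inv₀, h1 Q hQ hxQ, inv_one])
    exact ⟨c⁻¹, by rw [map_inv₀, ← hc, inv_inv]⟩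

end Pool.Agent.Lib.MP_2f3286_ag.Gl
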