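import Pool.Agent.Lib.MP_2f3286_ag.Gl.F1
import Pool.Agent.Lib.MP_2f3286_ag.Gl.F2
import Pool.Agent.Lib.MP_2f3286_ag.Gl.F3

/-!
# Elements over a finite field of constants with orders divisible by large powers of `p`   (module F4)

PROOF. `K₀ = adjoin κ₀ {x, y}` (an intermediate field of `k / κ₀`), `x₀`, `y₀ : K₀` the elements `x`, `y`. `IsSup p x₀ y₀ h₀` over `κ₀`: `x₀` is
transcendental over `κ₀` (it is over `κ`), `y₀ ^ p = aeval x₀ h₀` (in `k`), `gen` (`IntermediateField.adjoin` of the generators inside is `⊤`: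
`IntermediateField.adjoin_adjoin...`, `IntermediateField.lift_adjoin`...), `deg` (`natDegree_map`), `sep` (`Polynomial.separable_map`). `cls_fin`:
`B`; `cls_pow` for `B`, `L = K₀`: `a`, `N`. Take `a₀ = a`. Let `n > a`, `f ∈ K₀`, `f ≠ 0`. `divAt_down` with `m = p ^ n`: `DivAt (p ^ n) f` at all `v`, so
`f ^ (p ^ a * N) = u g ^ (p ^ n)` with a unit `u` of `B`, `g ∈ K₀`, `g ≠ 0`. `u` and `u⁻¹` are integral over `κ₀[x]`, so in every valuation ring `Q` of `k` which
contains `κ` and `x`, so `Q.valuation u = 1` and `u = c : κ` (`unit_const`), `c ≠ 0`, `c = c₁ ^ (p ^ a)`. So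
`(f ^ N / (c₁ g ^ (p ^ (n - a)))) ^ (p ^ a) = 1`, a root of unity is a constant (`κ` is algebraically closed; e.g. algebraic over `κ` and
`IsAlgClosed.algebraMap_surjective...`, or `X ^ M - 1` splits over `κ`): `f ^ N = c₂ g ^ (p ^ (n - a))` in `k`, `c₂ : κ`, `c₂ ≠ 0`. `n - a ≥ 1` and `c₂` is a
`p`-th power, so `f ^ N = γ ^ p`. `i N + j p = 1` with integers: `f = (f ^ N) ^ i (f ^ j) ^ p = (γ ^ i f ^ j) ^ p`.
-/

open Polynomial IntermediateField

namespace Pool.Agent.Lib.MP_2f3286_ag.Gl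

open Pool.Agent.Lib.MP_2f3286_ag.Pt (DivAt IsPlc)

theorem fb {p : ℕ} (hp : p.Prime) {κ₀ κ k : Type*} [Field κ₀] [Finite κ₀] [Field κ]
    [IsAlgClosed κ] [Algebra κ₀ κ] [Algebra.IsAlgebraic κ₀ κ] [Field k] [Algebra κ k]
    [Algebra κ₀ k] [IsScalarTower κ₀ κ k] (hpκ : (p : κ) ≠ 0) {x y : k} {h₀ : κ₀[X]}
    (H : IsSup p x y (h₀.map (algebraMap κ₀ κ))) :
    ∃ a₀ : ℕ, ∀ n, a₀ < n → ∀ f ∈ IntermediateField.adjoin κ₀ {x, y}, f ≠ 0 →
      (∀ Q : ValuationSubring k, IsPlc κ Q → x ∈ Q → DivAt (p ^ n) f Q) →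
      ∃ g : k, g ^ p = f := by
  have hx : x ∈ IntermediateField.adjoin κ₀ {x, y} := IntermediateField.subset_adjoin _ _ (by simp)
  have hy : y ∈ IntermediateField.adjoin κ₀ {x, y} := IntermediateField.subset_adjoin _ _ (by simp)
  have hpκ₀ : (p : κ₀) ≠ 0 := by
    intro hc
    apply hpκ
    rw [← map_natCast (algebraMap κ₀ κ), hc, map_zero]
  have H₀ : IsSup p (⟨x, hx⟩ : IntermediateField.adjoin κ₀ {x, y}) ⟨y, hy⟩ h₀ := by
    refine ⟨?_, ?_, ?_, ?_, ?_⟩
    · intro hc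
      apply H.tr
      have h1 : IsAlgebraic κ₀ x := by
        exact (isAlgebraic_algebraMap_iff (R := κ₀) (S := IntermediateField.adjoin κ₀ {x, y}) (A := k)
          (algebraMap (IntermediateField.adjoin κ₀ {x, y}) k).injective (a := ⟨x, hx⟩)).2 hc
      exact h1.tower_top κ
    · apply Subtype.ext
      have h1 := H.eq
      rw [aeval_map_algebraMap] at h1
      have h2 : ((aeval (⟨x, hx⟩ : IntermediateField.adjoin κ₀ {x, y}) h₀ :
          IntermediateField.adjoin κ₀ {x, y}) : k) = aeval x h₀ :=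
        (aeval_algebraMap_apply k (⟨x, hx⟩ : IntermediateField.adjoin κ₀ {x, y}) h₀).symm
      rw [h2]
      exact h1
    · apply IntermediateField.lift_injective
      rw [IntermediateField.lift_top, IntermediateField.lift_adjoin]
      congr 1
      ext z
      simp [eq_comm]
    · have h1 := H.deg
      rwa [natDegree_map] at h1
    · exact (Polynomial.separable_map _).1 H.sep
  obtain ⟨B, i1, i2, hxB, hyB, hint, i3⟩ := cls_fin hp hpκ₀ H₀
  obtain ⟨a, N, hN, hcl⟩ := cls_pow (B := B) (L := IntermediateField.adjoin κ₀ {x, y}) hp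
  refine ⟨a, ?_⟩
  intro n hn f hf hf0 hdiv
  have hf0' : (⟨f, hf⟩ : IntermediateField.adjoin κ₀ {x, y}) ≠ 0 := by
    intro hc
    exact hf0 (congrArg Subtype.val hc)
  obtain ⟨u, g, hg0, hug⟩ := hcl n ⟨f, hf⟩ hf0' (fun v =>
    divAt_down hp hpκ H B hxB (Nat.one_le_iff_ne_zero.2 (pow_ne_zero _ hp.ne_zero)) hf0' hdiv v)
  -- the unit is a constant
  have hmemQ : ∀ (Q : ValuationSubring k), IsPlc κ Q → x ∈ Q → ∀ b : IntermediateField.adjoin κ₀ {x, y}, b ∈ B →
      (b : k) ∈ Q := by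
    intro Q hQ hxQ b hb
    have h1 : b ∈ Q.comap (algebraMap (IntermediateField.adjoin κ₀ {x, y}) k) := by
      refine Pool.Agent.Lib.MP_2f3286_ag.Pt.Ex1.int_mem (F := κ₀) _ ?_ (⟨x, hx⟩ : IntermediateField.adjoin κ₀ {x, y}) ?_ b (hint b hb)
      · intro c
        rw [ValuationSubring.mem_comap, ← IsScalarTower.algebraMap_apply κ₀ _ k, IsScalarTower.algebraMap_apply κ₀ κ k]
        exact hQ.1 _
      · rw [ValuationSubring.mem_comap]
        exact hxQ
    exact h1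
  have huQ : ∀ Q : ValuationSubring k, IsPlc κ Q → x ∈ Q →
      Q.valuation (((u : B) : IntermediateField.adjoin κ₀ {x, y}) : k) = 1 := by
    intro Q hQ hxQ
    have h1 := (Q.valuation_le_one_iff _).2 (hmemQ Q hQ hxQ _ (u : B).2)
    have h2 := (Q.valuation_le_one_iff _).2 (hmemQ Q hQ hxQ _ ((u⁻¹ : Bˣ) : B).2)
    have h3 : ((((u : B) : IntermediateField.adjoin κ₀ {x, y}) : k)) *
        ((((u⁻¹ : Bˣ) : B) : IntermediateField.adjoin κ₀ {x, y}) : k) = 1 := by
      exact congrArg (fun z : B => ((z : IntermediateField.adjoin κ₀ {x, y}) : k)) u.mul_inv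
    have h4 := congrArg Q.valuation h3
    rw [map_mul, map_one] at h4
    exact le_antisymm h1 (by
      calc (1 : Q.ValueGroup) = _ := h4.symm
        _ ≤ Q.valuation _ * 1 := mul_le_mul_right h2 _
        _ = _ := mul_one _)
  have hu0 : (((u : B) : IntermediateField.adjoin κ₀ {x, y}) : k) ≠ 0 := by
    intro hc
    have h1 : (u : B) = 0 := Subtype.ext (Subtype.ext hc)
    exact u.ne_zero h1
  obtain ⟨c, hc⟩ := H.unit_const hp hu0 huQ
  have hc0 : c ≠ 0 := by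
    rintro rfl
    rw [map_zero] at hc
    exact hu0 hc
  obtain ⟨c₁, hc₁⟩ := IsAlgClosed.exists_pow_nat_eq c (pow_pos hp.pos a)
  have hc₁0 : c₁ ≠ 0 := by
    rintro rfl
    rw [zero_pow (pow_ne_zero _ hp.ne_zero)] at hc₁
    exact hc0 hc₁.symm
  have hgk : (g : k) ≠ 0 := fun hh => hg0 (Subtype.ext hh)
  have hmain : f ^ (p ^ a * N) = algebraMap κ k c * (g : k) ^ p ^ n := by
    have h1 := congrArg (fun z : IntermediateField.adjoin κ₀ {x, y} => (z : k)) hug
    rw [← hc]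
    simpa using h1
  have hpn : p ^ n = p ^ (n - a) * p ^ a := by rw [← pow_add]; congr 1; omega
  set D : k := algebraMap κ k c₁ * (g : k) ^ p ^ (n - a) with hD
  have hD0 : D ≠ 0 := mul_ne_zero ((_root_.map_ne_zero _).2 hc₁0) (pow_ne_zero _ hgk)
  have hroot : (f ^ N / D) ^ p ^ a = 1 := by
    rw [div_pow, ← pow_mul, mul_comm N, hmain, hD, mul_pow, ← map_pow, hc₁, ← pow_mul, ← hpn]
    refine div_self (mul_ne_zero ((_root_.map_ne_zero _).2 hc0) (pow_ne_zero _ hgk))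
  obtain ⟨c₂, hc₂⟩ : ∃ c₂ : κ, algebraMap κ k c₂ = f ^ N / D := by
    have hint2 : IsIntegral κ (f ^ N / D) := by
      refine IsIntegral.of_pow (pow_pos hp.pos a) ?_
      rw [hroot]
      exact isIntegral_one
    have hdeg := IsAlgClosed.degree_eq_one_of_irreducible κ (minpoly.irreducible hint2)
    exact minpoly.mem_range_of_degree_eq_one κ _ hdeg
  obtain ⟨c₃, hc₃⟩ := IsAlgClosed.exists_pow_nat_eq (c₂ * c₁) hp.pos
  have hna : p ^ (n - a) = p ^ (n - a - 1) * p := by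
    rw [← pow_succ]; congr 1; omega
  obtain ⟨γ, hγ⟩ : ∃ γ : k, γ ^ p = f ^ N := by
    refine ⟨algebraMap κ k c₃ * (g : k) ^ p ^ (n - a - 1), ?_⟩
    rw [mul_pow, ← map_pow, hc₃, ← pow_mul, ← hna, map_mul, hc₂, mul_assoc, ← hD, div_mul_cancel₀ _ hD0]
  have hcop : IsCoprime (N : ℤ) (p : ℤ) := by
    rw [Nat.isCoprime_iff_coprime]
    exact ((Nat.Prime.coprime_iff_not_dvd hp).2 hN).symm
  obtain ⟨i, j, hij⟩ := hcop
  refine ⟨γ ^ i * f ^ j, ?_⟩
  have hγ0 : γ ≠ 0 := by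
    rintro rfl
    rw [zero_pow hp.ne_zero] at hγ
    exact pow_ne_zero _ hf0 hγ.symm
  calc (γ ^ i * f ^ j) ^ p = (γ ^ p) ^ i * f ^ (j * p) := by
        rw [mul_pow, ← zpow_natCast (γ ^ i), ← zpow_mul, mul_comm i, zpow_mul, zpow_natCast, ← zpow_natCast (f ^ j),
          ← zpow_mul]
    _ = f ^ (i * N) * f ^ (j * p) := by
        rw [hγ, ← zpow_natCast f N, ← zpow_mul, mul_comm i]
    _ = f := by
        rw [← zpow_add₀ hf0, hij, zpow_one]

end Pool.Agent.Lib.MP_2f3286_ag.Gl
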