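import Pool.Agent.Lib.MP_2f3286_ag.Fer.Tp.FullM
import Pool.Agent.Lib.MP_2f3286_ag.Gl.FullK

/-!
# Sections with a place over the completion at the prime above `p`, for all curves
-/

open IsDedekindDomain NumberField
open scoped WithZero
open Pool.Agent.Lib.MP_2f3286_bir (IsPlaceOf)

namespace Pool.Agent.Lib.MP_2f3286_ag.Gl

open Pool.Agent.Lib.MP_2f3286_ag.Fer
open Pool.Agent.Lib.MP_2f3286_ag.Pt (DivAt)

/-- **The value of one of the functions `A`, `1 - A`, `1 - 1 / A` at a place of a section over the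
completion at the prime above `p`.** -/
theorem fermat_locp2 {p : ℕ} (hp : p.Prime) (h2 : p ≠ 2)
    (hh : ¬ p ∣ classNumber (CyclotomicField p ℚ))
    {k : Type*} [Field k] [NumberField k] [Algebra k (CyclotomicField p ℚ)]
    {K : Type*} [Field K] [Algebra k K]
    {M : Type*} [Field M] [Algebra K M] [Algebra.IsAlgebraic K M]
    [Algebra (AlgebraicClosure k) M] [Algebra k M]
    [IsScalarTower k K M] [IsScalarTower k (AlgebraicClosure k) M]
    (𝒱 : Set (ValuationSubring M))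
    (h𝒱 : ∀ V ∈ 𝒱, ∀ a : AlgebraicClosure k, algebraMap (AlgebraicClosure k) M a ∈ V)
    (hrad : ∀ ρ : M, ρ ≠ 0 → (∀ V ∈ 𝒱, DivAt p ρ V) → ∃ β : M, β ^ p = ρ)
    (A : K) (hA : ∀ c : k, A ≠ algebraMap k K c)
    (h : (∃ x y : K, x ^ p = A ∧ y ^ p = 1 - A) ∨
      ((∀ u : (𝓞 k)ˣ, ∃ v : (𝓞 k)ˣ, v ^ p = u) ∧ ∃ (a b : ℤ) (B : K), ¬ (p : ℤ) ∣ a ∧
        ¬ (p : ℤ) ∣ b ∧ ¬ (p : ℤ) ∣ a + b ∧ A ^ a * (1 - A) ^ b = B ^ p))
    (s : Gal(AlgebraicClosure k/k) →* Gal(M/K)) (hs : Continuous s)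
    (hsec : ∀ σ a, s σ (algebraMap (AlgebraicClosure k) M a) =
      algebraMap (AlgebraicClosure k) M (σ a))
    (v : HeightOneSpectrum (𝓞 k)) (hv : (p : 𝓞 k) ∈ v.asIdeal)
    (ι : AlgebraicClosure k →ₐ[k] AlgebraicClosure (v.adicCompletion k))
    (A' : ValuationSubring M) (φ : A' →+* AlgebraicClosure (v.adicCompletion k))
    (hφ : IsPlaceOf s (v.adicCompletion k)
      (ι : _ →+* AlgebraicClosure (v.adicCompletion k)) A' φ) :
    ∃ B : K, (B = A ∨ B = 1 - A ∨ B = 1 - A⁻¹) ∧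
      ∃ h : algebraMap K M B ∈ A', φ ⟨_, h⟩ = 1 := by
  have : NeZero p := ⟨hp.ne_zero⟩
  have hcyc := cycl p
  obtain ⟨X⟩ := exists_stp (F := CyclotomicField p ℚ) hp h2 hh
  have hdeg : Module.finrank ℚ (CyclotomicField p ℚ) = p - 1 := by
    rw [IsCyclotomicExtension.Rat.finrank p, Nat.totient_prime hp]
  have hm : ¬ p ∣ Module.finrank k (CyclotomicField p ℚ) := by
    intro hd
    have h4 : Module.finrank ℚ k * Module.finrank k (CyclotomicField p ℚ) = p - 1 := by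
      rw [Module.finrank_mul_finrank, hdeg]
    have h5 : p ∣ p - 1 := h4 ▸ Dvd.dvd.mul_left hd _
    have h6 := hp.two_le
    exact absurd (Nat.le_of_dvd (by omega) h5) (by omega)
  let e : CyclotomicField p ℚ →ₐ[k] AlgebraicClosure k :=
    have : Algebra.IsAlgebraic k (CyclotomicField p ℚ) := by
      have : FiniteDimensional k (CyclotomicField p ℚ) := FiniteDimensional.right ℚ k _
      infer_instance
    IsAlgClosed.lift
  let iF : Algebra (CyclotomicField p ℚ) (AlgebraicClosure k) := (e : _ →+* _).toAlgebra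
  have t1 : IsScalarTower k (CyclotomicField p ℚ) (AlgebraicClosure k) :=
    IsScalarTower.of_algebraMap_eq fun a => (e.commutes a).symm
  exact locp_k X hm 𝒱 h𝒱 hrad s hs hsec v hv ι A' φ hφ A hA h

end Pool.Agent.Lib.MP_2f3286_ag.Gl
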