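import Pool.Agent.Lib.MP_2f3286_ag.Gl.Defs

/-!
# Reduction of polynomials   (module GA)

`PHas V P Pb`: all coefficients of `P` are finite at the place `V` and have the residues `Pb`. The proofs are direct; sums:
`Plc.Has` is closed under finite sums (induction). `PHas.mul`: `Polynomial.coeff_mul`. `PHas.eval`, `PHas.aeval`:
`Polynomial.eval_eq_sum_range'`, `Polynomial.aeval_eq_sum_range'` with a common bound of the degrees.
`exists_PHas`: `Pb = ∑ i ∈ P.support, monomial i (V.φ ⟨P.coeff i, _⟩)`. `PHas.of_mul_prod`: induction with `PHas.mul`.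
-/

open Polynomial

namespace Pool.Agent.Lib.MP_2f3286_ag.Gl

open Pool.Agent.Lib.MP_2f3286_ag.Fer (Plc)

section

variable {C κ : Type*} [Field C] [Field κ]

theorem has_sum {ι : Type*} (V : Plc C κ) (s : Finset ι) {f : ι → C} {g : ι → κ}
    (h : ∀ i ∈ s, V.Has (f i) (g i)) : V.Has (∑ i ∈ s, f i) (∑ i ∈ s, g i) := by
  classical
  induction s using Finset.induction_on with
  | empty => rw [Finset.sum_empty, Finset.sum_empty]; exact Fer.Plc.has_zero
  | insert a s ha ih =>
    rw [Finset.sum_insert ha, Finset.sum_insert ha]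
    exact (h a (Finset.mem_insert_self a s)).add
      (ih fun i hi => h i (Finset.mem_insert_of_mem hi))

theorem has_prod {ι : Type*} (V : Plc C κ) (s : Finset ι) {f : ι → C} {g : ι → κ}
    (h : ∀ i ∈ s, V.Has (f i) (g i)) : V.Has (∏ i ∈ s, f i) (∏ i ∈ s, g i) := by
  classical
  induction s using Finset.induction_on with
  | empty => rw [Finset.prod_empty, Finset.prod_empty]; exact Fer.Plc.has_one
  | insert a s ha ih =>
    rw [Finset.prod_insert ha, Finset.prod_insert ha]
    exact (h a (Finset.mem_insert_self a s)).mul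
      (ih fun i hi => h i (Finset.mem_insert_of_mem hi))

theorem has_natCast (V : Plc C κ) (n : ℕ) : V.Has (n : C) (n : κ) := by
  induction n with
  | zero => rw [Nat.cast_zero, Nat.cast_zero]; exact Fer.Plc.has_zero
  | succ n ih => rw [Nat.cast_succ, Nat.cast_succ]; exact ih.add Fer.Plc.has_one

/-- valuations at a place -/
theorem has_val_le (V : Plc C κ) {c : C} {z : κ} (h : V.Has c z) : V.A.valuation c ≤ 1 := by
  obtain ⟨h1, _⟩ := h
  exact (V.A.valuation_le_one_iff c).2 h1

theorem has_val_eq (V : Plc C κ) {c : C} {z : κ} (h : V.Has c z) (hz : z ≠ 0) :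
    V.A.valuation c = 1 := by
  have hc : c ≠ 0 := h.ne_zero hz
  have h1 := has_val_le V h
  have h2 := has_val_le V (h.inv hz)
  refine le_antisymm h1 ?_
  by_contra h3
  rw [not_le] at h3
  have h4 : V.A.valuation c * V.A.valuation c⁻¹ = 1 := by
    rw [← map_mul, mul_inv_cancel₀ hc, map_one]
  have h5 : V.A.valuation c * V.A.valuation c⁻¹ < 1 := by
    calc V.A.valuation c * V.A.valuation c⁻¹ ≤ V.A.valuation c * 1 := mul_le_mul_right h2 _
      _ = V.A.valuation c := mul_one _
      _ < 1 := h3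
  exact absurd h4 (ne_of_lt h5)

theorem has_val_lt (V : Plc C κ) {c : C} : V.Has c 0 ↔ V.A.valuation c < 1 := by
  constructor
  · intro h
    refine lt_of_le_of_ne (has_val_le V h) fun h1 => ?_
    have hc : c ≠ 0 := by
      rintro rfl
      rw [map_zero] at h1
      exact zero_ne_one h1
    have h2 : c⁻¹ ∈ V.A := by
      rw [← V.A.valuation_le_one_iff, map_inv₀, h1, inv_one]
    have h3 : V.Has c⁻¹ (V.φ ⟨c⁻¹, h2⟩) := ⟨h2, rfl⟩
    have h4 := h.mul h3
    rw [mul_inv_cancel₀ hc, zero_mul] at h4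
    exact one_ne_zero (Fer.Plc.has_one.unique h4)
  · intro h
    have h1 : c ∈ V.A := (V.A.valuation_le_one_iff c).1 h.le
    refine ⟨h1, ?_⟩
    by_contra h2
    have h3 : V.A.valuation c = 1 := has_val_eq V ⟨h1, rfl⟩ h2
    exact absurd h3 (ne_of_lt h)

theorem has_of_val_le (V : Plc C κ) {c : C} (h : V.A.valuation c ≤ 1) : ∃ z, V.Has c z :=
  ⟨_, (V.A.valuation_le_one_iff c).1 h, rfl⟩

theorem has_of_val_eq (V : Plc C κ) {c : C} (h : V.A.valuation c = 1) :
    ∃ z, z ≠ 0 ∧ V.Has c z := by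
  obtain ⟨z, hz⟩ := has_of_val_le V h.le
  refine ⟨z, ?_, hz⟩
  rintro rfl
  exact absurd h (ne_of_lt ((has_val_lt V).1 hz))

/-- reduction of polynomials -/
def PHas (V : Plc C κ) (P : C[X]) (Pb : κ[X]) : Prop := ∀ i, V.Has (P.coeff i) (Pb.coeff i)

variable {V : Plc C κ} {P P' : C[X]} {Pb Pb' : κ[X]}

theorem exists_PHas (h : ∀ i, P.coeff i ∈ V.A) : ∃ Pb : κ[X], PHas V P Pb := by
  classical
  refine ⟨∑ i ∈ P.support, monomial i (V.φ ⟨P.coeff i, h i⟩), fun i => ?_⟩
  rw [finset_sum_coeff]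
  by_cases hi : i ∈ P.support
  · rw [Finset.sum_eq_single_of_mem i hi]
    · rw [coeff_monomial, if_pos rfl]
      exact ⟨h i, rfl⟩
    · intro j _ hj
      rw [coeff_monomial, if_neg hj]
  · rw [Finset.sum_eq_zero]
    · rw [notMem_support_iff.1 hi]
      exact Fer.Plc.has_zero
    · intro j hj
      rw [coeff_monomial, if_neg]
      rintro rfl
      exact hi hj

theorem PHas.unique (h : PHas V P Pb) (h' : PHas V P Pb') : Pb = Pb' :=
  Polynomial.ext fun i => (h i).unique (h' i)

theorem PHas.add (h : PHas V P Pb) (h' : PHas V P' Pb') : PHas V (P + P') (Pb + Pb') := by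
  intro i
  rw [coeff_add, coeff_add]
  exact (h i).add (h' i)

theorem PHas.mul (h : PHas V P Pb) (h' : PHas V P' Pb') : PHas V (P * P') (Pb * Pb') := by
  intro i
  rw [coeff_mul, coeff_mul]
  exact has_sum V _ fun j _ => (h j.1).mul (h' j.2)

theorem PHas.pow (h : PHas V P Pb) (n : ℕ) : PHas V (P ^ n) (Pb ^ n) := by
  induction n with
  | zero =>
    intro i
    rw [pow_zero, pow_zero, coeff_one, coeff_one]
    split_ifs
    · exact Fer.Plc.has_one
    · exact Fer.Plc.has_zero
  | succ n ih => rw [pow_succ, pow_succ]; exact ih.mul h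

theorem PHas.const {c : C} {z : κ} (h : V.Has c z) : PHas V (Polynomial.C c) (Polynomial.C z) := by
  intro i
  rw [coeff_C, coeff_C]
  split_ifs
  · exact h
  · exact Fer.Plc.has_zero

theorem PHas.X : PHas V (Polynomial.X) (Polynomial.X) := by
  intro i
  rw [coeff_X, coeff_X]
  split_ifs
  · exact Fer.Plc.has_one
  · exact Fer.Plc.has_zero

theorem PHas.sub_C {c : C} {z : κ} (h : V.Has c z) :
    PHas V (Polynomial.X - Polynomial.C c) (Polynomial.X - Polynomial.C z) := by
  intro i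
  rw [coeff_sub, coeff_sub]
  exact (PHas.X i).sub (PHas.const h i)

theorem PHas.prod {ι : Type*} (s : Finset ι) {f : ι → C[X]} {g : ι → κ[X]}
    (h : ∀ i ∈ s, PHas V (f i) (g i)) : PHas V (∏ i ∈ s, f i) (∏ i ∈ s, g i) := by
  classical
  induction s using Finset.induction_on with
  | empty =>
    intro i
    rw [Finset.prod_empty, Finset.prod_empty, coeff_one, coeff_one]
    split_ifs
    · exact Fer.Plc.has_one
    · exact Fer.Plc.has_zero
  | insert a s ha ih =>
    rw [Finset.prod_insert ha, Finset.prod_insert ha]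
    exact (h a (Finset.mem_insert_self a s)).mul
      (ih fun i hi => h i (Finset.mem_insert_of_mem hi))

theorem PHas.eval (h : PHas V P Pb) {c : C} {z : κ} (hc : V.Has c z) :
    V.Has (P.eval c) (Pb.eval z) := by
  have h1 : P.natDegree < P.natDegree + Pb.natDegree + 1 := by omega
  have h2 : Pb.natDegree < P.natDegree + Pb.natDegree + 1 := by omega
  rw [eval_eq_sum_range' h1, eval_eq_sum_range' h2]
  exact has_sum V _ fun i _ => (h i).mul (hc.pow i)

/-- the coefficients are integral and one of them is one, up to a factor -/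
theorem exists_norm (V : ValuationSubring C) {a : ℕ → C[X]} {p : ℕ}
    (ha : ∃ i < p, a i ≠ 0) :
    ∃ c : C, c ≠ 0 ∧ (∀ i < p, ∀ j, c * (a i).coeff j ∈ V) ∧ ∃ i < p, ∃ j, c * (a i).coeff j = 1 := by
  classical
  obtain ⟨i₁, hi₁, hai₁⟩ := ha
  obtain ⟨j₁, hj₁⟩ : ∃ j, (a i₁).coeff j ≠ 0 := by
    by_contra hcon
    push Not at hcon
    exact hai₁ (Polynomial.ext fun j => by rw [hcon j, coeff_zero])
  have hne : ((Finset.range p).sigma fun i => (a i).support).Nonempty :=
    ⟨⟨i₁, j₁⟩, Finset.mem_sigma.2 ⟨Finset.mem_range.2 hi₁, mem_support_iff.2 hj₁⟩⟩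
  obtain ⟨⟨i₀, j₀⟩, h0, hmax⟩ := Finset.exists_max_image _
    (fun x : Σ _ : ℕ, ℕ => V.valuation ((a x.1).coeff x.2)) hne
  rw [Finset.mem_sigma] at h0
  have hi₀ : i₀ < p := Finset.mem_range.1 h0.1
  have hj₀ : (a i₀).coeff j₀ ≠ 0 := mem_support_iff.1 h0.2
  refine ⟨((a i₀).coeff j₀)⁻¹, inv_ne_zero hj₀, fun i hi j => ?_, i₀, hi₀, j₀,
    inv_mul_cancel₀ hj₀⟩
  by_cases hij : (a i).coeff j = 0
  · rw [hij, mul_zero]
    exact zero_mem _
  · have h1 := hmax ⟨i, j⟩ (Finset.mem_sigma.2 ⟨Finset.mem_range.2 hi, mem_support_iff.2 hij⟩)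
    have h1' : V.valuation ((a i).coeff j) ≤ V.valuation ((a i₀).coeff j₀) := h1
    rw [← V.valuation_le_one_iff, map_mul, map_inv₀]
    have hv : V.valuation ((a i₀).coeff j₀) ≠ 0 := (Valuation.ne_zero_iff _).2 hj₀
    calc (V.valuation ((a i₀).coeff j₀))⁻¹ * V.valuation ((a i).coeff j)
        ≤ (V.valuation ((a i₀).coeff j₀))⁻¹ * V.valuation ((a i₀).coeff j₀) :=
          mul_le_mul_right h1' _
      _ = 1 := inv_mul_cancel₀ hv

end

section

variable {C L κ k : Type*} [Field C] [Field L] [Algebra C L] [Field κ] [Field k] [Algebra κ k]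
  {D : Red C L κ k} {P : C[X]} {Pb : κ[X]}

theorem PHas.aeval (h : PHas D.V P Pb) {x : L} {xb : k} (hx : D.W.Has x xb) :
    D.W.Has (aeval x P) (aeval xb Pb) := by
  have h1 : P.natDegree < P.natDegree + Pb.natDegree + 1 := by omega
  have h2 : Pb.natDegree < P.natDegree + Pb.natDegree + 1 := by omega
  rw [aeval_eq_sum_range' h1, aeval_eq_sum_range' h2]
  refine has_sum D.W _ fun i _ => ?_
  rw [Algebra.smul_def, Algebra.smul_def]
  exact (D.base _ _ (h i)).mul (hx.pow i)

end

end Pool.Agent.Lib.MP_2f3286_ag.Gl
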