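import Pool.Agent.Lib.MP_2f3286_ag.Gl.Defs

/-!
# Superelliptic function fields: the basis `1, y, ..., y ^ (p - 1)`   (module SA)

PROOF of `ev_indep`. Let `K₀ = adjoin C {x}` (an intermediate field of `L / C`); `h(x) = aeval x h ∈ K₀` is not a `p`-th
power in `K₀`: an element of `K₀` is `aeval x a / aeval x b` with `a, b : C[X]`, `b ≠ 0`
(`IntermediateField.mem_adjoin_simple_iff`), and `(a / b) ^ p = h` at `x` gives `a ^ p = h * b ^ p` in `C[X]` as `x` is
transcendental (`transcendental_iff`), so `p * deg a = deg h + p * deg b` (`h ≠ 0` because `deg h` is prime to `p`, so not zero: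
`p.Coprime 0` means `p = 1`), so `p ∣ deg h`, contradiction. So `X ^ p - C h(x)` is irreducible over `K₀`
(`X_pow_sub_C_irreducible_of_prime`) and it is the minimal polynomial of `y` (`minpoly.eq_of_irreducible_of_monic`), of degree
`p`. `∑ i < p, (a i)(x) Y ^ i` is a polynomial over `K₀` of degree `< p` with root `y`, so it is zero
(`minpoly.degree_le_of_ne_zero` or `minpoly.dvd` + degrees), so `(a i)(x) = 0` and `a i = 0` (`i < p`) as `x` is transcendental.
PROOF of `repr`. The set of all `f` which satisfy the conclusion is closed under addition (common denominators), multiplication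
(`y ^ i * y ^ j = y ^ (i + j - p) * h(x)` if `i + j ≥ p`), contains `C`, `x`, `y` (`p ≥ 2`); so it contains the subalgebra
`adjoin C {x, y}`. Every element of `L = adjoin C {x, y}` is the quotient of two elements of this subalgebra. For inverses:
`K₀(y) = K₀[y]` as `y` is integral over `K₀`: use `adjoin K₀ {y}` and the power basis
(`IntermediateField.adjoin.powerBasis`, or `IntermediateField.adjoin_simple_toSubalgebra_of_integral`): every element of
`K₀⟮y⟯ = ⊤` is a polynomial in `y` over `K₀`; reduce it modulo the monic `Y ^ p - h(x)` (`Polynomial.modByMonic`) to degree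
`< p`; take a common denominator of the `p` coefficients in `K₀`.
PROOF of `finDim`. `L = K₀⟮y⟯`, `y` integral over `K₀` (`IntermediateField.adjoin.finiteDimensional`); or the powers
`y ^ i`, `i < p`, span `L` over `K₀` by `repr`.
-/

open Polynomial IntermediateField

namespace Pool.Agent.Lib.MP_2f3286_ag.Gl

variable {p : ℕ} {C L : Type*} [Field C] [Field L] [Algebra C L] {x y : L} {h : C[X]}

private theorem sa_frac (tr : Transcendental C x) (α : L) (hα : α ∈ IntermediateField.adjoin C {x}) :
    ∃ r s : C[X], s ≠ 0 ∧ α * aeval x s = aeval x r := by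
  obtain ⟨r, s, hrs⟩ := (IntermediateField.mem_adjoin_simple_iff C α).1 hα
  by_cases hs : s = 0
  · refine ⟨0, 1, one_ne_zero, ?_⟩
    rw [hrs, hs]
    simp
  · refine ⟨r, s, hs, ?_⟩
    have h1 : aeval x s ≠ 0 := fun hc => hs ((transcendental_iff.1 tr) s hc)
    rw [hrs, div_mul_cancel₀ _ h1]

private theorem sa_h_ne (hp : p.Prime) (deg : p.Coprime h.natDegree) : h ≠ 0 := by
  rintro rfl
  rw [natDegree_zero, Nat.coprime_zero_right] at deg
  exact hp.one_lt.ne' deg

private theorem sa_mem (x : L) (r : C[X]) : aeval x r ∈ IntermediateField.adjoin C {x} := by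
  have h1 : x ∈ IntermediateField.adjoin C {x} := IntermediateField.mem_adjoin_simple_self C x
  have h2 : Algebra.adjoin C {x} ≤ (IntermediateField.adjoin C {x}).toSubalgebra :=
    IntermediateField.algebra_adjoin_le_adjoin C {x}
  exact h2 (Polynomial.aeval_mem_adjoin_singleton C x)

private theorem sa_not_pow (hp : p.Prime) (tr : Transcendental C x) (deg : p.Coprime h.natDegree)
    (b : IntermediateField.adjoin C {x}) :
    b ^ p ≠ (⟨aeval x h, sa_mem x h⟩ : IntermediateField.adjoin C {x}) := by
  intro hb
  have hb' : (b : L) ^ p = aeval x h := by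
    have := congrArg Subtype.val hb
    simpa using this
  obtain ⟨r, s, hs, hrs⟩ := sa_frac tr (b : L) b.2
  have hh := sa_h_ne hp deg
  have h1 : aeval x (r ^ p) = aeval x (h * s ^ p) := by
    rw [map_pow, map_mul, map_pow, ← hrs, mul_pow, hb']
  have h2 : r ^ p = h * s ^ p := by
    have h3 := (transcendental_iff.1 tr) (r ^ p - h * s ^ p) (by rw [map_sub, h1, sub_self])
    exact sub_eq_zero.1 h3
  have h4 := congrArg natDegree h2
  rw [natDegree_mul hh (pow_ne_zero _ hs), natDegree_pow, natDegree_pow] at h4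
  have h5 : p ∣ h.natDegree := by
    have h6 : p ∣ h.natDegree + p * s.natDegree := ⟨r.natDegree, h4.symm⟩
    exact (Nat.dvd_add_left (Dvd.intro _ rfl)).1 h6
  have h7 := Nat.Coprime.eq_one_of_dvd deg h5
  exact hp.one_lt.ne' h7

private theorem sa_root (eq : y ^ p = aeval x h) :
    aeval y (X ^ p - Polynomial.C (⟨aeval x h, sa_mem x h⟩ : IntermediateField.adjoin C {x})) = 0 := by
  rw [map_sub, map_pow, aeval_X, aeval_C, eq]
  exact sub_self _

private theorem sa_minpoly (hp : p.Prime) (tr : Transcendental C x) (eq : y ^ p = aeval x h)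
    (deg : p.Coprime h.natDegree) :
    minpoly (IntermediateField.adjoin C {x}) y =
      X ^ p - Polynomial.C (⟨aeval x h, sa_mem x h⟩ : IntermediateField.adjoin C {x}) := by
  have hirr := X_pow_sub_C_irreducible_of_prime hp (sa_not_pow hp tr deg)
  exact (minpoly.eq_of_irreducible_of_monic hirr (sa_root eq) (monic_X_pow_sub_C _ hp.ne_zero)).symm

theorem ev_indep (hp : p.Prime) (tr : Transcendental C x) (eq : y ^ p = aeval x h)
    (deg : p.Coprime h.natDegree) {a : ℕ → C[X]} (ha : ev p x y a = 0) : ∀ i < p, a i = 0 := by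
  set Q : (IntermediateField.adjoin C {x})[X] := ∑ i ∈ Finset.range p,
    Polynomial.C (⟨aeval x (a i), sa_mem x (a i)⟩ : IntermediateField.adjoin C {x}) * X ^ i with hQ
  have hcoeff : ∀ m, Q.coeff m = if m < p then
      (⟨aeval x (a m), sa_mem x (a m)⟩ : IntermediateField.adjoin C {x}) else 0 := by
    intro m
    rw [hQ, finsetSum_coeff]
    simp only [coeff_C_mul, coeff_X_pow, mul_ite, mul_one, mul_zero, Finset.sum_ite_eq,
      Finset.mem_range]
  have hroot : aeval y Q = 0 := by
    rw [hQ, map_sum, ← ha]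
    unfold ev
    refine Finset.sum_congr rfl (fun i _ => ?_)
    rw [map_mul, map_pow, aeval_X, aeval_C]
    rfl
  have hdeg : Q.degree < p := by
    rw [degree_lt_iff_coeff_zero]
    intro m hm
    rw [hcoeff, if_neg (by omega)]
  have hQ0 : Q = 0 := by
    by_contra hne
    have h1 := minpoly.degree_le_of_ne_zero (IntermediateField.adjoin C {x}) y hne hroot
    rw [sa_minpoly hp tr eq deg, degree_X_pow_sub_C hp.pos] at h1
    exact absurd (lt_of_le_of_lt h1 hdeg) (lt_irrefl _)
  intro i hi
  have h2 := hcoeff i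
  rw [hQ0, coeff_zero, if_pos hi] at h2
  have h3 : aeval x (a i) = 0 := (congrArg Subtype.val h2).symm
  exact (transcendental_iff.1 tr) (a i) h3

private theorem sa_top (H : IsSup p x y h) :
    IntermediateField.adjoin (IntermediateField.adjoin C {x}) {y} = ⊤ := by
  have h1 := IntermediateField.adjoin_adjoin_left C ({x} : Set L) {y}
  rw [eq_top_iff]
  intro f _
  have h2 : f ∈ (IntermediateField.adjoin (IntermediateField.adjoin C {x}) {y}).restrictScalars C := by
    rw [h1, Set.singleton_union, H.gen]
    trivial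
  exact h2

private theorem sa_int (hp : p.Prime) (H : IsSup p x y h) :
    IsIntegral (IntermediateField.adjoin C {x}) y :=
  ⟨X ^ p - Polynomial.C (⟨aeval x h, sa_mem x h⟩ : IntermediateField.adjoin C {x}),
    monic_X_pow_sub_C _ hp.ne_zero, sa_root H.eq⟩

theorem IsSup.repr (hp : p.Prime) (H : IsSup p x y h) (f : L) :
    ∃ (a : ℕ → C[X]) (b : C[X]), b ≠ 0 ∧ f * aeval x b = ev p x y a := by
  have hint := sa_int hp H
  have hf : f ∈ IntermediateField.adjoin (IntermediateField.adjoin C {x}) {y} := by
    rw [sa_top H]; trivial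
  have hf2 : f ∈ Algebra.adjoin (IntermediateField.adjoin C {x}) {y} := by
    rw [← IntermediateField.adjoin_simple_toSubalgebra_of_isAlgebraic hint.isAlgebraic]
    exact hf
  rw [Algebra.adjoin_singleton_eq_range_aeval] at hf2
  obtain ⟨P, hP⟩ := hf2
  have hP' : aeval y P = f := hP
  set M : (IntermediateField.adjoin C {x})[X] :=
    X ^ p - Polynomial.C (⟨aeval x h, sa_mem x h⟩ : IntermediateField.adjoin C {x}) with hM
  have hmon : M.Monic := monic_X_pow_sub_C _ hp.ne_zero
  have hMdeg : M.natDegree = p := natDegree_X_pow_sub_C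
  have hne1 : M ≠ 1 := by
    intro hc
    rw [hc, natDegree_one] at hMdeg
    exact hp.ne_zero hMdeg.symm
  have hR : aeval y (P %ₘ M) = f := by
    rw [Polynomial.aeval_modByMonic_eq_self_of_root (sa_root H.eq), hP']
  have hRdeg : (P %ₘ M).natDegree < p := by
    rw [← hMdeg]
    exact natDegree_modByMonic_lt P hmon hne1
  have hsum : f = ∑ i ∈ Finset.range p, ((P %ₘ M).coeff i : L) * y ^ i := by
    rw [← hR, aeval_eq_sum_range' hRdeg]
    refine Finset.sum_congr rfl (fun i _ => ?_)
    rw [Algebra.smul_def]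
    rfl
  have hfr : ∀ i, ∃ r s : C[X], s ≠ 0 ∧ ((P %ₘ M).coeff i : L) * aeval x s = aeval x r :=
    fun i => sa_frac H.tr _ ((P %ₘ M).coeff i).2
  choose r s hs hrs using hfr
  refine ⟨fun i => r i * ∏ j ∈ (Finset.range p).erase i, s j, ∏ j ∈ Finset.range p, s j,
    Finset.prod_ne_zero_iff.2 (fun j _ => hs j), ?_⟩
  unfold ev
  rw [hsum, Finset.sum_mul]
  refine Finset.sum_congr rfl (fun i hi => ?_)
  rw [← Finset.mul_prod_erase _ _ hi, map_mul, map_mul, ← hrs i]
  ring

theorem IsSup.finDim (hp : p.Prime) (H : IsSup p x y h) :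
    FiniteDimensional (IntermediateField.adjoin C {x}) L := by
  have h1 : FiniteDimensional (IntermediateField.adjoin C {x})
      (IntermediateField.adjoin (IntermediateField.adjoin C {x}) {y}) :=
    IntermediateField.adjoin.finiteDimensional (sa_int hp H)
  rw [sa_top H] at h1
  exact Module.Finite.equiv
    (IntermediateField.topEquiv (F := IntermediateField.adjoin C {x}) (E := L)).toLinearEquiv

end Pool.Agent.Lib.MP_2f3286_ag.Gl
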