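import Pool.Agent.Lib.MP_2f3286_ag.Gl.GA
import Pool.Agent.Lib.MP_2f3286_ag.Gl.SA

/-!
# Good reduction: residues of the elements   (module GB)

PROOF of `ev_has`. `PHas.aeval`, `has_sum`.
PROOF of `ev_zero`. `ev_indep` for the reduction: `yb ^ p = aeval xb hb` (uniqueness of residues: `y ^ p = aeval x h`,
`PHas.aeval` with `G.hh`), `deg hb = deg h`.
PROOF of `ev_unit`. All coefficients of the `a i`, `i < p`, are finite at `V` and one is `1`: with the reductions `ab i` of the
`a i` (`exists_PHas`), `ev a` has the residue `ev ab`, which is not zero (`ev_zero`: else all `ab i = 0`).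
PROOF of `ev_mem`. If all `a i = 0`, `i < p`, clear. Otherwise `exists_norm` gives `c ≠ 0` with `c (a i)` integral and one
coefficient `c (a i₀)_j₀ = 1`. By `ev_unit`, `c * ev a = ev (c a)` has a nonzero residue, so valuation one at `W`. If `c ∈ V.A`
has the residue zero, `W (c) < 1` (`base`: `c` has residue zero at `W`) and `W (ev a) ≤ 1`, so `W (c ev a) < 1`, contradiction.
So `V (c) ≥ 1`, `c⁻¹ ∈ V.A`, and `(a i)_j = c⁻¹ (c (a i)_j) ∈ V.A`.
PROOF of `exists_unit`. `f b(x) = ev a` (`repr`), not all `a i = 0`, `i < p`, as `f ≠ 0`, `b(x) ≠ 0`; `exists_norm` and `ev_unit` for `a`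
give `c` with `c ev a` a unit at `W`; for the polynomial `b` (`exists_norm` for the sequence `(b, 0, 0, ...)`, `b(x) = ev (b, 0, ...)`,
`p ≥ 1`) give `c'` with `c' b(x)` a unit. So `(c / c') f` is a unit, with a nonzero residue.
PROOF of `repr_red`. `f b(x) = ev a`; multiply by a constant (`exists_norm` for `(b, 0, ...)`): `b` has integral coefficients and one
is `1`, so its reduction `bb ≠ 0` exists. `b(x)` is finite at `W`, so `ev a = f b(x)` is finite at `W`, so all `a i`, `i < p`, have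
integral coefficients (`ev_mem`) and reductions. The residues agree.
PROOF of `supb`. `tr`, `eq`, `deg` (`G.dg`), `sep` clear. `gen`: every `g : k` is the residue of an `f : L` (`D.surjW`), so
`g * bb(xb) = ev ab` by `repr_red`, `bb(xb) ≠ 0` (`G.tr`), so `g ∈ adjoin κ {xb, yb}`.
-/

open Polynomial IntermediateField

namespace Pool.Agent.Lib.MP_2f3286_ag.Gl

open Pool.Agent.Lib.MP_2f3286_ag.Fer (Plc)

variable {p : ℕ} {C L κ k : Type*} [Field C] [Field L] [Algebra C L] [Field κ] [Field k]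
  [Algebra κ k] {D : Red C L κ k} {x y : L} {h : C[X]} {xb yb : k} {hb : κ[X]}

private lemma gB_ev_C (c : C) (a : ℕ → C[X]) :
    ev p x y (fun i => Polynomial.C c * a i) = algebraMap C L c * ev p x y a := by
  unfold ev
  rw [Finset.mul_sum]
  refine Finset.sum_congr rfl (fun i _ => ?_)
  rw [map_mul, aeval_C, mul_assoc]

private lemma gB_aeval_ne {κ k : Type*} [Field κ] [Field k] [Algebra κ k] {xb : k}
    (tr : Transcendental κ xb) {b : κ[X]} (hb : b ≠ 0) : aeval xb b ≠ 0 := by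
  intro h0
  exact hb ((transcendental_iff.mp tr) b h0)

private lemma gB_one (V : Plc C κ) {z : κ} (h : V.Has 1 z) : z ≠ 0 := by
  have h1 : z = 1 := h.unique Plc.has_one
  rw [h1]
  exact one_ne_zero

theorem GRed.ev_has (G : GRed p D x y h xb yb hb) {a : ℕ → C[X]} {ab : ℕ → κ[X]}
    (h : ∀ i < p, PHas D.V (a i) (ab i)) : D.W.Has (ev p x y a) (ev p xb yb ab) := by
  unfold ev
  exact has_sum D.W _ (fun i hi =>
    ((h i (Finset.mem_range.mp hi)).aeval G.hx).mul (G.hy.pow i))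

theorem GRed.eqb (G : GRed p D x y h xb yb hb) : yb ^ p = aeval xb hb := by
  have h1 : D.W.Has (y ^ p) (yb ^ p) := G.hy.pow p
  have h2 : D.W.Has (aeval x h) (aeval xb hb) := PHas.aeval G.hh G.hx
  rw [G.sup.eq] at h1
  exact h1.unique h2

theorem GRed.ev_zero (hp : p.Prime) (G : GRed p D x y h xb yb hb) {ab : ℕ → κ[X]}
    (h : ev p xb yb ab = 0) : ∀ i < p, ab i = 0 :=
  ev_indep hp G.tr G.eqb (by rw [G.dg]; exact G.sup.deg) h

theorem GRed.ev_unit (hp : p.Prime) (G : GRed p D x y h xb yb hb) {a : ℕ → C[X]}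
    (ha : ∀ i < p, ∀ j, (a i).coeff j ∈ D.V.A) (ha1 : ∃ i < p, ∃ j, (a i).coeff j = 1) :
    ∃ z, z ≠ 0 ∧ D.W.Has (ev p x y a) z := by
  have hex : ∀ i : ℕ, ∃ Pb : κ[X], i < p → PHas D.V (a i) Pb := by
    intro i
    by_cases hi : i < p
    · obtain ⟨Pb, hPb⟩ := exists_PHas (V := D.V) (P := a i) (ha i hi)
      exact ⟨Pb, fun _ => hPb⟩
    · exact ⟨0, fun h0 => absurd h0 hi⟩
  choose ab hab using hex
  refine ⟨ev p xb yb ab, ?_, G.ev_has hab⟩
  intro h0
  obtain ⟨i, hi, j, hij⟩ := ha1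
  have h1 := hab i hi j
  rw [hij, G.ev_zero hp h0 i hi, coeff_zero] at h1
  exact gB_one D.V h1 rfl

theorem GRed.ev_mem (hp : p.Prime) (G : GRed p D x y h xb yb hb) {a : ℕ → C[X]}
    (ha : ev p x y a ∈ D.W.A) : ∀ i < p, ∀ j, (a i).coeff j ∈ D.V.A := by
  by_cases hz : ∀ i < p, a i = 0
  · intro i hi j
    rw [hz i hi, coeff_zero]
    exact zero_mem _
  · push Not at hz
    obtain ⟨c, hc0, hc, hc1⟩ := exists_norm D.V.A hz
    obtain ⟨z, hz0, hzz⟩ := G.ev_unit hp (a := fun i => Polynomial.C c * a i)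
      (fun i hi j => by
        show (Polynomial.C c * a i).coeff j ∈ D.V.A
        rw [coeff_C_mul]
        exact hc i hi j)
      (by
        obtain ⟨i, hi, j, hij⟩ := hc1
        refine ⟨i, hi, j, ?_⟩
        show (Polynomial.C c * a i).coeff j = 1
        rw [coeff_C_mul]
        exact hij)
    rw [gB_ev_C] at hzz
    have hcinv : c⁻¹ ∈ D.V.A := by
      rcases D.V.A.mem_or_inv_mem c with h1 | h1
      · by_cases h2 : D.V.φ ⟨c, h1⟩ = 0
        · exfalso
          have h3 : D.V.Has c 0 := ⟨h1, h2⟩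
          have h4 := D.base c 0 h3
          have h5 : D.W.Has (ev p x y a) (D.W.φ ⟨_, ha⟩) := ⟨ha, rfl⟩
          have h6 := h4.mul h5
          rw [map_zero, zero_mul] at h6
          exact hz0 (hzz.unique h6)
        · exact D.V.ker ⟨c, h1⟩ h2
      · exact h1
    intro i hi j
    have h7 : (a i).coeff j = c⁻¹ * (c * (a i).coeff j) := by
      rw [← mul_assoc, inv_mul_cancel₀ hc0, one_mul]
    rw [h7]
    exact mul_mem hcinv (hc i hi j)

/-- a nonzero polynomial in `x` is a unit at `W` up to a constant -/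
private lemma gB_single (hp : p.Prime) {b : C[X]} (hb0 : b ≠ 0) (V : Plc C κ) :
    ∃ c : C, c ≠ 0 ∧ (∀ j, (Polynomial.C c * b).coeff j ∈ V.A) ∧
      ∃ j, (Polynomial.C c * b).coeff j = 1 := by
  obtain ⟨c, hc0, hc, i, hi, j, hij⟩ := exists_norm V.A
    (a := fun i => if i = 0 then b else 0) (p := p) ⟨0, hp.pos, by simpa using hb0⟩
  refine ⟨c, hc0, fun j => ?_, ?_⟩
  · have h1 := hc 0 hp.pos j
    rw [if_pos rfl] at h1
    rw [coeff_C_mul]
    exact h1
  · by_cases h0 : i = 0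
    · subst h0
      rw [if_pos rfl] at hij
      exact ⟨j, by rw [coeff_C_mul]; exact hij⟩
    · rw [if_neg h0, coeff_zero, mul_zero] at hij
      exact absurd hij.symm one_ne_zero

theorem GRed.exists_unit (hp : p.Prime) (G : GRed p D x y h xb yb hb) {f : L} (hf : f ≠ 0) :
    ∃ (c : C) (z : k), c ≠ 0 ∧ z ≠ 0 ∧ D.W.Has (algebraMap C L c * f) z := by
  obtain ⟨a, b, hb0, hab⟩ := G.sup.repr hp f
  have hbx : aeval x b ≠ 0 := gB_aeval_ne G.sup.tr hb0
  have hz : ∃ i < p, a i ≠ 0 := by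
    by_contra hcon
    push Not at hcon
    have h0 : ev p x y a = 0 := by
      unfold ev
      refine Finset.sum_eq_zero (fun i hi => ?_)
      rw [hcon i (Finset.mem_range.mp hi), map_zero, zero_mul]
    rw [h0] at hab
    exact (mul_ne_zero hf hbx) hab
  obtain ⟨c, hc0, hc, hc1⟩ := exists_norm D.V.A hz
  obtain ⟨z, hz0, hzz⟩ := G.ev_unit hp (a := fun i => Polynomial.C c * a i)
    (fun i hi j => by
      show (Polynomial.C c * a i).coeff j ∈ D.V.A
      rw [coeff_C_mul]
      exact hc i hi j)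
    (by
      obtain ⟨i, hi, j, hij⟩ := hc1
      refine ⟨i, hi, j, ?_⟩
      show (Polynomial.C c * a i).coeff j = 1
      rw [coeff_C_mul]
      exact hij)
  rw [gB_ev_C] at hzz
  obtain ⟨c', hc0', hc', j', hj'⟩ := gB_single hp hb0 D.V
  obtain ⟨bb, hbb⟩ := exists_PHas hc'
  have hbb0 : bb ≠ 0 := by
    intro h0
    have h1 := hbb j'
    rw [hj', h0, coeff_zero] at h1
    exact gB_one D.V h1 rfl
  have h2 : D.W.Has (aeval x (Polynomial.C c' * b)) (aeval xb bb) := hbb.aeval G.hx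
  have h3 : aeval xb bb ≠ 0 := gB_aeval_ne G.tr hbb0
  have h4 := hzz.mul (h2.inv h3)
  refine ⟨c / c', z * (aeval xb bb)⁻¹, div_ne_zero hc0 hc0', mul_ne_zero hz0 (inv_ne_zero h3), ?_⟩
  have h5 : algebraMap C L (c / c') * f =
      algebraMap C L c * ev p x y a * (aeval x (Polynomial.C c' * b))⁻¹ := by
    have hc'' : algebraMap C L c' ≠ 0 := by
      intro h0
      exact hc0' ((map_eq_zero _).mp h0)
    rw [← hab, map_mul, aeval_C, map_div₀]
    field_simp
  rw [h5]
  exact h4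

theorem GRed.repr_red (hp : p.Prime) (G : GRed p D x y h xb yb hb) {f : L} {g : k}
    (hf : D.W.Has f g) :
    ∃ (a : ℕ → C[X]) (b : C[X]) (ab : ℕ → κ[X]) (bb : κ[X]), (∀ i < p, PHas D.V (a i) (ab i)) ∧
      PHas D.V b bb ∧ bb ≠ 0 ∧ f * aeval x b = ev p x y a ∧
      g * aeval xb bb = ev p xb yb ab := by
  obtain ⟨a, b, hb0, hab⟩ := G.sup.repr hp f
  obtain ⟨c, hc0, hc, j, hj⟩ := gB_single hp hb0 D.V
  obtain ⟨bb, hbb⟩ := exists_PHas hc
  have hbb0 : bb ≠ 0 := by
    intro h0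
    have h1 := hbb j
    rw [hj, h0, coeff_zero] at h1
    exact gB_one D.V h1 rfl
  have h2 : D.W.Has (aeval x (Polynomial.C c * b)) (aeval xb bb) := hbb.aeval G.hx
  have h3 : f * aeval x (Polynomial.C c * b) = ev p x y (fun i => Polynomial.C c * a i) := by
    rw [gB_ev_C, ← hab, map_mul, aeval_C]
    ring
  have h4 := hf.mul h2
  rw [h3] at h4
  have h5 : ev p x y (fun i => Polynomial.C c * a i) ∈ D.W.A := h4.1
  have h6 := G.ev_mem hp h5
  have hex : ∀ i : ℕ, ∃ Pb : κ[X], i < p → PHas D.V (Polynomial.C c * a i) Pb := by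
    intro i
    by_cases hi : i < p
    · obtain ⟨Pb, hPb⟩ := exists_PHas (V := D.V) (P := Polynomial.C c * a i) (h6 i hi)
      exact ⟨Pb, fun _ => hPb⟩
    · exact ⟨0, fun h0 => absurd h0 hi⟩
  choose ab hab' using hex
  refine ⟨fun i => Polynomial.C c * a i, Polynomial.C c * b, ab, bb, hab', hbb, hbb0, h3, ?_⟩
  exact h4.unique (G.ev_has hab')

private lemma gB_aeval_mem {κ k : Type*} [Field κ] [Field k] [Algebra κ k]
    (K : IntermediateField κ k) {u : k} (hu : u ∈ K) (P : κ[X]) : aeval u P ∈ K := by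
  rw [aeval_eq_sum_range]
  refine sum_mem (fun i _ => ?_)
  exact K.smul_mem (pow_mem hu i)

theorem GRed.supb (hp : p.Prime) (G : GRed p D x y h xb yb hb) : IsSup p xb yb hb where
  tr := G.tr
  eq := G.eqb
  deg := by
    rw [G.dg]
    exact G.sup.deg
  sep := G.sepb
  gen := by
    rw [eq_top_iff]
    intro g _
    obtain ⟨f, hf⟩ := D.surjW g
    obtain ⟨a, b, ab, bb, -, -, hbb0, -, h5⟩ := G.repr_red hp hf
    have hx : xb ∈ IntermediateField.adjoin κ {xb, yb} :=
      IntermediateField.subset_adjoin κ _ (Set.mem_insert xb {yb})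
    have hy : yb ∈ IntermediateField.adjoin κ {xb, yb} :=
      IntermediateField.subset_adjoin κ _ (Set.mem_insert_of_mem xb rfl)
    have h6 : aeval xb bb ≠ 0 := gB_aeval_ne G.tr hbb0
    have h7 : g = ev p xb yb ab * (aeval xb bb)⁻¹ := by
      rw [← h5, mul_assoc, mul_inv_cancel₀ h6, mul_one]
    rw [h7]
    refine mul_mem ?_ (inv_mem (gB_aeval_mem _ hx bb))
    unfold ev
    exact sum_mem (fun i _ => mul_mem (gB_aeval_mem _ hx (ab i)) (pow_mem hy i))

end Pool.Agent.Lib.MP_2f3286_ag.Gl
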