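import Pool.Agent.Lib.MP_2f3286_ag.Gl.GB

/-!
# Good reduction: semilinear automorphisms   (module GC)

PROOF of `semi`. `repr_red`: `f b(x) = ev a`. Apply `τ`: `τ (aeval x P) = aeval x (P.map δ)` (`τ` is `δ` on the constants and fixes
`x`; `Polynomial.induction_on` or `hom_eval₂`), so `τ f * (b.map δ)(x) = ev (fun i => (a i).map δ)`. The coefficients
`δ ((a i)_j)` have the residues `(ab i)_j` for `i < p`, so the right side has the residue `ev ab` and `(b.map δ)(x)` has the residue
`bb(xb) ≠ 0`: `τ f = ev (..) / (..)` has the residue `ev ab / bb(xb) = g`.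
PROOF of `divAt_semi`. `τ ∘ algebraMap = algebraMap ∘ δ`. If `Q` is a place over `C`, so is `Q' = Q.comap τ` (`δ` is
bijective: `algebraMap C L a ∈ Q' ↔ algebraMap C L (δ a) ∈ Q`; `Q' ≠ ⊤`). `DivAt n f Q'` gives `c ≠ 0` with
`v' (f / c ^ n) = 1`, i.e. `v (τ f / (τ c) ^ n) = 1` (`Full.val_comap_eq_one`, or membership of the element and its inverse).
-/

open Polynomial IntermediateField

namespace Pool.Agent.Lib.MP_2f3286_ag.Gl

open Pool.Agent.Lib.MP_2f3286_ag.Fer (Plc)
open Pool.Agent.Lib.MP_2f3286_ag.Pt (IsPlc DivAt)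

variable {p : ℕ} {C L κ k : Type*} [Field C] [Field L] [Algebra C L] [Field κ] [Field k]
  [Algebra κ k] {D : Red C L κ k} {x y : L} {h : C[X]} {xb yb : k} {hb : κ[X]}

theorem IsSemi.map_aeval {δ : C ≃+* C} {τ : L ≃+* L} (hτ : IsSemi x y δ τ) (P : C[X]) :
    τ (aeval x P) = aeval x (P.map (δ : C →+* C)) := by
  induction P using Polynomial.induction_on' with
  | add P Q hP hQ => rw [map_add, map_add, hP, hQ, Polynomial.map_add, map_add]
  | monomial n c =>
    rw [aeval_monomial, map_mul, map_pow, hτ.fx, hτ.const, map_monomial, aeval_monomial]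
    rfl

theorem IsSemi.map_ev {δ : C ≃+* C} {τ : L ≃+* L} (hτ : IsSemi x y δ τ) (a : ℕ → C[X]) :
    τ (ev p x y a) = ev p x y (fun i => (a i).map (δ : C →+* C)) := by
  unfold ev
  rw [map_sum]
  refine Finset.sum_congr rfl fun i _ => ?_
  rw [map_mul, map_pow, hτ.fy, hτ.map_aeval]

theorem GRed.semi (hp : p.Prime) (G : GRed p D x y h xb yb hb) {δ : C ≃+* C} {τ : L ≃+* L}
    (hτ : IsSemi x y δ τ) (hδ : ∀ c z, D.V.Has c z → D.V.Has (δ c) z) {f : L} {g : k}
    (hf : D.W.Has f g) : D.W.Has (τ f) g := by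
  obtain ⟨a, b, ab, bb, ha, hbb, hb0, h1, h2⟩ := G.repr_red hp hf
  have ha' : ∀ i < p, PHas D.V ((a i).map (δ : C →+* C)) (ab i) := by
    intro i hi j
    rw [coeff_map]
    exact hδ _ _ (ha i hi j)
  have hb' : PHas D.V (b.map (δ : C →+* C)) bb := by
    intro j
    rw [coeff_map]
    exact hδ _ _ (hbb j)
  have h3 : D.W.Has (ev p x y (fun i => (a i).map (δ : C →+* C))) (ev p xb yb ab) :=
    G.ev_has ha'
  have h4 : D.W.Has (aeval x (b.map (δ : C →+* C))) (aeval xb bb) := hb'.aeval G.hx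
  have h5 : aeval xb bb ≠ 0 := fun hc => hb0 ((transcendental_iff.1 G.tr) bb hc)
  have h6 : τ f * aeval x (b.map (δ : C →+* C)) = ev p x y (fun i => (a i).map (δ : C →+* C)) := by
    rw [← hτ.map_aeval, ← map_mul, h1, hτ.map_ev]
  have h7 := h3.div h4 h5
  rw [← h6, mul_div_cancel_right₀ _ (h4.ne_zero h5), ← h2, mul_div_cancel_right₀ _ h5] at h7
  exact h7

theorem divAt_semi {δ : C ≃+* C} {τ : L ≃+* L}
    (hτ : ∀ c : C, τ (algebraMap C L c) = algebraMap C L (δ c)) {n : ℕ} {f : L}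
    (hf : ∀ Q : ValuationSubring L, IsPlc C Q → DivAt n f Q) (Q : ValuationSubring L)
    (hQ : IsPlc C Q) : DivAt n (τ f) Q := by
  have key : ∀ z : L, Q.valuation z = 1 ↔ (z ∈ Q ∧ z⁻¹ ∈ Q) ∧ z ≠ 0 := by
    intro z
    constructor
    · intro hz
      have hz0 : z ≠ 0 := by
        rintro rfl
        rw [map_zero] at hz
        exact zero_ne_one hz
      refine ⟨⟨(Q.valuation_le_one_iff z).1 hz.le, (Q.valuation_le_one_iff _).1 ?_⟩, hz0⟩
      rw [map_inv₀, hz, inv_one]
    · rintro ⟨⟨h1, h2⟩, h0⟩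
      have h1' := (Q.valuation_le_one_iff z).2 h1
      have h2' := (Q.valuation_le_one_iff _).2 h2
      rw [map_inv₀] at h2'
      have h3 : Q.valuation z ≠ 0 := by
        rw [Ne, map_eq_zero]
        exact h0
      refine le_antisymm h1' ?_
      exact (inv_le_one₀ (zero_lt_iff.2 h3)).1 h2'
  have key' : ∀ z : L, (Q.comap (τ : L →+* L)).valuation z = 1 ↔
      (τ z ∈ Q ∧ (τ z)⁻¹ ∈ Q) ∧ z ≠ 0 := by
    intro z
    constructor
    · intro hz
      have hz0 : z ≠ 0 := by
        rintro rfl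
        rw [map_zero] at hz
        exact zero_ne_one hz
      have h1 : z ∈ Q.comap (τ : L →+* L) := (ValuationSubring.valuation_le_one_iff _ z).1 hz.le
      have h2 : z⁻¹ ∈ Q.comap (τ : L →+* L) := by
        refine (ValuationSubring.valuation_le_one_iff _ _).1 ?_
        rw [map_inv₀, hz, inv_one]
      refine ⟨⟨?_, ?_⟩, hz0⟩
      · simpa [ValuationSubring.mem_comap] using h1
      · simpa [ValuationSubring.mem_comap] using h2
    · rintro ⟨⟨h1, h2⟩, h0⟩
      have h1' : z ∈ Q.comap (τ : L →+* L) := by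
        simpa [ValuationSubring.mem_comap] using h1
      have h2' : z⁻¹ ∈ Q.comap (τ : L →+* L) := by
        simpa [ValuationSubring.mem_comap] using h2
      have h3' := (ValuationSubring.valuation_le_one_iff _ _).2 h1'
      have h4' := (ValuationSubring.valuation_le_one_iff _ _).2 h2'
      rw [map_inv₀] at h4'
      have h5 : (Q.comap (τ : L →+* L)).valuation z ≠ 0 := by
        rw [Ne, map_eq_zero]
        exact h0
      refine le_antisymm h3' ?_
      exact (inv_le_one₀ (zero_lt_iff.2 h5)).1 h4'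
  have hQ' : IsPlc C (Q.comap (τ : L →+* L)) := by
    constructor
    · intro a
      rw [ValuationSubring.mem_comap]
      change τ (algebraMap C L a) ∈ Q
      rw [hτ]
      exact hQ.1 _
    · intro htop
      apply hQ.2
      rw [eq_top_iff]
      intro z _
      have h1 : τ.symm z ∈ Q.comap (τ : L →+* L) := by
        rw [htop]
        exact ValuationSubring.mem_top _
      rw [ValuationSubring.mem_comap] at h1
      have h2 : τ (τ.symm z) ∈ Q := h1
      rwa [τ.apply_symm_apply] at h2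
  obtain ⟨c, hc, hv⟩ := hf _ hQ'
  rw [key'] at hv
  refine ⟨τ c, by simpa using hc, ?_⟩
  have h1 : τ (f * (c ^ n)⁻¹) = τ f * (τ c ^ n)⁻¹ := by
    rw [map_mul, map_inv₀, map_pow]
  rw [← h1, key]
  exact ⟨hv.1, by simpa using hv.2⟩

end Pool.Agent.Lib.MP_2f3286_ag.Gl
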