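import Pool.Agent.Lib.MP_2f3286_ag.Gl.GB

/-!
# Good reduction: the roots of `h`   (module GD)

`C` and `κ` are algebraically closed. PROOF of `root_red`. `h` has coefficients in `V.A` and its leading coefficient `l` has
the residue `l̄ = hb.coeff h.natDegree = hb.leadingCoeff ≠ 0` (`G.dg`; `hb ≠ 0` as it is separable), so `l` is a unit of
`V.A`, and a root `α` of `h` is integral over `V.A` (the monic polynomial `l⁻¹ h`, with coefficients in `V.A`), so `α ∈ V.A`
(`ValuationSubring` is integrally closed: `ValuationRing.isIntegrallyClosed`, or `Full.mem_of_isIntegral_comap`, or directly: if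
`V (α) > 1` then the leading term of `h(α)` dominates). `PHas.eval`: the residue `ᾱ` of `α` is a root of `hb`.
PROOF of `roots_red`. `h = l ∏ (X - α_i)` over the multiset `h.roots` (`IsAlgClosed.splits`,
`Polynomial.Splits.eq_prod_roots`...); let `r α` be a residue of the root `α`. Then `hb = l̄ ∏ (X - r α_i)` (`PHas.mul`,
`PHas.prod`/`Multiset` induction, `PHas.unique`), so `hb.roots = h.roots.map r`; both are `Nodup` (separable:
`Polynomial.nodup_roots`), so `r` is injective on the roots of `h` (`Multiset.inj_on_of_nodup_map`), and every root of `hb` is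
some `r α`.
PROOF of `root_lift` (roots of constants). `exists a` with residue `z`, ... see the statement: `b₀ ^ p = a` in `C`, `b₀` has a residue `z₀` with `z₀ ^ p = w ^ p`
(`V (b₀) ^ p = V (a) ≤ 1`), if `w = 0`, `z₀ = 0`; otherwise `w / z₀` is a `p`-th root of unity, `= ζb ^ j` with `ζb` the residue of a primitive
`p`-th root of unity `ζ` of `C` (`ζb` is primitive: `ζb ≠ 1` because `∏_{0 < i < p} (1 - ζ ^ i) = p`
(`IsPrimitiveRoot.prod_one_sub_pow_eq_order` or `Ty.val_one_sub`) has a nonzero residue), take `b = ζ ^ j b₀`.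
-/

open Polynomial IntermediateField

namespace Pool.Agent.Lib.MP_2f3286_ag.Gl

open Pool.Agent.Lib.MP_2f3286_ag.Fer (Plc)

/-- A root of a polynomial with integral coefficients whose leading coefficient has a nonzero
residue has a residue, which is a root of the reduction. -/
theorem root_res {C κ : Type*} [Field C] [Field κ] {V : Plc C κ} {P : C[X]} {Pb : κ[X]}
    (h : PHas V P Pb) (hl : Pb.coeff P.natDegree ≠ 0) {α : C} (hα : P.eval α = 0) :
    ∃ z : κ, V.Has α z ∧ Pb.eval z = 0 := by
  rcases V.has_or_inv α with ⟨z, hz⟩ | ⟨h0, hz⟩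
  · refine ⟨z, hz, ?_⟩
    have h1 := h.eval hz
    rw [hα] at h1
    exact h1.unique Plc.has_zero
  · exfalso
    apply hl
    set n := P.natDegree with hn
    have h1 : P.coeff n + ∑ i ∈ Finset.range n, P.coeff i * (α⁻¹) ^ (n - i) = 0 := by
      have h2 : (α⁻¹) ^ n * P.eval α = 0 := by rw [hα, mul_zero]
      rw [eval_eq_sum_range, Finset.sum_range_succ, mul_add, Finset.mul_sum] at h2
      rw [← h2, add_comm]
      congr 1
      · apply Finset.sum_congr rfl
        intro i hi
        rw [Finset.mem_range] at hi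
        have h3 : (α⁻¹) ^ n = (α⁻¹) ^ (n - i) * (α⁻¹) ^ i := by
          rw [← pow_add, Nat.sub_add_cancel hi.le]
        have h4 : (α⁻¹) ^ i * α ^ i = 1 := by
          rw [← mul_pow, inv_mul_cancel₀ h0, one_pow]
        rw [h3]
        linear_combination (-(P.coeff i * (α⁻¹) ^ (n - i))) * h4
      · have h4 : (α⁻¹) ^ n * α ^ n = 1 := by
          rw [← mul_pow, inv_mul_cancel₀ h0, one_pow]
        linear_combination (-(P.coeff n)) * h4
    have h2 : V.Has (∑ i ∈ Finset.range n, P.coeff i * (α⁻¹) ^ (n - i))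
        (∑ i ∈ Finset.range n, Pb.coeff i * (0 : κ) ^ (n - i)) :=
      has_sum V _ (fun i _ => (h i).mul (hz.pow _))
    have h3 := (h n).add h2
    rw [h1] at h3
    have h3 := h3.unique Plc.has_zero
    have h4 : ∑ i ∈ Finset.range n, Pb.coeff i * (0 : κ) ^ (n - i) = 0 := by
      apply Finset.sum_eq_zero
      intro i hi
      rw [Finset.mem_range] at hi
      rw [zero_pow (by omega), mul_zero]
    rw [h4, add_zero] at h3
    exact h3

theorem phas_roots {C κ : Type*} [Field C] [Field κ] {V : Plc C κ} {r : C → κ} (s : Multiset C)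
    (hr : ∀ α ∈ s, V.Has α (r α)) :
    PHas V (s.map (fun a => X - Polynomial.C a)).prod
      ((s.map r).map (fun a => X - Polynomial.C a)).prod := by
  induction s using Multiset.induction_on with
  | empty =>
    simp only [Multiset.map_zero, Multiset.prod_zero]
    have h1 := PHas.const (V := V) Plc.has_one
    simpa using h1
  | cons a s ih =>
    simp only [Multiset.map_cons, Multiset.prod_cons]
    exact (PHas.sub_C (hr a (Multiset.mem_cons_self a s))).mul
      (ih (fun α hα => hr α (Multiset.mem_cons_of_mem hα)))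

/-- The roots of the reduction are the residues of the roots. -/
theorem roots_res {C κ : Type*} [Field C] [IsAlgClosed C] [Field κ] {V : Plc C κ} {P : C[X]}
    {Pb : κ[X]} (h : PHas V P Pb) (hl : Pb.coeff P.natDegree ≠ 0) :
    ∃ r : C → κ, (∀ α, P.eval α = 0 → V.Has α (r α)) ∧ Pb.roots = P.roots.map r := by
  classical
  have hP0 : P ≠ 0 := by
    rintro rfl
    apply hl
    have h1 := h 0
    rw [coeff_zero] at h1
    rw [natDegree_zero]
    exact h1.unique Plc.has_zero
  have hex : ∀ α : C, ∃ z : κ, P.eval α = 0 → V.Has α z := by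
    intro α
    by_cases hα : P.eval α = 0
    · obtain ⟨z, hz, _⟩ := root_res h hl hα
      exact ⟨z, fun _ => hz⟩
    · exact ⟨0, fun h1 => absurd h1 hα⟩
  choose r hr using hex
  refine ⟨r, hr, ?_⟩
  have h1 : P = Polynomial.C P.leadingCoeff * (P.roots.map (fun a => X - Polynomial.C a)).prod :=
    (IsAlgClosed.splits P).eq_prod_roots
  have h2 : PHas V (Polynomial.C P.leadingCoeff * (P.roots.map (fun a => X - Polynomial.C a)).prod)
      (Polynomial.C (Pb.coeff P.natDegree) *
        ((P.roots.map r).map (fun a => X - Polynomial.C a)).prod) := by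
    refine (PHas.const (h P.natDegree)).mul (phas_roots P.roots ?_)
    intro α hα
    exact hr α ((mem_roots hP0).1 hα)
  rw [← h1] at h2
  rw [h.unique h2, roots_C_mul _ hl, roots_multiset_prod_X_sub_C]

theorem root_lift {p : ℕ} (hp : p.Prime) {C κ : Type*} [Field C] [IsAlgClosed C] [Field κ]
    (hpκ : (p : κ) ≠ 0) (V : Plc C κ) {a : C} {w : κ} (ha : V.Has a (w ^ p)) :
    ∃ b : C, b ^ p = a ∧ V.Has b w := by
  obtain ⟨b0, hb0⟩ := IsAlgClosed.exists_pow_nat_eq a hp.pos
  have hz0 : ∃ z0, V.Has b0 z0 := by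
    rcases V.has_or_inv b0 with h | ⟨h0, hz⟩
    · exact h
    · exfalso
      have h1 := hz.pow p
      rw [zero_pow hp.ne_zero, inv_pow, hb0] at h1
      refine Plc.not_has_of_inv h1 ?_ ha
      rw [← hb0]
      exact pow_ne_zero p h0
  obtain ⟨z0, hz0⟩ := hz0
  have h2 : z0 ^ p = w ^ p := by
    have h3 := hz0.pow p
    rw [hb0] at h3
    exact h3.unique ha
  by_cases hz : z0 = 0
  · rw [hz, zero_pow hp.ne_zero] at h2
    have hw : w = 0 := pow_eq_zero_iff hp.ne_zero |>.1 h2.symm
    exact ⟨b0, hb0, by rw [hw, ← hz]; exact hz0⟩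
  · have h3 : PHas V (X ^ p - Polynomial.C (1 : C)) (X ^ p - Polynomial.C (1 : κ)) := by
      intro i
      have h4 := ((PHas.X (V := V)).pow p) i
      have h5 := (PHas.const (V := V) Plc.has_one) i
      rw [coeff_sub, coeff_sub]
      exact h4.sub h5
    have h4 : (X ^ p - Polynomial.C (1 : κ)).coeff (X ^ p - Polynomial.C (1 : C)).natDegree ≠ 0 := by
      rw [natDegree_X_pow_sub_C, coeff_sub, coeff_X_pow, if_pos rfl, coeff_C,
        if_neg hp.ne_zero, sub_zero]
      exact one_ne_zero
    obtain ⟨r, hr, hroots⟩ := roots_res h3 h4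
    have h5 : (w / z0) ∈ (X ^ p - Polynomial.C (1 : κ)).roots := by
      rw [mem_roots (X_pow_sub_C_ne_zero hp.pos _), IsRoot, eval_sub, eval_pow, eval_X, eval_C,
        div_pow, h2, div_self (pow_ne_zero p ?_), sub_self]
      intro hw
      rw [hw, zero_pow hp.ne_zero] at h2
      exact hz ((pow_eq_zero_iff hp.ne_zero).1 h2)
    rw [hroots, Multiset.mem_map] at h5
    obtain ⟨α, hα, hαr⟩ := h5
    have h6 := (mem_roots (X_pow_sub_C_ne_zero hp.pos _)).1 hα
    have h7 : α ^ p = 1 := by
      rw [IsRoot, eval_sub, eval_pow, eval_X, eval_C, sub_eq_zero] at h6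
      exact h6
    refine ⟨α * b0, by rw [mul_pow, h7, hb0, one_mul], ?_⟩
    have h8 := (hr α h6).mul hz0
    rw [hαr, div_mul_cancel₀ _ hz] at h8
    exact h8

variable {p : ℕ} {C L κ k : Type*} [Field C] [Field L] [Algebra C L] [Field κ] [Field k]
  [Algebra κ k] {D : Red C L κ k} {x y : L} {h : C[X]} {xb yb : k} {hb : κ[X]}

theorem GRed.lead_ne (G : GRed p D x y h xb yb hb) : hb.coeff h.natDegree ≠ 0 := by
  rw [← G.dg]
  exact leadingCoeff_ne_zero.2 G.sepb.ne_zero

theorem GRed.root_red (G : GRed p D x y h xb yb hb) {α : C} (hα : h.eval α = 0) :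
    ∃ z : κ, D.V.Has α z ∧ hb.eval z = 0 :=
  root_res G.hh G.lead_ne hα

theorem GRed.roots_red [IsAlgClosed C] (G : GRed p D x y h xb yb hb) :
    (∀ (α α' : C) (z : κ), h.eval α = 0 → h.eval α' = 0 → D.V.Has α z → D.V.Has α' z → α = α') ∧
      ∀ z : κ, hb.eval z = 0 → ∃ α : C, h.eval α = 0 ∧ D.V.Has α z := by
  classical
  obtain ⟨r, hr, hroots⟩ := roots_res (V := D.V) (P := h) (Pb := hb) G.hh G.lead_ne
  have h0 : h ≠ 0 := G.sup.sep.ne_zero
  have hb0 : hb ≠ 0 := G.sepb.ne_zero
  have hnd : (h.roots.map r).Nodup := by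
    rw [← hroots]
    exact nodup_roots G.sepb
  constructor
  · intro α α' z hα hα' hz hz'
    refine Multiset.inj_on_of_nodup_map hnd α ((mem_roots h0).2 hα) α' ((mem_roots h0).2 hα') ?_
    rw [(hr α hα).unique hz, (hr α' hα').unique hz']
  · intro z hz
    have h1 : z ∈ hb.roots := (mem_roots hb0).2 hz
    rw [hroots, Multiset.mem_map] at h1
    obtain ⟨α, hα, hαz⟩ := h1
    have h2 : h.eval α = 0 := (mem_roots h0).1 hα
    exact ⟨α, h2, hαz ▸ hr α h2⟩

end Pool.Agent.Lib.MP_2f3286_ag.Gl
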