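import Pool.Agent.Lib.MP_2f3286_ag.Gl.GB
import Pool.Agent.Lib.MP_2f3286_ag.Full.Gauss
import Pool.Agent.Lib.MP_2f3286_ag.Full.GoodRed

/-!
# Good reduction: existence   (module GE)

PROOF. `κ = IsLocalRing.ResidueField V`. `Full.exists_gauss` (`t = x`): a valuation ring `𝒲` of `L` with
`𝒲.comap (algebraMap C L) = V` and `IsGauss C x 𝒲` (see `Full/Gauss.lean`, `Full/GoodRed.lean`: polynomials in `x` with integral
coefficients, one of valuation one, have valuation one at `𝒲`). `k = IsLocalRing.ResidueField 𝒲`, the algebra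
`κ → k` from the local homomorphism `V → 𝒲` (`IsLocalRing.ResidueField.map`). `D.V = ⟨V, residue V, _⟩`: `ker`: if the residue of
`c ∈ V` is not zero then `c` is a unit of `V` so `c⁻¹ ∈ V` (`IsLocalRing.residue_ne_zero_iff_isUnit`...); `D.W` the same for
`𝒲`. `base`, `surjV`, `surjW` clear (`IsLocalRing.residue_surjective`). `x ∈ 𝒲` (`Full.GoodRed.t_mem` or `IsGauss`), `y ^ p = h(x) ∈ 𝒲` so
`y ∈ 𝒲`; `xb`, `yb` their residues. `tr`: if `aeval xb Pb = 0` with `Pb ≠ 0`, lift the coefficients of `Pb` to `P : C[X]` with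
`P.natDegree = Pb.natDegree` (zero to zero), integral with one coefficient a unit; then `P(x)` is a unit at `𝒲` by the Gauss
property, but its residue is `Pb(xb) = 0`. `hb` the reduction of `h` (`exists_PHas`). `dg`: the leading coefficient of `h` has
a nonzero residue. `sepb`: `κ` is algebraically closed (`ValuationSubring` of an algebraically closed field: a monic polynomial
over `κ` lifts to a monic polynomial over `V`, which has a root in `C`, integral over `V`, so in `V`); `h = l ∏ (X - α_i)`,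
with distinct `α_i` (`H.sep`), which are in `V` (integral over `V` as `l` is a unit), so `hb = l̄ ∏ (X - ᾱ_i)` and the `ᾱ_i`
are distinct by `hsep`; a product of distinct linear factors and a nonzero constant is separable (`Polynomial.separable_prod_X_sub_C_iff`,
`Polynomial.nodup_roots_iff_of_splits`).
-/

open Polynomial IntermediateField

namespace Pool.Agent.Lib.MP_2f3286_ag.Gl

open Pool.Agent.Lib.MP_2f3286_ag.Fer (Plc)

private theorem ge_mem_of_root {C : Type*} [Field C] (V : ValuationSubring C) {Q : V[X]}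
    (hQ : Q.Monic) {α : C} (h : (Q.map V.subtype).eval α = 0) : α ∈ V := by
  have hi : IsIntegral V α := ⟨Q, hQ, by rw [eval_map] at h; exact h⟩
  obtain ⟨y, hy⟩ := IsIntegrallyClosed.isIntegral_iff.mp hi
  rw [← hy]
  exact y.2

private theorem ge_lift {C : Type*} [Field C] (V : ValuationSubring C) {P : C[X]}
    (h : ∀ i, P.coeff i ∈ V) : ∃ Q : V[X], Q.map V.subtype = P := by
  rw [← Polynomial.mem_lifts, Polynomial.lifts_iff_coeff_lifts]
  intro n
  exact ⟨⟨P.coeff n, h n⟩, rfl⟩

theorem isAlgClosed_residue {C : Type*} [Field C] [IsAlgClosed C] (V : ValuationSubring C) :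
    IsAlgClosed (IsLocalRing.ResidueField V) := by
  apply IsAlgClosed.of_exists_root
  intro q hq hqi
  have hl : q ∈ Polynomial.lifts (IsLocalRing.residue V) := by
    rw [Polynomial.lifts_iff_coeff_lifts]
    intro n
    exact IsLocalRing.residue_surjective _
  obtain ⟨Q, hQ, hdeg, hm⟩ := Polynomial.lifts_and_natDegree_eq_and_monic hl hq
  have hd : 0 < (Q.map V.subtype).degree := by
    rw [hm.degree_map, ← natDegree_pos_iff_degree_pos, hdeg]
    exact hqi.natDegree_pos
  obtain ⟨α, hα⟩ := IsAlgClosed.exists_root (Q.map V.subtype) hd.ne'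
  have hαV : α ∈ V := ge_mem_of_root V hm hα
  refine ⟨IsLocalRing.residue V ⟨α, hαV⟩, ?_⟩
  rw [← hQ, eval_map, Polynomial.eval₂_hom]
  have h0 : Q.eval (⟨α, hαV⟩ : V) = 0 := by
    apply Subtype.ext
    have h1 : ((Q.eval (⟨α, hαV⟩ : V) : V) : C) = (Q.map V.subtype).eval α := by
      rw [eval_map]
      exact (Polynomial.eval₂_hom V.subtype (⟨α, hαV⟩ : V)).symm
    rw [h1]
    exact hα
  rw [h0, map_zero]

universe u v

private theorem ge_unit {L : Type*} [Field L] (A : ValuationSubring L) (x : A)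
    (hx : IsLocalRing.residue A x ≠ 0) : (x : L)⁻¹ ∈ A := by
  have h1 : IsUnit x := IsLocalRing.residue_ne_zero_iff_isUnit x |>.mp hx
  have h2 := (A.valuation_eq_one_iff x).mp h1
  rw [← A.valuation_le_one_iff, map_inv₀, h2, inv_one]

/-- the place of a valuation ring -/
private noncomputable def gePlc {L : Type*} [Field L] (A : ValuationSubring L) :
    Plc L (IsLocalRing.ResidueField A) where
  A := A
  φ := IsLocalRing.residue A
  ker := ge_unit A

private theorem gePlc_has {L : Type*} [Field L] (A : ValuationSubring L) {x : L} (h : x ∈ A) :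
    (gePlc A).Has x (IsLocalRing.residue A ⟨x, h⟩) := ⟨h, rfl⟩

private theorem gePlc_surj {L : Type*} [Field L] (A : ValuationSubring L)
    (z : IsLocalRing.ResidueField A) : ∃ c, (gePlc A).Has c z := by
  obtain ⟨a, rfl⟩ := IsLocalRing.residue_surjective z
  exact ⟨a, a.2, rfl⟩

/-- the algebra of the residue fields -/
private noncomputable abbrev geAlg {C : Type u} {L : Type v} [Field C] [Field L] [Algebra C L]
    (𝒲 : ValuationSubring L) :
    Algebra (IsLocalRing.ResidueField (𝒲.comap (algebraMap C L))) (IsLocalRing.ResidueField 𝒲) :=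
  (IsLocalRing.ResidueField.map (Full.GoodRed.incl (kb := C) 𝒲)).toAlgebra

private noncomputable def geRed {C : Type u} {L : Type v} [Field C] [Field L] [Algebra C L]
    (𝒲 : ValuationSubring L) :
    letI := geAlg (C := C) 𝒲
    Red C L (IsLocalRing.ResidueField (𝒲.comap (algebraMap C L))) (IsLocalRing.ResidueField 𝒲) :=
  letI := geAlg (C := C) 𝒲
  { V := gePlc (𝒲.comap (algebraMap C L))
    W := gePlc 𝒲
    base := by
      rintro c z ⟨h, rfl⟩
      exact ⟨h, rfl⟩
    surjV := gePlc_surj _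
    surjW := gePlc_surj _ }

section Sep

variable {E κ : Type*} [Field E] [Field κ]

private theorem ge_sepb [IsAlgClosed E] (V : Plc E κ) {h : E[X]} {hb : κ[X]} (hs : h.Separable)
    (hh : PHas V h hb) (hlead : V.A.valuation h.leadingCoeff = 1)
    (hsep : ∀ α β : E, h.eval α = 0 → h.eval β = 0 → α ≠ β → V.A.valuation (α - β) = 1) :
    hb.Separable := by
  classical
  have h0 : h ≠ 0 := hs.ne_zero
  have hl0 : h.leadingCoeff ≠ 0 := leadingCoeff_ne_zero.mpr h0
  have hcoef : ∀ i, h.coeff i ∈ V.A := fun i => (hh i).1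
  -- roots are integral
  have hroot : ∀ α : E, h.eval α = 0 → α ∈ V.A := by
    intro α hα
    have hP : ∀ i, (C (h.leadingCoeff)⁻¹ * h).coeff i ∈ V.A := by
      intro i
      rw [coeff_C_mul]
      apply mul_mem _ (hcoef i)
      rw [← V.A.valuation_le_one_iff, map_inv₀, hlead, inv_one]
    obtain ⟨Q, hQ⟩ := ge_lift V.A hP
    have hQm : Q.Monic := by
      apply Polynomial.monic_of_injective (f := V.A.subtype) Subtype.val_injective
      rw [hQ]
      rw [mul_comm]
      exact Polynomial.monic_mul_leadingCoeff_inv h0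
    apply ge_mem_of_root V.A hQm
    rw [hQ, eval_mul, hα, mul_zero]
  have hnd : h.roots.Nodup := Polynomial.nodup_roots hs
  have hfac : h = C h.leadingCoeff * ∏ α ∈ h.roots.toFinset, (X - C α) := by
    have h1 := (IsAlgClosed.splits h).eq_prod_roots
    have h2 : (h.roots.map fun a => X - C a).prod = ∏ α ∈ h.roots.toFinset, (X - C α) := by
      rw [Finset.prod_multiset_map_count]
      refine Finset.prod_congr rfl fun α hα => ?_
      rw [Multiset.count_eq_one_of_mem hnd (Multiset.mem_toFinset.mp hα), pow_one]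
    rw [h2] at h1
    exact h1
  have hmem : ∀ α ∈ h.roots.toFinset, h.eval α = 0 := fun α hα =>
    (Polynomial.mem_roots h0).mp (Multiset.mem_toFinset.mp hα)
  obtain ⟨lb, hlb0, hlb⟩ := has_of_val_eq V hlead
  have hex : ∀ α : E, ∃ z, h.eval α = 0 → V.Has α z := by
    intro α
    by_cases hα : h.eval α = 0
    · obtain ⟨z, hz⟩ := has_of_val_le V ((V.A.valuation_le_one_iff _).mpr (hroot α hα))
      exact ⟨z, fun _ => hz⟩
    · exact ⟨0, fun h' => absurd h' hα⟩
  choose ρ hρ using hex
  have h3 : PHas V h (C lb * ∏ α ∈ h.roots.toFinset, (X - C (ρ α))) := by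
    conv_lhs => rw [hfac]
    exact (PHas.const hlb).mul (PHas.prod _ fun α hα => PHas.sub_C (hρ α (hmem α hα)))
  rw [hh.unique h3]
  apply Polynomial.Separable.unit_mul
  · exact Polynomial.isUnit_C.mpr (isUnit_iff_ne_zero.mpr hlb0)
  · rw [Polynomial.separable_prod_X_sub_C_iff']
    intro α hα β hβ hαβ
    by_contra hne
    have h4 := hsep α β (hmem α hα) (hmem β hβ) hne
    have h5 := (hρ α (hmem α hα)).sub (hρ β (hmem β hβ))
    rw [hαβ, sub_self, has_val_lt] at h5
    rw [h4] at h5
    exact lt_irrefl _ h5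

private theorem ge_dg (V : Plc E κ) {h : E[X]} {hb : κ[X]} (hh : PHas V h hb)
    (hlead : V.A.valuation h.leadingCoeff = 1) : hb.natDegree = h.natDegree := by
  apply Polynomial.natDegree_eq_of_le_of_coeff_ne_zero
  · rw [Polynomial.natDegree_le_iff_coeff_eq_zero]
    intro N hN
    have h1 := hh N
    rw [Polynomial.coeff_eq_zero_of_natDegree_lt hN] at h1
    exact h1.unique Fer.Plc.has_zero
  · intro h0
    have h1 := hh h.natDegree
    rw [h0, has_val_lt] at h1
    have h2 : V.A.valuation (h.coeff h.natDegree) = 1 := hlead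
    rw [h2] at h1
    exact lt_irrefl _ h1

end Sep

theorem exists_gred {p : ℕ} (hp : p.Prime) {C : Type u} {L : Type v} [Field C] [IsAlgClosed C]
    [Field L]
    [Algebra C L] {x y : L} {h : C[X]} (H : IsSup p x y h) (V : ValuationSubring C)
    (hint : ∀ i, h.coeff i ∈ V) (hlead : V.valuation h.leadingCoeff = 1)
    (hsep : ∀ α β : C, h.eval α = 0 → h.eval β = 0 → α ≠ β → V.valuation (α - β) = 1) :
    ∃ (k : Type v) (_ : Field k) (_ : Algebra (IsLocalRing.ResidueField V) k)
      (D : Red C L (IsLocalRing.ResidueField V) k) (xb yb : k)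
      (hb : (IsLocalRing.ResidueField V)[X]), D.V.A = V ∧
      (∀ c : V, D.V.Has (c : C) (IsLocalRing.residue V c)) ∧ GRed p D x y h xb yb hb := by
  obtain ⟨𝒲, hcomap, hG⟩ := Full.exists_gauss x H.tr V
  subst hcomap
  letI := geAlg (C := C) 𝒲
  have hxW : x ∈ 𝒲 := Full.GoodRed.t_mem x 𝒲 hG
  have hv1 : ∀ c : C, (𝒲.comap (algebraMap C L)).valuation c = 1 →
      𝒲.valuation (algebraMap C L c) = 1 := by
    intro c hc
    have hc1 : c ∈ 𝒲.comap (algebraMap C L) := (ValuationSubring.valuation_le_one_iff _ _).mp hc.le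
    have hu : IsUnit (⟨c, hc1⟩ : 𝒲.comap (algebraMap C L)) :=
      (ValuationSubring.valuation_eq_one_iff _ _).mpr hc
    exact Full.GoodRed.val_of_isUnit 𝒲 hu
  have hyv : 𝒲.valuation y ^ p = 1 := by
    rw [← map_pow, H.eq]
    exact hG h (fun i => (𝒲.valuation_le_one_iff _).mpr (hint i)) ⟨h.natDegree, hv1 _ hlead⟩
  have hyW : y ∈ 𝒲 := by
    rw [← 𝒲.valuation_le_one_iff]
    by_contra hcon
    push Not at hcon
    have := one_lt_pow₀ hcon hp.ne_zero
    rw [hyv] at this
    exact lt_irrefl _ this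
  obtain ⟨hb, hhb⟩ := exists_PHas (V := (geRed (C := C) 𝒲).V) (P := h) hint
  refine ⟨IsLocalRing.ResidueField 𝒲, inferInstance, geAlg (C := C) 𝒲, geRed 𝒲,
    IsLocalRing.residue 𝒲 ⟨x, hxW⟩, IsLocalRing.residue 𝒲 ⟨y, hyW⟩, hb, rfl,
    fun c => ⟨c.2, rfl⟩, ?_⟩
  have hxH : (geRed (C := C) 𝒲).W.Has x (IsLocalRing.residue 𝒲 ⟨x, hxW⟩) := ⟨hxW, rfl⟩
  refine ⟨H, hxH, ⟨hyW, rfl⟩, ?_, hhb, ge_dg (geRed (C := C) 𝒲).V hhb hlead,
    ge_sepb (geRed (C := C) 𝒲).V H.sep hhb hlead hsep⟩
  -- transcendence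
  intro halg
  obtain ⟨Pb, hPb0, hPb⟩ := halg
  obtain ⟨P0, hP0⟩ : ∃ P0 : (𝒲.comap (algebraMap C L))[X],
      P0.map (IsLocalRing.residue (𝒲.comap (algebraMap C L))) = Pb := by
    rw [← Polynomial.mem_lifts, Polynomial.lifts_iff_coeff_lifts]
    intro n
    exact IsLocalRing.residue_surjective _
  have hPH : PHas (geRed (C := C) 𝒲).V (P0.map (𝒲.comap (algebraMap C L)).subtype) Pb := by
    intro i
    rw [coeff_map, ← hP0, coeff_map]
    exact ⟨(P0.coeff i).2, rfl⟩
  have h1 := hPH.aeval hxH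
  rw [hPb, has_val_lt] at h1
  obtain ⟨i, hi⟩ : ∃ i, Pb.coeff i ≠ 0 := by
    by_contra hcon
    push Not at hcon
    exact hPb0 (Polynomial.ext hcon)
  have h2 : 𝒲.valuation (aeval x (P0.map (𝒲.comap (algebraMap C L)).subtype)) = 1 := by
    apply hG
    · intro j
      rw [𝒲.valuation_le_one_iff]
      exact (hPH j).1
    · exact ⟨i, hv1 _ (has_val_eq _ (hPH i) hi)⟩
  have h3 : 𝒲.valuation (aeval x (P0.map (𝒲.comap (algebraMap C L)).subtype)) < 1 := h1
  rw [h2] at h3
  exact lt_irrefl _ h3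

end Pool.Agent.Lib.MP_2f3286_ag.Gl
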