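import Mathlib

/-!
# The abstract weight argument   (module TL)

`G`, `H` are commutative groups, `N ≤ A` subgroups of `G`, `A₁ ≤ A` a subgroup with `A = A₁ N`, `lam : G → H` multiplicative on `A₁`. `T`, `Φ`, `S` act on `G`, `T'`, `Φ'`, `S'`
on `H`. PROOF. For `g ∈ {T, Φ, S}` and `z ∈ A₁` put `t_g z = lam (g z) / g' (lam z)`. (1) `t_g` is multiplicative on `A₁` and `1` on `N ∩ A₁` (`hT0`, ...); for `z ∈ A₁`,
`z ^ (p ^ n) ∈ N ∩ A₁` for some `n` (`htor`), so `(t_g z) ^ (p ^ n) = 1`. (2) For `z ∈ A₁`, `T z / z ∈ N ∩ A₁`, so `t_g (T z) = t_g z` for all three `g`; the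
same for `S`: `t_g (S z) = t_g z`. (3) `lam (T^[k] z) = (t_T z) ^ k * T'^[k] (lam z)` (induction: `lam (T (T^[k] z)) = t_T (T^[k] z) * T' (lam (T^[k] z))`,
`t_T (T^[k] z) = t_T z`, and `T'` fixes `(t_T z) ^ k` by `hμ`). The same for `S`. (4) `t_S z = 1`: with `k` from `hper`: `lam z = lam (S^[k] z) = (t_S z) ^ k * S'^[k] (lam z) =
(t_S z) ^ k * lam z`, `¬ p ∣ k` and `(t_S z) ^ (p ^ n) = 1`, so `t_S z = 1`. (5) `lam (Φ (T z)) = t_Φ (T z) * Φ' (lam (T z)) = t_Φ z * Φ' (t_T z * T' (lam z)) =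
t_Φ z * (t_T z) ^ q * Φ' (T' (lam z))`. `lam (T^[q] (S (Φ z))) = (t_T (S (Φ z))) ^ q * T'^[q] (lam (S (Φ z)))`, `t_T (S (Φ z)) = t_T (Φ z)`,
`lam (S (Φ z)) = t_S (Φ z) * S' (lam (Φ z)) = S' (t_Φ z * Φ' (lam z)) = t_Φ z * S' (Φ' (lam z))`, and `T'^[q]` fixes `t_Φ z`. By the two relations
`(t_T z) ^ q = (t_T (Φ z)) ^ q`, and `q` is prime to `p`, so `t_T (Φ z) = t_T z`, `t_T (Φ z / z) = 1` for all `z ∈ A₁`. (6) Let `z ∈ A₁`. `hsurj`: `Φ w = w z c`, `w ∈ A`,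
`c ∈ N`; `w m ∈ A₁` with `m ∈ N` (`hA₁N`). `Φ (w m) / (w m) = z * c'` with `c' = c * Φ m / m ∈ N`; the left side and `z` are in `A₁`, so `c' ∈ N ∩ A₁`, and
`1 = t_T (Φ (w m) / (w m)) = t_T z`.
-/

namespace Pool.Agent.Lib.MP_2f3286_ag.Gl

private theorem tl_cop {H : Type*} [CommGroup H] {p k n : ℕ} (hp : p.Prime) (hk : ¬ p ∣ k) {x : H}
    (h1 : x ^ k = 1) (h2 : x ^ p ^ n = 1) : x = 1 := by
  have h3 := pow_gcd_eq_one.2 ⟨h1, h2⟩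
  have h4 : Nat.gcd k (p ^ n) = 1 :=
    (Nat.Coprime.pow_left n ((Nat.Prime.coprime_iff_not_dvd hp).2 hk)).symm
  rw [h4, pow_one] at h3
  exact h3

section aux

variable {G H : Type*} [CommGroup G] [CommGroup H]

private theorem tl_mul (A₁ : Subgroup G) (lam : G → H)
    (hlam : ∀ z ∈ A₁, ∀ w ∈ A₁, lam (z * w) = lam z * lam w) (g : G →* G) (g' : H →* H)
    (hgA : ∀ z ∈ A₁, g z ∈ A₁) {z w : G} (hz : z ∈ A₁) (hw : w ∈ A₁) :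
    lam (g (z * w)) / g' (lam (z * w)) = (lam (g z) / g' (lam z)) * (lam (g w) / g' (lam w)) := by
  rw [map_mul, hlam _ (hgA z hz) _ (hgA w hw), hlam z hz w hw, map_mul, mul_div_mul_comm]

private theorem tl_inv (A₁ N : Subgroup G) (lam : G → H)
    (hlam : ∀ z ∈ A₁, ∀ w ∈ A₁, lam (z * w) = lam z * lam w) (g : G →* G) (g' : H →* H)
    (hgA : ∀ z ∈ A₁, g z ∈ A₁) (hg0 : ∀ z ∈ A₁, z ∈ N → lam (g z) = g' (lam z))
    {z u : G} (hz : z ∈ A₁) (hu : u ∈ A₁) (h : u / z ∈ N) :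
    lam (g u) / g' (lam u) = lam (g z) / g' (lam z) := by
  have h1 := tl_mul A₁ lam hlam g g' hgA hz (A₁.div_mem hu hz)
  rw [mul_div_cancel] at h1
  rw [h1, hg0 _ (A₁.div_mem hu hz) h, div_self', mul_one]

private theorem tl_pow (A₁ : Subgroup G) (lam : G → H)
    (hlam : ∀ z ∈ A₁, ∀ w ∈ A₁, lam (z * w) = lam z * lam w) (g : G →* G) (g' : H →* H)
    (hgA : ∀ z ∈ A₁, g z ∈ A₁) {z : G} (hz : z ∈ A₁) (k : ℕ) :
    lam (g (z ^ k)) / g' (lam (z ^ k)) = (lam (g z) / g' (lam z)) ^ k := by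
  induction k with
  | zero =>
    have h1 : lam 1 = 1 := by
      have h2 := hlam 1 A₁.one_mem 1 A₁.one_mem
      rw [one_mul] at h2
      exact (left_eq_mul.1 h2)
    simp [h1]
  | succ k ih =>
    rw [pow_succ, tl_mul A₁ lam hlam g g' hgA (A₁.pow_mem hz k) hz, ih, pow_succ]

private theorem tl_tor {p : ℕ} (A N A₁ : Subgroup G) (hA₁ : A₁ ≤ A)
    (htor : ∀ z ∈ A, ∃ n : ℕ, z ^ p ^ n ∈ N) (lam : G → H)
    (hlam : ∀ z ∈ A₁, ∀ w ∈ A₁, lam (z * w) = lam z * lam w) (g : G →* G) (g' : H →* H)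
    (hgA : ∀ z ∈ A₁, g z ∈ A₁) (hg0 : ∀ z ∈ A₁, z ∈ N → lam (g z) = g' (lam z))
    {z : G} (hz : z ∈ A₁) : ∃ n : ℕ, (lam (g z) / g' (lam z)) ^ p ^ n = 1 := by
  obtain ⟨n, hn⟩ := htor z (hA₁ hz)
  refine ⟨n, ?_⟩
  rw [← tl_pow A₁ lam hlam g g' hgA hz, hg0 _ (A₁.pow_mem hz _) hn, div_self']

private theorem tl_iter {p : ℕ} (A N A₁ : Subgroup G) (hA₁ : A₁ ≤ A)
    (htor : ∀ z ∈ A, ∃ n : ℕ, z ^ p ^ n ∈ N) (lam : G → H)
    (hlam : ∀ z ∈ A₁, ∀ w ∈ A₁, lam (z * w) = lam z * lam w) (g : G →* G) (g' : H →* H)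
    (hgA : ∀ z ∈ A₁, g z ∈ A₁) (hg0 : ∀ z ∈ A₁, z ∈ N → lam (g z) = g' (lam z))
    (hgN : ∀ z ∈ A₁, g z / z ∈ N) (hfix : ∀ (n : ℕ) (ξ : H), ξ ^ p ^ n = 1 → g' ξ = ξ)
    {z : G} (hz : z ∈ A₁) (k : ℕ) : g^[k] z ∈ A₁ ∧
      lam (g (g^[k] z)) / g' (lam (g^[k] z)) = lam (g z) / g' (lam z) ∧
      lam (g^[k] z) = (lam (g z) / g' (lam z)) ^ k * g'^[k] (lam z) := by
  obtain ⟨n, hn⟩ := tl_tor A N A₁ hA₁ htor lam hlam g g' hgA hg0 hz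
  induction k with
  | zero => simp [hz]
  | succ k ih =>
    obtain ⟨h1, h2, h3⟩ := ih
    rw [Function.iterate_succ_apply']
    refine ⟨hgA _ h1, ?_, ?_⟩
    · rw [← h2]
      exact tl_inv A₁ N lam hlam g g' hgA hg0 h1 (hgA _ h1) (hgN _ h1)
    · have h4 : lam (g (g^[k] z)) = (lam (g z) / g' (lam z)) * g' (lam (g^[k] z)) := by
        rw [← h2, div_mul_cancel]
      rw [h4, h3, map_mul, map_pow, hfix n _ hn, Function.iterate_succ_apply', pow_succ']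
      rw [mul_assoc]

end aux

theorem tl {G H : Type*} [CommGroup G] [CommGroup H] {p q : ℕ} (hp : p.Prime)
    (hq : ¬ p ∣ q) (A N A₁ : Subgroup G) (hA₁ : A₁ ≤ A)
    (hA₁N : ∀ z ∈ A, ∃ m ∈ N, z * m ∈ A₁) (htor : ∀ z ∈ A, ∃ n : ℕ, z ^ p ^ n ∈ N)
    (lam : G → H) (hlam : ∀ z ∈ A₁, ∀ w ∈ A₁, lam (z * w) = lam z * lam w)
    (T Φ S : G →* G) (T' Φ' S' : H →* H) (hΦN : ∀ z ∈ N, Φ z ∈ N)
    (hTA : ∀ z ∈ A₁, T z ∈ A₁) (hΦA : ∀ z ∈ A₁, Φ z ∈ A₁) (hSA : ∀ z ∈ A₁, S z ∈ A₁)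
    (hT0 : ∀ z ∈ A₁, z ∈ N → lam (T z) = T' (lam z))
    (hΦ0 : ∀ z ∈ A₁, z ∈ N → lam (Φ z) = Φ' (lam z))
    (hS0 : ∀ z ∈ A₁, z ∈ N → lam (S z) = S' (lam z))
    (hTN : ∀ z ∈ A₁, T z / z ∈ N) (hSN : ∀ z ∈ A₁, S z / z ∈ N)
    (hμ : ∀ (n : ℕ) (ξ : H), ξ ^ p ^ n = 1 → T' ξ = ξ ∧ Φ' ξ = ξ ^ q ∧ S' ξ = ξ)
    (hrel : ∀ z ∈ A₁, Φ (T z) = T^[q] (S (Φ z)))
    (hrel' : ∀ a : H, Φ' (T' a) = T'^[q] (S' (Φ' a)))
    (hper : ∀ z ∈ A₁, ∃ k : ℕ, ¬ p ∣ k ∧ S^[k] z = z ∧ S'^[k] (lam z) = lam z)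
    (hsurj : ∀ z ∈ A₁, ∃ w ∈ A, ∃ c ∈ N, Φ w = w * z * c) {z : G} (hz : z ∈ A₁) :
    lam (T z) = T' (lam z) := by
  -- (4)
  have hS1 : ∀ z ∈ A₁, lam (S z) = S' (lam z) := by
    intro z hz
    obtain ⟨k, hk, hk1, hk2⟩ := hper z hz
    obtain ⟨n, hn⟩ := tl_tor A N A₁ hA₁ htor lam hlam S S' hSA hS0 hz
    obtain ⟨_, _, h3⟩ := tl_iter A N A₁ hA₁ htor lam hlam S S' hSA hS0 hSN
      (fun n ξ h => (hμ n ξ h).2.2) hz k
    rw [hk1, hk2] at h3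
    have h4 : (lam (S z) / S' (lam z)) ^ k = 1 := right_eq_mul.1 h3
    have h5 := tl_cop hp hk h4 hn
    exact div_eq_one.1 h5
  -- (5)
  have h5 : ∀ z ∈ A₁, lam (T (Φ z)) / T' (lam (Φ z)) = lam (T z) / T' (lam z) := by
    intro z hz
    have hPz := hΦA z hz
    have hSPz := hSA _ hPz
    obtain ⟨n, hn⟩ := tl_tor A N A₁ hA₁ htor lam hlam T T' hTA hT0 hz
    obtain ⟨n', hn'⟩ := tl_tor A N A₁ hA₁ htor lam hlam T T' hTA hT0 hPz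
    obtain ⟨n2, hn2⟩ := tl_tor A N A₁ hA₁ htor lam hlam Φ Φ' hΦA hΦ0 hz
    have e1 : lam (Φ (T z)) / Φ' (lam (T z)) = lam (Φ z) / Φ' (lam z) :=
      tl_inv A₁ N lam hlam Φ Φ' hΦA hΦ0 hz (hTA _ hz) (hTN _ hz)
    obtain ⟨_, _, e2⟩ := tl_iter A N A₁ hA₁ htor lam hlam T T' hTA hT0 hTN
      (fun n ξ h => (hμ n ξ h).1) hSPz q
    have e3 : lam (T (S (Φ z))) / T' (lam (S (Φ z))) = lam (T (Φ z)) / T' (lam (Φ z)) :=
      tl_inv A₁ N lam hlam T T' hTA hT0 hPz hSPz (hSN _ hPz)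
    have e4 : lam (S (Φ z)) = (lam (Φ z) / Φ' (lam z)) * S' (Φ' (lam z)) := by
      rw [hS1 _ hPz]
      have e5 : lam (Φ z) = (lam (Φ z) / Φ' (lam z)) * Φ' (lam z) := by rw [div_mul_cancel]
      conv_lhs => rw [e5]
      rw [map_mul, (hμ n2 _ hn2).2.2]
    have e6 : T'^[q] (lam (S (Φ z))) =
        (lam (Φ z) / Φ' (lam z)) * T'^[q] (S' (Φ' (lam z))) := by
      rw [e4, iterate_map_mul]
      congr 1
      exact Function.iterate_fixed ((hμ n2 _ hn2).1) q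
    have e7 : lam (Φ (T z)) = (lam (Φ z) / Φ' (lam z)) *
        ((lam (T z) / T' (lam z)) ^ q * Φ' (T' (lam z))) := by
      have e8 : lam (Φ (T z)) = (lam (Φ z) / Φ' (lam z)) * Φ' (lam (T z)) := by
        rw [← e1, div_mul_cancel]
      have e9 : lam (T z) = (lam (T z) / T' (lam z)) * T' (lam z) := by rw [div_mul_cancel]
      rw [e8]
      congr 1
      conv_lhs => rw [e9]
      rw [map_mul, (hμ n _ hn).2.1]
    rw [hrel z hz, e2, e3, e6, ← hrel' (lam z)] at e7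
    have e10 : (lam (T (Φ z)) / T' (lam (Φ z))) ^ q = (lam (T z) / T' (lam z)) ^ q := by
      have e11 : (lam (T (Φ z)) / T' (lam (Φ z))) ^ q *
          ((lam (Φ z) / Φ' (lam z)) * Φ' (T' (lam z))) = (lam (T z) / T' (lam z)) ^ q *
          ((lam (Φ z) / Φ' (lam z)) * Φ' (T' (lam z))) := by
        rw [e7, mul_left_comm]
      exact mul_right_cancel e11
    have e12 : ((lam (T (Φ z)) / T' (lam (Φ z))) / (lam (T z) / T' (lam z))) ^ q = 1 := by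
      rw [div_pow, e10, div_self']
    have e13 : ((lam (T (Φ z)) / T' (lam (Φ z))) / (lam (T z) / T' (lam z))) ^ p ^ (n + n') = 1 := by
      have e14 : (lam (T z) / T' (lam z)) ^ p ^ (n + n') = 1 := by
        rw [pow_add, pow_mul, hn, one_pow]
      have e15 : (lam (T (Φ z)) / T' (lam (Φ z))) ^ p ^ (n + n') = 1 := by
        rw [pow_add, mul_comm (p ^ n), pow_mul, hn', one_pow]
      rw [div_pow, e14, e15, div_one]
    exact div_eq_one.1 (tl_cop hp hq e12 e13)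
  -- (6)
  obtain ⟨w, hw, c, hc, hwc⟩ := hsurj z hz
  obtain ⟨m, hm, hwm⟩ := hA₁N w hw
  have hu : Φ (w * m) ∈ A₁ := hΦA _ hwm
  have hc' : c * Φ m / m ∈ N := N.div_mem (N.mul_mem hc (hΦN m hm)) hm
  have e1 : Φ (w * m) / ((w * m) * z) = c * Φ m / m := by
    rw [map_mul, hwc]
    rw [div_eq_div_iff_mul_eq_mul]
    ac_rfl
  have e2 : lam (T (Φ (w * m))) / T' (lam (Φ (w * m))) =
      lam (T ((w * m) * z)) / T' (lam ((w * m) * z)) := by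
    apply tl_inv A₁ N lam hlam T T' hTA hT0 (A₁.mul_mem hwm hz) hu
    rw [e1]
    exact hc'
  rw [h5 _ hwm, tl_mul A₁ lam hlam T T' hTA hwm hz] at e2
  exact div_eq_one.1 (left_eq_mul.1 e2)

end Pool.Agent.Lib.MP_2f3286_ag.Gl
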