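import Pool.Agent.Lib.MP_2f3286_ag.Gl.JD
import Pool.Agent.Lib.MP_2f3286_ag.Gl.AG
import Pool.Agent.Lib.MP_2f3286_ag.Gl.TL

/-!
# The weight argument   (module GLM)

PROOF. Apply `tl` with `G = Mˣ`, `H = Cˣ`, `A = {z | IsJ p C L z}` (a subgroup: `IsJ.mul`, `IsJ.inv`), `N = {z | z ∈ L}` (contained in `A`, `IsJ.of_mem`),
`A₁ = {z ∈ A | v z = 1}`, `v = 𝒪.valuation`. `T`, `Φ`, `S` on `G`: `Units.map` of `T.g`, ...; on `H`: `Units.map` of `T.gC`, ....
`Q₁ = 𝒪.comap (algebraMap L M)` is a place of `L` over `C` (`h𝒪`, `h𝒪L`).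
(1) `lam`: for `z ∈ A₁` there is a unique `c : C`, `c ≠ 0`, with `v (z - c) < 1` (choose it; `lam z = 1` outside): `z ^ (p ^ n) = f ∈ L`, `v f = 1`, `Pt.Ex2.exists_val` for
`Q₁` gives `c₀ : C` with `v (f - c₀) < 1`, so `v (z ^ (p ^ n) - c₀) < 1`, `c₀ ≠ 0`, and `Z ^ (p ^ n) - c₀` is a product of linear factors over `C`, so `v (z - c) < 1` for some `c`,
`c ≠ 0` as `v z = 1`. Uniqueness: `v` of a nonzero constant is one. Multiplicative: `z w - c d = z (w - d) + d (z - c)`.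
(2) `A = A₁ N`: `z ^ (p ^ n) = f`, `DivAt (p ^ n) f Q₁`: `v (f / d ^ (p ^ n)) = 1`, `d : L`, `d ≠ 0`, so `v (z / d) = 1` (`Full.val_comap_eq_one`).
(3) for `g` one of `T`, `Φ`, `S`: `z ∈ A₁` implies `g z ∈ A₁` (`IsJ.map`; `v (g z) ^ (p ^ n) = v (g f) = v (gL f) = 1` as `gL` and `gL⁻¹` preserve `Q₁` by `hst`: `gL f` and `(gL f)⁻¹` are in
`Q₁`). For `z = f ∈ L` with `v (f - c) < 1`: `v (gL f - gC c) < 1`, since `gL (f - c)` is not a unit of `Q₁`: `v a < 1 ↔ a = 0 ∨ a⁻¹ ∉ 𝒪`, and `hst`.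
(4) `hTN`, `hSN`: `hTJ`, `hSJ`. `hper`, `hrel`, `hrel'`, `hμ`: given (an element of `H = Cˣ`). `hsurj`: `ag` with `hdiv` from `IsJ.div`, `hfin` from `IsJ.fin`, `hfix` from `hΦJ` (`a₀`),
`htor` from the definition. (5) The conclusion of `tl` for `z ∈ A₁` (if `v (z - c) < 1`, `c ≠ 0` then `v z = 1`): `lam (T z) = T.gC (lam z)`, i.e. `v (T z - T.gC c) < 1`.
-/

open Polynomial IntermediateField

namespace Pool.Agent.Lib.MP_2f3286_ag.Gl

open Pool.Agent.Lib.MP_2f3286_ag.Pt (IsPlc DivAt)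

section glmaux

variable {C M : Type*} [Field C] [Field M] [Algebra C M]

private theorem glm_mem (W : ValuationSubring M) {x : M} :
    W.valuation x = 1 ↔ x ≠ 0 ∧ x ∈ W ∧ x⁻¹ ∈ W := by
  constructor
  · intro h
    refine ⟨?_, ?_, ?_⟩
    · rintro rfl
      rw [map_zero] at h
      exact zero_ne_one h
    · rw [← W.valuation_le_one_iff, h]
    · rw [← W.valuation_le_one_iff, map_inv₀, h, inv_one]
  · rintro ⟨h0, h1, h2⟩
    rw [← W.valuation_le_one_iff] at h1 h2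
    rw [map_inv₀] at h2
    have h3 : W.valuation x ≠ 0 := (Valuation.ne_zero_iff _).mpr h0
    refine le_antisymm h1 ?_
    by_contra h4
    push Not at h4
    have h5 := (one_lt_inv₀ (zero_lt_iff.mpr h3)).mpr h4
    exact absurd h2 (not_le.mpr h5)

private theorem glm_comap {L : Type*} [Field L] [Algebra L M] (W : ValuationSubring M) (x : L) :
    (W.comap (algebraMap L M)).valuation x = 1 ↔ W.valuation (algebraMap L M x) = 1 := by
  rw [glm_mem, glm_mem, ValuationSubring.mem_comap, ValuationSubring.mem_comap, map_inv₀, Ne, Ne,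
    map_eq_zero]

private theorem glm_lt {L : Type*} [Field L] [Algebra L M] (W : ValuationSubring M) (x : L) :
    (W.comap (algebraMap L M)).valuation x < 1 ↔ W.valuation (algebraMap L M x) < 1 := by
  rw [lt_iff_le_and_ne, lt_iff_le_and_ne, Ne, Ne, glm_comap, ValuationSubring.valuation_le_one_iff,
    ValuationSubring.valuation_le_one_iff, ValuationSubring.mem_comap]

private theorem glm_const (𝒪 : ValuationSubring M) (h𝒪 : ∀ a : C, algebraMap C M a ∈ 𝒪) {a : C}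
    (ha : a ≠ 0) : 𝒪.valuation (algebraMap C M a) = 1 := by
  rw [glm_mem]
  refine ⟨?_, h𝒪 a, ?_⟩
  · rw [Ne, map_eq_zero]
    exact ha
  · rw [← map_inv₀]
    exact h𝒪 _

private theorem glm_uniq (𝒪 : ValuationSubring M) (h𝒪 : ∀ a : C, algebraMap C M a ∈ 𝒪) {z : M}
    {c d : C} (hc : 𝒪.valuation (z - algebraMap C M c) < 1)
    (hd : 𝒪.valuation (z - algebraMap C M d) < 1) : c = d := by
  by_contra hcd
  have h1 : 𝒪.valuation (algebraMap C M (d - c)) = 1 := glm_const 𝒪 h𝒪 (sub_ne_zero.2 (Ne.symm hcd))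
  have h2 : algebraMap C M (d - c) = (z - algebraMap C M c) - (z - algebraMap C M d) := by
    rw [map_sub]
    ring
  rw [h2] at h1
  have h3 := Valuation.map_sub_lt 𝒪.valuation hc hd
  exact absurd h1 (ne_of_lt h3)

private theorem glm_val_one (𝒪 : ValuationSubring M) (h𝒪 : ∀ a : C, algebraMap C M a ∈ 𝒪) {z : M}
    {c : C} (hc0 : c ≠ 0) (hc : 𝒪.valuation (z - algebraMap C M c) < 1) : 𝒪.valuation z = 1 := by
  have h1 := glm_const 𝒪 h𝒪 hc0
  have h2 : z = algebraMap C M c + (z - algebraMap C M c) := by ring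
  rw [h2, Valuation.map_add_eq_of_lt_left _ (by rw [h1]; exact hc), h1]

private theorem glm_root [IsAlgClosed C] (𝒪 : ValuationSubring M) {z : M} {m : ℕ} (hm : 0 < m)
    {c₀ : C} (h : 𝒪.valuation (z ^ m - algebraMap C M c₀) < 1) :
    ∃ c : C, 𝒪.valuation (z - algebraMap C M c) < 1 := by
  by_contra hcon
  push Not at hcon
  have hmon : (X ^ m - Polynomial.C c₀ : C[X]).Monic := monic_X_pow_sub_C c₀ hm.ne'
  have h1 := (IsAlgClosed.splits (X ^ m - Polynomial.C c₀ : C[X])).eq_prod_roots_of_monic hmon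
  have h2 : z ^ m - algebraMap C M c₀ = aeval z (X ^ m - Polynomial.C c₀ : C[X]) := by
    simp
  have h3 : ∀ s : Multiset C,
      1 ≤ 𝒪.valuation (aeval z (s.map (fun a => (X - Polynomial.C a : C[X]))).prod) := by
    intro s
    induction s using Multiset.induction_on with
    | empty => simp
    | cons a s ih =>
      rw [Multiset.map_cons, Multiset.prod_cons, map_mul, map_mul, map_sub, aeval_X, aeval_C]
      exact one_le_mul (hcon a) ih
  rw [h2, h1] at h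
  exact absurd h (not_lt.2 (h3 _))

/-- `lam` exists -/
private theorem glm_lam [IsAlgClosed C] [CharZero C] {p : ℕ} (hp : p.Prime) {L : Type*} [Field L]
    [Algebra C L] [Algebra L M] [IsScalarTower C L M] (t : L) (ht : Transcendental C t)
    [FiniteDimensional (IntermediateField.adjoin C {t}) L] (𝒪 : ValuationSubring M)
    (h𝒪 : ∀ a : C, algebraMap C M a ∈ 𝒪) (h𝒪L : ∃ f : L, algebraMap L M f ∉ 𝒪)
    {z : M} (hz : IsJ p C L z) (hv : 𝒪.valuation z = 1) :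
    ∃ c : C, c ≠ 0 ∧ 𝒪.valuation (z - algebraMap C M c) < 1 := by
  obtain ⟨hz0, n, f, hf, -⟩ := hz
  have hQC : ∀ a : C, algebraMap C L a ∈ 𝒪.comap (algebraMap L M) := by
    intro a
    rw [ValuationSubring.mem_comap, ← IsScalarTower.algebraMap_apply]
    exact h𝒪 a
  have hQT : 𝒪.comap (algebraMap L M) ≠ ⊤ := by
    intro h
    obtain ⟨g, hg⟩ := h𝒪L
    have h1 : g ∈ (⊤ : ValuationSubring L) := ValuationSubring.mem_top g
    rw [← h] at h1
    exact hg h1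
  obtain ⟨v, hv1, -, hv2⟩ := Pt.Ex2.exists_val t ht (𝒪.comap (algebraMap L M)) hQC hQT
  have hequiv : v.IsEquiv (𝒪.comap (algebraMap L M)).valuation := by
    rw [hv1]
    exact v.isEquiv_valuation_valuationSubring
  have hf1 : 𝒪.valuation (algebraMap L M f) = 1 := by
    rw [← hf, map_pow, hv, one_pow]
  have hf2 : v f ≤ 1 := by
    have h1 : f ∈ 𝒪.comap (algebraMap L M) := ((glm_mem _).1 ((glm_comap 𝒪 f).2 hf1)).2.1
    rw [hv1] at h1
    exact h1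
  obtain ⟨c₀, hc₀⟩ := hv2 f hf2
  have h3 : 𝒪.valuation (z ^ p ^ n - algebraMap C M c₀) < 1 := by
    rw [hf, IsScalarTower.algebraMap_apply C L M, ← map_sub, ← glm_lt]
    have h4 := hequiv.lt_one_iff_lt_one (x := f - algebraMap C L c₀)
    exact h4.1 hc₀
  obtain ⟨c, hc⟩ := glm_root 𝒪 (pow_pos hp.pos n) h3
  refine ⟨c, ?_, hc⟩
  rintro rfl
  rw [map_zero, sub_zero, hv] at hc
  exact lt_irrefl _ hc

/-- (2) -/
private theorem glm_split {p : ℕ} {L : Type*} [Field L] (hp : p.Prime)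
    [Algebra C L] [Algebra L M] [IsScalarTower C L M] (𝒪 : ValuationSubring M)
    (h𝒪 : ∀ a : C, algebraMap C M a ∈ 𝒪) (h𝒪L : ∃ f : L, algebraMap L M f ∉ 𝒪)
    {z : M} (hz : IsJ p C L z) : ∃ d : L, d ≠ 0 ∧ 𝒪.valuation (z * algebraMap L M d) = 1 := by
  obtain ⟨hz0, n, f, hf, hdiv⟩ := hz
  have hQC : ∀ a : C, algebraMap C L a ∈ 𝒪.comap (algebraMap L M) := by
    intro a
    rw [ValuationSubring.mem_comap, ← IsScalarTower.algebraMap_apply]
    exact h𝒪 a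
  have hQT : 𝒪.comap (algebraMap L M) ≠ ⊤ := by
    intro h
    obtain ⟨g, hg⟩ := h𝒪L
    have h1 : g ∈ (⊤ : ValuationSubring L) := ValuationSubring.mem_top g
    rw [← h] at h1
    exact hg h1
  obtain ⟨d, hd, hd1⟩ := hdiv _ ⟨hQC, hQT⟩
  refine ⟨d⁻¹, inv_ne_zero hd, ?_⟩
  rw [glm_comap, map_mul, map_inv₀, map_pow, ← hf, ← inv_pow, ← mul_pow, map_pow] at hd1
  rw [map_inv₀]
  have hn : p ^ n ≠ 0 := (pow_pos hp.pos n).ne'
  exact (pow_eq_one_iff_of_nonneg zero_le hn).1 hd1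

private theorem glm_iter {α : Type*} [Monoid α] (f : α →* α) (k : ℕ) (z : αˣ) :
    (((Units.map f)^[k] z : αˣ) : α) = f^[k] (z : α) := by
  induction k generalizing z with
  | zero => rfl
  | succ k ih => rw [Function.iterate_succ_apply, Function.iterate_succ_apply, ih, Units.coe_map]

end glmaux

theorem glm {p q : ℕ} (hp : p.Prime) (hq : ¬ p ∣ q) {C L M : Type*} [Field C] [IsAlgClosed C]
    [CharZero C] [Field L] [Algebra C L] [Field M] [Algebra L M] [Algebra C M]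
    [IsScalarTower C L M] (t : L) (ht : Transcendental C t)
    [FiniteDimensional (IntermediateField.adjoin C {t}) L]
    (𝒱 : Set (ValuationSubring M)) (h𝒱 : ∀ V ∈ 𝒱, ∀ a : C, algebraMap C M a ∈ V)
    (hrad : ∀ ρ : M, ρ ≠ 0 → (∀ V ∈ 𝒱, DivAt p ρ V) → ∃ β : M, β ^ p = ρ)
    (T Φ S : SAut C L M)
    (hTJ : ∀ z, IsJ p C L z → ∃ u : L, T.g z = z * algebraMap L M u)
    (hSJ : ∀ z, IsJ p C L z → ∃ u : L, S.g z = z * algebraMap L M u)
    (hΦJ : ∃ a₀ : ℕ, ∀ z, IsJ p C L z → (∃ u : L, Φ.g z = z * algebraMap L M u) →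
      ∃ v : L, z ^ p ^ a₀ = algebraMap L M v)
    (hμ : ∀ (n : ℕ) (ξ : C), ξ ^ p ^ n = 1 → T.gC ξ = ξ ∧ Φ.gC ξ = ξ ^ q ∧ S.gC ξ = ξ)
    (hrel : ∀ z, IsJ p C L z → Φ.g (T.g z) = T.g^[q] (S.g (Φ.g z)))
    (hrelC : ∀ c : C, Φ.gC (T.gC c) = T.gC^[q] (S.gC (Φ.gC c)))
    (hper : ∀ z, IsJ p C L z → ∀ c : C, ∃ k : ℕ, ¬ p ∣ k ∧ S.g^[k] z = z ∧ S.gC^[k] c = c)
    (𝒪 : ValuationSubring M) (h𝒪 : ∀ a : C, algebraMap C M a ∈ 𝒪)
    (h𝒪L : ∃ f : L, algebraMap L M f ∉ 𝒪)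
    (hst : ∀ f : L, (algebraMap L M (T.gL f) ∈ 𝒪 ↔ algebraMap L M f ∈ 𝒪) ∧
      (algebraMap L M (Φ.gL f) ∈ 𝒪 ↔ algebraMap L M f ∈ 𝒪) ∧
      (algebraMap L M (S.gL f) ∈ 𝒪 ↔ algebraMap L M f ∈ 𝒪))
    {z : M} (hz : IsJ p C L z) {c : C} (hc : c ≠ 0)
    (hzc : 𝒪.valuation (z - algebraMap C M c) < 1) :
    𝒪.valuation (T.g z - algebraMap C M (T.gC c)) < 1 := by
  classical
  -- the subgroups
  let A : Subgroup Mˣ :=
    { carrier := {z | IsJ p C L (z : M)}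
      one_mem' := by
        have h := IsJ.of_mem (p := p) (C := C) (M := M) (one_ne_zero (α := L))
        rw [map_one] at h
        exact h
      mul_mem' := fun {a b} ha hb => by
        show IsJ p C L ((a * b : Mˣ) : M)
        rw [Units.val_mul]
        exact IsJ.mul hp ha hb
      inv_mem' := fun {a} ha => by
        show IsJ p C L ((a⁻¹ : Mˣ) : M)
        rw [Units.val_inv_eq_inv_val]
        exact IsJ.inv ha }
  have hA : ∀ z : Mˣ, z ∈ A ↔ IsJ p C L (z : M) := fun z => Iff.rfl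
  let N : Subgroup Mˣ :=
    { carrier := {z | ∃ f : L, (z : M) = algebraMap L M f}
      one_mem' := ⟨1, by rw [Units.val_one, map_one]⟩
      mul_mem' := fun {a b} ha hb => by
        obtain ⟨f, hf⟩ := ha
        obtain ⟨g, hg⟩ := hb
        exact ⟨f * g, by rw [Units.val_mul, hf, hg, map_mul]⟩
      inv_mem' := fun {a} ha => by
        obtain ⟨f, hf⟩ := ha
        exact ⟨f⁻¹, by rw [Units.val_inv_eq_inv_val, hf, map_inv₀]⟩ }
  have hN : ∀ z : Mˣ, z ∈ N ↔ ∃ f : L, (z : M) = algebraMap L M f := fun z => Iff.rfl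
  let A₁ : Subgroup Mˣ :=
    { carrier := {z | IsJ p C L (z : M) ∧ 𝒪.valuation (z : M) = 1}
      one_mem' := ⟨A.one_mem, by rw [Units.val_one, map_one]⟩
      mul_mem' := fun {a b} ha hb => ⟨A.mul_mem ha.1 hb.1, by
        rw [Units.val_mul, map_mul, ha.2, hb.2, one_mul]⟩
      inv_mem' := fun {a} ha => ⟨A.inv_mem ha.1, by
        rw [Units.val_inv_eq_inv_val, map_inv₀, ha.2, inv_one]⟩ }
  have hA₁ : ∀ z : Mˣ, z ∈ A₁ ↔ IsJ p C L (z : M) ∧ 𝒪.valuation (z : M) = 1 := fun z => Iff.rfl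
  have hNA : N ≤ A := by
    intro x hx
    obtain ⟨f, hf⟩ := hx
    rw [hA, hf]
    refine IsJ.of_mem ?_
    rintro rfl
    rw [map_zero] at hf
    exact x.ne_zero hf
  -- (1)
  have hex : ∀ z : Mˣ, ∃ c : Cˣ, z ∈ A₁ → 𝒪.valuation ((z : M) - algebraMap C M (c : C)) < 1 := by
    intro z
    by_cases hz : z ∈ A₁
    · obtain ⟨c, hc0, hc⟩ := glm_lam hp t ht 𝒪 h𝒪 h𝒪L hz.1 hz.2
      exact ⟨Units.mk0 c hc0, fun _ => hc⟩
    · exact ⟨1, fun h => absurd h hz⟩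
  choose lam hlam1 using hex
  have hlam2 : ∀ z ∈ A₁, ∀ c : C, 𝒪.valuation ((z : M) - algebraMap C M c) < 1 → (lam z : C) = c :=
    fun z hz c hc => glm_uniq 𝒪 h𝒪 (hlam1 z hz) hc
  have hvz : ∀ z ∈ A₁, 𝒪.valuation (z : M) = 1 := fun z hz => hz.2
  have hlam : ∀ z ∈ A₁, ∀ w ∈ A₁, lam (z * w) = lam z * lam w := by
    intro z hz w hw
    apply Units.ext
    apply hlam2 _ (A₁.mul_mem hz hw)
    have h1 : ((z * w : Mˣ) : M) - algebraMap C M ((lam z * lam w : Cˣ) : C) =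
        z * (w - algebraMap C M (lam w)) + algebraMap C M (lam w) * (z - algebraMap C M (lam z)) := by
      rw [Units.val_mul, Units.val_mul, map_mul]
      ring
    rw [h1]
    apply Valuation.map_add_lt
    · rw [map_mul, hvz z hz, one_mul]
      exact hlam1 w hw
    · rw [map_mul, glm_const 𝒪 h𝒪 (lam w).ne_zero, one_mul]
      exact hlam1 z hz
  -- the automorphisms
  let GM : SAut C L M → (Mˣ →* Mˣ) := fun U => Units.map (U.g : M →* M)
  let GC : SAut C L M → (Cˣ →* Cˣ) := fun U => Units.map (U.gC : C →* C)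
  have hGM : ∀ (U : SAut C L M) (z : Mˣ), ((GM U z : Mˣ) : M) = U.g z := fun U z => rfl
  have hGC : ∀ (U : SAut C L M) (z : Cˣ), ((GC U z : Cˣ) : C) = U.gC z := fun U z => rfl
  have hGMi : ∀ (U : SAut C L M) (k : ℕ) (z : Mˣ), (((GM U)^[k] z : Mˣ) : M) = U.g^[k] z :=
    fun U k z => glm_iter (U.g : M →* M) k z
  have hGCi : ∀ (U : SAut C L M) (k : ℕ) (z : Cˣ), (((GC U)^[k] z : Cˣ) : C) = U.gC^[k] z :=
    fun U k z => glm_iter (U.gC : C →* C) k z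
  have hGN : ∀ (U : SAut C L M) (z : Mˣ), z ∈ N → GM U z ∈ N := by
    intro U z hz
    obtain ⟨f, hf⟩ := hz
    exact ⟨U.gL f, by rw [hGM, hf, U.hL]⟩
  have hGA : ∀ (U : SAut C L M) (z : Mˣ), z ∈ A → GM U z ∈ A := by
    intro U z hz
    exact IsJ.map hz U
  -- (3)
  have hval : ∀ (U : SAut C L M), (∀ f : L, algebraMap L M (U.gL f) ∈ 𝒪 ↔ algebraMap L M f ∈ 𝒪) →
      ∀ f : L, 𝒪.valuation (algebraMap L M (U.gL f)) = 1 ↔ 𝒪.valuation (algebraMap L M f) = 1 := by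
    intro U hU f
    rw [glm_mem, glm_mem, ← map_inv₀, ← map_inv₀, ← map_inv₀, hU, hU, Ne, Ne, map_eq_zero,
      map_eq_zero, map_eq_zero]
  have hvlt : ∀ (U : SAut C L M), (∀ f : L, algebraMap L M (U.gL f) ∈ 𝒪 ↔ algebraMap L M f ∈ 𝒪) →
      ∀ f : L, 𝒪.valuation (algebraMap L M (U.gL f)) < 1 ↔ 𝒪.valuation (algebraMap L M f) < 1 := by
    intro U hU f
    rw [lt_iff_le_and_ne, lt_iff_le_and_ne, Ne, Ne, hval U hU, 𝒪.valuation_le_one_iff,
      𝒪.valuation_le_one_iff, hU]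
  have hGA1 : ∀ (U : SAut C L M),
      (∀ f : L, algebraMap L M (U.gL f) ∈ 𝒪 ↔ algebraMap L M f ∈ 𝒪) →
      ∀ z : Mˣ, z ∈ A₁ → GM U z ∈ A₁ := by
    intro U hU z hz
    refine ⟨hGA U z hz.1, ?_⟩
    obtain ⟨-, n, f, hf, -⟩ := hz.1
    have h1 : 𝒪.valuation (algebraMap L M f) = 1 := by rw [← hf, map_pow, hz.2, one_pow]
    rw [← hval U hU, ← U.hL, ← hf, map_pow, map_pow] at h1
    exact (pow_eq_one_iff_of_nonneg zero_le (pow_pos hp.pos n).ne').1 h1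
  have hG0 : ∀ (U : SAut C L M),
      (∀ f : L, algebraMap L M (U.gL f) ∈ 𝒪 ↔ algebraMap L M f ∈ 𝒪) →
      ∀ z ∈ A₁, z ∈ N → lam (GM U z) = GC U (lam z) := by
    intro U hU z hz hzN
    obtain ⟨f, hf⟩ := hzN
    apply Units.ext
    apply hlam2 _ (hGA1 U hU z hz)
    have h1 := hlam1 z hz
    rw [hf, IsScalarTower.algebraMap_apply C L M, ← map_sub, ← hvlt U hU, map_sub, U.hC, map_sub,
      ← IsScalarTower.algebraMap_apply, ← U.hL, ← hf] at h1
    exact h1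
  have hT' : ∀ f : L, algebraMap L M (T.gL f) ∈ 𝒪 ↔ algebraMap L M f ∈ 𝒪 := fun f => (hst f).1
  have hΦ' : ∀ f : L, algebraMap L M (Φ.gL f) ∈ 𝒪 ↔ algebraMap L M f ∈ 𝒪 := fun f => (hst f).2.1
  have hS' : ∀ f : L, algebraMap L M (S.gL f) ∈ 𝒪 ↔ algebraMap L M f ∈ 𝒪 := fun f => (hst f).2.2
  have hdivN : ∀ (U : SAut C L M) (z : Mˣ), (∃ u : L, U.g z = z * algebraMap L M u) ↔
      GM U z / z ∈ N := by
    intro U z
    constructor
    · rintro ⟨u, hu⟩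
      refine ⟨u, ?_⟩
      rw [Units.val_div_eq_div_val, hGM, hu, mul_div_cancel_left₀ _ z.ne_zero]
    · rintro ⟨u, hu⟩
      refine ⟨u, ?_⟩
      rw [← hu, Units.val_div_eq_div_val, hGM, mul_div_cancel₀ _ z.ne_zero]
  have htor : ∀ z ∈ A, ∃ n : ℕ, z ^ p ^ n ∈ N := by
    intro z hz
    obtain ⟨-, n, f, hf, -⟩ := hz
    exact ⟨n, f, by rw [Units.val_pow_eq_pow_val, hf]⟩
  -- the conclusion
  have hz1 : 𝒪.valuation z = 1 := glm_val_one 𝒪 h𝒪 hc hzc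
  have hz0 : z ≠ 0 := hz.1
  have hzA : Units.mk0 z hz0 ∈ A₁ := ⟨hz, hz1⟩
  have key := tl hp hq A N A₁ (fun x hx => hx.1) ?_ htor lam hlam (GM T) (GM Φ) (GM S) (GC T)
    (GC Φ) (GC S) (hGN Φ) (hGA1 T hT') (hGA1 Φ hΦ') (hGA1 S hS') (hG0 T hT') (hG0 Φ hΦ')
    (hG0 S hS') ?_ ?_ ?_ ?_ ?_ ?_ ?_ hzA
  · have h1 : lam (Units.mk0 z hz0) = Units.mk0 c hc := by
      apply Units.ext
      exact hlam2 _ hzA c hzc
    rw [h1] at key
    have h2 := hlam1 _ (hGA1 T hT' _ hzA)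
    rw [key] at h2
    exact h2
  · intro x hx
    obtain ⟨d, hd, hd1⟩ := glm_split hp 𝒪 h𝒪 h𝒪L hx
    have hd2 : algebraMap L M d ≠ 0 := by
      rw [Ne, map_eq_zero]
      exact hd
    refine ⟨Units.mk0 (algebraMap L M d) hd2, ⟨d, rfl⟩, ?_, ?_⟩
    · exact A.mul_mem hx (hNA ⟨d, rfl⟩)
    · exact hd1
  · intro x hx
    exact (hdivN T x).1 (hTJ x hx.1)
  · intro x hx
    exact (hdivN S x).1 (hSJ x hx.1)
  · intro n ξ hξ
    have h1 : (ξ : C) ^ p ^ n = 1 := by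
      rw [← Units.val_pow_eq_pow_val, hξ, Units.val_one]
    obtain ⟨h2, h3, h4⟩ := hμ n ξ h1
    refine ⟨Units.ext h2, Units.ext ?_, Units.ext h4⟩
    rw [hGC, h3, Units.val_pow_eq_pow_val]
  · intro x hx
    apply Units.ext
    rw [hGM, hGM, hGMi, hGM, hGM]
    exact hrel x hx.1
  · intro a
    apply Units.ext
    rw [hGC, hGC, hGCi, hGC, hGC]
    exact hrelC a
  · intro x hx
    obtain ⟨k, hk, hk1, hk2⟩ := hper x hx.1 (lam x)
    refine ⟨k, hk, Units.ext ?_, Units.ext ?_⟩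
    · rw [hGMi, hk1]
    · rw [hGCi, hk2]
  · intro x hx
    obtain ⟨a₀, ha₀⟩ := hΦJ
    refine ag hp A N hNA (GM Φ) (hGA Φ) (hGN Φ) htor ?_ ?_ (a₀ := a₀) ?_ hx.1
    · intro y hy
      obtain ⟨w, hw, c', hc', hwc⟩ := IsJ.div hp t ht 𝒱 h𝒱 hrad hy
      have hc2 : algebraMap L M c' ≠ 0 := by
        rw [Ne, map_eq_zero]
        exact hc'
      refine ⟨Units.mk0 w hw.1, hw, Units.mk0 _ hc2, ⟨c', rfl⟩, Units.ext ?_⟩
      rw [Units.val_pow_eq_pow_val, Units.val_mul]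
      exact hwc
    · obtain ⟨F, hF, hF2⟩ := IsJ.fin (p := p) (C := C) (L := L) (M := M) hp t ht
      refine ⟨F.attach.image (fun r => Units.mk0 r.1 (hF r.1 r.2)), ?_⟩
      intro y hy hyp
      obtain ⟨f, hf⟩ := hyp
      obtain ⟨r, hr, c', hc'⟩ := hF2 y hy ⟨f, by rw [← Units.val_pow_eq_pow_val, hf]⟩
      refine ⟨Units.mk0 r (hF r hr), ?_, c', ?_⟩
      · rw [Finset.mem_image]
        exact ⟨⟨r, hr⟩, Finset.mem_attach _ _, rfl⟩
      · rw [Units.val_div_eq_div_val, hc', Units.val_mk0, mul_div_cancel_left₀ _ (hF r hr)]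
    · intro y hy hyN
      obtain ⟨v, hv⟩ := ha₀ y hy ((hdivN Φ y).2 hyN)
      exact ⟨v, by rw [Units.val_pow_eq_pow_val, hv]⟩

end Pool.Agent.Lib.MP_2f3286_ag.Gl
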