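import Pool.Agent.Lib.MP_2f3286_ag.Gl.RIB

/-!
# Good reduction: powers of `p`, semilinear automorphisms   (module RIC)

PROOF of `ri`. Induction on `n`. `n = 0`: `u = f`. `n + 1`: `f` has the residue `(g ^ p ^ n) ^ p`, so `f = u ^ p` by `ri1` (`DivAt (p ^ (n + 1))`
implies `DivAt p`: `c ^ p ^ (n + 1) = (c ^ p ^ n) ^ p`). `u` has a residue `ub` with `ub ^ p = (g ^ p ^ n) ^ p`, so `ub = ξ g ^ p ^ n`,
`ξ : k`, `ξ ^ p = 1`, so `ξ` is (the image of) an element of `κ` (`ξ = ζb ^ i`), `ξ = ξ' ^ p ^ n`. So `u` has the residue `(ξ' g) ^ p ^ n`.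
`DivAt (p ^ n) u Q`: `v (u ^ p / (c ^ p ^ n) ^ p) = 1` so `v (u / c ^ p ^ n) = 1`. Induction: `u = w ^ p ^ n`, `f = w ^ p ^ (n + 1)`.
PROOF of `r2`. `exists_unit`: `c f` has a residue `z ≠ 0`. Let `F = τ (c f) / (c f)`. By `semi` `τ (c f)` has the residue `z`, so `F` has the
residue `1 = 1 ^ p ^ n`. `DivAt (p ^ n) F` at all places (`divAt_semi`, constants have valuation one). `ri`: `F = u ^ p ^ n`. So
`τ f = f * u ^ p ^ n * (c / δ c)`, and `c / δ c` is a `p ^ n`-th power in `C`.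
-/

open Polynomial IntermediateField

namespace Pool.Agent.Lib.MP_2f3286_ag.Gl

open Pool.Agent.Lib.MP_2f3286_ag.Fer (Plc)
open Pool.Agent.Lib.MP_2f3286_ag.Pt (IsPlc DivAt)

variable {p : ℕ} {C L κ k : Type*} [Field C] [IsAlgClosed C] [CharZero C] [Field L]
  [Algebra C L] [Field κ] [IsAlgClosed κ] [Field k] [Algebra κ k] {D : Red C L κ k} {x y : L} {h : C[X]} {xb yb : k}
  {hb : κ[X]}

private theorem ric_val_one {K : Type*} [Field K] (Q : ValuationSubring K) {u : K} {m : ℕ}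
    (hm : m ≠ 0) (h : Q.valuation (u ^ m) = 1) : Q.valuation u = 1 := by
  rw [map_pow] at h
  exact (pow_eq_one_iff_of_nonneg zero_le hm).1 h

private theorem ric_mem_range {κ k : Type*} [Field κ] [IsAlgClosed κ] [Field k] [Algebra κ k]
    {ξ : k} {m : ℕ} (hm : 0 < m) (h : ξ ^ m = 1) : ∃ z : κ, algebraMap κ k z = ξ := by
  have hint : IsIntegral κ ξ := by
    refine ⟨X ^ m - 1, monic_X_pow_sub_C 1 hm.ne', ?_⟩
    simp [h]
  have h1 := IsAlgClosed.degree_eq_one_of_irreducible κ (minpoly.irreducible hint)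
  exact minpoly.mem_range_of_degree_eq_one κ ξ h1

theorem GRed.ri (hp : p.Prime) (hpκ : (p : κ) ≠ 0)
    (G : GRed p D x y h xb yb hb) (n : ℕ) {f : L} {g : k} (hg : g ≠ 0)
    (hf : D.W.Has f (g ^ p ^ n))
    (hdiv : ∀ Q : ValuationSubring L, IsPlc C Q → DivAt (p ^ n) f Q) :
    ∃ u : L, u ^ p ^ n = f := by
  induction n generalizing f g with
  | zero => exact ⟨f, by rw [pow_zero, pow_one]⟩
  | succ n ih =>
    have e1 : g ^ p ^ (n + 1) = (g ^ p ^ n) ^ p := by rw [← pow_mul, pow_succ]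
    rw [e1] at hf
    have hd1 : ∀ Q : ValuationSubring L, IsPlc C Q → DivAt p f Q := by
      intro Q hQ
      obtain ⟨c, hc, hv⟩ := hdiv Q hQ
      refine ⟨c ^ p ^ n, pow_ne_zero _ hc, ?_⟩
      rw [← pow_mul, ← pow_succ]
      exact hv
    have hgn : g ^ p ^ n ≠ 0 := pow_ne_zero _ hg
    obtain ⟨u, hu⟩ := G.ri1 hp hpκ hgn hf hd1
    have hvf : D.W.A.valuation f = 1 := has_val_eq D.W hf (pow_ne_zero _ hgn)
    have hvu : D.W.A.valuation u = 1 := by
      apply ric_val_one _ hp.ne_zero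
      rw [hu]
      exact hvf
    obtain ⟨ub, hub, hhu⟩ := has_of_val_eq D.W hvu
    have h1 : ub ^ p = (g ^ p ^ n) ^ p := by
      have h2 := hhu.pow p
      rw [hu] at h2
      exact h2.unique hf
    have h3 : (ub / g ^ p ^ n) ^ p = 1 := by
      rw [div_pow, h1, div_self (pow_ne_zero _ hgn)]
    obtain ⟨z, hz⟩ := ric_mem_range (κ := κ) hp.pos h3
    obtain ⟨z', hz'⟩ := IsAlgClosed.exists_pow_nat_eq z (pow_pos hp.pos n)
    have hz0 : z' ≠ 0 := by
      rintro rfl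
      rw [zero_pow (pow_pos hp.pos n).ne'] at hz'
      rw [← hz', map_zero] at hz
      rw [← hz, zero_pow hp.ne_zero] at h3
      exact zero_ne_one h3
    have h4 : ub = (algebraMap κ k z' * g) ^ p ^ n := by
      rw [mul_pow, ← map_pow, hz', hz, div_mul_cancel₀ _ hgn]
    rw [h4] at hhu
    have h5 : algebraMap κ k z' * g ≠ 0 :=
      mul_ne_zero ((map_ne_zero_iff _ (algebraMap κ k).injective).2 hz0) hg
    obtain ⟨w, hw⟩ := ih h5 hhu (by
      intro Q hQ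
      obtain ⟨c, hc, hv⟩ := hdiv Q hQ
      refine ⟨c, hc, ?_⟩
      apply ric_val_one _ hp.ne_zero
      rw [mul_pow, hu, inv_pow, ← pow_mul, ← pow_succ]
      exact hv)
    refine ⟨w, ?_⟩
    rw [pow_succ, pow_mul, hw, hu]

theorem GRed.r2 (hp : p.Prime) (hpκ : (p : κ) ≠ 0)
    (G : GRed p D x y h xb yb hb) {δ : C ≃+* C} {τ : L ≃+* L} (hτ : IsSemi x y δ τ)
    (hδ : ∀ c z, D.V.Has c z → D.V.Has (δ c) z) (n : ℕ) {f : L} (hf : f ≠ 0)
    (hdiv : ∀ Q : ValuationSubring L, IsPlc C Q → DivAt (p ^ n) f Q) :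
    ∃ u : L, u ≠ 0 ∧ τ f = f * u ^ p ^ n := by
  obtain ⟨c, z, hc, hz, hcf⟩ := G.exists_unit hp hf
  have hs := G.semi hp hτ hδ hcf
  have hF := hs.div hcf hz
  rw [div_self hz] at hF
  have hconst : ∀ (Q : ValuationSubring L), IsPlc C Q → ∀ a : C, a ≠ 0 →
      Q.valuation (algebraMap C L a) = 1 := by
    intro Q hQ a ha
    have h1 : Q.valuation (algebraMap C L a) ≤ 1 := (Q.valuation_le_one_iff _).2 (hQ.1 a)
    have h2 : Q.valuation (algebraMap C L a⁻¹) ≤ 1 := (Q.valuation_le_one_iff _).2 (hQ.1 a⁻¹)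
    have h3 : Q.valuation (algebraMap C L a) * Q.valuation (algebraMap C L a⁻¹) = 1 := by
      rw [← map_mul, ← map_mul, mul_inv_cancel₀ ha, map_one, map_one]
    refine le_antisymm h1 ?_
    calc (1 : Q.ValueGroup) = Q.valuation (algebraMap C L a) * Q.valuation (algebraMap C L a⁻¹) :=
          h3.symm
      _ ≤ Q.valuation (algebraMap C L a) * 1 := mul_le_mul_right h2 _
      _ = Q.valuation (algebraMap C L a) := mul_one _
  have hδc : δ c ≠ 0 := (map_ne_zero_iff _ δ.injective).2 hc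
  have hac : algebraMap C L c ≠ 0 := (map_ne_zero_iff _ (algebraMap C L).injective).2 hc
  have haδ : algebraMap C L (δ c) ≠ 0 := (map_ne_zero_iff _ (algebraMap C L).injective).2 hδc
  have hτf : τ f ≠ 0 := (map_ne_zero_iff _ τ.injective).2 hf
  have hdivF : ∀ Q : ValuationSubring L, IsPlc C Q →
      DivAt (p ^ n) (τ (algebraMap C L c * f) / (algebraMap C L c * f)) Q := by
    intro Q hQ
    obtain ⟨c₁, hc₁, hv₁⟩ := hdiv Q hQ
    obtain ⟨c₂, hc₂, hv₂⟩ := divAt_semi hτ.const hdiv Q hQ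
    refine ⟨c₂ / c₁, div_ne_zero hc₂ hc₁, ?_⟩
    have e : τ (algebraMap C L c * f) / (algebraMap C L c * f) * ((c₂ / c₁) ^ p ^ n)⁻¹
        = algebraMap C L (δ c) * (algebraMap C L c)⁻¹ * (τ f * (c₂ ^ p ^ n)⁻¹) *
          (f * (c₁ ^ p ^ n)⁻¹)⁻¹ := by
      rw [map_mul, hτ.const, div_pow]
      have h1 : c₁ ^ p ^ n ≠ 0 := pow_ne_zero _ hc₁
      have h2 : c₂ ^ p ^ n ≠ 0 := pow_ne_zero _ hc₂
      field_simp
    rw [e, map_mul, map_mul, map_mul, map_inv₀, map_inv₀, hv₁, hv₂, hconst Q hQ _ hδc,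
      hconst Q hQ _ hc]
    simp
  obtain ⟨u, hu⟩ := G.ri hp hpκ n (g := 1) one_ne_zero (by rw [one_pow]; exact hF) hdivF
  obtain ⟨d, hd⟩ := IsAlgClosed.exists_pow_nat_eq (c / δ c) (pow_pos hp.pos n)
  have hu0 : u ≠ 0 := by
    rintro rfl
    rw [zero_pow (pow_pos hp.pos n).ne'] at hu
    have h1 : τ (algebraMap C L c * f) / (algebraMap C L c * f) ≠ 0 :=
      div_ne_zero ((map_ne_zero_iff _ τ.injective).2 (mul_ne_zero hac hf)) (mul_ne_zero hac hf)
    exact h1 hu.symm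
  have hd0 : d ≠ 0 := by
    rintro rfl
    rw [zero_pow (pow_pos hp.pos n).ne'] at hd
    exact div_ne_zero hc hδc hd.symm
  refine ⟨u * algebraMap C L d,
    mul_ne_zero hu0 ((map_ne_zero_iff _ (algebraMap C L).injective).2 hd0), ?_⟩
  rw [mul_pow, hu, ← map_pow, hd, map_mul, hτ.const, map_div₀]
  field_simp

end Pool.Agent.Lib.MP_2f3286_ag.Gl
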