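import Pool.Agent.Lib.MP_2f3286_ag.Gl.SF

/-!
# Superelliptic function fields: uniformizers over a smaller field of constants   (module SJ)

PROOF. `exists_center`: `v (x - α) < 1`; `fin_place`. In the second case take `τ = y`. In the first case let
`m = minpoly F₁ α`, separable (`PerfectField.separable_of_irreducible`), `τ = aeval x m` (in the intermediate field
`adjoin F₁ {x, y}`). Over `C`, `m.map = (X - Polynomial.C α) * q` with `q(α) ≠ 0` (separable). So `τ = (x - α) * q(x)`, and
`v (q(x) - q(α)) < 1` (`X - α ∣ q - q(α)`, `x ∈ Q`), so `v (q(x)) = 1`, `v τ = v (x - α)`.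
-/

open Polynomial IntermediateField
open Pool.Agent.Lib.MP_2f3286_ag.Pt (IsPlc)

namespace Pool.Agent.Lib.MP_2f3286_ag.Gl

variable {p : ℕ} {C L : Type*} [Field C] [Field L] [Algebra C L] {x y : L} {h : C[X]}

theorem IsSup.gen_low [IsAlgClosed C] (hp : p.Prime) (hpC : (p : C) ≠ 0) (H : IsSup p x y h)
    {F₁ : Type*} [Field F₁] [PerfectField F₁] [Algebra F₁ C] [Algebra.IsAlgebraic F₁ C]
    [Algebra F₁ L] [IsScalarTower F₁ C L] {Q : ValuationSubring L} (hQ : IsPlc C Q) (hx : x ∈ Q) :
    ∃ τ ∈ IntermediateField.adjoin F₁ {x, y}, Q.valuation τ < 1 ∧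
      ∀ f : L, f ≠ 0 → ∃ n : ℤ, Q.valuation f = Q.valuation τ ^ n := by
  classical
  obtain ⟨α, hα⟩ := H.exists_center hp hQ hx
  rcases H.fin_place hp hpC hQ hx hα with ⟨_, _, hgen⟩ | ⟨_, hy, hgen⟩
  swap
  · exact ⟨y, IntermediateField.subset_adjoin _ _ (by simp), hy, hgen⟩
  have hint : IsIntegral F₁ α := Algebra.IsIntegral.isIntegral α
  have hsep : (minpoly F₁ α).Separable :=
    PerfectField.separable_of_irreducible (minpoly.irreducible hint)
  have hroot : (minpoly F₁ α).eval₂ (algebraMap F₁ C) α = 0 := minpoly.aeval F₁ α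
  have hder := hsep.eval₂_derivative_ne_zero (algebraMap F₁ C) hroot
  have hdvd : (X - Polynomial.C α) ∣ (minpoly F₁ α).map (algebraMap F₁ C) := by
    rw [dvd_iff_isRoot, IsRoot.def, eval_map]
    exact hroot
  obtain ⟨q, hq⟩ := hdvd
  have hqα : q.eval α ≠ 0 := by
    intro h0
    apply hder
    rw [← eval_map, ← derivative_map, hq, derivative_mul]
    simp [h0]
  have hpoly : ∀ r : C[X], aeval x r ∈ Q := by
    intro r
    rw [aeval_eq_sum_range]
    refine sum_mem fun i _ => ?_
    rw [Algebra.smul_def]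
    exact mul_mem (hQ.1 _) (pow_mem hx i)
  have hconst : ∀ c : C, c ≠ 0 → Q.valuation (algebraMap C L c) = 1 := by
    intro c hc
    have h1 := (Q.valuation_le_one_iff _).2 (hQ.1 c)
    have h2 := (Q.valuation_le_one_iff _).2 (hQ.1 c⁻¹)
    apply le_antisymm h1
    rw [map_inv₀, map_inv₀] at h2
    have h3 : Q.valuation (algebraMap C L c) ≠ 0 := by
      rw [Ne, map_eq_zero, map_eq_zero]; exact hc
    by_contra h4
    rw [not_le] at h4
    exact absurd h2 (not_le.2 (one_lt_inv₀ (zero_lt_iff.2 h3) |>.2 h4))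
  have hqx : Q.valuation (aeval x q) = 1 := by
    obtain ⟨r, hr⟩ := X_sub_C_dvd_sub_C_eval (a := α) (p := q)
    have h1 : aeval x q = algebraMap C L (q.eval α) + (x - algebraMap C L α) * aeval x r := by
      have h2 : q = Polynomial.C (q.eval α) + (X - Polynomial.C α) * r := by rw [← hr]; ring
      conv_lhs => rw [h2]
      simp
    have h3 : Q.valuation ((x - algebraMap C L α) * aeval x r) < 1 := by
      rw [map_mul]
      calc Q.valuation (x - algebraMap C L α) * Q.valuation (aeval x r)
          ≤ Q.valuation (x - algebraMap C L α) * 1 := by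
            gcongr
            exact (Q.valuation_le_one_iff _).2 (hpoly r)
        _ < 1 := by rw [mul_one]; exact hα
    rw [h1, Valuation.map_add_eq_of_lt_left _ (by rw [hconst _ hqα]; exact h3), hconst _ hqα]
  have hτ : Q.valuation (aeval x (minpoly F₁ α)) = Q.valuation (x - algebraMap C L α) := by
    have h1 : aeval x (minpoly F₁ α) = (x - algebraMap C L α) * aeval x q := by
      rw [← aeval_map_algebraMap C x (minpoly F₁ α), hq]
      simp
    rw [h1, map_mul, hqx, mul_one]
  refine ⟨aeval x (minpoly F₁ α), ?_, by rw [hτ]; exact hα, by rw [hτ]; exact hgen⟩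
  have hxm : x ∈ IntermediateField.adjoin F₁ ({x, y} : Set L) :=
    IntermediateField.subset_adjoin _ _ (by simp)
  have h1 : aeval x (minpoly F₁ α) =
      ((aeval (⟨x, hxm⟩ : IntermediateField.adjoin F₁ ({x, y} : Set L)) (minpoly F₁ α) :
        IntermediateField.adjoin F₁ ({x, y} : Set L)) : L) := by
    rw [← IntermediateField.aeval_coe]
  rw [h1]
  exact Subtype.coe_prop _

end Pool.Agent.Lib.MP_2f3286_ag.Gl
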