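import Pool.Agent.Lib.MP_2f3286_ag.Pt.Ex2

/-!
# Number fields in a valued field   (module U4)

`C` is algebraic over the rational numbers, `V` a valuation ring with `V (l) < 1`. PROOF. `F = adjoin ℚ T` (finite over `ℚ`, all
elements are algebraic: `IntermediateField.finiteDimensional_adjoin`), a number field. `V' = V.comap (algebraMap F C)` contains the
integers of `F` (`V` is integrally closed) and is not `⊤` (`l⁻¹ ∉ V`). `Pt.Ex2.exists_spec` with `O = 𝓞 F`, `A = F`: `V' =
(v.valuation F).valuationSubring` for a prime `v` of `𝓞 F`; take `π` in `F` with `v.valuation F π = exp (-1)`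
(`HeightOneSpectrum.valuation_exists_uniformizer`). Every nonzero `c ∈ F` has `v c = exp (-n) = v (π ^ n)`, so `c / π ^ n` and its inverse are
in `V'`, so `V.valuation c = V.valuation π ^ n`. In particular if `V.valuation c < 1` then `n ≥ 1`, so `c / π ∈ V`.
`O = V ∩ F` is a ring in which every nonzero ideal is generated by a power of `π`, so Noetherian (a principal ideal ring:
for an ideal `I ≠ 0` choose `c ∈ I` with `n(c) : ℕ` minimal).
-/

open IntermediateField IsDedekindDomain WithZero

namespace Pool.Agent.Lib.MP_2f3286_ag.Gl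

theorem exists_dvr {C : Type*} [Field C] [CharZero C] [Algebra.IsAlgebraic ℚ C]
    (V : ValuationSubring C) {l : ℕ} (hl : l.Prime) (hV : V.valuation (l : C) < 1)
    (T : Finset C) :
    ∃ F : IntermediateField ℚ C, (∀ c ∈ T, c ∈ F) ∧
      IsNoetherianRing (V.toSubring ⊓ F.toSubalgebra.toSubring : Subring C) ∧
      ∃ π : C, π ∈ F ∧ π ≠ 0 ∧ V.valuation π < 1 ∧
        ∀ c ∈ F, c ≠ 0 → ∃ n : ℤ, V.valuation c = V.valuation π ^ n := by
  classical
  let F : IntermediateField ℚ C := IntermediateField.adjoin ℚ (T : Set C)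
  have hfin : FiniteDimensional ℚ F :=
    IntermediateField.finiteDimensional_adjoin fun x _ => Algebra.IsIntegral.isIntegral x
  have hNF : NumberField F := { to_charZero := inferInstance, to_finiteDimensional := hfin }
  let V' : ValuationSubring F := V.comap (algebraMap F C)
  have hmem : ∀ x : F, x ∈ V' ↔ (x : C) ∈ V := fun x => Iff.rfl
  have hint : ∀ z : NumberField.RingOfIntegers F,
      algebraMap (NumberField.RingOfIntegers F) F z ∈ V' := by
    intro z
    rw [hmem]
    have h1 : IsIntegral ℤ (algebraMap (NumberField.RingOfIntegers F) F z) :=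
      NumberField.RingOfIntegers.isIntegral_coe z
    have h2 : IsIntegral ℤ ((algebraMap (NumberField.RingOfIntegers F) F z : F) : C) :=
      h1.map (IsScalarTower.toAlgHom ℤ F C)
    have h3 : IsIntegral V ((algebraMap (NumberField.RingOfIntegers F) F z : F) : C) :=
      h2.tower_top
    obtain ⟨y, hy⟩ := (IsIntegrallyClosed.isIntegral_iff (R := V) (K := C)).1 h3
    rw [← hy]
    exact y.2
  have hl0 : (l : C) ≠ 0 := by exact_mod_cast hl.ne_zero
  have hne : V' ≠ ⊤ := by
    intro h
    have h1 : ((l : F)⁻¹) ∈ V' := by rw [h]; trivial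
    rw [hmem] at h1
    rw [← V.valuation_le_one_iff] at h1
    have h2 : (((l : F)⁻¹ : F) : C) = (l : C)⁻¹ := by push_cast; rfl
    rw [h2, map_inv₀] at h1
    have h3 : V.valuation (l : C) ≠ 0 := (Valuation.ne_zero_iff _).2 hl0
    have h4 : 1 < (V.valuation (l : C))⁻¹ := (one_lt_inv₀ (zero_lt_iff.2 h3)).2 hV
    exact absurd h1 (not_le.2 h4)
  obtain ⟨v, hv, -⟩ := Pt.Ex2.exists_spec V' hint hne
  obtain ⟨π, hπ⟩ := v.valuation_exists_uniformizer F
  have hmem' : ∀ x : F, (x : C) ∈ V ↔ v.valuation F x ≤ 1 := by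
    intro x
    rw [← hmem, hv, Valuation.mem_valuationSubring_iff]
  have hπ0 : π ≠ 0 := by
    rintro rfl
    rw [map_zero] at hπ
    exact absurd hπ.symm (exp_ne_zero)
  have key : ∀ x : F, v.valuation F x = 1 → V.valuation (x : C) = 1 := by
    intro x hx
    have hx0 : x ≠ 0 := by
      rintro rfl
      rw [map_zero] at hx
      exact zero_ne_one hx
    have h1 : V.valuation (x : C) ≤ 1 := (V.valuation_le_one_iff _).2 ((hmem' x).2 hx.le)
    have h2 : V.valuation ((x⁻¹ : F) : C) ≤ 1 :=
      (V.valuation_le_one_iff _).2 ((hmem' x⁻¹).2 (by rw [map_inv₀, hx, inv_one]))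
    rw [IntermediateField.coe_inv, map_inv₀] at h2
    have h3 : V.valuation (x : C) ≠ 0 := (Valuation.ne_zero_iff _).2 (by simpa using hx0)
    exact le_antisymm h1 ((inv_le_one₀ (zero_lt_iff.2 h3)).1 h2)
  refine ⟨F, fun c hc => IntermediateField.subset_adjoin ℚ _ hc, ?_, (π : C), π.2, ?_, ?_, ?_⟩
  · let f : (v.valuation F).integer →+* (V.toSubring ⊓ F.toSubalgebra.toSubring : Subring C) :=
      { toFun := fun x => ⟨((x : F) : C), (hmem' _).2 x.2, (x : F).2⟩
        map_one' := rfl
        map_zero' := rfl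
        map_mul' := fun _ _ => rfl
        map_add' := fun _ _ => rfl }
    have hf : Function.Surjective f := by
      rintro ⟨x, hx1, hx2⟩
      exact ⟨⟨⟨x, hx2⟩, (hmem' ⟨x, hx2⟩).1 hx1⟩, rfl⟩
    exact isNoetherianRing_of_surjective _ _ f hf
  · simpa using hπ0
  · rw [← not_le]
    intro h
    have h0 : V.valuation (π : C) ≠ 0 := (Valuation.ne_zero_iff _).2 (by simpa using hπ0)
    have h1 : V.valuation ((π⁻¹ : F) : C) ≤ 1 := by
      rw [IntermediateField.coe_inv, map_inv₀]
      exact inv_le_one_of_one_le₀ h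
    have h2 := (hmem' π⁻¹).1 ((V.valuation_le_one_iff _).1 h1)
    rw [map_inv₀, hπ, ← exp_neg, neg_neg, ← exp_zero, exp_le_exp] at h2
    norm_num at h2
  · intro c hcF hc0
    let x : F := ⟨c, hcF⟩
    have hx0 : x ≠ 0 := by
      intro h
      exact hc0 (congrArg Subtype.val h)
    have hvx : v.valuation F x ≠ 0 := (Valuation.ne_zero_iff _).2 hx0
    obtain ⟨n, hn⟩ : ∃ n : ℤ, v.valuation F x = exp (-n) := by
      refine ⟨-log (v.valuation F x), ?_⟩
      rw [neg_neg, exp_log hvx]
    refine ⟨n, ?_⟩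
    have h1 : v.valuation F (x / π ^ n) = 1 := by
      rw [map_div₀, map_zpow₀, hπ, hn, ← exp_zsmul]
      have h2 : n • (-1 : ℤ) = -n := by simp
      rw [h2, div_self exp_ne_zero]
    have h2 := key _ h1
    rw [IntermediateField.coe_div, map_div₀] at h2
    have h3 : V.valuation ((π ^ n : F) : C) ≠ 0 :=
      (Valuation.ne_zero_iff _).2 (by simpa using zpow_ne_zero n hπ0)
    have h4 := (div_eq_one_iff_eq h3).1 h2
    change V.valuation (x : C) = _
    rw [h4]
    have h5 : ((π ^ n : F) : C) = (π : C) ^ n := map_zpow₀ (algebraMap F C) π n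
    rw [h5, map_zpow₀]

end Pool.Agent.Lib.MP_2f3286_ag.Gl
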