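import Mathlib

/-!
# Regular local rings of dimension two with a prime element   (module U1)

PROOF of `ufd_of_two`. `UniqueFactorizationMonoid.iff_exists_prime_mem_of_isPrime` (Kaplansky): every nonzero prime ideal `I` of `S`
contains a prime element. If `π ∈ I` take `π`. Otherwise `I` is principal: then a generator is a prime element (`I ≠ ⊥`,
`Ideal.span_singleton_prime`). `R = S ⧸ (π)` is a Noetherian local domain whose maximal ideal is generated by the image of `t`, so
every ideal of `R` is principal: for a nonzero ideal `J` of `R`, there is `n` with `J ≤ (t ^ n)`, not `J ≤ (t ^ (n + 1))` (Krull's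
intersection theorem `Ideal.iInf_pow_eq_bot_of_isLocalRing` or `IsDiscreteValuationRing`/`tfae` results:
`IsDiscreteValuationRing.TFAE`, `maximalIdeal_isPrincipal_of...`; if the image of `t` is zero `R` is a field), an element `t ^ n u` of `J`
with `u ∉ (t)` so a unit. So the image of `I` in `R` is generated by the image of some `g ∈ I`. Then `I = (g) + (π) ∩ I`, and
`(π) ∩ I = π I` (`π a ∈ I`, `I` prime, `π ∉ I` so `a ∈ I`). So `I ≤ (g) + (π) I`, Nakayama (`Submodule.le_of_le_smul_of_le_jacobson_bot`,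
`I` finitely generated, `π` in the maximal ideal): `I = (g)`.
PROOF of `ufd_pow`. Induction with `UniqueFactorizationMonoid.induction_on_prime` or on the number of prime factors (strong induction:
`WfDvdMonoid`, `DvdNotUnit`): if `f` is a unit, take `j = 0`, `g = 1`. Otherwise a prime `r` divides `f`. If `r` is associated to `π`,
`f = π f₁`; `f₁` satisfies the hypothesis (for a prime `r'` not associated to `π`: `r' ^ n ∣ π f₁ ↔ r' ^ n ∣ f₁`), and is smaller. If `r` is not
associated to `π`, let `r ^ n ∣ f`, `¬ r ^ (n + 1) ∣ f` (`n` exists: `FiniteMultiplicity`), `n ≥ 1`, `m ∣ n`, so `n ≥ m` and `f = r ^ m f₁`;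
`f₁` satisfies the hypothesis: for `r'` associated to `r` the exponent is `n - m`, for other `r'` it is unchanged
(`Prime.pow_dvd_of_dvd_mul_left` with `¬ r' ∣ r ^ m`).
-/

namespace Pool.Agent.Lib.MP_2f3286_ag.Gl

theorem ufd_of_two {S : Type*} [CommRing S] [IsDomain S] [IsNoetherianRing S] [IsLocalRing S]
    {π t : S} (hπ : Prime π) (hm : IsLocalRing.maximalIdeal S = Ideal.span {π, t}) :
    UniqueFactorizationMonoid S := by
  classical
  rw [UniqueFactorizationMonoid.iff_exists_prime_mem_of_isPrime]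
  intro I hI0 hI
  by_cases hπI : π ∈ I
  · exact ⟨π, hπI, hπ⟩
  have hπp : (Ideal.span {π} : Ideal S).IsPrime :=
    (Ideal.span_singleton_prime hπ.ne_zero).2 hπ
  have := hπp
  have hπm : π ∈ IsLocalRing.maximalIdeal S := by
    rw [hm]; exact Ideal.subset_span (by simp)
  have htm : t ∈ IsLocalRing.maximalIdeal S := by
    rw [hm]; exact Ideal.subset_span (by simp)
  set q : S →+* S ⧸ Ideal.span {π} := Ideal.Quotient.mk (Ideal.span {π}) with hq
  have hqs : Function.Surjective q := Ideal.Quotient.mk_surjective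
  have : IsLocalRing (S ⧸ Ideal.span {π}) := IsLocalRing.of_surjective' q hqs
  have hqt : q t ∈ IsLocalRing.maximalIdeal (S ⧸ Ideal.span {π}) := by
    rw [IsLocalRing.mem_maximalIdeal, mem_nonunits_iff]
    intro hu
    obtain ⟨v, hv⟩ := hu.exists_right_inv
    obtain ⟨s, rfl⟩ := hqs v
    rw [← map_mul, ← map_one q, Ideal.Quotient.eq, Ideal.mem_span_singleton] at hv
    obtain ⟨a, ha⟩ := hv
    have h1 : (1 : S) ∈ IsLocalRing.maximalIdeal S := by
      have : (1 : S) = t * s - π * a := by rw [← ha]; ring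
      rw [this]
      exact Ideal.sub_mem _ (Ideal.mul_mem_right _ _ htm) (Ideal.mul_mem_right _ _ hπm)
    exact (Ideal.ne_top_iff_one _).1 (IsLocalRing.maximalIdeal.isMaximal S).ne_top h1
  have hmR : IsLocalRing.maximalIdeal (S ⧸ Ideal.span {π}) = Ideal.span {q t} := by
    apply le_antisymm
    · intro x hx
      obtain ⟨s, rfl⟩ := hqs x
      have hs : s ∈ IsLocalRing.maximalIdeal S := by
        rw [IsLocalRing.mem_maximalIdeal, mem_nonunits_iff]
        intro hu
        rw [IsLocalRing.mem_maximalIdeal, mem_nonunits_iff] at hx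
        exact hx (hu.map q)
      rw [hm, Ideal.mem_span_pair] at hs
      obtain ⟨a, b, rfl⟩ := hs
      rw [Ideal.mem_span_singleton]
      refine ⟨q b, ?_⟩
      have : q π = 0 := by
        rw [hq, Ideal.Quotient.eq_zero_iff_mem]
        exact Ideal.mem_span_singleton_self π
      rw [map_add, map_mul, map_mul, this, mul_zero, zero_add, mul_comm]
    · rw [Ideal.span_singleton_le_iff_mem]
      exact hqt
  have : IsPrincipalIdealRing (S ⧸ Ideal.span {π}) := by
    have key := (tfae_of_isNoetherianRing_of_isLocalRing_of_isDomain (S ⧸ Ideal.span {π})).out 4 0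
    exact key.1 ⟨q t, hmR⟩
  obtain ⟨r, hr⟩ := (IsPrincipalIdealRing.principal (I.map q)).principal
  have hrI : r ∈ I.map q := by rw [hr]; exact Submodule.mem_span_singleton_self r
  rw [Ideal.mem_map_iff_of_surjective q hqs] at hrI
  obtain ⟨g, hgI, rfl⟩ := hrI
  have hle : I ≤ Ideal.span {g} ⊔ (IsLocalRing.maximalIdeal S) • I := by
    intro x hx
    have h1 : q x ∈ I.map q := Ideal.mem_map_of_mem q hx
    rw [hr] at h1
    obtain ⟨c, hc⟩ := Submodule.mem_span_singleton.1 h1
    obtain ⟨s, rfl⟩ := hqs c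
    rw [smul_eq_mul, ← map_mul] at hc
    have h2 : x - s * g ∈ Ideal.span {π} := by
      rw [← Ideal.Quotient.eq]; exact hc.symm
    rw [Ideal.mem_span_singleton] at h2
    obtain ⟨a, ha⟩ := h2
    have h3 : π * a ∈ I := by rw [← ha]; exact Ideal.sub_mem _ hx (Ideal.mul_mem_left _ _ hgI)
    have h4 : a ∈ I := (hI.mem_or_mem h3).resolve_left hπI
    have h5 : x = s * g + π * a := by rw [← ha]; ring
    rw [h5]
    refine Submodule.add_mem_sup ?_ ?_
    · exact Ideal.mul_mem_left _ _ (Ideal.mem_span_singleton_self g)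
    · exact Submodule.smul_mem_smul hπm h4
  have hI2 : I ≤ Ideal.span {g} := by
    refine Submodule.le_of_le_smul_of_le_jacobson_bot (IsNoetherian.noetherian I) ?_ hle
    exact IsLocalRing.maximalIdeal_le_jacobson ⊥
  have hIg : I = Ideal.span {g} :=
    le_antisymm hI2 ((Ideal.span_singleton_le_iff_mem _).2 hgI)
  have hg0 : g ≠ 0 := by
    rintro rfl
    apply hI0
    rw [hIg]; simp
  refine ⟨g, hgI, ?_⟩
  rw [← Ideal.span_singleton_prime hg0, ← hIg]
  exact hI

theorem ufd_pow {S : Type*} [CommRing S] [IsDomain S] [UniqueFactorizationMonoid S] {π : S}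
    (hπ : Prime π) {m : ℕ} (hm : 1 ≤ m) {f : S} (hf : f ≠ 0)
    (h : ∀ r : S, Prime r → ¬ Associated r π → ∀ n : ℕ, r ^ n ∣ f → ¬ r ^ (n + 1) ∣ f → m ∣ n) :
    ∃ (j : ℕ) (ε : Sˣ) (g : S), f = π ^ j * ε * g ^ m := by
  classical
  revert hf h
  refine WellFounded.induction (C := fun f : S => f ≠ 0 →
    (∀ r : S, Prime r → ¬ Associated r π → ∀ n : ℕ, r ^ n ∣ f → ¬ r ^ (n + 1) ∣ f → m ∣ n) →
    ∃ (j : ℕ) (ε : Sˣ) (g : S), f = π ^ j * ε * g ^ m) (wellFounded_dvdNotUnit (α := S)) f ?_
  intro f ih hf h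
  by_cases hu : IsUnit f
  · exact ⟨0, hu.unit, 1, by simp⟩
  obtain ⟨r, hr, hrf⟩ := WfDvdMonoid.exists_irreducible_factor hu hf
  have hr : Prime r := hr.prime
  by_cases ha : Associated r π
  · obtain ⟨f1, hf1⟩ := ha.dvd_iff_dvd_left.1 hrf
    have hf10 : f1 ≠ 0 := by rintro rfl; exact hf (by rw [hf1, mul_zero])
    obtain ⟨j, ε, g, hg⟩ := ih f1 ⟨hf10, π, hπ.not_isUnit, by rw [hf1, mul_comm]⟩ hf10 (by
      intro r' hr' hna n h1 h2
      refine h r' hr' hna n (hf1 ▸ Dvd.dvd.mul_left h1 π) ?_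
      intro h3
      rw [hf1] at h3
      refine h2 (hr'.pow_dvd_of_dvd_mul_left (n + 1) ?_ h3)
      intro h4
      exact hna ((hr'.dvd_prime_iff_associated hπ).1 h4))
    exact ⟨j + 1, ε, g, by rw [hf1, hg]; ring⟩
  · have hfin : FiniteMultiplicity r f := FiniteMultiplicity.of_prime_left hr hf
    obtain ⟨c, hc, hrc⟩ := hfin.exists_eq_pow_mul_and_not_dvd
    set n := multiplicity r f with hn
    have hn1 : ¬ r ^ (n + 1) ∣ f := by
      intro h3
      rw [hc, pow_succ] at h3
      exact hrc ((mul_dvd_mul_iff_left (pow_ne_zero n hr.ne_zero)).1 h3)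
    have hmn : m ∣ n := h r hr ha n ⟨c, hc⟩ hn1
    have hn0 : n ≠ 0 := by
      intro h0
      rw [h0, pow_zero, one_mul] at hc
      exact hrc (hc ▸ hrf)
    have hmle : m ≤ n := Nat.le_of_dvd (Nat.pos_of_ne_zero hn0) hmn
    obtain ⟨f1, hf1⟩ : ∃ f1, f = r ^ m * f1 := by
      refine ⟨r ^ (n - m) * c, ?_⟩
      rw [← mul_assoc, ← pow_add, Nat.add_sub_cancel' hmle]
      exact hc
    have hf10 : f1 ≠ 0 := by rintro rfl; exact hf (by rw [hf1, mul_zero])
    have hrm : ¬ IsUnit (r ^ m) := by
      rw [isUnit_pow_iff (by omega)]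
      exact hr.not_isUnit
    obtain ⟨j, ε, g, hg⟩ := ih f1 ⟨hf10, r ^ m, hrm, by rw [hf1, mul_comm]⟩ hf10 (by
      intro r' hr' hna k h1 h2
      by_cases har : Associated r' r
      · have h3 : m ∣ k + m := by
          refine h r' hr' hna (k + m) ?_ ?_
          · rw [hf1, add_comm, pow_add]
            exact mul_dvd_mul (har.pow_pow).dvd h1
          · intro h4
            rw [hf1, show k + m + 1 = m + (k + 1) by ring, pow_add] at h4
            apply h2
            have h5 : r ^ m * r' ^ (k + 1) ∣ r ^ m * f1 :=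
              (mul_dvd_mul (har.symm.pow_pow).dvd dvd_rfl).trans h4
            exact (mul_dvd_mul_iff_left (pow_ne_zero m hr.ne_zero)).1 h5
        exact (Nat.dvd_add_left (dvd_refl m)).1 h3
      · refine h r' hr' hna k (hf1 ▸ Dvd.dvd.mul_left h1 _) ?_
        intro h3
        rw [hf1] at h3
        refine h2 (hr'.pow_dvd_of_dvd_mul_left (k + 1) ?_ h3)
        intro h4
        exact har ((hr'.dvd_prime_iff_associated hr).1 (hr'.dvd_of_dvd_pow h4)))
    exact ⟨j, ε, r * g, by rw [hf1, hg]; ring⟩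

end Pool.Agent.Lib.MP_2f3286_ag.Gl
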