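import Pool.Agent.Lib.MP_2f3286_ag.Gl.SE
import Pool.Agent.Lib.MP_2f3286_ag.Gl.U1

/-!
# The local ring at a point of the special fibre   (module U5)

PROOF. `S = Localization.AtPrime 𝔮` is a Noetherian local domain (`A` is Noetherian as a finitely generated algebra over `O`:
`Algebra.FiniteType.isNoetherianRing O A` with `hA`). The image of `π` is prime in `S` (`π ∈ 𝔮`; the prime ideal `π A` is contained in
`𝔮`, so its extension is prime: `IsLocalization.AtPrime`/`IsLocalization.isPrime_of_isPrime_disjoint`; or by hand). The maximal ideal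
of `S` is generated by the image of `𝔮`; for `f ∈ 𝔮`, `loc_key` gives `s f = s c + t u`, `c : O`; `s c = s f - t u ∈ 𝔮`, `s ∉ 𝔮`, so
`c ∈ 𝔮`, `π ∣ c` (`hO`), so in `S`, where `s` is a unit, `f = c + s⁻¹ t u ∈ span {π, t}`. Conversely `π, t ∈ 𝔮`. So the maximal ideal is
`span {π, t}`; `ufd_of_two`.
-/

namespace Pool.Agent.Lib.MP_2f3286_ag.Gl

theorem ufd_loc {O A : Type*} [CommRing O] [IsNoetherianRing O] [CommRing A] [IsDomain A]
    [Algebra O A] {x y : A} (hA : Algebra.adjoin O {x, y} = ⊤) {π : O}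
    (hπ : Prime (algebraMap O A π)) (𝔮 : Ideal A) [𝔮.IsPrime] (hπ𝔮 : algebraMap O A π ∈ 𝔮)
    (hO : ∀ c : O, algebraMap O A c ∈ 𝔮 → π ∣ c) {s t : A} (hs : s ∉ 𝔮) (ht : t ∈ 𝔮) {a b : O}
    (hx : ∃ u, s * (x - algebraMap O A a) = t * u)
    (hy : ∃ u, s * (y - algebraMap O A b) = t * u) :
    IsDomain (Localization.AtPrime 𝔮) ∧ UniqueFactorizationMonoid (Localization.AtPrime 𝔮) ∧
      Prime (algebraMap A (Localization.AtPrime 𝔮) (algebraMap O A π)) := by
  classical
  have hft : Algebra.FiniteType O A := ⟨⟨{x, y}, by simpa using hA⟩⟩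
  have hAn : IsNoetherianRing A := Algebra.FiniteType.isNoetherianRing O A
  have hSn : IsNoetherianRing (Localization.AtPrime 𝔮) :=
    IsLocalization.isNoetherianRing 𝔮.primeCompl _ hAn
  have hle : 𝔮.primeCompl ≤ nonZeroDivisors A := 𝔮.primeCompl_le_nonZeroDivisors
  have hSd : IsDomain (Localization.AtPrime 𝔮) := IsLocalization.isDomain_localization hle
  have hP : Prime (algebraMap A (Localization.AtPrime 𝔮) (algebraMap O A π)) := by
    have hI : (Ideal.span {algebraMap O A π}).IsPrime :=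
      (Ideal.span_singleton_prime hπ.ne_zero).2 hπ
    have hd : Disjoint (𝔮.primeCompl : Set A) (Ideal.span {algebraMap O A π} : Ideal A) := by
      rw [Set.disjoint_left]
      intro z hz hz'
      exact hz ((Ideal.span_singleton_le_iff_mem 𝔮).2 hπ𝔮 hz')
    have h1 := IsLocalization.isPrime_of_isPrime_disjoint 𝔮.primeCompl
      (Localization.AtPrime 𝔮) _ hI hd
    rw [Ideal.map_span, Set.image_singleton] at h1
    refine (Ideal.span_singleton_prime ?_).1 h1
    intro h0
    exact hπ.ne_zero ((IsLocalization.injective _ hle) (by rw [h0, map_zero]))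
  refine ⟨hSd, ?_, hP⟩
  refine ufd_of_two hP (t := algebraMap A _ t) ?_
  rw [← Localization.AtPrime.map_eq_maximalIdeal]
  apply le_antisymm
  · rw [Ideal.map_le_iff_le_comap]
    intro f hf
    rw [Ideal.mem_comap, Ideal.mem_span_pair]
    obtain ⟨c, u, hcu⟩ := loc_key hA hx hy f
    have hc : algebraMap O A c ∈ 𝔮 := by
      have h2 : s * algebraMap O A c ∈ 𝔮 := by
        have h3 : s * algebraMap O A c = s * f - t * u := by rw [hcu]; ring
        rw [h3]
        exact 𝔮.sub_mem (𝔮.mul_mem_left _ hf) (𝔮.mul_mem_right _ ht)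
      exact ((inferInstance : 𝔮.IsPrime).mem_or_mem h2).resolve_left hs
    obtain ⟨d, hd⟩ := hO c hc
    have hsu : IsUnit (algebraMap A (Localization.AtPrime 𝔮) s) :=
      IsLocalization.map_units _ (⟨s, hs⟩ : 𝔮.primeCompl)
    obtain ⟨v, hv⟩ := hsu.exists_left_inv
    refine ⟨algebraMap _ _ (algebraMap O A d), v * algebraMap _ _ u, ?_⟩
    have h4 := congrArg (algebraMap A (Localization.AtPrime 𝔮)) hcu
    rw [map_mul, map_add, map_mul, map_mul, hd, map_mul, map_mul] at h4
    have h5 := congrArg (v * ·) h4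
    beta_reduce at h5
    rw [← mul_assoc, hv, one_mul] at h5
    rw [h5, mul_add, ← mul_assoc v, hv, one_mul]
    ring
  · rw [Ideal.span_le]
    intro z hz
    rcases hz with rfl | hz
    · exact Ideal.mem_map_of_mem _ hπ𝔮
    · rw [Set.mem_singleton_iff] at hz
      rw [hz]
      exact Ideal.mem_map_of_mem _ ht

end Pool.Agent.Lib.MP_2f3286_ag.Gl
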