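import Pool.Agent.Lib.MP_2f3286_ag.Gl.U3
import Pool.Agent.Lib.MP_2f3286_ag.Gl.U5
import Pool.Agent.Lib.MP_2f3286_ag.Pt.PropDefs

/-!
# Elements whose orders at the horizontal primes are divisible by `m`   (module U6)

PROOF. `S = Localization.AtPrime 𝔮`, a domain and a factorial ring in which `π` is prime (`ufd_loc`). `ψ : S →+* L` the extension of `φ`
(`IsLocalization.lift`: elements outside `𝔮` are `≠ 0`, so have nonzero images), injective. `ufd_pow` for the image of `f`: let `r : S` be prime,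
not associated to `π`, `r ^ n ∣ f`, `¬ r ^ (n + 1) ∣ f`. `exists_prime_place` for `ψ`, `r` (`hF`: `e = φ c / φ π ^ n`, and `r` does not divide
`π ^ n`: otherwise `r ∣ π`, both prime, so associated): a place `Q` over `C` with the properties of `val_prime`. `hgen`: `τ`, `a`, `b`.
`val_prime` with `hdiv Q`: `m ∣ n`. So `f = π ^ j * ε * g ^ m` in `S`. Write `ε = a₂ / a₀`, `g = g' / s'` with `a₀, s' ∉ 𝔮` and `a₂ ∉ 𝔮` as `ε` is a
unit (`IsLocalization.mk'_surjective`, `IsLocalization.AtPrime.isUnit_mk'_iff`); then `a₀ s' ^ m f = π ^ j a₂ g' ^ m` in `S` and so in `A` (`A → S` is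
injective as `A` is a domain).
-/

namespace Pool.Agent.Lib.MP_2f3286_ag.Gl

open Pool.Agent.Lib.MP_2f3286_ag.Pt (DivAt IsPlc)

theorem loc_pow {O A : Type*} [CommRing O] [IsNoetherianRing O] [CommRing A] [IsDomain A]
    [Algebra O A] {x y : A} (hA : Algebra.adjoin O {x, y} = ⊤) {π : O}
    (hπ : Prime (algebraMap O A π)) (𝔮 : Ideal A) [𝔮.IsPrime] (hπ𝔮 : algebraMap O A π ∈ 𝔮)
    (hO : ∀ c : O, algebraMap O A c ∈ 𝔮 → π ∣ c) {s t : A} (hs : s ∉ 𝔮) (ht : t ∈ 𝔮) {a b : O}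
    (hx : ∃ u, s * (x - algebraMap O A a) = t * u)
    (hy : ∃ u, s * (y - algebraMap O A b) = t * u)
    {L F₁ C : Type*} [Field L] [Field F₁] [Field C] [Algebra F₁ C] [Algebra.IsAlgebraic F₁ C]
    [Algebra C L] (φ : A →+* L) (hφ : Function.Injective φ)
    (hF : ∀ e : F₁, ∃ (c : O) (n : ℕ), algebraMap C L (algebraMap F₁ C e) *
      φ (algebraMap O A π) ^ n = φ (algebraMap O A c))
    (hgen : ∀ Q : ValuationSubring L, IsPlc C Q → (∀ a, φ a ∈ Q) → ∃ (τ : L) (a b : A), a ≠ 0 ∧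
      b ≠ 0 ∧ τ * φ b = φ a ∧ Q.valuation τ < 1 ∧
      ∀ z : L, z ≠ 0 → ∃ n : ℤ, Q.valuation z = Q.valuation τ ^ n) {m : ℕ} (hm : 1 ≤ m) {f : A}
    (hf : f ≠ 0) (hdiv : ∀ Q : ValuationSubring L, IsPlc C Q → (∀ a, φ a ∈ Q) →
      DivAt m (φ f) Q) :
    ∃ (j : ℕ) (a₁ a₂ g : A), a₁ ∉ 𝔮 ∧ a₂ ∉ 𝔮 ∧
      a₁ * f = algebraMap O A π ^ j * a₂ * g ^ m := by
  classical
  obtain ⟨hdom, hufd, hπS⟩ := ufd_loc hA hπ 𝔮 hπ𝔮 hO hs ht hx hy
  have hinj : Function.Injective (algebraMap A (Localization.AtPrime 𝔮)) :=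
    IsLocalization.injective (M := 𝔮.primeCompl) _ 𝔮.primeCompl_le_nonZeroDivisors
  have hunit : ∀ y : 𝔮.primeCompl, IsUnit (φ y) := by
    intro y
    refine isUnit_iff_ne_zero.2 fun h0 => ?_
    have h1 : (y : A) = 0 := hφ (by rw [h0, map_zero])
    exact y.2 (by rw [h1]; exact 𝔮.zero_mem)
  obtain ⟨ψ, hψe⟩ : ∃ ψ : Localization.AtPrime 𝔮 →+* L, ∀ a, ψ (algebraMap A (Localization.AtPrime 𝔮) a) = φ a :=
    ⟨IsLocalization.lift (M := 𝔮.primeCompl) hunit, fun a => IsLocalization.lift_eq _ _⟩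
  have hψ : Function.Injective ψ := by
    rw [injective_iff_map_eq_zero]
    intro z hz
    obtain ⟨a, s, rfl⟩ := IsLocalization.exists_mk'_eq 𝔮.primeCompl z
    have h1 := IsLocalization.mk'_spec (Localization.AtPrime 𝔮) a s
    have h2 := congrArg ψ h1
    rw [map_mul, hz, zero_mul, hψe] at h2
    have h3 : a = 0 := hφ (by rw [← h2, map_zero])
    rw [h3, IsLocalization.mk'_zero]
  have hf' : algebraMap A (Localization.AtPrime 𝔮) f ≠ 0 := fun h0 => hf (hinj (by rw [h0, map_zero]))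
  obtain ⟨j, ε, g, hfe⟩ := ufd_pow hπS hm hf' (by
    intro r hr hna n h1 h2
    have hF' : ∀ e : F₁, ∃ a b : Localization.AtPrime 𝔮, ¬ r ∣ b ∧ algebraMap C L (algebraMap F₁ C e) * ψ b = ψ a := by
      intro e
      obtain ⟨c, n, hc⟩ := hF e
      refine ⟨algebraMap A _ (algebraMap O A c), (algebraMap A _ (algebraMap O A π)) ^ n, ?_, ?_⟩
      · intro h3
        exact hna (hr.associated_of_dvd hπS (hr.dvd_of_dvd_pow h3))
      · rw [map_pow, hψe, hψe]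
        exact hc
    obtain ⟨Q, hQC, hQt, hQS, hQ1, hQ2⟩ := exists_prime_place ψ hψ hr hF'
    have hQφ : ∀ a, φ a ∈ Q := fun a => by
      rw [← hψe]
      exact hQS _
    obtain ⟨τ, a, b, ha, hb, hτ, hτ1, hg⟩ := hgen Q ⟨hQC, hQt⟩ hQφ
    refine val_prime ψ hψ hr Q hQ1 hQ2 (τ := τ) (a := algebraMap A _ a) (b := algebraMap A _ b) ?_ ?_ ?_ hτ1 hg hf' h1 h2 ?_
    · exact fun h0 => ha (hinj (by rw [h0, map_zero]))
    · exact fun h0 => hb (hinj (by rw [h0, map_zero]))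
    · rw [hψe, hψe]
      exact hτ
    · rw [hψe]
      exact hdiv Q ⟨hQC, hQt⟩ hQφ)
  obtain ⟨a₂, a₀, hε⟩ := IsLocalization.exists_mk'_eq 𝔮.primeCompl (ε : Localization.AtPrime 𝔮)
  obtain ⟨g', s', hg'⟩ := IsLocalization.exists_mk'_eq 𝔮.primeCompl g
  have e1 := IsLocalization.mk'_spec (Localization.AtPrime 𝔮) a₂ a₀
  have e2 := IsLocalization.mk'_spec (Localization.AtPrime 𝔮) g' s'
  rw [hε] at e1
  rw [hg'] at e2
  refine ⟨j, (a₀ : A) * (s' : A) ^ m, a₂, g', ?_, ?_, ?_⟩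
  · exact 𝔮.primeCompl.mul_mem a₀.2 (𝔮.primeCompl.pow_mem s'.2 m)
  · have h1 : IsUnit (IsLocalization.mk' (Localization.AtPrime 𝔮) a₂ a₀) := by
      rw [hε]
      exact ε.isUnit
    exact (IsLocalization.AtPrime.isUnit_mk'_iff (Localization.AtPrime 𝔮) 𝔮 a₂ a₀).1 h1
  · apply hinj
    simp only [map_mul, map_pow]
    rw [hfe, ← e1, ← e2]
    ring

end Pool.Agent.Lib.MP_2f3286_ag.Gl
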