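import Pool.Agent.Lib.MP_2f3286_ag.Gl.UA
import Pool.Agent.Lib.MP_2f3286_ag.Gl.U4
import Pool.Agent.Lib.MP_2f3286_ag.Gl.U6
import Pool.Agent.Lib.MP_2f3286_ag.Gl.SJ
import Pool.Agent.Lib.MP_2f3286_ag.Gl.GD

/-!
# Good reduction: orders of the residue of an element   (module U7)

If the orders of `f` at the places over `C` with `x` finite are divisible by `m`, then so are the orders of its residue `g` at the
places over `κ` with `xb` finite.
PROOF. (1) `IsSup p xb yb hb` (`supb`); `exists_center` and `fin_place` for the place `Qb`: a `z : κ` with `v̄ (xb - z) < 1` and either (1a)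
`hb(z) ≠ 0`, `w ^ p = hb(z)`, `v̄ (yb - w) < 1`, or (1b) `hb(z) = 0`, `v̄ yb < 1`. (2) Lifts. (1a): `a` with `V.Has a z` (`D.surjV`), `h(a)` has
the residue `hb(z) = w ^ p` (`PHas.eval`), `root_lift`: `b ^ p = h(a)`, `V.Has b w`. (1b): `a` with `h(a) = 0`, `V.Has a z` (`roots_red`),
`h = (X - C a) * h₁`, `b = 0`; `h₁` has integral coefficients (division by a monic polynomial), its reduction `hb₁` has `hb = (X - z) hb₁`, so
`hb₁(z) ≠ 0` (`hb` separable). (3) `f * b'(x) = ev a'` (`IsSup.repr`). `T` = the finite set of `a`, `b` and all coefficients of `h`, `h₁`, `b'`,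
`a' i` (`i < p`). `exists_dvr` for `V.A` (`V (l) < 1` as `V.Has l 0`): `F`, `π`; `O = V.A ∩ F`, `O` is Noetherian, contains `π`, `a`, `b` and the coefficients
of `h`, `h₁`; `c ∈ O` with `V.Has c 0` gives `c / π ∈ O` (`c = 0` or `V c = V π ^ n`, `n ≥ 1`).
(4) `A = Algebra.adjoin O {x, y}` (a subalgebra of `L`), `φ` the inclusion. Each `u ∈ A` has a residue `ρ(u)` in `Algebra.adjoin κ {xb, yb} ⊆ Qb`
(`adjoin_has`; `yb ∈ Qb` as `yb ^ p = hb(xb) ∈ Qb`). `𝔮 = {u ∈ A | v̄ (ρ u) < 1}` is a prime ideal. `π A = {u ∈ A | ρ u = 0}`: `adjoin_ker`; so `π` is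
prime in `A` (`k` is a field, `ρ` a ring homomorphism). `hO`: for `c ∈ O`, `ρ c` is a constant, `v̄ (ρ c) < 1` implies `ρ c = 0`, `c / π ∈ O`.
(5) `s`, `t`: (1a) `t = x - a`, `s = ∑ i < p, y ^ i b ^ (p - 1 - i)`, with `v̄ (ρ s - p w ^ (p - 1)) < 1`, so `v̄ (ρ s) = 1`; `loc_unit`. (1b) `t = y`,
`s = h₁(x)`, `v̄ (ρ s - hb₁(z)) < 1`; `loc_root`. (6) `loc_pow` with `F₁ = F` (`C` is algebraic over it; `F` is perfect, characteristic zero): `hF`: for `e ∈ F`,
`e π ^ n ∈ O` for large `n` (`V e = V π ^ i`). `hgen`: `IsSup.gen_low` with `F₁ = F`: `τ ∈ adjoin F {x, y}` is a quotient of two elements of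
`Algebra.adjoin F {x, y}` (`IntermediateField.mem_adjoin_iff_div` or similar), and every element of the latter times a power of `π` is in `A`.
(7) Multiply `b'` and `a'` by a power of `π`: coefficients in `O`, `v = b'(x) ∈ A`, `v ≠ 0`, `u = ev a' ∈ A` (`ev_adjoin`), `f v = u`. `f' = u v ^ (m - 1) =
f v ^ m ∈ A` satisfies `DivAt m` at all places with `x` finite. `loc_pow`: `a₁ f' = π ^ j a₂ g' ^ m`. With `c ^ m = π ^ j` in `C`:
`f a₁ / a₂ = (c g' / v) ^ m`. The residues of `a₁`, `a₂` are `≠ 0` with `v̄ = 1`. So `c g' / v` has valuation one at `W`, a residue `γ ≠ 0`, and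
`g ρ(a₁) / ρ(a₂) = γ ^ m`, `v̄ (g / γ ^ m) = 1`.
-/

open Polynomial IntermediateField

namespace Pool.Agent.Lib.MP_2f3286_ag.Gl

open Pool.Agent.Lib.MP_2f3286_ag.Fer (Plc)
open Pool.Agent.Lib.MP_2f3286_ag.Pt (IsPlc DivAt)

private theorem u7_pow {C : Type*} [Field C] [CharZero C] (V : ValuationSubring C)
    (F : IntermediateField ℚ C) {π : C} (hπF : π ∈ F) (hπ0 : π ≠ 0) (hπ1 : V.valuation π < 1)
    (hval : ∀ c ∈ F, c ≠ 0 → ∃ n : ℤ, V.valuation c = V.valuation π ^ n) {e : C} (he : e ∈ F) :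
    ∃ n : ℕ, ∀ N, n ≤ N → e * π ^ N ∈ (V.toSubring ⊓ F.toSubalgebra.toSubring : Subring C) := by
  by_cases h0 : e = 0
  · refine ⟨0, fun N _ => ?_⟩
    rw [h0, zero_mul]
    exact zero_mem _
  · obtain ⟨i, hi⟩ := hval e he h0
    refine ⟨(-i).toNat, fun N hN => ?_⟩
    have hvπ : V.valuation π ≠ 0 := (Valuation.ne_zero_iff _).2 hπ0
    obtain ⟨M, hM⟩ : ∃ M : ℕ, i + N = M := Int.eq_ofNat_of_zero_le (by omega)
    refine Subring.mem_inf.2 ⟨?_, ?_⟩
    · show e * π ^ N ∈ V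
      rw [← V.valuation_le_one_iff, map_mul, map_pow, hi, ← zpow_natCast, ← zpow_add₀ hvπ, hM,
        zpow_natCast]
      exact pow_le_one' hπ1.le M
    · show e * π ^ N ∈ F
      exact mul_mem he (pow_mem hπF N)

private theorem u7_div {C : Type*} [Field C] [CharZero C] (V : ValuationSubring C)
    (F : IntermediateField ℚ C) {π : C} (hπF : π ∈ F) (hπ0 : π ≠ 0) (hπ1 : V.valuation π < 1)
    (hval : ∀ c ∈ F, c ≠ 0 → ∃ n : ℤ, V.valuation c = V.valuation π ^ n) {c : C}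
    (hc : c ∈ (V.toSubring ⊓ F.toSubalgebra.toSubring : Subring C)) (hc1 : V.valuation c < 1) :
    c / π ∈ (V.toSubring ⊓ F.toSubalgebra.toSubring : Subring C) := by
  have hcF : c ∈ F := (Subring.mem_inf.1 hc).2
  by_cases h0 : c = 0
  · rw [h0, zero_div]
    exact zero_mem _
  · obtain ⟨i, hi⟩ := hval c hcF h0
    have hvπ : V.valuation π ≠ 0 := (Valuation.ne_zero_iff _).2 hπ0
    have hi1 : 1 ≤ i := by
      by_contra hcon
      push Not at hcon
      obtain ⟨M, hM⟩ : ∃ M : ℕ, -i = M := Int.eq_ofNat_of_zero_le (by omega)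
      have h1 : V.valuation c * V.valuation π ^ M = 1 := by
        rw [hi, ← zpow_natCast, ← hM, ← zpow_add₀ hvπ, add_neg_cancel, zpow_zero]
      have h2 : V.valuation c * V.valuation π ^ M < 1 :=
        mul_lt_one_of_lt_of_le hc1 (pow_le_one' hπ1.le M)
      exact absurd h1 h2.ne
    obtain ⟨M, hM⟩ : ∃ M : ℕ, i - 1 = M := Int.eq_ofNat_of_zero_le (by omega)
    refine Subring.mem_inf.2 ⟨?_, ?_⟩
    · show c / π ∈ V
      have h1 : V.valuation (c / π) = V.valuation π ^ M := by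
        rw [map_div₀, hi, ← zpow_natCast, ← hM, zpow_sub_one₀ hvπ, div_eq_mul_inv]
      rw [← V.valuation_le_one_iff, h1]
      exact pow_le_one' hπ1.le M
    · show c / π ∈ F
      exact div_mem hcF hπF

private theorem u7_adj {C L F₁ : Type*} [Field C] [Field L] [Algebra C L] [Field F₁]
    [Algebra F₁ C] [Algebra F₁ L] [IsScalarTower F₁ C L] (O : Subring C) {π : C} (hπO : π ∈ O)
    (hpow : ∀ e : F₁, ∃ n : ℕ, ∀ N, n ≤ N → algebraMap F₁ C e * π ^ N ∈ O) {x y r : L}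
    (hr : r ∈ Algebra.adjoin F₁ {x, y}) :
    ∃ n : ℕ, r * algebraMap C L π ^ n ∈ Algebra.adjoin O {x, y} := by
  have hπ : algebraMap C L π ∈ Algebra.adjoin O ({x, y} : Set L) :=
    (Algebra.adjoin O ({x, y} : Set L)).algebraMap_mem ⟨π, hπO⟩
  refine Algebra.adjoin_induction (p := fun r _ => ∃ n : ℕ, r * algebraMap C L π ^ n ∈
    Algebra.adjoin O ({x, y} : Set L)) ?_ ?_ ?_ ?_ hr
  · intro u hu
    refine ⟨0, ?_⟩
    rw [pow_zero, mul_one]
    exact Algebra.subset_adjoin hu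
  · intro e
    obtain ⟨n, hn⟩ := hpow e
    refine ⟨n, ?_⟩
    have h1 : algebraMap F₁ L e * algebraMap C L π ^ n =
        algebraMap C L (algebraMap F₁ C e * π ^ n) := by
      rw [map_mul, map_pow, ← IsScalarTower.algebraMap_apply F₁ C L]
    rw [h1]
    exact (Algebra.adjoin O ({x, y} : Set L)).algebraMap_mem ⟨_, hn n le_rfl⟩
  · rintro u v _ _ ⟨n₁, h₁⟩ ⟨n₂, h₂⟩
    refine ⟨n₁ + n₂, ?_⟩
    have h3 : (u + v) * algebraMap C L π ^ (n₁ + n₂) =
        (u * algebraMap C L π ^ n₁) * algebraMap C L π ^ n₂ +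
          (v * algebraMap C L π ^ n₂) * algebraMap C L π ^ n₁ := by ring
    rw [h3]
    exact add_mem (mul_mem h₁ (pow_mem hπ _)) (mul_mem h₂ (pow_mem hπ _))
  · rintro u v _ _ ⟨n₁, h₁⟩ ⟨n₂, h₂⟩
    refine ⟨n₁ + n₂, ?_⟩
    have h3 : (u * v) * algebraMap C L π ^ (n₁ + n₂) =
        (u * algebraMap C L π ^ n₁) * (v * algebraMap C L π ^ n₂) := by ring
    rw [h3]
    exact mul_mem h₁ h₂

private theorem u7_gen {p : ℕ} (hp : p.Prime) {C L : Type*} [Field C] [IsAlgClosed C] [CharZero C]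
    [Field L] [Algebra C L] {x y : L} {h : C[X]} (H : IsSup p x y h) (O : Subring C) {π : C}
    (hπO : π ∈ O) (hπ0 : π ≠ 0) {F₁ : Type*} [Field F₁] [PerfectField F₁] [Algebra F₁ C]
    [Algebra.IsAlgebraic F₁ C] [Algebra F₁ L] [IsScalarTower F₁ C L]
    (hpow : ∀ e : F₁, ∃ n : ℕ, ∀ N, n ≤ N → algebraMap F₁ C e * π ^ N ∈ O)
    (Q : ValuationSubring L) (hQ : IsPlc C Q) (hx : x ∈ Q) :
    ∃ (τ : L) (a b : Algebra.adjoin O ({x, y} : Set L)), a ≠ 0 ∧ b ≠ 0 ∧ τ * b = a ∧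
      Q.valuation τ < 1 ∧ ∀ z : L, z ≠ 0 → ∃ n : ℤ, Q.valuation z = Q.valuation τ ^ n := by
  obtain ⟨τ, hτ, hτ1, hgen⟩ := H.gen_low hp (Nat.cast_ne_zero.2 hp.ne_zero) (F₁ := F₁) hQ hx
  have hτ0 : τ ≠ 0 := by
    rintro rfl
    refine hQ.2 (eq_top_iff.2 fun z _ => ?_)
    by_cases hz : z = 0
    · rw [hz]
      exact zero_mem _
    · obtain ⟨n, hn⟩ := hgen z hz
      rw [map_zero] at hn
      rw [← Q.valuation_le_one_iff, hn]
      by_cases h0 : n = 0
      · rw [h0, zpow_zero]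
      · rw [zero_zpow n h0]
        exact zero_le_one
  obtain ⟨r, hr, s, hs, hrs⟩ := IntermediateField.mem_adjoin_iff_div.1 hτ
  have hs0 : s ≠ 0 := by
    rintro rfl
    rw [div_zero] at hrs
    exact hτ0 hrs
  obtain ⟨n₁, h₁⟩ := u7_adj O hπO hpow hr
  obtain ⟨n₂, h₂⟩ := u7_adj O hπO hpow hs
  have hπL : algebraMap C L π ≠ 0 := (_root_.map_ne_zero _).2 hπ0
  have hπ : algebraMap C L π ∈ Algebra.adjoin O ({x, y} : Set L) :=
    (Algebra.adjoin O ({x, y} : Set L)).algebraMap_mem ⟨π, hπO⟩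
  have hb0 : s * algebraMap C L π ^ n₂ * algebraMap C L π ^ n₁ ≠ 0 :=
    mul_ne_zero (mul_ne_zero hs0 (pow_ne_zero _ hπL)) (pow_ne_zero _ hπL)
  have hab : τ * (s * algebraMap C L π ^ n₂ * algebraMap C L π ^ n₁) =
      r * algebraMap C L π ^ n₁ * algebraMap C L π ^ n₂ := by
    rw [hrs]
    field_simp
  refine ⟨τ, ⟨_, mul_mem h₁ (pow_mem hπ n₂)⟩, ⟨_, mul_mem h₂ (pow_mem hπ n₁)⟩, ?_, ?_, hab, hτ1,
    hgen⟩
  · intro h0
    have h1 := congrArg Subtype.val h0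
    have h2 : τ * (s * algebraMap C L π ^ n₂ * algebraMap C L π ^ n₁) = 0 := by
      rw [hab]
      exact h1
    exact (mul_ne_zero hτ0 hb0) h2
  · intro h0
    exact hb0 (congrArg Subtype.val h0)

private theorem u7_core {p : ℕ} (hp : p.Prime) {C L κ k : Type*} [Field C] [IsAlgClosed C]
    [CharZero C] [Field L] [Algebra C L] [Field κ] [Field k]
    [Algebra κ k] {D : Red C L κ k} {x y : L} {h : C[X]} {xb yb : k} {hb : κ[X]}
    (hpκ : (p : κ) ≠ 0) (G : GRed p D x y h xb yb hb)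
    (Qb : ValuationSubring k) (hQb : IsPlc κ Qb) (hxb : xb ∈ Qb)
    {O : Subring C} [IsNoetherianRing O] (hOV : ∀ c ∈ O, c ∈ D.V.A) (hO : ∀ i, h.coeff i ∈ O)
    {π : C} (hπO : π ∈ O) (hπ0 : π ≠ 0) (hπr : D.V.Has π 0)
    (hdπ : ∀ c ∈ O, D.V.Has c 0 → c / π ∈ O)
    {F₁ : Type*} [Field F₁] [PerfectField F₁] [Algebra F₁ C]
    [Algebra.IsAlgebraic F₁ C] [Algebra F₁ L] [IsScalarTower F₁ C L]
    (hpow : ∀ e : F₁, ∃ n : ℕ, ∀ N, n ≤ N → algebraMap F₁ C e * π ^ N ∈ O)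
    {a b : C} {z w : κ} (haO : a ∈ O) (hbO : b ∈ O) (ha : D.V.Has a z) (hbw : D.V.Has b w)
    (hxz : Qb.valuation (xb - algebraMap κ k z) < 1)
    (hyw : Qb.valuation (yb - algebraMap κ k w) < 1)
    (hcase : (b ^ p = h.eval a ∧ w ≠ 0) ∨ (h.eval a = 0 ∧ b = 0))
    {m : ℕ} (hm : 1 ≤ m) {f : L} {g : k} (hg : g ≠ 0) (hf : D.W.Has f g)
    (hdiv : ∀ Q : ValuationSubring L, IsPlc C Q → x ∈ Q → DivAt m f Q)
    {a₀ : ℕ → C[X]} {b₀ : C[X]} (ha₀ : ∀ i < p, ∀ j, (a₀ i).coeff j ∈ O)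
    (hb₀ : ∀ j, b₀.coeff j ∈ O) (hb₀0 : b₀ ≠ 0) (hab : f * aeval x b₀ = ev p x y a₀) :
    DivAt m g Qb := by
  have hxA : x ∈ Algebra.adjoin O ({x, y} : Set L) := Algebra.subset_adjoin (Set.mem_insert x {y})
  have hyA : y ∈ Algebra.adjoin O ({x, y} : Set L) :=
    Algebra.subset_adjoin (Set.mem_insert_of_mem x rfl)
  have hA : Algebra.adjoin O ({⟨x, hxA⟩, ⟨y, hyA⟩} : Set (Algebra.adjoin O ({x, y} : Set L))) = ⊤ := by
    rw [← Algebra.adjoin_adjoin_coe_preimage (R := O) (s := ({x, y} : Set L))]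
    congr 1
    ext u
    simp only [Set.mem_insert_iff, Set.mem_singleton_iff, Set.mem_preimage, Subtype.ext_iff]
  -- the residue homomorphism
  have hmemW : ∀ u : Algebra.adjoin O ({x, y} : Set L), (u : L) ∈ D.W.A := by
    intro u
    obtain ⟨z, _, hz⟩ := G.adjoin_has hOV u.2
    exact hz.1
  obtain ⟨ρ, hρ⟩ : ∃ ρ : Algebra.adjoin O ({x, y} : Set L) →+* k,
      ∀ u : Algebra.adjoin O ({x, y} : Set L), D.W.Has (u : L) (ρ u) :=
    ⟨D.W.φ.comp ((algebraMap (Algebra.adjoin O ({x, y} : Set L)) L).codRestrict D.W.A hmemW),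
      fun u => ⟨hmemW u, rfl⟩⟩
  have hwQ : algebraMap κ k w ∈ Qb := hQb.1 w
  have hyb : yb ∈ Qb := by
    have h1 : yb - algebraMap κ k w ∈ Qb := (Qb.valuation_le_one_iff _).1 hyw.le
    have h2 := add_mem h1 hwQ
    rwa [sub_add_cancel] at h2
  have hadj : ∀ v ∈ Algebra.adjoin κ ({xb, yb} : Set k), v ∈ Qb := by
    intro v hv
    refine Algebra.adjoin_induction (p := fun v _ => v ∈ Qb) ?_ ?_ ?_ ?_ hv
    · rintro u (rfl | rfl)
      · exact hxb
      · exact hyb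
    · exact hQb.1
    · intro u v _ _ h1 h2
      exact add_mem h1 h2
    · intro u v _ _ h1 h2
      exact mul_mem h1 h2
  have hρQ : ∀ u, ρ u ∈ Qb := by
    intro u
    obtain ⟨z', hz', hz''⟩ := G.adjoin_has hOV u.2
    rw [(hρ u).unique hz'']
    exact hadj z' hz'
  obtain ⟨σ, hσ⟩ : ∃ σ : Algebra.adjoin O ({x, y} : Set L) →+* IsLocalRing.ResidueField Qb,
      ∀ u, σ u = IsLocalRing.residue Qb ⟨ρ u, hρQ u⟩ :=
    ⟨(IsLocalRing.residue Qb).comp (ρ.codRestrict Qb hρQ), fun u => rfl⟩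
  obtain ⟨rκ, hrκ⟩ : ∃ rκ : κ →+* IsLocalRing.ResidueField Qb,
      ∀ c, rκ c = IsLocalRing.residue Qb ⟨algebraMap κ k c, hQb.1 c⟩ :=
    ⟨(IsLocalRing.residue Qb).comp ((algebraMap κ k).codRestrict Qb hQb.1), fun u => rfl⟩
  obtain ⟨redO, hred⟩ : ∃ redO : O →+* κ, ∀ c : O, D.V.Has (c : C) (redO c) :=
    ⟨D.V.φ.comp ((O.subtype).codRestrict D.V.A fun c => hOV c c.2), fun c => ⟨hOV c c.2, rfl⟩⟩
  have hσO : ∀ c : O, σ (algebraMap O _ c) = rκ (redO c) := by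
    intro c
    rw [hσ, hrκ]
    congr 1
    apply Subtype.ext
    exact (hρ (algebraMap O _ c)).unique (D.base _ _ (hred c))
  have hσ1 : ∀ u c, Qb.valuation (ρ u - algebraMap κ k c) < 1 → σ u = rκ c := by
    intro u c hu
    rw [hσ, hrκ, ← sub_eq_zero, ← map_sub, IsLocalRing.residue_eq_zero_iff,
      ValuationSubring.valuation_lt_one_iff]
    exact hu
  have hρx : ρ ⟨x, hxA⟩ = xb := (hρ _).unique G.hx
  have hρy : ρ ⟨y, hyA⟩ = yb := (hρ _).unique G.hy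
  have hσx : σ ⟨x, hxA⟩ = rκ z := hσ1 _ _ (by rw [hρx]; exact hxz)
  have hσy : σ ⟨y, hyA⟩ = rκ w := hσ1 _ _ (by rw [hρy]; exact hyw)
  have hval1 : ∀ u, σ u ≠ 0 → Qb.valuation (ρ u) = 1 := by
    intro u hu
    rw [hσ, Ne, IsLocalRing.residue_eq_zero_iff, ValuationSubring.valuation_lt_one_iff] at hu
    exact le_antisymm ((Qb.valuation_le_one_iff _).2 (hρQ u)) (not_lt.1 hu)
  have hprime : (RingHom.ker σ).IsPrime := RingHom.ker_isPrime σ
  -- the element `π`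
  have hπA : ∀ u : Algebra.adjoin O ({x, y} : Set L), ρ u = 0 ↔
      algebraMap O (Algebra.adjoin O ({x, y} : Set L)) ⟨π, hπO⟩ ∣ u := by
    intro u
    constructor
    · intro hu
      have h1 : D.W.Has (u : L) 0 := by
        rw [← hu]
        exact hρ u
      have h2 := G.adjoin_ker hp hOV hO hπ0 hdπ u.2 h1
      refine ⟨⟨_, h2⟩, Subtype.ext ?_⟩
      show (u : L) = algebraMap C L π * ((u : L) / algebraMap C L π)
      rw [mul_div_cancel₀ _ ((_root_.map_ne_zero (algebraMap C L)).2 hπ0)]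
    · rintro ⟨v, rfl⟩
      have h1 : ρ (algebraMap O (Algebra.adjoin O ({x, y} : Set L)) ⟨π, hπO⟩) = 0 := by
        have h2 := (hρ (algebraMap O _ ⟨π, hπO⟩)).unique (D.base _ _ hπr)
        rw [h2, map_zero]
      rw [map_mul, h1, zero_mul]
  have hπne : algebraMap O (Algebra.adjoin O ({x, y} : Set L)) ⟨π, hπO⟩ ≠ 0 := by
    intro h0
    have h1 : algebraMap C L π = 0 := congrArg Subtype.val h0
    exact hπ0 ((_root_.map_eq_zero _).1 h1)
  have hπP : Prime (algebraMap O (Algebra.adjoin O ({x, y} : Set L)) ⟨π, hπO⟩) := by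
    rw [← Ideal.span_singleton_prime hπne]
    have h1 : Ideal.span {algebraMap O (Algebra.adjoin O ({x, y} : Set L)) ⟨π, hπO⟩} =
        RingHom.ker ρ := by
      ext u
      rw [Ideal.mem_span_singleton, RingHom.mem_ker]
      exact (hπA u).symm
    rw [h1]
    exact RingHom.ker_isPrime ρ
  have hredπ : redO ⟨π, hπO⟩ = 0 := (hred ⟨π, hπO⟩).unique hπr
  have hπ𝔮 : algebraMap O (Algebra.adjoin O ({x, y} : Set L)) ⟨π, hπO⟩ ∈ RingHom.ker σ := by
    rw [RingHom.mem_ker, hσO, hredπ, map_zero]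
  have hO' : ∀ c : O, algebraMap O (Algebra.adjoin O ({x, y} : Set L)) c ∈ RingHom.ker σ →
      (⟨π, hπO⟩ : O) ∣ c := by
    intro c hc
    rw [RingHom.mem_ker, hσO, _root_.map_eq_zero] at hc
    have h1 := hred c
    rw [hc] at h1
    refine ⟨⟨_, hdπ c c.2 h1⟩, Subtype.ext ?_⟩
    show (c : C) = π * ((c : C) / π)
    rw [mul_div_cancel₀ _ hπ0]
  -- the polynomial over `O`
  have hco : (↑h.coeffs : Set C) ⊆ O := by
    intro c hc
    rw [Finset.mem_coe, Polynomial.mem_coeffs_iff] at hc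
    obtain ⟨n, _, rfl⟩ := hc
    exact hO n
  obtain ⟨hOp, hmap⟩ : ∃ hOp : O[X], hOp.map O.subtype = h := ⟨h.toSubring O hco, map_toSubring _ _ _⟩
  have hyx : (⟨y, hyA⟩ : Algebra.adjoin O ({x, y} : Set L)) ^ p = aeval ⟨x, hxA⟩ hOp := by
    apply Subtype.ext
    have h1 : ((aeval (⟨x, hxA⟩ : Algebra.adjoin O ({x, y} : Set L)) hOp :
        Algebra.adjoin O ({x, y} : Set L)) : L) = aeval x hOp :=
      (aeval_algHom_apply (Algebra.adjoin O ({x, y} : Set L)).val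
        (⟨x, hxA⟩ : Algebra.adjoin O ({x, y} : Set L)) hOp).symm
    rw [h1]
    show y ^ p = _
    rw [G.sup.eq, ← hmap, aeval_def, aeval_def, eval₂_map]
    rfl
  have heval : ∀ c : O, ((hOp.eval c : O) : C) = h.eval (c : C) := by
    intro c
    rw [← hmap]
    exact (eval_map_apply O.subtype c).symm
  have hmapr : hOp.map redO = hb := by
    ext i
    rw [coeff_map]
    have h1 := hred (hOp.coeff i)
    have h2 := G.hh i
    rw [← hmap, coeff_map] at h2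
    exact h1.unique h2
  -- the elements `s` and `t`
  obtain ⟨s, t, hs, ht, hsx, hsy⟩ : ∃ s t : Algebra.adjoin O ({x, y} : Set L),
      s ∉ RingHom.ker σ ∧ t ∈ RingHom.ker σ ∧
      (∃ u, s * (⟨x, hxA⟩ - algebraMap O _ ⟨a, haO⟩) = t * u) ∧
      (∃ u, s * (⟨y, hyA⟩ - algebraMap O _ ⟨b, hbO⟩) = t * u) := by
    have hra : redO ⟨a, haO⟩ = z := (hred ⟨a, haO⟩).unique ha
    have hrb : redO ⟨b, hbO⟩ = w := (hred ⟨b, hbO⟩).unique hbw
    rcases hcase with ⟨h1, h2⟩ | ⟨h1, h2⟩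
    · refine ⟨∑ i ∈ Finset.range p, ⟨y, hyA⟩ ^ i * algebraMap O _ ⟨b, hbO⟩ ^ (p - 1 - i),
        ⟨x, hxA⟩ - algebraMap O _ ⟨a, haO⟩, ?_, ?_, ⟨_, mul_comm _ _⟩, ?_⟩
      · rw [RingHom.mem_ker, map_sum]
        have h3 : ∀ i ∈ Finset.range p, σ (⟨y, hyA⟩ ^ i *
            algebraMap O _ ⟨b, hbO⟩ ^ (p - 1 - i)) = rκ w ^ (p - 1) := by
          intro i hi
          have hi' := Finset.mem_range.1 hi
          rw [map_mul, map_pow, map_pow, hσO, hσy, hrb, ← pow_add]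
          congr 1
          omega
        rw [Finset.sum_congr rfl h3, Finset.sum_const, Finset.card_range, nsmul_eq_mul,
          ← map_natCast rκ, ← map_pow, ← map_mul, _root_.map_eq_zero]
        exact mul_ne_zero hpκ (pow_ne_zero _ h2)
      · rw [RingHom.mem_ker, map_sub, hσO, hσx, hra, sub_self]
      · refine loc_unit hyx ?_
        apply Subtype.ext
        rw [heval]
        exact h1
    · have h3 : hOp.eval ⟨a, haO⟩ = 0 := by
        apply Subtype.ext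
        rw [heval]
        exact h1
      obtain ⟨h₁, hh₁⟩ := (dvd_iff_isRoot (a := (⟨a, haO⟩ : O))).2 h3
      refine ⟨aeval ⟨x, hxA⟩ h₁, ⟨y, hyA⟩, ?_, ?_, loc_root hp.ne_zero hyx hh₁, ?_⟩
      · rw [RingHom.mem_ker]
        have h4 : σ (aeval ⟨x, hxA⟩ h₁) = rκ ((h₁.map redO).eval z) := by
          rw [aeval_def, hom_eval₂, hσx, eval_map, hom_eval₂]
          congr 1
          ext c
          exact hσO c
        rw [h4, _root_.map_eq_zero]
        intro h5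
        have h6 : hb = (X - Polynomial.C z) * h₁.map redO := by
          rw [← hmapr, hh₁, Polynomial.map_mul, Polynomial.map_sub, map_X, map_C, hra]
        have h7 : hb.eval z = 0 := by
          rw [h6, eval_mul, eval_sub, eval_X, eval_C, sub_self, zero_mul]
        have h8 : (derivative hb).eval z = 0 := by
          rw [h6, derivative_mul, derivative_sub, derivative_X, derivative_C, eval_add, eval_mul,
            eval_mul, h5, mul_zero, zero_add, eval_sub, eval_X, eval_C, sub_self, zero_mul]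
        exact G.sepb.eval₂_derivative_ne_zero (RingHom.id κ) h7 h8
      · rw [RingHom.mem_ker, hσy, ← hrb]
        have h4 : (⟨b, hbO⟩ : O) = 0 := Subtype.ext h2
        rw [h4, map_zero, map_zero]
      · refine ⟨aeval ⟨x, hxA⟩ h₁, ?_⟩
        have h4 : (⟨b, hbO⟩ : O) = 0 := Subtype.ext h2
        rw [h4, map_zero, sub_zero, mul_comm]
  -- the element `f'`
  have hu : ev p x y a₀ ∈ Algebra.adjoin O ({x, y} : Set L) := ev_adjoin ha₀
  have hv : aeval x b₀ ∈ Algebra.adjoin O ({x, y} : Set L) := by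
    have h1 : ev p x y (fun i => if i = 0 then b₀ else 0) ∈ Algebra.adjoin O ({x, y} : Set L) := by
      refine ev_adjoin fun i _ j => ?_
      by_cases hi : i = 0
      · rw [if_pos hi]
        exact hb₀ j
      · rw [if_neg hi, coeff_zero]
        exact zero_mem _
    have h2 : ev p x y (fun i => if i = 0 then b₀ else 0) = aeval x b₀ := by
      unfold ev
      rw [Finset.sum_eq_single_of_mem 0 (Finset.mem_range.2 hp.pos)]
      · simp only [if_true, pow_zero, mul_one]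
      · intro i _ hi
        simp only [if_neg hi, map_zero, zero_mul]
    rw [← h2]
    exact h1
  have hv0 : aeval x b₀ ≠ 0 := fun h0 => hb₀0 ((transcendental_iff.mp G.sup.tr) b₀ h0)
  have hf0 : f ≠ 0 := hf.ne_zero hg
  have hfv : ((⟨_, hu⟩ * ⟨_, hv⟩ ^ (m - 1) : Algebra.adjoin O ({x, y} : Set L)) : L) =
      f * aeval x b₀ ^ m := by
    show ev p x y a₀ * aeval x b₀ ^ (m - 1) = _
    obtain ⟨m', rfl⟩ : ∃ m', m = m' + 1 := ⟨m - 1, by omega⟩
    rw [← hab, Nat.add_sub_cancel, pow_succ]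
    ring
  have hf'0 : (⟨_, hu⟩ * ⟨_, hv⟩ ^ (m - 1) : Algebra.adjoin O ({x, y} : Set L)) ≠ 0 := by
    intro h0
    have h1 := congrArg Subtype.val h0
    have h2 : f * aeval x b₀ ^ m = 0 := by
      rw [← hfv]
      exact h1
    exact (mul_ne_zero hf0 (pow_ne_zero _ hv0)) h2
  obtain ⟨j, a₁, a₂, g', h1, h2, h3⟩ := loc_pow (O := O)
    (A := Algebra.adjoin O ({x, y} : Set L)) hA hπP (RingHom.ker σ) hπ𝔮 hO' hs ht hsx hsy
    (L := L) (F₁ := F₁) (C := C) (algebraMap (Algebra.adjoin O ({x, y} : Set L)) L)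
    Subtype.val_injective (by
      intro e
      obtain ⟨n, hn⟩ := hpow e
      refine ⟨⟨_, hn n le_rfl⟩, n, ?_⟩
      show algebraMap C L (algebraMap F₁ C e) * algebraMap C L π ^ n =
        algebraMap C L (algebraMap F₁ C e * π ^ n)
      rw [map_mul, map_pow])
    (by
      intro Q hQ hQA
      exact u7_gen hp G.sup O hπO hπ0 hpow Q hQ (hQA ⟨x, hxA⟩))
    hm hf'0 (by
      intro Q hQ hQA
      obtain ⟨c, hc0, hc⟩ := hdiv Q hQ (hQA ⟨x, hxA⟩)
      refine ⟨c * aeval x b₀, mul_ne_zero hc0 hv0, ?_⟩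
      have e1 : (algebraMap (Algebra.adjoin O ({x, y} : Set L)) L)
          (⟨_, hu⟩ * ⟨_, hv⟩ ^ (m - 1)) * ((c * aeval x b₀) ^ m)⁻¹ = f * (c ^ m)⁻¹ := by
        have e2 : (algebraMap (Algebra.adjoin O ({x, y} : Set L)) L)
          (⟨_, hu⟩ * ⟨_, hv⟩ ^ (m - 1)) = f * aeval x b₀ ^ m := hfv
        rw [e2, mul_pow]
        field_simp
      rw [e1]
      exact hc)
  -- the residues
  obtain ⟨c, hc⟩ := IsAlgClosed.exists_pow_nat_eq (π ^ j) (n := m) (by omega)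
  have hs1 : σ a₁ ≠ 0 := fun h0 => h1 ((RingHom.mem_ker).2 h0)
  have hs2 : σ a₂ ≠ 0 := fun h0 => h2 ((RingHom.mem_ker).2 h0)
  have hv1 := hval1 a₁ hs1
  have hv2 := hval1 a₂ hs2
  have hr1 : ρ a₁ ≠ 0 := by
    intro h0
    rw [h0, map_zero] at hv1
    exact zero_ne_one hv1
  have hr2 : ρ a₂ ≠ 0 := by
    intro h0
    rw [h0, map_zero] at hv2
    exact zero_ne_one hv2
  have ha2 : (a₂ : L) ≠ 0 := (hρ a₂).ne_zero hr2
  have hrel : (a₁ : L) * (f * aeval x b₀ ^ m) = algebraMap C L π ^ j * a₂ * (g' : L) ^ m := by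
    have h4 := congrArg Subtype.val h3
    rw [← hfv]
    exact h4
  have hγ : (algebraMap C L c * (g' : L) / aeval x b₀) ^ m = (a₁ : L) * f / a₂ := by
    rw [div_pow, mul_pow, ← map_pow, hc, map_pow, div_eq_div_iff (pow_ne_zero _ hv0) ha2]
    calc algebraMap C L π ^ j * (g' : L) ^ m * (a₂ : L) =
        algebraMap C L π ^ j * a₂ * (g' : L) ^ m := by ring
      _ = (a₁ : L) * f * aeval x b₀ ^ m := by rw [← hrel]; ring
  have hH : D.W.Has ((algebraMap C L c * (g' : L) / aeval x b₀) ^ m) (ρ a₁ * g / ρ a₂) := by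
    rw [hγ]
    exact ((hρ a₁).mul hf).div (hρ a₂) hr2
  have hH0 : ρ a₁ * g / ρ a₂ ≠ 0 := div_ne_zero (mul_ne_zero hr1 hg) hr2
  have hval : D.W.A.valuation (algebraMap C L c * (g' : L) / aeval x b₀) = 1 := by
    have h4 := has_val_eq D.W hH hH0
    rw [map_pow] at h4
    exact (pow_eq_one_iff.1 h4).resolve_right (by omega)
  obtain ⟨γ, hγ0, hγH⟩ := has_of_val_eq D.W hval
  have hγm : γ ^ m = ρ a₁ * g / ρ a₂ := (hγH.pow m).unique hH
  refine ⟨γ, hγ0, ?_⟩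
  have e3 : g * (γ ^ m)⁻¹ = ρ a₂ / ρ a₁ := by
    rw [hγm]
    field_simp
  rw [e3, map_div₀, hv1, hv2, div_one]

theorem GRed.ur {p : ℕ} (hp : p.Prime) {C L κ k : Type*} [Field C] [IsAlgClosed C] [CharZero C]
    [Algebra.IsAlgebraic ℚ C] [Field L] [Algebra C L] [Field κ] [IsAlgClosed κ] [Field k]
    [Algebra κ k] {D : Red C L κ k} {x y : L} {h : C[X]} {xb yb : k} {hb : κ[X]}
    (hpκ : (p : κ) ≠ 0) {l : ℕ} (hl : l.Prime) (hlκ : (l : κ) = 0) (G : GRed p D x y h xb yb hb)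
    {m : ℕ} (hm : 1 ≤ m) {f : L} {g : k} (hg : g ≠ 0) (hf : D.W.Has f g)
    (hdiv : ∀ Q : ValuationSubring L, IsPlc C Q → x ∈ Q → DivAt m f Q)
    (Qb : ValuationSubring k) (hQb : IsPlc κ Qb) (hxb : xb ∈ Qb) : DivAt m g Qb := by
  classical
  have Hb : IsSup p xb yb hb := G.supb hp
  obtain ⟨z, hz⟩ := Hb.exists_center hp hQb hxb
  -- the lifts
  obtain ⟨a, b, w, ha, hbw, hyw, hcase⟩ : ∃ (a b : C) (w : κ), D.V.Has a z ∧ D.V.Has b w ∧
      Qb.valuation (yb - algebraMap κ k w) < 1 ∧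
      ((b ^ p = h.eval a ∧ w ≠ 0) ∨ (h.eval a = 0 ∧ b = 0)) := by
    rcases Hb.fin_place hp hpκ hQb hxb hz with ⟨h1, ⟨w, hw, hyw⟩, _⟩ | ⟨h1, h2, _⟩
    · obtain ⟨a, ha⟩ := D.surjV z
      have h3 : D.V.Has (h.eval a) (w ^ p) := by
        rw [hw]
        exact PHas.eval (P := h) (Pb := hb) G.hh ha
      obtain ⟨b, hb1, hb2⟩ := root_lift hp hpκ D.V h3
      refine ⟨a, b, w, ha, hb2, hyw, Or.inl ⟨hb1, ?_⟩⟩
      rintro rfl
      rw [zero_pow hp.ne_zero] at hw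
      exact h1 hw.symm
    · obtain ⟨a, ha1, ha2⟩ := G.roots_red.2 z h1
      refine ⟨a, 0, 0, ha2, Plc.has_zero, ?_, Or.inr ⟨ha1, rfl⟩⟩
      rw [map_zero, sub_zero]
      exact h2
  obtain ⟨a₀, b₀, hb₀0, hab⟩ := G.sup.repr hp f
  -- the number field
  have hV : D.V.A.valuation (l : C) < 1 := by
    rw [← has_val_lt, ← hlκ]
    exact has_natCast D.V l
  obtain ⟨F, hT, hnoeth, π, hπF, hπ0, hπ1, hval⟩ := exists_dvr D.V.A hl hV
    (insert a (insert b (h.coeffs ∪ b₀.coeffs ∪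
      (Finset.range p).biUnion fun i => (a₀ i).coeffs)))
  have hcoef : ∀ (P : C[X]), (∀ c ∈ P.coeffs, c ∈ F) → ∀ j, P.coeff j ∈ F := by
    intro P hP j
    by_cases h0 : P.coeff j = 0
    · rw [h0]
      exact zero_mem _
    · exact hP _ (Polynomial.coeff_mem_coeffs h0)
  have haF : a ∈ F := hT a (Finset.mem_insert_self _ _)
  have hbF : b ∈ F := hT b (Finset.mem_insert_of_mem (Finset.mem_insert_self _ _))
  have hhF : ∀ j, h.coeff j ∈ F := hcoef h fun c hc => hT c (by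
    simp only [Finset.mem_insert, Finset.mem_union]
    exact Or.inr (Or.inr (Or.inl (Or.inl hc))))
  have hb₀F : ∀ j, b₀.coeff j ∈ F := hcoef b₀ fun c hc => hT c (by
    simp only [Finset.mem_insert, Finset.mem_union]
    exact Or.inr (Or.inr (Or.inl (Or.inr hc))))
  have ha₀F : ∀ i < p, ∀ j, (a₀ i).coeff j ∈ F := fun i hi => hcoef (a₀ i) fun c hc => hT c (by
    simp only [Finset.mem_insert, Finset.mem_union]
    exact Or.inr (Or.inr (Or.inr (Finset.mem_biUnion.2 ⟨i, Finset.mem_range.2 hi, hc⟩))))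
  have hpow : ∀ e : F, ∃ n : ℕ, ∀ N, n ≤ N → algebraMap F C e * π ^ N ∈
      (D.V.A.toSubring ⊓ F.toSubalgebra.toSubring : Subring C) := fun e =>
    u7_pow D.V.A F hπF hπ0 hπ1 hval e.2
  have hmem : ∀ c ∈ F, c ∈ D.V.A → c ∈ (D.V.A.toSubring ⊓ F.toSubalgebra.toSubring : Subring C) :=
    fun c h1 h2 => Subring.mem_inf.2 ⟨h2, h1⟩
  have hOV : ∀ c ∈ (D.V.A.toSubring ⊓ F.toSubalgebra.toSubring : Subring C), c ∈ D.V.A :=
    fun c hc => (Subring.mem_inf.1 hc).1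
  have hπO : π ∈ (D.V.A.toSubring ⊓ F.toSubalgebra.toSubring : Subring C) :=
    hmem π hπF ((D.V.A.valuation_le_one_iff _).1 hπ1.le)
  -- a common power of `π`
  have hall : ∀ S : Finset C, (∀ c ∈ S, c ∈ F) → ∃ N : ℕ, ∀ c ∈ S,
      c * π ^ N ∈ (D.V.A.toSubring ⊓ F.toSubalgebra.toSubring : Subring C) := by
    intro S hS
    have h1 : ∀ c : C, ∃ n : ℕ, c ∈ S → ∀ N, n ≤ N → c * π ^ N ∈
        (D.V.A.toSubring ⊓ F.toSubalgebra.toSubring : Subring C) := by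
      intro c
      by_cases hc : c ∈ S
      · obtain ⟨n, hn⟩ := hpow ⟨c, hS c hc⟩
        exact ⟨n, fun _ => hn⟩
      · exact ⟨0, fun h => absurd h hc⟩
    choose n hn using h1
    exact ⟨S.sup n, fun c hc => hn c hc _ (Finset.le_sup hc)⟩
  obtain ⟨N, hN⟩ := hall (b₀.coeffs ∪ (Finset.range p).biUnion fun i => (a₀ i).coeffs) (by
    intro c hc
    rw [Finset.mem_union] at hc
    refine hT c ?_
    simp only [Finset.mem_insert, Finset.mem_union]
    rcases hc with hc | hc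
    · exact Or.inr (Or.inr (Or.inl (Or.inr hc)))
    · exact Or.inr (Or.inr (Or.inr hc)))
  have hπN : π ^ N ≠ 0 := pow_ne_zero _ hπ0
  have : IsNoetherianRing (D.V.A.toSubring ⊓ F.toSubalgebra.toSubring : Subring C) := hnoeth
  refine u7_core hp hpκ G Qb hQb hxb (O := D.V.A.toSubring ⊓ F.toSubalgebra.toSubring) hOV
    (fun i => hmem _ (hhF i) (G.hh i).1) hπO hπ0 (has_val_lt D.V |>.2 hπ1) ?_ (F₁ := F) hpow
    (hmem a haF ha.1) (hmem b hbF hbw.1) ha hbw hz hyw hcase hm hg hf hdiv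
    (a₀ := fun i => Polynomial.C (π ^ N) * a₀ i) (b₀ := Polynomial.C (π ^ N) * b₀) ?_ ?_ ?_ ?_
  · intro c hc h0
    exact u7_div D.V.A F hπF hπ0 hπ1 hval hc ((has_val_lt D.V).1 h0)
  · intro i hi j
    show (Polynomial.C (π ^ N) * a₀ i).coeff j ∈ _
    rw [coeff_C_mul]
    by_cases h0 : (a₀ i).coeff j = 0
    · rw [h0, mul_zero]
      exact zero_mem _
    · rw [mul_comm]
      exact hN _ (Finset.mem_union_right _ (Finset.mem_biUnion.2 ⟨i, Finset.mem_range.2 hi,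
        Polynomial.coeff_mem_coeffs h0⟩))
  · intro j
    rw [coeff_C_mul]
    by_cases h0 : b₀.coeff j = 0
    · rw [h0, mul_zero]
      exact zero_mem _
    · rw [mul_comm]
      exact hN _ (Finset.mem_union_left _ (Polynomial.coeff_mem_coeffs h0))
  · exact mul_ne_zero (Polynomial.C_ne_zero.2 hπN) hb₀0
  · unfold ev
    rw [map_mul, aeval_C]
    have h1 : ∀ i ∈ Finset.range p, aeval x (Polynomial.C (π ^ N) * a₀ i) * y ^ i =
        algebraMap C L (π ^ N) * (aeval x (a₀ i) * y ^ i) := by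
      intro i _
      rw [map_mul, aeval_C, mul_assoc]
    rw [Finset.sum_congr rfl h1, ← Finset.mul_sum]
    have h2 : f * aeval x b₀ = ∑ i ∈ Finset.range p, aeval x (a₀ i) * y ^ i := hab
    rw [← h2]
    ring

end Pool.Agent.Lib.MP_2f3286_ag.Gl
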