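import Pool.Agent.Lib.MP_2f3286_ag.Gl.H2
import Pool.Agent.Lib.MP_2f3286_ag.Gl.F4
import Pool.Agent.Lib.MP_2f3286_ag.Gl.U7
import Pool.Agent.Lib.MP_2f3286_ag.Gl.RIC

/-!
# Good reduction: the classes fixed by a Frobenius element have bounded order   (module R3)

PROOF. `hroot` of H1/H2 holds by `root_frob`: `(q ^ m - 1 : κ) = -1 ≠ 0` as `l ∣ q`. Let `κ₀` be the set of `z : κ` with `z ^ q = z`: a finite subfield (closed under
addition as `q` is a power of the characteristic `l`: `add_pow_char_pow`, `CharP κ l` from `hlκ`); take it as a `Subfield κ` (finite: roots of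
`X ^ q - X`). `κ` is algebraic over `κ₀`: every `z : κ` is the residue of some `c : C` (`D.surjV`), `ψ^[m] c = c`, so `z ^ (q ^ m) = z`. The coefficients of `hb` are
in `κ₀` (`hh`, `G.hh`): `hb = h₀.map`. `fb` for `supb`: `a₀`.
We show by induction on `n` the claim with this `a₀` for all `z`, `f`, `u`. If `n ≤ a₀`, `z ^ (p ^ a₀) = f ^ (p ^ (a₀ - n))`. Let `n > a₀`, `n = n' + 1`. It is enough to
find `v₁ : L` with `z ^ (p ^ n') = v₁`: then `v₁ ^ p = f`, `DivAt (p ^ n') v₁` at all places (`v (f / c ^ (p ^ n)) = 1`, so `v (v₁ / c ^ (p ^ n')) ^ p = 1`), and the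
induction hypothesis applies. (a) `z` has a period: `Ψ^[m] z = z`, `m ≥ 1`. `exists_trace` for `M`: `c`, `z' = ∑ i < m, ψ^[i] c • Ψ^[i] z ≠ 0`, `Ψ z' = z'`. `Ψ^[i] z = z * u_i`
with `u_i : L` (`u_0 = 1`, `u_(i+1) = u * ψL u_i`), so `z' = z * u'`, `u' : L`, `u' ≠ 0`. `f' = f u' ^ (p ^ n)`, `z' ^ (p ^ n) = f'`, `ψL f' = f'`, `DivAt (p ^ n) f'` at all
places. (b) `fixed_unit`: `c` with `ψ c = c` and `f'' = c f'` has a residue `g ≠ 0` at `W`; `ψL f'' = f''`; `DivAt (p ^ n) f''`. (c) `fixed_res`: `g` is in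
`adjoin κ₀ {xb, yb}`. `GRed.ur` with `m = p ^ n`: `DivAt (p ^ n) g` at all places of `k` over `κ` with `xb` finite. `fb` (`n > a₀`): `g = γ ^ p`. (d) `GRed.ri1` (`DivAt p f''`
from `DivAt (p ^ n)`, `n ≥ 1`): `f'' = w ^ p`. With `c₁ ^ p = c`: `(z' ^ (p ^ n')) ^ p = f' = (w / c₁) ^ p`, so `z' ^ (p ^ n') = ξ w / c₁` with `ξ ^ p = 1`, `ξ` a constant
(`C` is algebraically closed), so in `L`; and `z ^ (p ^ n') = z' ^ (p ^ n') / u' ^ (p ^ n')`.
-/

open Polynomial IntermediateField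

namespace Pool.Agent.Lib.MP_2f3286_ag.Gl

open Pool.Agent.Lib.MP_2f3286_ag.Fer (Plc)
open Pool.Agent.Lib.MP_2f3286_ag.Pt (IsPlc DivAt)

universe u

/-- the field of the elements fixed by the Frobenius -/
private theorem R3_field {κ : Type u} [Field κ] {l : ℕ} (hl : l.Prime) (hlκ : (l : κ) = 0) {e : ℕ} (he : 1 ≤ e)
    (hper : ∀ z : κ, ∃ m, 1 ≤ m ∧ z ^ (l ^ e) ^ m = z) :
    ∃ (κ₀ : Type u) (_ : Field κ₀) (_ : Finite κ₀) (_ : Algebra κ₀ κ), Algebra.IsAlgebraic κ₀ κ ∧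
      ∀ z : κ, z ^ l ^ e = z → z ∈ Set.range (algebraMap κ₀ κ) := by
  classical
  have : Fact l.Prime := ⟨hl⟩
  have : CharP κ l := (CharP.charP_iff_prime_eq_zero hl).2 hlκ
  have hq2 : 2 ≤ l ^ e := hl.two_le.trans (Nat.le_self_pow (by omega) l)
  have hne : ∀ N : ℕ, 2 ≤ N → (X ^ N - X : κ[X]) ≠ 0 := by
    intro N hN h
    have h1 := congrArg (fun P : κ[X] => P.coeff N) h
    simp only [coeff_sub, coeff_X_pow, coeff_X, coeff_zero, if_true] at h1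
    rw [if_neg (by omega)] at h1
    simp at h1
  refine ⟨(iterateFrobenius κ l e).eqLocusField (RingHom.id κ), inferInstance, ?_, inferInstance, ?_, ?_⟩
  · have hfin : Set.Finite {z : κ | z ^ l ^ e = z} := by
      refine Set.Finite.subset ((X ^ (l ^ e) - X : κ[X]).roots.toFinset.finite_toSet) ?_
      intro z hz
      rw [Finset.mem_coe, Multiset.mem_toFinset, mem_roots (hne _ hq2)]
      simp only [Set.mem_ofPred_eq] at hz
      simp [IsRoot, hz]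
    exact hfin.to_subtype
  · refine ⟨fun z => ?_⟩
    obtain ⟨m, hm, hz⟩ := hper z
    have hN : 2 ≤ (l ^ e) ^ m := hq2.trans (Nat.le_self_pow (by omega) _)
    refine ⟨X ^ (l ^ e) ^ m - X, ?_, ?_⟩
    · intro h
      have h1 := congrArg (Polynomial.map (algebraMap _ κ)) h
      rw [Polynomial.map_sub, Polynomial.map_pow, map_X, Polynomial.map_zero] at h1
      exact hne _ hN h1
    · simp [hz]
  · intro z hz
    exact ⟨⟨z, hz⟩, rfl⟩

private theorem R3_val {C L : Type*} [Field C] [Field L] [Algebra C L] {Q : ValuationSubring L} (hQ : IsPlc C Q) {c : C}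
    (hc : c ≠ 0) : Q.valuation (algebraMap C L c) = 1 := by
  have h1 : Q.valuation (algebraMap C L c) ≤ 1 := (Q.valuation_le_one_iff _).2 (hQ.1 c)
  have h2 : Q.valuation (algebraMap C L c⁻¹) ≤ 1 := (Q.valuation_le_one_iff _).2 (hQ.1 c⁻¹)
  have h3 : Q.valuation (algebraMap C L c) * Q.valuation (algebraMap C L c⁻¹) = 1 := by
    rw [← map_mul, ← map_mul, mul_inv_cancel₀ hc, map_one, map_one]
  refine le_antisymm h1 ?_
  rw [← h3]
  exact mul_le_of_le_one_right' h2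

private theorem R3_div_mul {L : Type*} [Field L] {Q : ValuationSubring L} {n : ℕ} {f u : L} (h : DivAt n f Q) (hu : u ≠ 0) :
    DivAt n (f * u ^ n) Q := by
  obtain ⟨c, hc, h1⟩ := h
  refine ⟨c * u, mul_ne_zero hc hu, ?_⟩
  rw [← h1]
  congr 1
  rw [mul_pow]
  field_simp

private theorem R3_div_const {C L : Type*} [Field C] [Field L] [Algebra C L] {Q : ValuationSubring L} (hQ : IsPlc C Q) {n : ℕ} {f : L}
    (h : DivAt n f Q) {c : C} (hc : c ≠ 0) : DivAt n (algebraMap C L c * f) Q := by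
  obtain ⟨d, hd, h1⟩ := h
  refine ⟨d, hd, ?_⟩
  rw [mul_assoc, map_mul, h1, mul_one, R3_val hQ hc]

private theorem R3_div_root {L : Type*} [Field L] {Q : ValuationSubring L} {p n : ℕ} (hp : p ≠ 0) {f v : L}
    (hv : v ^ p = f) (h : DivAt (p ^ (n + 1)) f Q) : DivAt (p ^ n) v Q := by
  obtain ⟨c, hc, h1⟩ := h
  refine ⟨c, hc, ?_⟩
  have h2 : f * (c ^ p ^ (n + 1))⁻¹ = (v * (c ^ p ^ n)⁻¹) ^ p := by
    rw [mul_pow, hv, inv_pow, ← pow_mul, ← pow_succ]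
  rw [h2, map_pow] at h1
  exact (pow_eq_one_iff_of_nonneg zero_le hp).1 h1

private theorem R3_div_p {L : Type*} [Field L] {Q : ValuationSubring L} {p n : ℕ} {f : L}
    (h : DivAt (p ^ (n + 1)) f Q) : DivAt p f Q := by
  obtain ⟨c, hc, h1⟩ := h
  refine ⟨c ^ p ^ n, pow_ne_zero _ hc, ?_⟩
  rw [← pow_mul, ← pow_succ]
  exact h1

/-- a root of unity is a constant -/
private theorem R3_root {C M : Type*} [Field C] [IsAlgClosed C] [Field M] [Algebra C M] {p : ℕ} (hp : p ≠ 0) {ξ : M}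
    (h : ξ ^ p = 1) : ∃ c : C, algebraMap C M c = ξ := by
  have hint : IsIntegral C ξ := by
    refine ⟨X ^ p - Polynomial.C 1, monic_X_pow_sub_C 1 hp, ?_⟩
    simp [h]
  exact minpoly.mem_range_of_degree_eq_one C ξ (IsAlgClosed.degree_eq_one_of_irreducible C (minpoly.irreducible hint))


/-- polynomials with coefficients in the fixed field -/
private theorem R3_lift {κ₀ κ : Type*} [Field κ₀] [Field κ] [Algebra κ₀ κ] {q : ℕ}
    (hfix : ∀ z : κ, z ^ q = z → z ∈ Set.range (algebraMap κ₀ κ)) {P : κ[X]} (hP : ∀ j, (P.coeff j) ^ q = P.coeff j) :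
    ∃ P₀ : κ₀[X], P₀.map (algebraMap κ₀ κ) = P := by
  have h1 : P ∈ Polynomial.lifts (algebraMap κ₀ κ) :=
    (Polynomial.lifts_iff_coeff_lifts P).2 fun n => hfix _ (hP n)
  exact (Polynomial.mem_lifts P).1 h1

private theorem R3_aeval {κ₀ κ k : Type*} [Field κ₀] [Field κ] [Algebra κ₀ κ] [Field k] [Algebra κ k] [Algebra κ₀ k]
    [IsScalarTower κ₀ κ k] {q : ℕ} (hfix : ∀ z : κ, z ^ q = z → z ∈ Set.range (algebraMap κ₀ κ)) {P : κ[X]}
    (hP : ∀ j, (P.coeff j) ^ q = P.coeff j) {x : k} {F : IntermediateField κ₀ k} (hx : x ∈ F) : aeval x P ∈ F := by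
  obtain ⟨P₀, rfl⟩ := R3_lift hfix hP
  rw [Polynomial.aeval_map_algebraMap, Polynomial.aeval_eq_sum_range]
  refine sum_mem fun i _ => ?_
  exact F.smul_mem (pow_mem hx i)

private theorem R3_adj {κ₀ κ k : Type*} [Field κ₀] [Field κ] [Algebra κ₀ κ] [Field k] [Algebra κ k] [Algebra κ₀ k]
    [IsScalarTower κ₀ κ k] {q p : ℕ} (hfix : ∀ z : κ, z ^ q = z → z ∈ Set.range (algebraMap κ₀ κ)) {xb yb g : k}
    (htr : Transcendental κ xb) {ab : ℕ → κ[X]} {bb : κ[X]} (hbb : bb ≠ 0) (hg : g * aeval xb bb = ev p xb yb ab)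
    (h1 : ∀ i j, ((ab i).coeff j) ^ q = (ab i).coeff j) (h2 : ∀ j, (bb.coeff j) ^ q = bb.coeff j) :
    g ∈ IntermediateField.adjoin κ₀ {xb, yb} := by
  have hx : xb ∈ IntermediateField.adjoin κ₀ {xb, yb} := IntermediateField.subset_adjoin κ₀ _ (by simp)
  have hy : yb ∈ IntermediateField.adjoin κ₀ {xb, yb} := IntermediateField.subset_adjoin κ₀ _ (by simp)
  have h3 : aeval xb bb ≠ 0 := fun h => hbb ((transcendental_iff.1 htr) bb h)
  have h4 : g = ev p xb yb ab / aeval xb bb := by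
    rw [← hg, mul_div_cancel_right₀ _ h3]
  rw [h4]
  refine div_mem ?_ (R3_aeval hfix h2 hx)
  unfold ev
  exact sum_mem fun i _ => mul_mem (R3_aeval hfix (h1 i) hx) (pow_mem hy i)

/-- the residues of the constants have finite orbits -/
private theorem R3_iter {C κ : Type*} [Field C] [Field κ] (V : Plc C κ) {ψ : C ≃+* C} {q : ℕ}
    (hψ : ∀ c z, V.Has c z → V.Has (ψ c) (z ^ q)) (m : ℕ) {c : C} {z : κ} (h : V.Has c z) :
    V.Has (ψ^[m] c) (z ^ q ^ m) := by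
  induction m with
  | zero => rw [pow_zero, pow_one]; exact h
  | succ m ih =>
    rw [Function.iterate_succ_apply', pow_succ, pow_mul]
    exact hψ _ _ ih

/-- a fixed element in the class of `z` -/
private theorem R3_trace {C L M : Type*} [Field C] [IsAlgClosed C] [CharZero C] [Field L] [Algebra C L] [Field M]
    [Algebra C M] [Algebra L M] [IsScalarTower C L M] {ψ : C ≃+* C} {ψL : L ≃+* L} {Ψ : M ≃+* M}
    (hψL : ∀ c, ψL (algebraMap C L c) = algebraMap C L (ψ c))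
    (hΨ : ∀ f : L, Ψ (algebraMap L M f) = algebraMap L M (ψL f)) {q : ℕ} (hq : 2 ≤ q)
    (hroot : ∀ (m : ℕ) (ξ : C), 1 ≤ m → ξ ^ (q ^ m - 1) = 1 → ψ ξ = ξ ^ q) {z : M} (hz : z ≠ 0) {u : L}
    (hu : Ψ z = z * algebraMap L M u) {m : ℕ} (hm : 1 ≤ m) (hzm : Ψ^[m] z = z) :
    ∃ u' : L, u' ≠ 0 ∧ Ψ (z * algebraMap L M u') = z * algebraMap L M u' := by
  have hΨc : ∀ c, Ψ (algebraMap C M c) = algebraMap C M (ψ c) := by
    intro c
    rw [IsScalarTower.algebraMap_apply C L M, hΨ, hψL, ← IsScalarTower.algebraMap_apply C L M]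
  obtain ⟨c, -, h1, h2⟩ := exists_trace hΨc hq hroot hz hm hzm
  have hi : ∀ i : ℕ, ∃ v : L, Ψ^[i] z = z * algebraMap L M v := by
    intro i
    induction i with
    | zero => exact ⟨1, by rw [map_one, mul_one]; rfl⟩
    | succ i ih =>
      obtain ⟨v, hv⟩ := ih
      refine ⟨u * ψL v, ?_⟩
      rw [Function.iterate_succ_apply', hv, map_mul, hΨ, hu, map_mul, mul_assoc]
  choose v hv using hi
  have h3 : ∑ i ∈ Finset.range m, ψ^[i] c • Ψ^[i] z =
      z * algebraMap L M (∑ i ∈ Finset.range m, algebraMap C L (ψ^[i] c) * v i) := by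
    rw [map_sum, Finset.mul_sum]
    refine Finset.sum_congr rfl fun i _ => ?_
    rw [hv, Algebra.smul_def, map_mul, ← IsScalarTower.algebraMap_apply C L M]
    ring
  rw [h3] at h1 h2
  refine ⟨_, ?_, h2⟩
  intro h0
  apply h1
  rw [h0, map_zero, mul_zero]

/-- the step -/
private theorem R3_step {p : ℕ} (hp : p.Prime) {C L κ k : Type*} [Field C] [IsAlgClosed C] [CharZero C]
    [Algebra.IsAlgebraic ℚ C] [Field L] [Algebra C L] [Field κ] [IsAlgClosed κ] [Field k]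
    [Algebra κ k] {D : Red C L κ k} {x y : L} {h : C[X]} {xb yb : k} {hb : κ[X]}
    (hpκ : (p : κ) ≠ 0) {l : ℕ} (hl : l.Prime) (hlκ : (l : κ) = 0) (G : GRed p D x y h xb yb hb)
    {q : ℕ} (hq : 2 ≤ q) {ψ : C ≃+* C} {ψL : L ≃+* L} (hs : IsSemi x y ψ ψL)
    (hψ : ∀ c z, D.V.Has c z → D.V.Has (ψ c) (z ^ q)) (horb : ∀ c : C, ∃ m, 1 ≤ m ∧ ψ^[m] c = c)
    (hroot : ∀ (m : ℕ) (ξ : C), 1 ≤ m → ξ ^ (q ^ m - 1) = 1 → ψ ξ = ξ ^ q)
    {M : Type*} [Field M] [Algebra C M] [Algebra L M] [IsScalarTower C L M] {Ψ : M ≃+* M}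
    (hΨ : ∀ f : L, Ψ (algebraMap L M f) = algebraMap L M (ψL f))
    (horbM : ∀ z : M, ∃ m, 1 ≤ m ∧ Ψ^[m] z = z)
    {κ₀ : Type*} [Field κ₀] [Algebra κ₀ κ] [Algebra κ₀ k] [IsScalarTower κ₀ κ k]
    (hfix : ∀ z : κ, z ^ q = z → z ∈ Set.range (algebraMap κ₀ κ)) {n : ℕ}
    (hfb : ∀ g ∈ IntermediateField.adjoin κ₀ {xb, yb}, g ≠ 0 →
      (∀ Q : ValuationSubring k, IsPlc κ Q → xb ∈ Q → DivAt (p ^ (n + 1)) g Q) → ∃ γ : k, γ ^ p = g)
    {z : M} {f u : L} (hz : z ≠ 0) (hzf : z ^ p ^ (n + 1) = algebraMap L M f)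
    (hdiv : ∀ Q : ValuationSubring L, IsPlc C Q → DivAt (p ^ (n + 1)) f Q)
    (hu : Ψ z = z * algebraMap L M u) : ∃ v : L, z ^ p ^ n = algebraMap L M v := by
  have hinj : Function.Injective (algebraMap L M) := (algebraMap L M).injective
  obtain ⟨m, hm, hzm⟩ := horbM z
  obtain ⟨u', hu0, hz'⟩ := R3_trace hs.const hΨ hq hroot hz hu hm hzm
  obtain ⟨z', hz'eq⟩ : ∃ z' : M, z' = z * algebraMap L M u' := ⟨_, rfl⟩
  rw [← hz'eq] at hz'
  have hz'0 : z' ≠ 0 := by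
    rw [hz'eq]
    exact mul_ne_zero hz (fun h0 => hu0 (hinj (by rw [h0, map_zero])))
  obtain ⟨f', hf'eq⟩ : ∃ f' : L, f' = f * u' ^ p ^ (n + 1) := ⟨_, rfl⟩
  have hzf' : z' ^ p ^ (n + 1) = algebraMap L M f' := by
    rw [hz'eq, hf'eq, mul_pow, hzf, map_mul, map_pow]
  have hf'0 : f' ≠ 0 := by
    rintro rfl
    rw [map_zero] at hzf'
    exact hz'0 (pow_eq_zero_iff (pow_ne_zero _ hp.ne_zero) |>.1 hzf')
  have hf' : ψL f' = f' := by
    apply hinj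
    rw [← hΨ, ← hzf', map_pow, hz']
  have hdiv' : ∀ Q : ValuationSubring L, IsPlc C Q → DivAt (p ^ (n + 1)) f' Q := by
    intro Q hQ
    rw [hf'eq]
    exact R3_div_mul (hdiv Q hQ) hu0
  obtain ⟨c, g, hc, hc0, hg0, hfg⟩ := G.fixed_unit hp hs hq hroot horb hf' hf'0
  have hf'' : ψL (algebraMap C L c * f') = algebraMap C L c * f' := by
    rw [map_mul, hs.const, hc, hf']
  have hdiv'' : ∀ Q : ValuationSubring L, IsPlc C Q → DivAt (p ^ (n + 1)) (algebraMap C L c * f') Q :=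
    fun Q hQ => R3_div_const hQ (hdiv' Q hQ) hc0
  obtain ⟨ab, bb, hbb, hgab, hab, hbb'⟩ := G.fixed_res hp hs hq hroot horb hψ hf'' hfg
  have hgadj : g ∈ IntermediateField.adjoin κ₀ {xb, yb} := R3_adj hfix G.tr hbb hgab hab hbb'
  obtain ⟨γ, hγ⟩ := hfb g hgadj hg0 fun Q hQ hxQ =>
    G.ur hp hpκ hl hlκ (Nat.one_le_pow _ _ hp.pos) hg0 hfg (fun Q hQ _ => hdiv'' Q hQ) Q hQ hxQ
  have hγ0 : γ ≠ 0 := by
    rintro rfl
    rw [zero_pow hp.ne_zero] at hγ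
    exact hg0 hγ.symm
  rw [← hγ] at hfg
  obtain ⟨w, hw⟩ := G.ri1 hp hpκ hγ0 hfg fun Q hQ => R3_div_p (hdiv'' Q hQ)
  obtain ⟨c₁, hc₁⟩ := IsAlgClosed.exists_pow_nat_eq c hp.pos
  have hc₁0 : c₁ ≠ 0 := by
    rintro rfl
    rw [zero_pow hp.ne_zero] at hc₁
    exact hc0 hc₁.symm
  have hcL0 : algebraMap C L c₁ ≠ 0 := fun h0 => hc₁0 ((algebraMap C L).injective (by rw [h0, map_zero]))
  have hw0 : w ≠ 0 := by
    rintro rfl
    rw [zero_pow hp.ne_zero] at hw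
    have h1 : algebraMap C L c ≠ 0 := fun h0 => hc0 ((algebraMap C L).injective (by rw [h0, map_zero]))
    exact mul_ne_zero h1 hf'0 hw.symm
  have hwf : (w / algebraMap C L c₁) ^ p = f' := by
    rw [div_pow, hw, ← map_pow, hc₁, mul_div_cancel_left₀]
    intro h0
    exact hc0 ((algebraMap C L).injective (by rw [h0, map_zero]))
  have hwM0 : algebraMap L M (w / algebraMap C L c₁) ≠ 0 := fun h0 =>
    div_ne_zero hw0 hcL0 (hinj (by rw [h0, map_zero]))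
  have hξ : (z' ^ p ^ n / algebraMap L M (w / algebraMap C L c₁)) ^ p = 1 := by
    rw [div_pow, ← pow_mul, ← pow_succ, hzf', ← map_pow, hwf, div_self]
    intro h0
    exact hf'0 (hinj (by rw [h0, map_zero]))
  obtain ⟨ξ, hξ'⟩ := R3_root (C := C) hp.ne_zero hξ
  rw [eq_div_iff hwM0] at hξ'
  have huM0 : algebraMap L M (u' ^ p ^ n) ≠ 0 := fun h0 =>
    pow_ne_zero _ hu0 (hinj (by rw [h0, map_zero]))
  refine ⟨algebraMap C L ξ * (w / algebraMap C L c₁) / u' ^ p ^ n, ?_⟩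
  rw [map_div₀, map_mul, ← IsScalarTower.algebraMap_apply C L M, hξ', hz'eq, mul_pow, ← map_pow, eq_div_iff huM0]

theorem GRed.r3 {p : ℕ} (hp : p.Prime) {C L κ k : Type*} [Field C] [IsAlgClosed C] [CharZero C]
    [Algebra.IsAlgebraic ℚ C] [Field L] [Algebra C L] [Field κ] [IsAlgClosed κ] [Field k]
    [Algebra κ k] {D : Red C L κ k} {x y : L} {h : C[X]} {xb yb : k} {hb : κ[X]}
    (hpκ : (p : κ) ≠ 0) {l : ℕ} (hl : l.Prime) (hlκ : (l : κ) = 0) (G : GRed p D x y h xb yb hb)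
    {e : ℕ} (he : 1 ≤ e) {ψ : C ≃+* C} {ψL : L ≃+* L} (hs : IsSemi x y ψ ψL)
    (hψ : ∀ c z, D.V.Has c z → D.V.Has (ψ c) (z ^ l ^ e))
    (hh : ∀ i, ψ (h.coeff i) = h.coeff i) (horb : ∀ c : C, ∃ m, 1 ≤ m ∧ ψ^[m] c = c)
    {M : Type*} [Field M] [Algebra C M] [Algebra L M] [IsScalarTower C L M] {Ψ : M ≃+* M}
    (hΨ : ∀ f : L, Ψ (algebraMap L M f) = algebraMap L M (ψL f))
    (horbM : ∀ z : M, ∃ m, 1 ≤ m ∧ Ψ^[m] z = z) :
    ∃ a₀ : ℕ, ∀ (n : ℕ) (z : M) (f u : L), z ≠ 0 → z ^ p ^ n = algebraMap L M f →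
      (∀ Q : ValuationSubring L, IsPlc C Q → DivAt (p ^ n) f Q) →
      Ψ z = z * algebraMap L M u → ∃ v : L, z ^ p ^ a₀ = algebraMap L M v := by
  have hq2 : 2 ≤ l ^ e := hl.two_le.trans (Nat.le_self_pow (by omega) l)
  have hroot : ∀ (m : ℕ) (ξ : C), 1 ≤ m → ξ ^ ((l ^ e) ^ m - 1) = 1 → ψ ξ = ξ ^ l ^ e := by
    intro m ξ hm hξ
    refine root_frob D.V hψ ?_ hξ
    rw [Nat.cast_sub (Nat.one_le_pow _ _ (by omega))]
    push_cast
    rw [hlκ, zero_pow (by omega), zero_pow (by omega), zero_sub]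
    exact neg_ne_zero.2 one_ne_zero
  have hper : ∀ z : κ, ∃ m, 1 ≤ m ∧ z ^ (l ^ e) ^ m = z := by
    intro z
    obtain ⟨c, hc⟩ := D.surjV z
    obtain ⟨m, hm, hcm⟩ := horb c
    refine ⟨m, hm, ?_⟩
    have h1 := R3_iter D.V hψ m hc
    rw [hcm] at h1
    exact h1.unique hc
  obtain ⟨κ₀, i1, i2, i3, i4, hfix⟩ := R3_field hl hlκ he hper
  let i5 : Algebra κ₀ k := ((algebraMap κ k).comp (algebraMap κ₀ κ)).toAlgebra
  have i6 : IsScalarTower κ₀ κ k := IsScalarTower.of_algebraMap_eq fun _ => rfl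
  have hhb : ∀ j, (hb.coeff j) ^ l ^ e = hb.coeff j := by
    intro j
    have h1 := hψ _ _ (G.hh j)
    rw [hh j] at h1
    exact h1.unique (G.hh j)
  obtain ⟨h₀, hh₀⟩ := R3_lift hfix hhb
  have H := G.supb hp
  rw [← hh₀] at H
  obtain ⟨a₀, ha₀⟩ := fb hp hpκ H
  refine ⟨a₀, ?_⟩
  intro n
  induction n with
  | zero =>
    intro z f u _ hzf _ _
    rw [pow_zero, pow_one] at hzf
    exact ⟨f ^ p ^ a₀, by rw [hzf, map_pow]⟩
  | succ n ih =>
    intro z f u hz hzf hdiv hu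
    rcases Nat.lt_or_ge a₀ (n + 1) with hn | hn
    · obtain ⟨v, hv⟩ := R3_step hp hpκ hl hlκ G hq2 hs hψ horb hroot hΨ horbM hfix (ha₀ (n + 1) hn) hz hzf hdiv hu
      refine ih z v u hz hv ?_ hu
      intro Q hQ
      refine R3_div_root hp.ne_zero ?_ (hdiv Q hQ)
      apply (algebraMap L M).injective
      rw [map_pow, ← hv, ← hzf, ← pow_mul, ← pow_succ]
    · obtain ⟨d, hd⟩ := Nat.exists_eq_add_of_le hn
      refine ⟨f ^ p ^ d, ?_⟩
      rw [map_pow, ← hzf, ← pow_mul, ← pow_add, ← hd]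

end Pool.Agent.Lib.MP_2f3286_ag.Gl
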