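import Pool.Agent.Lib.MP_2f3286_ag.Gl.JD
import Pool.Agent.Lib.MP_2f3286_ag.Gl.R3
import Pool.Agent.Lib.MP_2f3286_ag.Kummer

/-!
# Inertia and Frobenius elements on the classes of a subfield   (module GM2)

`L₁ ⊆ L ⊆ M`, `L` has good reduction; every `u ∈ L` with `u ^ (p ^ n) ∈ L₁` satisfies `u ^ p ∈ L₁` (`hker`).
PROOF of `trivial`. (a) For all `w` with `IsJ p C L₁ w` there is `u : L`, `u ≠ 0`, with `T w = w u` and `u ^ p ∈ L₁`: `w ^ (p ^ n) = f ∈ L₁`, `f ≠ 0`,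
`DivAt (p ^ n) f` at all places of `L` (`IsJ.tower`, `IsJ.divAt`), `r2`: `τ f = f u ^ (p ^ n)` and `T (w ^ (p ^ n)) = T.gL f`, whose image in `L` is `τ f` (`hτL`), so
`(T w / (w u)) ^ (p ^ n) = 1` in `M`, a root of unity, the image of an element of `C` (`root_of_unity_mem`), so in `L`: `T w = w u'`, `u' : L`;
`u' ^ (p ^ n) = T.gL f / f ∈ L₁`, so `u' ^ p ∈ L₁` (`hker`). (b) `hdivJ`: `w ^ p = z c`, `c ∈ L₁`; `T z = T w ^ p / T c = w ^ p u ^ p / T c = z * (c u ^ p / T.gL c)`.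
PROOF of `bounded`. `Ψ = Φ.g` iterated `p` times (a ring automorphism of `M`: `Φ.g ^ p` in `RingAut M`, or `Φ.g.trans ...`; its function is `Φ.g^[p]`), `ψ` with
`ψ c = Φ.gC^[p] c`, and `V.Has c z → V.Has (ψ c) (z ^ l ^ (e * p))` (iterate `hΦ`). `GRed.r3` with exponent `e * p ≥ 1`: `a₀`. (`horb` for `ψ`: if `Φ.gC^[m] c = c` then `ψ^[m] c = c`.) For `z`
with `IsJ p C L₁ z`, `Φ z = z u`: `Ψ z = z u'` with `u' ∈ L₁`; `IsJ p C L z` (`tower`), so `z ^ (p ^ a₀) ∈ L`, and some `p ^ n`-th power of `z` is in `L₁`, so is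
`(z ^ (p ^ a₀)) ^ (p ^ n)`, so `z ^ (p ^ (a₀ + 1)) ∈ L₁` by `hker`.
-/

open Polynomial IntermediateField

namespace Pool.Agent.Lib.MP_2f3286_ag.Gl

open Pool.Agent.Lib.MP_2f3286_ag.Fer (Plc)
open Pool.Agent.Lib.MP_2f3286_ag.Pt (IsPlc DivAt)

variable {p : ℕ} {C L₁ L M κ k : Type*} [Field C] [IsAlgClosed C] [CharZero C]
  [Field L₁] [Algebra C L₁] [Field L] [Algebra C L]
  [Algebra L₁ L] [IsScalarTower C L₁ L] [Field M] [Algebra L M] [Algebra C M]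
  [IsScalarTower C L M] [Algebra L₁ M] [IsScalarTower L₁ L M] [Field κ] [IsAlgClosed κ] [Field k]
  [Algebra κ k] {D : Red C L κ k} {x y : L} {h : C[X]} {xb yb : k} {hb : κ[X]}

private theorem gm2_equiv {M : Type*} [Field M] (g : M ≃+* M) (n : ℕ) :
    ∃ Ψ : M ≃+* M, ∀ z, Ψ z = g^[n] z := by
  induction n with
  | zero => exact ⟨RingEquiv.refl M, fun z => rfl⟩
  | succ n ih =>
    obtain ⟨Ψ, hΨ⟩ := ih
    refine ⟨Ψ.trans g, fun z => ?_⟩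
    rw [Function.iterate_succ_apply', ← hΨ]
    rfl

private theorem gm2_orb {A : Type*} (g ψ : A → A) (n : ℕ) (hψ : ∀ c, ψ c = g^[n] c) {c : A} {m : ℕ}
    (h : g^[m] c = c) : ψ^[m] c = c := by
  have h1 : ψ = g^[n] := funext hψ
  rw [h1, ← Function.iterate_mul, mul_comm, Function.iterate_mul]
  exact Function.iterate_fixed h n

omit [IsAlgClosed κ] [CharZero C] [IsAlgClosed C] in
private theorem gm2_iter {g : C ≃+* C} {q : ℕ} (hg : ∀ c z, D.V.Has c z → D.V.Has (g c) (z ^ q))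
    (n : ℕ) {c : C} {z : κ} (h : D.V.Has c z) : D.V.Has (g^[n] c) (z ^ q ^ n) := by
  induction n with
  | zero => rw [pow_zero, pow_one]; exact h
  | succ m ih =>
    rw [Function.iterate_succ_apply', pow_succ, pow_mul]
    exact hg _ _ ih

/-- the part (a) of the proof of `trivial` -/
private theorem gm2_a (hp : p.Prime) (hpκ : (p : κ) ≠ 0) (G : GRed p D x y h xb yb hb)
    (hker : ∀ (u : L) (n : ℕ), (∃ f : L₁, u ^ p ^ n = algebraMap L₁ L f) →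
      ∃ f : L₁, u ^ p = algebraMap L₁ L f)
    {T : SAut C L₁ M} {τ : L ≃+* L} (hτ : IsSemi x y T.gC τ)
    (hδ : ∀ c z, D.V.Has c z → D.V.Has (T.gC c) z)
    (hτL : ∀ f : L₁, τ (algebraMap L₁ L f) = algebraMap L₁ L (T.gL f)) {w : M}
    (hw : IsJ p C L₁ w) :
    ∃ (u : L) (g : L₁), T.g w = w * algebraMap L M u ∧ u ^ p = algebraMap L₁ L g := by
  have hinj : Function.Injective (algebraMap L M) := (algebraMap L M).injective
  have hinj1 : Function.Injective (algebraMap L₁ L) := (algebraMap L₁ L).injective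
  have hwL : IsJ p C L w := hw.tower
  obtain ⟨hw0, n, f, hf, hdf⟩ := hw
  have hfL : w ^ p ^ n = algebraMap L M (algebraMap L₁ L f) := by
    rw [hf, IsScalarTower.algebraMap_apply L₁ L M]
  have hdiv : ∀ Q : ValuationSubring L, IsPlc C Q → DivAt (p ^ n) (algebraMap L₁ L f) Q :=
    fun Q hQ => hwL.divAt hp hfL Q hQ
  have hpn : p ^ n ≠ 0 := pow_ne_zero _ hp.ne_zero
  have hf0 : algebraMap L₁ L f ≠ 0 := by
    intro h0
    rw [h0, map_zero] at hfL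
    exact hw0 ((pow_eq_zero_iff hpn).1 hfL)
  obtain ⟨u, hu0, hu⟩ := G.r2 hp hpκ hτ hδ n hf0 hdiv
  have huM : algebraMap L M u ≠ 0 := (map_ne_zero_iff _ hinj).2 hu0
  have h1 : T.g w ^ p ^ n = (w * algebraMap L M u) ^ p ^ n := by
    rw [← map_pow, hf, T.hL, mul_pow, hfL, ← map_pow, ← map_mul, ← hu, hτL,
      IsScalarTower.algebraMap_apply L₁ L M]
  have hwu : w * algebraMap L M u ≠ 0 := mul_ne_zero hw0 huM
  have h2 : (T.g w / (w * algebraMap L M u)) ^ p ^ n = 1 := by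
    rw [div_pow, h1, div_self (pow_ne_zero _ hwu)]
  obtain ⟨c, hc⟩ := root_of_unity_mem C M (pow_pos hp.pos n) h2
  rw [eq_div_iff hwu] at hc
  have h3 : T.g w = w * algebraMap L M (u * algebraMap C L c) := by
    rw [map_mul, ← IsScalarTower.algebraMap_apply C L M, ← hc]
    ring
  have h4 : (u * algebraMap C L c) ^ p ^ n = algebraMap L₁ L (T.gL f / f) := by
    apply hinj
    have h5 : T.g w ^ p ^ n = w ^ p ^ n * algebraMap L M ((u * algebraMap C L c) ^ p ^ n) := by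
      rw [h3, mul_pow, map_pow]
    rw [← map_pow, hf, T.hL, IsScalarTower.algebraMap_apply L₁ L M, IsScalarTower.algebraMap_apply L₁ L M] at h5
    have h6 : algebraMap L M (algebraMap L₁ L f) ≠ 0 := (map_ne_zero_iff _ hinj).2 hf0
    rw [map_div₀, map_div₀, h5, mul_div_cancel_left₀ _ h6]
  obtain ⟨g, hg⟩ := hker _ n ⟨_, h4⟩
  exact ⟨_, g, h3, hg⟩

theorem GRed.trivial (hp : p.Prime) (hpκ : (p : κ) ≠ 0) (G : GRed p D x y h xb yb hb)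
    (hker : ∀ (u : L) (n : ℕ), (∃ f : L₁, u ^ p ^ n = algebraMap L₁ L f) →
      ∃ f : L₁, u ^ p = algebraMap L₁ L f)
    (hdivJ : ∀ z : M, IsJ p C L₁ z →
      ∃ w : M, IsJ p C L₁ w ∧ ∃ c : L₁, c ≠ 0 ∧ w ^ p = z * algebraMap L₁ M c)
    {T : SAut C L₁ M} {τ : L ≃+* L} (hτ : IsSemi x y T.gC τ)
    (hδ : ∀ c z, D.V.Has c z → D.V.Has (T.gC c) z)
    (hτL : ∀ f : L₁, τ (algebraMap L₁ L f) = algebraMap L₁ L (T.gL f)) {z : M}
    (hz : IsJ p C L₁ z) : ∃ u : L₁, T.g z = z * algebraMap L₁ M u := by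
  obtain ⟨w, hw, c, hc, hwz⟩ := hdivJ z hz
  obtain ⟨u, g, hu, hg⟩ := gm2_a hp hpκ G hker hτ hδ hτL hw
  have hinjM : Function.Injective (algebraMap L₁ M) := (algebraMap L₁ M).injective
  have hTc : T.gL c ≠ 0 := (map_ne_zero_iff _ T.gL.injective).2 hc
  have hTcM : algebraMap L₁ M (T.gL c) ≠ 0 := (map_ne_zero_iff _ hinjM).2 hTc
  refine ⟨c * g * (T.gL c)⁻¹, ?_⟩
  have h1 : T.g z * algebraMap L₁ M (T.gL c) = z * algebraMap L₁ M c * algebraMap L₁ M g := by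
    rw [← T.hL, ← map_mul, ← hwz, map_pow, hu, mul_pow, ← map_pow, hg,
      ← IsScalarTower.algebraMap_apply L₁ L M]
  rw [map_mul, map_mul, map_inv₀, ← mul_assoc, ← mul_assoc, ← h1, mul_assoc, mul_inv_cancel₀ hTcM, mul_one]

theorem GRed.bounded [Algebra.IsAlgebraic ℚ C] (hp : p.Prime) (hpκ : (p : κ) ≠ 0) {l : ℕ}
    (hl : l.Prime) (hlκ : (l : κ) = 0) (G : GRed p D x y h xb yb hb)
    (hker : ∀ (u : L) (n : ℕ), (∃ f : L₁, u ^ p ^ n = algebraMap L₁ L f) →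
      ∃ f : L₁, u ^ p = algebraMap L₁ L f)
    {e : ℕ} (he : 1 ≤ e) {Φ : SAut C L₁ M} {ψ : C ≃+* C} (hψ : ∀ c, ψ c = Φ.gC^[p] c)
    {ψL : L ≃+* L} (hs : IsSemi x y ψ ψL)
    (hΨ : ∀ f : L, Φ.g^[p] (algebraMap L M f) = algebraMap L M (ψL f))
    (hΦ : ∀ c z, D.V.Has c z → D.V.Has (Φ.gC c) (z ^ l ^ e))
    (hh : ∀ i, Φ.gC (h.coeff i) = h.coeff i) (horb : ∀ c : C, ∃ m, 1 ≤ m ∧ Φ.gC^[m] c = c)
    (horbM : ∀ z : M, ∃ m, 1 ≤ m ∧ Φ.g^[m] z = z) :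
    ∃ a₀ : ℕ, ∀ z : M, IsJ p C L₁ z → (∃ u : L₁, Φ.g z = z * algebraMap L₁ M u) →
      ∃ v : L₁, z ^ p ^ a₀ = algebraMap L₁ M v := by
  obtain ⟨Ψ, hΨ'⟩ := gm2_equiv Φ.g p
  have hep : 1 ≤ e * p := Nat.mul_pos he hp.pos
  have h1 : ∀ c z, D.V.Has c z → D.V.Has (ψ c) (z ^ l ^ (e * p)) := by
    intro c z hcz
    rw [hψ, pow_mul l e p]
    exact gm2_iter hΦ p hcz
  have h2 : ∀ i, ψ (h.coeff i) = h.coeff i := by
    intro i
    rw [hψ]
    exact Function.iterate_fixed (hh i) p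
  have h3 : ∀ c : C, ∃ m, 1 ≤ m ∧ ψ^[m] c = c := by
    intro c
    obtain ⟨m, hm, hc⟩ := horb c
    exact ⟨m, hm, gm2_orb _ _ p hψ hc⟩
  have h4 : ∀ z : M, ∃ m, 1 ≤ m ∧ Ψ^[m] z = z := by
    intro z
    obtain ⟨m, hm, hc⟩ := horbM z
    exact ⟨m, hm, gm2_orb _ _ p hΨ' hc⟩
  have h5 : ∀ f : L, Ψ (algebraMap L M f) = algebraMap L M (ψL f) := by
    intro f
    rw [hΨ', hΨ]
  obtain ⟨a₀, ha₀⟩ := G.r3 hp hpκ hl hlκ hep hs h1 h2 h3 h5 h4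
  refine ⟨a₀ + 1, ?_⟩
  intro z hz hu
  obtain ⟨u, hu⟩ := hu
  have hi : ∀ i : ℕ, ∃ v : L₁, Φ.g^[i] z = z * algebraMap L₁ M v := by
    intro i
    induction i with
    | zero => exact ⟨1, by rw [map_one, mul_one]; rfl⟩
    | succ i ih =>
      obtain ⟨v, hv⟩ := ih
      refine ⟨u * Φ.gL v, ?_⟩
      rw [Function.iterate_succ_apply', hv, map_mul, Φ.hL, hu, map_mul, mul_assoc]
  obtain ⟨v', hv'⟩ := hi p
  have h6 : Ψ z = z * algebraMap L M (algebraMap L₁ L v') := by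
    rw [hΨ', hv', IsScalarTower.algebraMap_apply L₁ L M]
  have hzL : IsJ p C L z := hz.tower
  obtain ⟨hz0, n, f, hf, hdf⟩ := hzL
  obtain ⟨v, hv⟩ := ha₀ n z f _ hz0 hf hdf h6
  obtain ⟨-, n₁, f₁, hf₁, -⟩ := hz
  have h7 : v ^ p ^ n₁ = algebraMap L₁ L (f₁ ^ p ^ a₀) := by
    apply (algebraMap L M).injective
    rw [← IsScalarTower.algebraMap_apply L₁ L M, map_pow, map_pow, ← hv, ← hf₁, ← pow_mul, ← pow_mul,
      mul_comm]
  obtain ⟨f₂, hf₂⟩ := hker v n₁ ⟨_, h7⟩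
  refine ⟨f₂, ?_⟩
  rw [pow_succ, pow_mul, hv, ← map_pow, hf₂, ← IsScalarTower.algebraMap_apply L₁ L M]

end Pool.Agent.Lib.MP_2f3286_ag.Gl
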