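import Pool.Agent.Lib.MP_2f3286_ag.Fer.Ty.LC

/-!
# Inertia and Frobenius elements at a place which does not divide `p`, with the valuation ring   (module LPX)

PROOF of `exists_frob2`. The proof of `BV.exists_frob` (Fer/Ty/LB2.lean) gives `q = Fintype.card (𝓞 F ⧸ w.asIdeal)`, the order of a finite field, so `q = l ^ e` with a prime `l`, the
characteristic, and `e ≥ 1` (`FiniteField.card'`), and `(l : 𝓞 F) ∈ w.asIdeal` (see `exists_BV` in the same file). Copy it.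
PROOF of `local_pair2`. As `local_pair` (Fer/Ty/LC.lean), whose proof constructs all these data (`D = exists_BV`, `V = D.V`): `l ∈ D.Q` so `V (l) < 1` (`D.lt`); `V (p) = 1` so
`l ≠ p`; `x` with `w x ≤ 1`: `x b = a` with `a, b : 𝓞 F`, `b ∉ w` (see `BV.val_of_unit`), so `x ∈ V`; `w x = 1`: `BV.val_of_unit`. The relation on `pcl`: `rel_pcl`.
PROOF of `inert_root` and `inert_PV`: in the proof of `local_pair` (`key`): `y ^ (p ^ n) = u`, `V u = 1`, `σ u = u`, so `V y = 1`, `σ y / y ≡ 1` (`inert_unit`) is a root of unity of order a power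
of `p`, so `σ y = y` (`root_eq_one`). For `PV p w e`, `w e = w t ^ p`: `u = e / t ^ p`, a `w`-unit, so `V u = 1` (hypothesis `hunit`).
PROOF of `inert_order` (LEMMA P). We may enlarge `E` to its normal closure (finite), so `ω` maps `E` to itself and has finite order `n` on `E`; write `n = p ^ a * N`, `¬ p ∣ N`. If
`a = 0` we are done with `N`. Suppose `a ≥ 1`, `ω' = ω ^ (p ^ (a - 1) * N)`: `ω' ^ p` is trivial on `E`, `ω'` is not: `ω' x ≠ x` for some `x ∈ E`. `γ_j = ∑ i < p, ζ ^ (-i j) ω' ^ i x`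
(`j < p`, `ζ ∈ F`), `ω' γ_j = ζ ^ j γ_j`, `∑_j γ_j = p x`, so some `γ_j ≠ 0` with `0 < j < p` (otherwise `p x = γ_0` is fixed). Let `γ = γ_j`, `ω' γ = ζ' γ`, `ζ'` a primitive `p`-th root of
unity. `Full.exists_pow_value` (`F → kb`, `V`): `V (γ ^ m) = V (c)` with `m ≥ 1`, `c ∈ F`, `c ≠ 0`. `m = p ^ b * m'`, `¬ p ∣ m'`. `c₁ ^ (p ^ b) = c` in `kb`, `c₁ ∈ pcl p F kb`
(`pcl_root_pow`), so `ω c₁ = c₁`, `ω' c₁ = c₁`. `V (γ ^ m') ^ (p ^ b) = V (c₁) ^ (p ^ b)`, so `V (γ ^ m') = V c₁`. `inert_class` for `ω'` (a power of `ω`, also inertial: by induction):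
`V ((ω' (γ ^ m') / γ ^ m') / (ω' c₁ / c₁) - 1) < 1`, i.e. `V (ζ' ^ m' - 1) < 1`, so `ζ' ^ m' = 1` (`root_eq_one`), `p ∣ m'`, contradiction.
-/

open IsDedekindDomain NumberField

namespace Pool.Agent.Lib.MP_2f3286_ag.Gl

open Pool.Agent.Lib.MP_2f3286_ag.Fer (PV)
open Pool.Agent.Lib.MP_2f3286_ag.Fer.Ty

variable {F : Type*} [Field F] [NumberField F] {kb : Type*} [Field kb] [Algebra F kb]
  [IsGalois F kb]

theorem exists_frob2 (D : BV kb) (hDm : D.Q.IsMaximal) (w : HeightOneSpectrum (𝓞 F))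
    (hw : ∀ a : 𝓞 F, jB F kb a ∈ D.Q ↔ a ∈ w.asIdeal) :
    ∃ (Φ : Gal(kb/F)) (l e : ℕ), l.Prime ∧ 1 ≤ e ∧ (l : 𝓞 F) ∈ w.asIdeal ∧
      (∀ b : integralClosure ℤ kb, Φ • b ∈ D.Q ↔ b ∈ D.Q) ∧
      ∀ b : integralClosure ℤ kb, Φ • b - b ^ l ^ e ∈ D.Q := by
  have hprime := D.prime
  let iA : Algebra (𝓞 F) (integralClosure ℤ kb) := (jB F kb).toAlgebra
  have hintZ : Algebra.IsIntegral ℤ (integralClosure ℤ kb) := integralClosure.AlgebraIsIntegral
  have t1 : IsScalarTower ℤ (𝓞 F) (integralClosure ℤ kb) :=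
    IsScalarTower.of_algebraMap_eq fun a => by
      rw [eq_intCast, eq_intCast, map_intCast]
  have hintB : Algebra.IsIntegral (𝓞 F) (integralClosure ℤ kb) :=
    Algebra.IsIntegral.tower_top ℤ
  have hwm : w.asIdeal.IsMaximal := w.isMaximal
  have hlo : D.Q.LiesOver w.asIdeal := ⟨by
    ext a
    exact (hw a).symm⟩
  have hfin : Finite (𝓞 F ⧸ w.asIdeal) := Ideal.finiteQuotientOfFreeOfNeBot w.asIdeal w.ne_bot
  let iF : Field (𝓞 F ⧸ w.asIdeal) := Ideal.Quotient.field w.asIdeal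
  let iFt : Fintype (𝓞 F ⧸ w.asIdeal) := Fintype.ofFinite _
  let iL : Field (integralClosure ℤ kb ⧸ D.Q) := Ideal.Quotient.field D.Q
  have hint : Algebra.IsIntegral (𝓞 F ⧸ w.asIdeal) (integralClosure ℤ kb ⧸ D.Q) := inferInstance
  have halg : Algebra.IsAlgebraic (𝓞 F ⧸ w.asIdeal) (integralClosure ℤ kb ⧸ D.Q) := inferInstance
  let σ₀ : (integralClosure ℤ kb ⧸ D.Q) ≃ₐ[𝓞 F ⧸ w.asIdeal] (integralClosure ℤ kb ⧸ D.Q) :=
    FiniteField.frobeniusAlgEquivOfAlgebraic (𝓞 F ⧸ w.asIdeal) (integralClosure ℤ kb ⧸ D.Q)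
  have hσ₀ : ∀ x, σ₀ x = x ^ Fintype.card (𝓞 F ⧸ w.asIdeal) := fun x => rfl
  obtain ⟨Φ, -, h1, h2⟩ := lift_residue (H := (⊤ : Subgroup Gal(kb/F))) isClosed_univ D.Q
    (σ₀ : _ ≃+* _) (fun b hb => by
      obtain ⟨a, rfl⟩ := exists_of_fixed (F := F) b fun g => hb g (Subgroup.mem_top g)
      exact σ₀.commutes (Ideal.Quotient.mk w.asIdeal a))
  obtain ⟨l, hl⟩ := CharP.exists (𝓞 F ⧸ w.asIdeal)
  obtain ⟨e, hlp, hcard⟩ := FiniteField.card (𝓞 F ⧸ w.asIdeal) l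
  have hlw : (l : 𝓞 F) ∈ w.asIdeal := by
    rw [← Ideal.Quotient.eq_zero_iff_mem, map_natCast]
    exact CharP.cast_eq_zero _ l
  refine ⟨Φ, l, (e : ℕ), hlp, e.2, hlw, h1, fun b => ?_⟩
  rw [← Ideal.Quotient.eq, h2, map_pow, ← hcard]
  rfl

theorem local_pair2 [IsAlgClosed kb] {p : ℕ} (hp : p.Prime) {ζ : F} (hζ : IsPrimitiveRoot ζ p)
    (w : HeightOneSpectrum (𝓞 F)) (hpw : (p : 𝓞 F) ∉ w.asIdeal) {c : F} (hc0 : c ≠ 0)
    (hc : ¬ PV p w c) {γ : kb} (hγ : γ ^ p = algebraMap F kb c) :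
    ∃ (V : ValuationSubring kb) (δ Φ : Gal(kb/F)) (l e : ℕ), l.Prime ∧ l ≠ p ∧ 1 ≤ e ∧
      V.valuation (l : kb) < 1 ∧ V.valuation (p : kb) = 1 ∧
      (∀ x : F, w.valuation F x ≤ 1 → algebraMap F kb x ∈ V) ∧
      (∀ x : F, w.valuation F x = 1 → V.valuation (algebraMap F kb x) = 1) ∧
      (∀ x, δ x ∈ V ↔ x ∈ V) ∧ (∀ x, Φ x ∈ V ↔ x ∈ V) ∧
      (∀ x ∈ V, V.valuation (δ x - x) < 1) ∧
      (∀ x ∈ V, V.valuation (Φ x - x ^ l ^ e) < 1) ∧ δ γ ≠ γ ∧
      ∀ t ∈ pcl p F kb, Φ (δ t) = (δ ^ l ^ e) (Φ t) := by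
  obtain ⟨D, hDm, hD⟩ := exists_BV (F := F) (kb := kb) w
  have hDp := D.prime
  obtain ⟨Φ, l, e, hl, he, hlw, hΦQ, hΦ⟩ := exists_frob2 D hDm w hD
  obtain ⟨δ, hδQ, hδ, hδγ⟩ := exists_inertia D.Q w hD hp hζ hc0 hc hγ
  have hδV := D.stab hδQ
  have hΦV := D.stab hΦQ
  have hδ1 : ∀ x ∈ D.V, D.V.valuation (δ x - x) < 1 := by
    intro x hx
    have h1 := D.approx (n := 1) hδQ (fun b => by rw [pow_one]; exact hδ b) hx
    rwa [pow_one] at h1
  have hΦq : ∀ x ∈ D.V, D.V.valuation (Φ x - x ^ l ^ e) < 1 := fun x hx => D.approx hΦQ hΦ hx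
  have hVp : D.V.valuation (p : kb) = 1 := by
    have h1 := D.eq (jB F kb (p : 𝓞 F)) (by rw [hD]; exact hpw)
    rw [jB_coe] at h1
    have h2 : algebraMap F kb ((p : 𝓞 F) : F) = (p : kb) := by
      have h3 : ((p : 𝓞 F) : F) = (p : F) := map_natCast (algebraMap (𝓞 F) F) p
      rw [h3, map_natCast]
    rwa [h2] at h1
  have hVl : D.V.valuation (l : kb) < 1 := by
    have h1 := D.lt (jB F kb (l : 𝓞 F)) (by rw [hD]; exact hlw)
    rw [jB_coe] at h1
    have h2 : algebraMap F kb ((l : 𝓞 F) : F) = (l : kb) := by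
      have h3 : ((l : 𝓞 F) : F) = (l : F) := map_natCast (algebraMap (𝓞 F) F) l
      rw [h3, map_natCast]
    rwa [h2] at h1
  refine ⟨D.V, δ, Φ, l, e, hl, ?_, he, hVl, hVp, ?_, ?_, hδV, hΦV, hδ1, hΦq, hδγ, fun t ht =>
    rel_pcl hδV hΦV hδ1 hΦq hp hVp ht⟩
  · rintro rfl
    rw [hVp] at hVl
    exact lt_irrefl _ hVl
  · intro x hx
    obtain ⟨a, ⟨b, hb⟩, hab⟩ := w.exists_primeCompl_mul_eq_of_integer x hx
    have hb' : b ∉ w.asIdeal := hb
    have h1 : x * (b : F) = (a : F) := hab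
    have e1 := D.eq (jB F kb b) (by rw [hD]; exact hb')
    have e2 : D.V.valuation ((jB F kb a : integralClosure ℤ kb) : kb) ≤ 1 :=
      (D.V.valuation_le_one_iff _).2 (D.mem _)
    rw [jB_coe] at e1 e2
    rw [← h1, map_mul, map_mul, e1, mul_one] at e2
    exact (D.V.valuation_le_one_iff _).1 e2
  · intro x hx
    exact D.val_of_unit hD hx

section

variable {V : ValuationSubring kb} {σ : Gal(kb/F)}

theorem inert_root {p : ℕ} (hp : p.Prime) (hVp : V.valuation (p : kb) = 1)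
    (hσ : ∀ x ∈ V, V.valuation (σ x - x) < 1) {n : ℕ} {u y : kb} (hu : V.valuation u = 1)
    (hσu : σ u = u) (hy : y ^ p ^ n = u) : σ y = y := by
  have hn : p ^ n ≠ 0 := pow_ne_zero _ hp.ne_zero
  have hvy : V.valuation y = 1 := by
    have h1 : V.valuation y ^ p ^ n = 1 := by rw [← map_pow, hy, hu]
    exact (pow_eq_one_iff.1 h1).resolve_right hn
  have hy0 : y ≠ 0 := by
    rintro rfl
    rw [map_zero] at hvy
    exact zero_ne_one hvy
  have hu0 : u ≠ 0 := by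
    rintro rfl
    rw [map_zero] at hu
    exact zero_ne_one hu
  have h1 := inert_unit hσ hvy
  have h2 : (σ y / y) ^ p ^ n = 1 := by
    rw [div_pow, ← map_pow, hy, hσu, div_self hu0]
  exact (div_eq_one_iff_eq hy0).1 (root_eq_one hp V hVp h2 h1)

theorem inert_PV {p : ℕ} (hp : p.Prime) (hVp : V.valuation (p : kb) = 1)
    (hσ : ∀ x ∈ V, V.valuation (σ x - x) < 1) {w : HeightOneSpectrum (𝓞 F)}
    (hunit : ∀ x : F, w.valuation F x = 1 → V.valuation (algebraMap F kb x) = 1) {e : F}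
    (he : e ≠ 0) (hPe : PV p w e) {y : kb} (hy : y ^ p = algebraMap F kb e) : σ y = y := by
  obtain ⟨t, ht, het⟩ := hPe
  have ht' : algebraMap F kb t ≠ 0 := by rwa [Ne, map_eq_zero]
  have h1 : w.valuation F (e / t ^ p) = 1 := by
    rw [map_div₀, map_pow, het, div_self]
    exact pow_ne_zero _ (by rwa [Ne, Valuation.zero_iff])
  have h2 := inert_root (n := 1) (u := algebraMap F kb (e / t ^ p)) (y := y / algebraMap F kb t)
    hp hVp hσ (hunit _ h1)
    (σ.commutes _) (by rw [pow_one, div_pow, hy, map_div₀, map_pow])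
  rw [map_div₀, σ.commutes] at h2
  exact (div_left_inj' ht').1 h2

private theorem LPX_inert_pow (hσV : ∀ x, σ x ∈ V ↔ x ∈ V)
    (hσ : ∀ x ∈ V, V.valuation (σ x - x) < 1) (n : ℕ) :
    ∀ x ∈ V, V.valuation ((σ ^ n) x - x) < 1 := by
  induction n with
  | zero =>
    intro x _
    rw [pow_zero, AlgEquiv.one_apply, sub_self, map_zero]
    exact zero_lt_one
  | succ n ih =>
    intro x hx
    have h1 := ih (σ x) ((hσV x).2 hx)
    have h2 := hσ x hx
    have h3 : (σ ^ (n + 1)) x - x = ((σ ^ n) (σ x) - σ x) + (σ x - x) := by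
      rw [pow_succ, AlgEquiv.mul_apply]
      ring
    rw [h3]
    exact V.valuation.map_add_lt h1 h2

/-- a resolvent -/
private theorem LPX_resolvent {p : ℕ} (hp : p.Prime) {z : kb} (hz : IsPrimitiveRoot z p)
    (hpk : (p : kb) ≠ 0) {ω : Gal(kb/F)} (hωz : ω z = z) {x : kb} (hx : (ω ^ p) x = x)
    (hne : ω x ≠ x) : ∃ (γ ξ : kb), γ ≠ 0 ∧ ξ ^ p = 1 ∧ ξ ≠ 1 ∧ ω γ = ξ * γ := by
  classical
  have hz0 : z ≠ 0 := hz.ne_zero hp.ne_zero
  have hωp : ∀ k : ℕ, ω (z ^ k) = z ^ k := fun k => by rw [map_pow, hωz]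
  -- the resolvents
  have key : ∀ j : ℕ, ω (∑ i ∈ Finset.range p, (z ^ j) ^ i * (ω ^ i) x) =
      (z ^ j)⁻¹ * ∑ i ∈ Finset.range p, (z ^ j) ^ i * (ω ^ i) x := by
    intro j
    have hzj : z ^ j ≠ 0 := pow_ne_zero _ hz0
    have e1 : ω (∑ i ∈ Finset.range p, (z ^ j) ^ i * (ω ^ i) x) =
        (z ^ j)⁻¹ * ∑ i ∈ Finset.range p, (z ^ j) ^ (i + 1) * (ω ^ (i + 1)) x := by
      rw [map_sum, Finset.mul_sum]
      refine Finset.sum_congr rfl fun i _ => ?_
      rw [map_mul, map_pow, hωp, pow_succ' ω i, AlgEquiv.mul_apply, pow_succ' (z ^ j) i,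
        ← mul_assoc, ← mul_assoc, inv_mul_cancel₀ hzj, one_mul]
    rw [e1]
    congr 1
    have e2 := Finset.sum_range_succ' (fun i => (z ^ j) ^ i * (ω ^ i) x) p
    have e3 := Finset.sum_range_succ (fun i => (z ^ j) ^ i * (ω ^ i) x) p
    have e4 : (z ^ j) ^ p * (ω ^ p) x = (z ^ j) ^ 0 * (ω ^ 0) x := by
      rw [hx, pow_zero, pow_zero, AlgEquiv.one_apply, one_mul, ← pow_mul, mul_comm j p, pow_mul,
        hz.pow_eq_one, one_pow, one_mul]
    rw [e2] at e3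
    rw [e4] at e3
    exact add_right_cancel e3
  by_cases hall : ∀ j, 0 < j → j < p → ∑ i ∈ Finset.range p, (z ^ j) ^ i * (ω ^ i) x = 0
  · exfalso
    -- the sum of all resolvents
    have s1 : ∑ j ∈ Finset.range p, ∑ i ∈ Finset.range p, (z ^ j) ^ i * (ω ^ i) x = p * x := by
      rw [Finset.sum_comm]
      rw [Finset.sum_eq_single 0]
      · simp
      · intro i hi hi0
        rw [← Finset.sum_mul]
        have hi' := Finset.mem_range.1 hi
        have hzi : z ^ i ≠ 1 := hz.pow_ne_one_of_pos_of_lt hi0 hi'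
        have g1 : (∑ j ∈ Finset.range p, (z ^ j) ^ i) * (z ^ i - 1) = 0 := by
          have g2 : ∀ j ∈ Finset.range p, (z ^ j) ^ i = (z ^ i) ^ j := fun j _ => by
            rw [← pow_mul, ← pow_mul, mul_comm]
          rw [Finset.sum_congr rfl g2, geom_sum_mul, ← pow_mul, mul_comm i p, pow_mul,
            hz.pow_eq_one, one_pow, sub_self]
        have g3 := (mul_eq_zero.1 g1).resolve_right (sub_ne_zero.2 hzi)
        rw [g3, zero_mul]
      · intro h0
        exact absurd (Finset.mem_range.2 hp.pos) h0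
    have s2 : ∑ j ∈ Finset.range p, ∑ i ∈ Finset.range p, (z ^ j) ^ i * (ω ^ i) x =
        ∑ i ∈ Finset.range p, (z ^ 0) ^ i * (ω ^ i) x := by
      rw [Finset.sum_eq_single 0]
      · intro j hj hj0
        exact hall j (Nat.pos_of_ne_zero hj0) (Finset.mem_range.1 hj)
      · intro h0
        exact absurd (Finset.mem_range.2 hp.pos) h0
    have s3 := key 0
    rw [← s2, s1, pow_zero, inv_one, one_mul, map_mul, map_natCast] at s3
    exact hne (mul_left_cancel₀ hpk s3)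
  · push Not at hall
    obtain ⟨j, hj0, hjp, hj⟩ := hall
    refine ⟨_, (z ^ j)⁻¹, hj, ?_, ?_, key j⟩
    · rw [inv_pow, ← pow_mul, mul_comm j p, pow_mul, hz.pow_eq_one, one_pow, inv_one]
    · intro h1
      rw [inv_eq_one] at h1
      exact hz.pow_ne_one_of_pos_of_lt hj0.ne' hjp h1

theorem inert_order [IsAlgClosed kb] {p : ℕ} (hp : p.Prime) {ζ : F} (hζ : IsPrimitiveRoot ζ p)
    (hVp : V.valuation (p : kb) = 1) (hσV : ∀ x, σ x ∈ V ↔ x ∈ V)
    (hσ : ∀ x ∈ V, V.valuation (σ x - x) < 1) (hpcl : ∀ t ∈ pcl p F kb, σ t = t)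
    (E : IntermediateField F kb) [FiniteDimensional F E] :
    ∃ N : ℕ, ¬ p ∣ N ∧ ∀ x ∈ E, (σ ^ N) x = x := by
  classical
  have hz : IsPrimitiveRoot (algebraMap F kb ζ) p := hζ.map_of_injective (algebraMap F kb).injective
  have hchar : CharZero kb := charZero_of_injective_algebraMap (algebraMap F kb).injective
  have hpk : (p : kb) ≠ 0 := Nat.cast_ne_zero.2 hp.ne_zero
  -- the normal closure
  set E' : IntermediateField F kb := IntermediateField.normalClosure F E kb with hE'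
  have hEE' : E ≤ E' := E.le_normalClosure
  have hfd : FiniteDimensional F E' := inferInstance
  have hnor : Normal F E' := inferInstance
  have hstab : ∀ g : Gal(kb/F), ∀ x ∈ E', g x ∈ E' := by
    intro g x hx
    have h1 := AlgEquiv.restrictNormal_commutes g E' ⟨x, hx⟩
    have h2 : algebraMap E' kb (g.restrictNormal E' ⟨x, hx⟩) = g x := h1
    rw [← h2]
    exact (g.restrictNormal E' ⟨x, hx⟩).2
  -- a power which is trivial
  obtain ⟨n, hn0, hn⟩ : ∃ n : ℕ, n ≠ 0 ∧ ∀ x ∈ E', (σ ^ n) x = x := by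
    set ρ := AlgEquiv.restrictNormalHom E' σ with hρ
    have hfinG : Finite Gal(E'/F) := inferInstance
    refine ⟨orderOf ρ, (orderOf_pos ρ).ne', fun x hx => ?_⟩
    have h1 : AlgEquiv.restrictNormalHom E' (σ ^ orderOf ρ) = 1 := by
      rw [map_pow, ← hρ, pow_orderOf_eq_one]
    have h2 := AlgEquiv.restrictNormal_commutes (σ ^ orderOf ρ) E' ⟨x, hx⟩
    have h3 : (σ ^ orderOf ρ).restrictNormal E' = 1 := h1
    rw [h3] at h2
    exact h2.symm
  obtain ⟨a, N, hN, hnN⟩ := Nat.exists_eq_pow_mul_and_not_dvd hn0 p hp.ne_one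
  subst hnN
  clear hn0
  -- descent
  have hdesc : ∀ a : ℕ, (∀ x ∈ E', (σ ^ (p ^ (a + 1) * N)) x = x) →
      ∀ x ∈ E', (σ ^ (p ^ a * N)) x = x := by
    intro a ha x hx
    by_contra hne
    set ω : Gal(kb/F) := σ ^ (p ^ a * N) with hω
    have hωp : (ω ^ p) x = x := by
      rw [hω, ← pow_mul]
      have h1 := ha x hx
      rwa [pow_succ, mul_assoc, mul_comm p N, ← mul_assoc] at h1
    obtain ⟨γ, ξ, hγ0, hξp, hξ1, hγ⟩ := LPX_resolvent hp hz hpk (ω.commutes ζ) hωp hne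
    have hωV : ∀ y ∈ V, V.valuation (ω y - y) < 1 := LPX_inert_pow hσV hσ _
    obtain ⟨m, c, hm, hc, hv⟩ := Full.exists_pow_value (E := F) V hγ0
      (Algebra.IsAlgebraic.isAlgebraic γ)
    obtain ⟨b, m', hm', hmm⟩ := Nat.exists_eq_pow_mul_and_not_dvd (by omega : m ≠ 0) p hp.ne_one
    obtain ⟨c₁, hc₁⟩ := IsAlgClosed.exists_pow_nat_eq (algebraMap F kb c) (pow_pos hp.pos b)
    have hc₁m : c₁ ∈ pcl p F kb := pcl_root_pow b (by rw [hc₁]; exact algebraMap_mem _ c)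
    have hσc : σ c₁ = c₁ := hpcl c₁ hc₁m
    have hωc : ω c₁ = c₁ := by
      rw [hω]
      have h1 : ∀ k : ℕ, (σ ^ k) c₁ = c₁ := by
        intro k
        induction k with
        | zero => rw [pow_zero, AlgEquiv.one_apply]
        | succ k ih => rw [pow_succ, AlgEquiv.mul_apply, hσc, ih]
      exact h1 _
    have hc₁0 : c₁ ≠ 0 := by
      rintro rfl
      rw [zero_pow (pow_ne_zero _ hp.ne_zero)] at hc₁
      exact hc ((map_eq_zero _).1 hc₁.symm)
    have hγm : γ ^ m' ≠ 0 := pow_ne_zero _ hγ0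
    have hvv : V.valuation (γ ^ m') = V.valuation c₁ := by
      have h1 : (V.valuation (γ ^ m' / c₁)) ^ p ^ b = 1 := by
        rw [← map_pow, div_pow, ← pow_mul, mul_comm m' (p ^ b), ← hmm, hc₁, map_div₀, hv, div_self]
        rw [Ne, map_eq_zero, map_eq_zero]
        exact hc
      have h2 := (pow_eq_one_iff.1 h1).resolve_right (pow_ne_zero _ hp.ne_zero)
      rw [map_div₀, div_eq_one_iff_eq (by rwa [Ne, map_eq_zero])] at h2
      exact h2
    have h3 := inert_class hωV hγm hc₁0 hvv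
    rw [hωc, div_self hc₁0, div_one, map_pow, hγ, mul_pow, mul_div_assoc, div_self hγm,
      mul_one] at h3
    have h4 : (ξ ^ m') ^ p ^ 1 = 1 := by
      rw [pow_one, ← pow_mul, mul_comm, pow_mul, hξp, one_pow]
    have h5 := root_eq_one hp V hVp h4 h3
    have hfp : Fact p.Prime := ⟨hp⟩
    have h6 : orderOf ξ = p := orderOf_eq_prime hξp hξ1
    exact hm' (h6 ▸ orderOf_dvd_of_pow_eq_one h5)
  have hfinal : ∀ x ∈ E', (σ ^ N) x = x := by
    clear hN
    induction a with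
    | zero => rwa [pow_zero, one_mul] at hn
    | succ a ih => exact ih (hdesc a hn)
  exact ⟨N, hN, fun x hx => hfinal x (hEE' hx)⟩

end

end Pool.Agent.Lib.MP_2f3286_ag.Gl
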