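import Pool.Agent.Lib.MP_2f3286_ag.Gl.GLM
import Pool.Agent.Lib.MP_2f3286_ag.Gl.GM2
import Pool.Agent.Lib.MP_2f3286_ag.Gl.LPX
import Pool.Agent.Lib.MP_2f3286_ag.Gl.GE
import Pool.Agent.Lib.MP_2f3286_ag.Gl.SH

/-!
# Sections at a place of good reduction   (module GLT)

`w` does not divide `p`, `L = kb(x, y)`, `y ^ p = h(x)` with good reduction at `w`; `L₁ ⊆ L`. For an inertia element `δ`, `s(δ)` acts on the classes of `L₁` with a value at a stable place as the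
section of this place.
PROOF. (1) `local_pair2`: `V`, `δ`, `Φ`, `l`, `e`; `q = l ^ e`, `¬ p ∣ q`. Let `ω = (δ ^ q)⁻¹ * Φ * δ * Φ⁻¹`, so `Φ * δ = δ ^ q * (ω * Φ)` in `Gal(kb/F)`. `ω` preserves `V` and `V (ω x - x) < 1` for `x ∈ V` (`δ` and its
powers and inverses are the identity modulo the maximal ideal; `stab_val`). `ω t = t` for `t ∈ pcl p F kb` (relation of `local_pair2` for `Φ⁻¹ t`, `pcl_map`).
(2) `hδ : ` `δ` is as in the conclusion by `inert_PV`. `H' = IsSup p x y h'`, `h' = h.map (algebraMap F kb)`. `exists_gred` for `V`: `hint` (`w.valuation F (h.coeff i) ≤ 1`), `hlead` (the leading coefficient of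
`h'` is the image of that of `h`), `hsep` (roots of `h'` are images of roots of `h`, `hsplit`, `hdiff`). So `κ = ResidueField V`, algebraically closed (`isAlgClosed_residue`), `D.V.A = V`, `G : GRed ...`.
`(p : κ) ≠ 0` and `(l : κ) = 0`: `D.V.Has (p : kb) (p : κ)` (`has_natCast`) and `has_val_lt`. For `σ` in `Gal(kb/F)` with `V (σ x - x ^ m) < 1` on `V` and `D.V.Has c z`: `D.V.Has (σ c) (z ^ m)` (`c ∈ V`,
`σ c - c ^ m` has the residue `0`).
(3) `SAut kb L₁ M` for `σ : Gal(kb/F)`: `g = s σ`, `gC = σ`, `gL` from `hst₁` (for `σ` and `σ⁻¹`; `algebraMap L₁ M` is injective). Likewise `ψL : L ≃+* L` for `(s Φ)^[p]` from `hst`.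
`T`, `Φ`, `S` for `δ`, `Φ`, `ω`. `hdivJ`: `IsJ.div`. `hTJ`: `GRed.trivial` with `τ` from `hτ δ (inert_PV)`; `hSJ`: the same with `ω` (`inert_PV` for `ω`). `hΦJ`: `GRed.bounded` with `ψ` = `Φ` iterated `p` times,
`hs : IsSemi x y ψ ψL` by `hΦ`, `horb`, `horbM`: `exists_pow_fix` (Fer/Ty/LC.lean; for `F`, `kb` and for `K`, `M`). `C = kb` is algebraic over `ℚ` (`F` is a number field).
`hμ`: `δ ξ = ξ`, `ω ξ = ξ`: `inert_root` with `u = 1`; `Φ ξ = ξ ^ q`: `Φ ξ / ξ ^ q` is a root of unity of order a power of `p`, `≡ 1`: `root_eq_one` (as in `local_pair`), or `root_frob`.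
`hrel`, `hrelC`: `s (Φ * δ) = s (δ ^ q * (ω * Φ))`. `hper`: the set of `σ` with `s σ z = z` is an open subgroup of `Gal(kb/F)` (`s` continuous, `isOpen_stab` in Full/WField.lean or
`krullTopology`), so it contains the fixing subgroup of a finite extension `E` of `F`, which we may take to contain `c`; `inert_order` for `ω`, `E`: `¬ p ∣ N`, `ω ^ N` is trivial on `E`, so
`s (ω) ^ N z = z` and `ω ^ N c = c`.
(4) `glm` with `h𝒪L`, `hst` from the hypotheses on `𝒪` (`hst` for `σ = δ, Φ, ω`).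
-/

open Polynomial IntermediateField IsDedekindDomain NumberField

namespace Pool.Agent.Lib.MP_2f3286_ag.Gl

open Pool.Agent.Lib.MP_2f3286_ag.Fer (PV Plc)
open Pool.Agent.Lib.MP_2f3286_ag.Fer.Ty
open Pool.Agent.Lib.MP_2f3286_ag.Pt (IsPlc DivAt)

private theorem glt_iter {K M : Type*} [Field K] [Field M] [Algebra K M] (g : Gal(M/K)) (n : ℕ)
    (x : M) : (g ^ n) x = (⇑g)^[n] x := by
  induction n generalizing x with
  | zero => rfl
  | succ n ih => rw [pow_succ, AlgEquiv.mul_apply, ih, Function.iterate_succ_apply]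

private theorem glt_res {A B : Type*} [Field A] [Field B] [Algebra A B] (g : B ≃+* B)
    (h1 : ∀ f : A, ∃ f' : A, g (algebraMap A B f) = algebraMap A B f')
    (h2 : ∀ f : A, ∃ f' : A, g.symm (algebraMap A B f) = algebraMap A B f') :
    ∃ gL : A ≃+* A, ∀ f : A, g (algebraMap A B f) = algebraMap A B (gL f) := by
  choose F hF using h1
  choose G hG using h2
  have hinj : Function.Injective (algebraMap A B) := (algebraMap A B).injective
  refine ⟨{ toFun := F, invFun := G, left_inv := ?_, right_inv := ?_, map_mul' := ?_,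
            map_add' := ?_ }, fun f => hF f⟩
  · intro f
    apply hinj
    rw [← hG, ← hF, RingEquiv.symm_apply_apply]
  · intro f
    apply hinj
    rw [← hF, ← hG, RingEquiv.apply_symm_apply]
  · intro a b
    apply hinj
    rw [← hF, map_mul, map_mul, map_mul, hF, hF]
  · intro a b
    apply hinj
    rw [← hF, map_add, map_add, map_add, hF, hF]

section inert

variable {F kb : Type*} [Field F] [Field kb] [Algebra F kb] [Algebra.IsAlgebraic F kb]
  {V : ValuationSubring kb}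

omit [Algebra.IsAlgebraic F kb] in
private theorem glt_mul_stab {g g' : Gal(kb/F)} (hg : ∀ x, g x ∈ V ↔ x ∈ V)
    (hg' : ∀ x, g' x ∈ V ↔ x ∈ V) (x : kb) : (g * g') x ∈ V ↔ x ∈ V := by
  rw [AlgEquiv.mul_apply, hg, hg']

omit [Algebra.IsAlgebraic F kb] in
private theorem glt_mul {g g' : Gal(kb/F)} (hg1 : ∀ x ∈ V, V.valuation (g x - x) < 1)
    (hg' : ∀ x, g' x ∈ V ↔ x ∈ V) (hg1' : ∀ x ∈ V, V.valuation (g' x - x) < 1) :
    ∀ x ∈ V, V.valuation ((g * g') x - x) < 1 := by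
  intro x hx
  have h1 : (g * g') x - x = (g (g' x) - g' x) + (g' x - x) := by
    rw [AlgEquiv.mul_apply]; ring
  rw [h1]
  exact V.valuation.map_add_lt (hg1 _ ((hg' x).2 hx)) (hg1' x hx)

private theorem glt_inv {g : Gal(kb/F)} (hg : ∀ x, g x ∈ V ↔ x ∈ V)
    (hg1 : ∀ x ∈ V, V.valuation (g x - x) < 1) :
    ∀ x ∈ V, V.valuation (g⁻¹ x - x) < 1 := by
  intro x hx
  have h0 : g (g⁻¹ x) = x := g.apply_symm_apply x
  have h1 : g (g⁻¹ x - x) = x - g x := by rw [map_sub, h0]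
  rw [← stab_val hg, h1, Valuation.map_sub_swap]
  exact hg1 x hx

omit [Algebra.IsAlgebraic F kb] in
private theorem glt_pow {g : Gal(kb/F)} (hg : ∀ x, g x ∈ V ↔ x ∈ V)
    (hg1 : ∀ x ∈ V, V.valuation (g x - x) < 1) (n : ℕ) :
    ∀ x ∈ V, V.valuation ((g ^ n) x - x) < 1 := by
  induction n with
  | zero =>
    intro x _
    rw [pow_zero, AlgEquiv.one_apply, sub_self, map_zero]
    exact zero_lt_one
  | succ n ih =>
    rw [pow_succ]
    exact glt_mul ih hg hg1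

private theorem glt_conj {g Φ : Gal(kb/F)} (hΦ : ∀ x, Φ x ∈ V ↔ x ∈ V)
    (hg1 : ∀ x ∈ V, V.valuation (g x - x) < 1) :
    ∀ x ∈ V, V.valuation ((Φ * g * Φ⁻¹) x - x) < 1 := by
  intro x hx
  have h0 : Φ (Φ⁻¹ x) = x := Φ.apply_symm_apply x
  have h1 : (Φ * g * Φ⁻¹) x - x = Φ (g (Φ⁻¹ x) - Φ⁻¹ x) := by
    rw [map_sub, h0, AlgEquiv.mul_apply, AlgEquiv.mul_apply]
  rw [h1, stab_val hΦ]
  exact hg1 _ ((stab_inv hΦ x).2 hx)

end inert

private theorem glt_has {F kb κ : Type*} [Field F] [Field kb] [Algebra F kb] [Field κ]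
    (P : Plc kb κ) {V : ValuationSubring kb} (hP : P.A = V) {σ : Gal(kb/F)} {m : ℕ}
    (hσ : ∀ x ∈ V, V.valuation (σ x - x ^ m) < 1) {c : kb} {z : κ} (hc : P.Has c z) :
    P.Has (σ c) (z ^ m) := by
  subst hP
  obtain ⟨hcV, _⟩ := id hc
  have h1 : P.Has (σ c - c ^ m) 0 := (has_val_lt P).2 (hσ c hcV)
  have h2 := h1.add (hc.pow m)
  rwa [sub_add_cancel, zero_add] at h2

private theorem glt_saut {F kb K M : Type*} [Field F] [Field kb] [Algebra F kb] [Field K]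
    [Field M] [Algebra K M] [Algebra kb M] (s : Gal(kb/F) →* Gal(M/K))
    (hsec : ∀ σ a, s σ (algebraMap kb M a) = algebraMap kb M (σ a))
    {L₁ : Type*} [Field L₁] [Algebra kb L₁] [Algebra L₁ M] [IsScalarTower kb L₁ M]
    (hst₁ : ∀ σ (f : L₁), ∃ f' : L₁, s σ (algebraMap L₁ M f) = algebraMap L₁ M f')
    (σ : Gal(kb/F)) :
    ∃ S : SAut kb L₁ M, (⇑S.g : M → M) = s σ ∧ (⇑S.gC : kb → kb) = σ := by
  obtain ⟨gL, hgL⟩ := glt_res (A := L₁) ((s σ : M ≃ₐ[K] M) : M ≃+* M) (fun f => hst₁ σ f)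
    (fun f => by
      obtain ⟨f', hf'⟩ := hst₁ σ⁻¹ f
      refine ⟨f', ?_⟩
      rw [← hf', map_inv]
      rfl)
  refine ⟨⟨((s σ : M ≃ₐ[K] M) : M ≃+* M), gL, ((σ : kb ≃ₐ[F] kb) : kb ≃+* kb), hgL, ?_⟩, rfl,
    rfl⟩
  intro c
  apply (algebraMap L₁ M).injective
  rw [← hgL, ← IsScalarTower.algebraMap_apply kb L₁ M, ← IsScalarTower.algebraMap_apply kb L₁ M]
  exact hsec σ c

theorem glt {F kb K M : Type*} [Field F] [NumberField F] [Field kb] [Algebra F kb]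
    [IsGalois F kb] [IsAlgClosed kb] [Field K] [Field M] [Algebra K M] [Algebra kb M]
    [Algebra.IsAlgebraic K M] (s : Gal(kb/F) →* Gal(M/K)) (hs : Continuous s)
    (hsec : ∀ σ a, s σ (algebraMap kb M a) = algebraMap kb M (σ a)) {p : ℕ} (hp : p.Prime)
    (𝒱 : Set (ValuationSubring M)) (h𝒱 : ∀ V ∈ 𝒱, ∀ a : kb, algebraMap kb M a ∈ V)
    (hrad : ∀ ρ : M, ρ ≠ 0 → (∀ V ∈ 𝒱, DivAt p ρ V) → ∃ β : M, β ^ p = ρ)
    {ζ : F} (hζ : IsPrimitiveRoot ζ p) (w : HeightOneSpectrum (𝓞 F))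
    (hpw : (p : 𝓞 F) ∉ w.asIdeal) {c : F} (hc0 : c ≠ 0) (hc : ¬ PV p w c) {γ : kb}
    (hγ : γ ^ p = algebraMap F kb c)
    {L₁ L : Type*} [Field L₁] [Algebra kb L₁] [Field L] [Algebra kb L] [Algebra L₁ L]
    [IsScalarTower kb L₁ L] [Algebra L M] [IsScalarTower kb L M] [Algebra L₁ M]
    [IsScalarTower L₁ L M] [IsScalarTower kb L₁ M]
    (t : L₁) (ht : Transcendental kb t) [FiniteDimensional (IntermediateField.adjoin kb {t}) L₁]
    {x y : L} {h : F[X]} (H : IsSup p x y (h.map (algebraMap F kb)))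
    (hint : ∀ i, w.valuation F (h.coeff i) ≤ 1) (hlead : w.valuation F h.leadingCoeff = 1)
    (hsplit : ∀ α : kb, (h.map (algebraMap F kb)).eval α = 0 → ∃ a : F, algebraMap F kb a = α)
    (hdiff : ∀ a b : F, h.eval a = 0 → h.eval b = 0 → a ≠ b → w.valuation F (a - b) = 1)
    (hst₁ : ∀ σ (f : L₁), ∃ f' : L₁, s σ (algebraMap L₁ M f) = algebraMap L₁ M f')
    (hst : ∀ σ (f : L), ∃ f' : L, s σ (algebraMap L M f) = algebraMap L M f')
    (hτ : ∀ σ : Gal(kb/F), (∀ e : F, e ≠ 0 → PV p w e → ∀ y : kb, y ^ p = algebraMap F kb e →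
      σ y = y) → ∃ τ : L ≃+* L, IsSemi x y (σ : kb ≃+* kb) τ ∧
        ∀ f : L₁, algebraMap L M (τ (algebraMap L₁ L f)) = s σ (algebraMap L₁ M f))
    (hΦ : ∀ σ, (s σ)^[p] (algebraMap L M x) = algebraMap L M x ∧
      (s σ)^[p] (algebraMap L M y) = algebraMap L M y)
    (hker : ∀ (u : L) (n : ℕ), (∃ f : L₁, u ^ p ^ n = algebraMap L₁ L f) →
      ∃ f : L₁, u ^ p = algebraMap L₁ L f) :
    ∃ δ : Gal(kb/F), δ γ ≠ γ ∧
      (∀ e : F, e ≠ 0 → PV p w e → ∀ y : kb, y ^ p = algebraMap F kb e → δ y = y) ∧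
      ∀ 𝒪 : ValuationSubring M, (∀ a : kb, algebraMap kb M a ∈ 𝒪) →
        (∃ f : L₁, algebraMap L₁ M f ∉ 𝒪) →
        (∀ σ (f : L₁), s σ (algebraMap L₁ M f) ∈ 𝒪 ↔ algebraMap L₁ M f ∈ 𝒪) →
        ∀ z : M, IsJ p kb L₁ z → ∀ c : kb, c ≠ 0 →
          𝒪.valuation (z - algebraMap kb M c) < 1 →
          𝒪.valuation (s δ z - algebraMap kb M (δ c)) < 1 := by
  have : CharZero kb := charZero_of_injective_algebraMap (algebraMap F kb).injective
  have : Algebra.IsAlgebraic ℚ kb := Algebra.IsAlgebraic.trans ℚ F kb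
  obtain ⟨V, δ, Φ, l, e, hl, hlp, he, hVl, hVp, hwle, hwu, hδV, hΦV, hδ1, hΦq, hδγ, hrel0⟩ :=
    local_pair2 hp hζ w hpw hc0 hc hγ
  have hq : ¬ p ∣ l ^ e := fun hd =>
    hlp ((Nat.prime_dvd_prime_iff_eq hp hl).1 (hp.dvd_of_dvd_pow hd)).symm
  have hδPV : ∀ e : F, e ≠ 0 → PV p w e → ∀ y : kb, y ^ p = algebraMap F kb e → δ y = y :=
    fun e he hPe y hy => inert_PV hp hVp hδ1 hwu he hPe hy
  refine ⟨δ, hδγ, hδPV, ?_⟩
  -- the element `ω`
  obtain ⟨ω, hω⟩ : ∃ ω : Gal(kb/F), ω = (δ ^ l ^ e)⁻¹ * (Φ * δ * Φ⁻¹) := ⟨_, rfl⟩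
  have hrelG : Φ * δ = δ ^ l ^ e * (ω * Φ) := by
    rw [hω]
    group
  have hδqV : ∀ x, (δ ^ l ^ e) x ∈ V ↔ x ∈ V := stab_pow hδV _
  have hδiV : ∀ x, (δ ^ l ^ e)⁻¹ x ∈ V ↔ x ∈ V := stab_inv hδqV
  have hΦiV : ∀ x, Φ⁻¹ x ∈ V ↔ x ∈ V := stab_inv hΦV
  have hcV : ∀ x, (Φ * δ * Φ⁻¹) x ∈ V ↔ x ∈ V :=
    glt_mul_stab (glt_mul_stab hΦV hδV) hΦiV
  have hωV : ∀ x, ω x ∈ V ↔ x ∈ V := by
    rw [hω]
    exact glt_mul_stab hδiV hcV
  have hω1 : ∀ x ∈ V, V.valuation (ω x - x) < 1 := by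
    rw [hω]
    exact glt_mul (glt_inv hδqV (glt_pow hδV hδ1 _)) hcV (glt_conj hΦV hδ1)
  have hωpcl : ∀ t ∈ pcl p F kb, ω t = t := by
    intro t ht
    have h1 := hrel0 (Φ⁻¹ t) (pcl_map Φ⁻¹ ht)
    have h2 : Φ (Φ⁻¹ t) = t := Φ.apply_symm_apply t
    rw [h2] at h1
    rw [hω, AlgEquiv.mul_apply, AlgEquiv.mul_apply, AlgEquiv.mul_apply, h1]
    exact (δ ^ l ^ e).symm_apply_apply t
  have hωPV : ∀ e : F, e ≠ 0 → PV p w e → ∀ y : kb, y ^ p = algebraMap F kb e → ω y = y :=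
    fun e he hPe y hy => inert_PV hp hVp hω1 hwu he hPe hy
  -- good reduction
  have hinjF : Function.Injective (algebraMap F kb) := (algebraMap F kb).injective
  obtain ⟨k, _, _, D, xb, yb, hb, hDV, -, G⟩ := exists_gred hp H V
    (fun i => by rw [coeff_map]; exact hwle _ (hint i))
    (by rw [leadingCoeff_map]; exact hwu _ hlead)
    (by
      intro α β hα hβ hne
      obtain ⟨a, ha⟩ := hsplit α hα
      obtain ⟨b, hb⟩ := hsplit β hβ
      subst ha hb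
      rw [← map_sub]
      apply hwu
      apply hdiff
      · apply hinjF
        rw [map_zero, ← eval₂_at_apply, ← eval_map]
        exact hα
      · apply hinjF
        rw [map_zero, ← eval₂_at_apply, ← eval_map]
        exact hβ
      · rintro rfl
        exact hne rfl)
  have : IsAlgClosed (IsLocalRing.ResidueField V) := isAlgClosed_residue V
  have hpκ : (p : IsLocalRing.ResidueField V) ≠ 0 := by
    intro h0
    have h1 := has_natCast D.V p
    rw [h0, has_val_lt, hDV, hVp] at h1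
    exact lt_irrefl _ h1
  have hlκ : (l : IsLocalRing.ResidueField V) = 0 := by
    have h1 : D.V.Has (l : kb) 0 := by
      rw [has_val_lt, hDV]
      exact hVl
    exact (has_natCast D.V l).unique h1
  have hinjM : Function.Injective (algebraMap L M) := (algebraMap L M).injective
  have hdivJ : ∀ z : M, IsJ p kb L₁ z →
      ∃ w : M, IsJ p kb L₁ w ∧ ∃ c : L₁, c ≠ 0 ∧ w ^ p = z * algebraMap L₁ M c :=
    fun z hz => IsJ.div hp t ht 𝒱 h𝒱 hrad hz
  -- inertial elements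
  have htriv : ∀ σ : Gal(kb/F), (∀ x ∈ V, V.valuation (σ x - x) < 1) →
      (∀ e : F, e ≠ 0 → PV p w e → ∀ y : kb, y ^ p = algebraMap F kb e → σ y = y) →
      ∀ S : SAut kb L₁ M, (⇑S.g : M → M) = s σ → (⇑S.gC : kb → kb) = σ →
      ∀ z, IsJ p kb L₁ z → ∃ u : L₁, S.g z = z * algebraMap L₁ M u := by
    intro σ hσ1 hσPV S hSg hSC z hz
    obtain ⟨τ, hτs, hτL⟩ := hτ σ hσPV
    have hSC' : S.gC = (σ : kb ≃+* kb) := by
      apply RingEquiv.ext
      intro a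
      rw [hSC]
      rfl
    refine GRed.trivial hp hpκ G hker hdivJ (T := S) (τ := τ) (hSC' ▸ hτs) ?_ ?_ hz
    · intro c z hc
      have h1 := glt_has D.V hDV (σ := σ) (m := 1) (fun x hx => by rw [pow_one]; exact hσ1 x hx) hc
      rw [pow_one] at h1
      rw [hSC]
      exact h1
    · intro f
      apply hinjM
      rw [hτL f, ← IsScalarTower.algebraMap_apply L₁ L M, ← S.hL, hSg]
  obtain ⟨T, hTg, hTC⟩ := glt_saut (K := K) (M := M) (L₁ := L₁) s hsec hst₁ δ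
  obtain ⟨Ph, hPg, hPC⟩ := glt_saut (K := K) (M := M) (L₁ := L₁) s hsec hst₁ Φ
  obtain ⟨S, hSg, hSC⟩ := glt_saut (K := K) (M := M) (L₁ := L₁) s hsec hst₁ ω
  -- the power of the Frobenius element
  have hiter : ∀ z, s (Φ ^ p) z = (s Φ)^[p] z := fun z => by rw [map_pow, glt_iter]
  obtain ⟨ψL, hψL⟩ := glt_res (A := L) ((s (Φ ^ p) : M ≃ₐ[K] M) : M ≃+* M)
    (fun f => hst (Φ ^ p) f)
    (fun f => by
      obtain ⟨f', hf'⟩ := hst (Φ ^ p)⁻¹ f
      refine ⟨f', ?_⟩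
      rw [← hf', map_inv]
      rfl)
  have hψL' : ∀ f : L, s (Φ ^ p) (algebraMap L M f) = algebraMap L M (ψL f) := hψL
  have hbd := GRed.bounded (L₁ := L₁) (M := M) hp hpκ hl hlκ G hker he (Φ := Ph)
    (ψ := ((Φ ^ p : kb ≃ₐ[F] kb) : kb ≃+* kb))
    (fun c => by rw [hPC, ← glt_iter]; rfl) (ψL := ψL)
    ⟨fun c => by
        apply hinjM
        rw [← hψL', ← IsScalarTower.algebraMap_apply kb L M, hsec,
          ← IsScalarTower.algebraMap_apply kb L M]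
        rfl,
      by
        apply hinjM
        rw [← hψL', hiter, (hΦ Φ).1],
      by
        apply hinjM
        rw [← hψL', hiter, (hΦ Φ).2]⟩
    (fun f => by rw [hPg, ← hiter, hψL'])
    (fun c z hc => by
      rw [hPC]
      exact glt_has D.V hDV hΦq hc)
    (fun i => by rw [hPC, coeff_map, Φ.commutes])
    (fun c => by
      obtain ⟨m, hm, hm'⟩ := exists_pow_fix Φ c
      refine ⟨m, hm, ?_⟩
      rw [hPC, ← glt_iter]
      exact hm')
    (fun z => by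
      obtain ⟨m, hm, hm'⟩ := exists_pow_fix (s Φ) z
      refine ⟨m, hm, ?_⟩
      rw [hPg, ← glt_iter]
      exact hm')
  -- roots of unity
  have hμ : ∀ (n : ℕ) (ξ : kb), ξ ^ p ^ n = 1 → δ ξ = ξ ∧ Φ ξ = ξ ^ l ^ e ∧ ω ξ = ξ := by
    intro n ξ hξ
    refine ⟨inert_root hp hVp hδ1 (map_one _) (map_one δ) hξ, ?_,
      inert_root hp hVp hω1 (map_one _) (map_one ω) hξ⟩
    have hn : p ^ n ≠ 0 := pow_ne_zero _ hp.ne_zero
    have hξV := mem_of_root V hn hξ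
    have hvξ : V.valuation ξ = 1 := by
      have h1 : V.valuation ξ ^ p ^ n = 1 := by rw [← map_pow, hξ, map_one]
      exact (pow_eq_one_iff.1 h1).resolve_right hn
    have hξ0 : ξ ≠ 0 := by
      rintro rfl
      rw [map_zero] at hvξ
      exact zero_ne_one hvξ
    have h1 := one_unit_of_sub V (by rw [map_pow, hvξ, one_pow]) (hΦq ξ hξV)
    have h2 : (Φ ξ / ξ ^ l ^ e) ^ p ^ n = 1 := by
      rw [div_pow, ← map_pow, hξ, map_one, ← pow_mul, mul_comm, pow_mul, hξ, one_pow, div_one]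
    exact (div_eq_one_iff_eq (pow_ne_zero _ hξ0)).1 (root_eq_one hp V hVp h2 h1)
  -- `ω` has finite orbits of order prime to `p`
  have hper : ∀ z : M, ∀ c : kb, ∃ k : ℕ, ¬ p ∣ k ∧ (s ω ^ k) z = z ∧ (ω ^ k) c = c := by
    intro z c
    have hU : {σ : Gal(kb/F) | s σ z = z} ∈ nhds (1 : Gal(kb/F)) := by
      have hop : IsOpen {g : Gal(M/K) | g z = z} :=
        stabilizer_isOpen_of_isIntegral (K := K) (L := M) z
      apply IsOpen.mem_nhds (hop.preimage hs)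
      show s 1 z = z
      rw [map_one]
      rfl
    obtain ⟨E, hE, hEU⟩ := (krullTopology_mem_nhds_one_iff F kb _).1 hU
    have hint : IsIntegral F c := Algebra.IsIntegral.isIntegral c
    have hfd : FiniteDimensional F F⟮c⟯ := IntermediateField.adjoin.finiteDimensional hint
    obtain ⟨N, hN, hNE⟩ := inert_order hp hζ hVp hωV hω1 hωpcl (E ⊔ F⟮c⟯)
    refine ⟨N, hN, ?_, hNE c ((le_sup_right : F⟮c⟯ ≤ E ⊔ F⟮c⟯)
      (IntermediateField.mem_adjoin_simple_self F c))⟩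
    have h1 : ω ^ N ∈ E.fixingSubgroup := by
      rw [IntermediateField.mem_fixingSubgroup_iff]
      intro x hx
      exact hNE x ((le_sup_left : E ≤ E ⊔ F⟮c⟯) hx)
    have h2 : s (ω ^ N) z = z := hEU h1
    rw [map_pow] at h2
    exact h2
  intro 𝒪 h𝒪 h𝒪L h𝒪st z hz c hc hzc
  have hfin := glm hp hq t ht 𝒱 h𝒱 hrad T Ph S (htriv δ hδ1 hδPV T hTg hTC)
    (htriv ω hω1 hωPV S hSg hSC) hbd
    (fun n ξ hξ => by
      rw [hTC, hPC, hSC]
      exact hμ n ξ hξ)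
    (fun z _ => by
      rw [hTg, hPg, hSg, ← glt_iter, ← map_pow]
      have h1 := congrArg (fun σ => s σ z) hrelG
      simp only [map_mul, AlgEquiv.mul_apply] at h1
      exact h1)
    (fun c => by
      rw [hTC, hPC, hSC, ← glt_iter]
      have h1 := congrArg (fun σ : Gal(kb/F) => σ c) hrelG
      simp only [AlgEquiv.mul_apply] at h1
      exact h1)
    (fun z _ c => by
      rw [hSg, hSC]
      obtain ⟨k, hk, h1, h2⟩ := hper z c
      refine ⟨k, hk, ?_, ?_⟩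
      · rw [← glt_iter]
        exact h1
      · rw [← glt_iter]
        exact h2)
    𝒪 h𝒪 h𝒪L
    (fun f => ⟨by rw [← T.hL, hTg]; exact h𝒪st δ f, by rw [← Ph.hL, hPg]; exact h𝒪st Φ f,
      by rw [← S.hL, hSg]; exact h𝒪st ω f⟩) hz hc hzc
  rw [hTg, hTC] at hfin
  exact hfin

end Pool.Agent.Lib.MP_2f3286_ag.Gl
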