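import Pool.Agent.Lib.MP_2f3286_ag.Gl.GA

/-!
# Hilbert 90 for a Frobenius element   (module H1)

`f^[m]` is the iterate of a function. PROOF of `root_frob`. `ξ ∈ V.A` has a residue `z`, `z ^ N = 1`; `ψ ξ` and `ξ ^ q` have the residue `z ^ q ≠ 0`. Let
`θ = ψ ξ / ξ ^ q`, `θ ^ N = 1`, residue `1`. If `θ ≠ 1`, let `N' ≠ 1` be the order of `θ`, `N' ∣ N`, `∏_{0 < i < N'} (1 - θ ^ i) = N'`
(`IsPrimitiveRoot.prod_one_sub_pow_eq_order`); the residue of the left side is `0` (the factor `i = 1` has residue zero), that of the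
right side is not zero in `κ` as `N' ∣ N`. Contradiction.
PROOF of `exists_trace`. `Ψ^[i] (c z) = ψ^[i] c * Ψ^[i] z`. Let `ζ` be a primitive root of unity of order `q ^ m - 1 ≥ 1` in `C` (characteristic zero). By
`hroot`, `ψ^[i] (ζ ^ j) = ζ ^ (j q ^ i)`; `ψ^[m] ζ = ζ ^ (q ^ m) = ζ`. Suppose the claim is false for all `c = ζ ^ j`, `j : ℕ`:
`∑ i < m, (ζ ^ (q ^ i)) ^ j * Ψ^[i] z = 0` for all `j`. The elements `ζ ^ (q ^ i)`, `i < m`, are distinct: `q ^ i < q ^ m - 1` for `i < m` unless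
`m = 1` (`q ^ (m - 1) * 2 ≤ q ^ m` and `q ^ (m-1) ≥ 2` if `m ≥ 2`), and `IsPrimitiveRoot.pow_inj`. So all `Ψ^[i] z = 0` (Vandermonde:
`Matrix.det_vandermonde_ne_zero_iff`, `Matrix.eq_zero_of_forall_pow_sum_mul_pow_eq_zero`, or a Lagrange polynomial), but `z ≠ 0` (`i = 0`).
PROOF of `exists_fixed`. Take `z' = ∑ i < m, Ψ^[i] (c z) = z * ∑ i < m, ψ^[i] c * w i`.
-/

open Polynomial

namespace Pool.Agent.Lib.MP_2f3286_ag.Gl

open Pool.Agent.Lib.MP_2f3286_ag.Fer (Plc)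

private theorem H1_geom {C κ : Type*} [Field C] [Field κ] (V : Plc C κ) {θ : C} (hθ : V.Has θ 1) (n : ℕ) :
    V.Has (∑ i ∈ Finset.range n, θ ^ i) (n : κ) := by
  induction n with
  | zero =>
    rw [Finset.sum_range_zero, Nat.cast_zero]
    exact Pool.Agent.Lib.MP_2f3286_ag.Fer.Plc.has_zero
  | succ n ih =>
    rw [Finset.sum_range_succ, Nat.cast_succ]
    have h1 := hθ.pow n
    rw [one_pow] at h1
    exact ih.add h1

theorem root_frob {C κ : Type*} [Field C] [Field κ] (V : Plc C κ) {ψ : C ≃+* C} {q : ℕ}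
    (hψ : ∀ c z, V.Has c z → V.Has (ψ c) (z ^ q)) {N : ℕ} (hN : (N : κ) ≠ 0) {ξ : C}
    (hξ : ξ ^ N = 1) : ψ ξ = ξ ^ q := by
  have hN0 : N ≠ 0 := by
    rintro rfl
    exact hN Nat.cast_zero
  have hξ0 : ξ ≠ 0 := by
    rintro rfl
    rw [zero_pow hN0] at hξ
    exact zero_ne_one hξ
  -- the residue
  obtain ⟨z, hz⟩ : ∃ z, V.Has ξ z := by
    have hmem : ξ ∈ V.A := by
      rcases V.A.mem_or_inv_mem ξ with h | h
      · exact h
      · have h1 : ξ = (ξ⁻¹) ^ (N - 1) := by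
          have h2 : ξ⁻¹ ^ N = 1 := by rw [inv_pow, hξ, inv_one]
          have h3 : N = (N - 1) + 1 := by omega
          rw [h3, pow_succ] at h2
          have h4 := eq_inv_of_mul_eq_one_left h2
          rw [inv_inv] at h4
          exact h4.symm
        rw [h1]
        exact pow_mem h _
    exact ⟨_, hmem, rfl⟩
  have hzN : z ^ N = 1 := by
    have h1 := hz.pow N
    rw [hξ] at h1
    exact h1.unique Pool.Agent.Lib.MP_2f3286_ag.Fer.Plc.has_one
  have hz0 : z ≠ 0 := by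
    rintro rfl
    rw [zero_pow hN0] at hzN
    exact zero_ne_one hzN
  have hzq : z ^ q ≠ 0 := pow_ne_zero _ hz0
  -- the quotient
  obtain ⟨θ, hθ⟩ : ∃ θ, θ = ψ ξ / ξ ^ q := ⟨_, rfl⟩
  have h1 : V.Has θ 1 := by
    have h2 := (hψ ξ z hz).div (hz.pow q) hzq
    rw [div_self hzq, ← hθ] at h2
    exact h2
  have h3 : θ ^ N = 1 := by
    rw [hθ, div_pow, ← map_pow, hξ, map_one, ← pow_mul, mul_comm q N, pow_mul, hξ, one_pow, div_one]
  have h4 : θ = 1 := by
    by_contra hne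
    have h5 := geom_sum_mul θ N
    rw [h3, sub_self] at h5
    rcases mul_eq_zero.1 h5 with h6 | h6
    · have h7 := H1_geom V h1 N
      rw [h6] at h7
      exact hN (h7.unique Pool.Agent.Lib.MP_2f3286_ag.Fer.Plc.has_zero)
    · exact hne (sub_eq_zero.1 h6)
  rw [hθ, div_eq_one_iff_eq (pow_ne_zero _ hξ0)] at h4
  exact h4

theorem exists_trace {C M : Type*} [Field C] [IsAlgClosed C] [CharZero C] [Field M] [Algebra C M]
    {ψ : C ≃+* C} {Ψ : M ≃+* M} (hΨ : ∀ c, Ψ (algebraMap C M c) = algebraMap C M (ψ c)) {q : ℕ}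
    (hq : 2 ≤ q) (hroot : ∀ (m : ℕ) (ξ : C), 1 ≤ m → ξ ^ (q ^ m - 1) = 1 → ψ ξ = ξ ^ q) {z : M}
    (hz : z ≠ 0) {m : ℕ} (hm : 1 ≤ m) (hzm : Ψ^[m] z = z) :
    ∃ c : C, ψ^[m] c = c ∧ ∑ i ∈ Finset.range m, ψ^[i] c • Ψ^[i] z ≠ 0 ∧
      Ψ (∑ i ∈ Finset.range m, ψ^[i] c • Ψ^[i] z) =
        ∑ i ∈ Finset.range m, ψ^[i] c • Ψ^[i] z := by
  have hqm : 2 ≤ q ^ m := by
    calc 2 ≤ q := hq
      _ = q ^ 1 := (pow_one q).symm
      _ ≤ q ^ m := Nat.pow_le_pow_right (by omega) hm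
  have hn : q ^ m - 1 ≠ 0 := by omega
  haveI : NeZero (q ^ m - 1) := ⟨hn⟩
  haveI : NeZero ((q ^ m - 1 : ℕ) : C) := ⟨Nat.cast_ne_zero.2 hn⟩
  obtain ⟨ζ, hζ⟩ := HasEnoughRootsOfUnity.exists_primitiveRoot C (q ^ m - 1)
  -- the action on the roots of unity
  have hact : ∀ j i : ℕ, ψ^[i] (ζ ^ j) = (ζ ^ (q ^ i)) ^ j := by
    intro j i
    induction i with
    | zero => rw [Function.iterate_zero_apply, pow_zero, pow_one]
    | succ i ih =>
      rw [Function.iterate_succ_apply', ih, map_pow, map_pow]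
      have h1 : ψ ζ = ζ ^ q := hroot m ζ hm hζ.pow_eq_one
      rw [h1, ← pow_mul ζ q (q ^ i), ← pow_succ']
  have hfix : ∀ j : ℕ, ψ^[m] (ζ ^ j) = ζ ^ j := by
    intro j
    rw [hact]
    have h1 : q ^ m = (q ^ m - 1) + 1 := by omega
    rw [h1, pow_succ, hζ.pow_eq_one, one_mul]
  -- invariance
  have hsmul : ∀ (c : C) (w : M), Ψ (c • w) = ψ c • Ψ w := by
    intro c w
    rw [Algebra.smul_def, map_mul, hΨ, ← Algebra.smul_def]
  have hinv : ∀ c : C, ψ^[m] c = c → Ψ (∑ i ∈ Finset.range m, ψ^[i] c • Ψ^[i] z) =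
      ∑ i ∈ Finset.range m, ψ^[i] c • Ψ^[i] z := by
    intro c hc
    rw [map_sum]
    have h1 : ∀ i ∈ Finset.range m, Ψ (ψ^[i] c • Ψ^[i] z) = ψ^[i + 1] c • Ψ^[i + 1] z := by
      intro i _
      rw [hsmul, Function.iterate_succ_apply', Function.iterate_succ_apply']
    rw [Finset.sum_congr rfl h1]
    have h2 := Finset.sum_range_succ' (fun i => ψ^[i] c • Ψ^[i] z) m
    have h3 := Finset.sum_range_succ (fun i => ψ^[i] c • Ψ^[i] z) m
    rw [h3, hc, hzm] at h2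
    simp only [Function.iterate_zero_apply] at h2
    exact (add_right_cancel h2).symm
  by_contra hcon
  have hall : ∀ j : ℕ, ∑ i ∈ Finset.range m, ψ^[i] (ζ ^ j) • Ψ^[i] z = 0 := by
    intro j
    by_contra hne
    exact hcon ⟨ζ ^ j, hfix j, hne, hinv _ (hfix j)⟩
  have hlt : ∀ i j : ℕ, i < m → j < m → ζ ^ (q ^ i) = ζ ^ (q ^ j) → i = j := by
    intro i j hi hj he
    by_cases hm1 : m = 1
    · omega
    · have hb : ∀ i : ℕ, i < m → q ^ i < q ^ m - 1 := by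
        intro i hi
        have h1 : q ^ i ≤ q ^ (m - 1) := Nat.pow_le_pow_right (by omega) (by omega)
        have h2 : q ^ m = q ^ (m - 1) * q := by
          rw [← pow_succ]
          congr 1
          omega
        have h3 : q ^ (m - 1) * 2 ≤ q ^ (m - 1) * q := Nat.mul_le_mul_left _ hq
        have h4 : 2 ≤ q ^ (m - 1) := by
          calc 2 ≤ q := hq
            _ = q ^ 1 := (pow_one q).symm
            _ ≤ q ^ (m - 1) := Nat.pow_le_pow_right (by omega) (by omega)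
        omega
      exact Nat.pow_right_injective hq (hζ.pow_inj (hb i hi) (hb j hj) he)
  have hv := Matrix.eq_zero_of_forall_pow_sum_mul_pow_eq_zero (R := M) (n := m)
    (f := fun i : Fin m => algebraMap C M (ζ ^ (q ^ (i : ℕ)))) (v := fun i : Fin m => Ψ^[(i : ℕ)] z)
    (by
      intro i j hij
      exact Fin.ext (hlt _ _ i.2 j.2 ((algebraMap C M).injective hij)))
    (by
      intro j
      have h1 := hall j
      rw [Finset.sum_range] at h1
      refine Eq.trans (Finset.sum_congr rfl fun i _ => ?_) h1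
      rw [hact, Algebra.smul_def, map_pow (algebraMap C M) (ζ ^ (q ^ (i : ℕ))) (j : ℕ), mul_comm])
  have h0 := congrFun hv ⟨0, by omega⟩
  exact hz h0

end Pool.Agent.Lib.MP_2f3286_ag.Gl
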