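import Pool.Agent.Lib.MP_2f3286_ag.Gl.H1
import Pool.Agent.Lib.MP_2f3286_ag.Gl.GC

/-!
# Good reduction: elements fixed by a Frobenius element   (module H2)

PROOF of `fixed_repr`. `f b(x) = ev a`, `b ≠ 0` (`IsSup.repr`). All coefficients of `b` and of the `a i`, `i < p`, are fixed by `ψ^[m]` for a common
`m ≥ 1` (finitely many, `horb`; the product of the periods); so `ψL^[m] (b(x)) = b(x)`. `exists_trace` with `M = L`, `Ψ = ψL`, `z = b(x) ≠ 0`: `c` with
`ψ^[m] c = c` and `t = ∑ i < m, ψ^[i] c • ψL^[i] (b(x)) ≠ 0`. `t = b'(x)` with `b' = ∑ i < m, C (ψ^[i] c) * b.map ψ^[i]`, whose coefficients are fixed by `ψ`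
(the sum is permuted cyclically, `ψ^[m]` fixes the `m`-th term). `f t = ∑ ψ^[i] c • ψL^[i] (f b(x)) = ∑ ψ^[i] c • ψL^[i] (ev a) = ev a'` with
`a' j = ∑ i < m, C (ψ^[i] c) * (a j).map ψ^[i]` (`IsSemi.map_ev`), with fixed coefficients for `j < p`; put `a' j = 0` for `j ≥ p`.
PROOF of `fixed_unit`. As `GRed.exists_unit` with the representation of `fixed_repr`: the constants of `exists_norm` are inverses of coefficients, so
they are fixed by `ψ`.
PROOF of `fixed_res`. `fixed_repr`; multiply by a constant as in `GRed.repr_red`, an inverse of a coefficient of `b`, fixed by `ψ`: so the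
coefficients are fixed by `ψ`, integral (`ev_mem`), with reductions `ab i` (`i < p`; take `ab i = 0` for `i ≥ p`), `bb ≠ 0`. A fixed element with the residue `z` satisfies
`z ^ q = z` (`hψ`, `Has.unique`).
-/

open Polynomial

namespace Pool.Agent.Lib.MP_2f3286_ag.Gl

open Pool.Agent.Lib.MP_2f3286_ag.Fer (Plc)

section aux

variable {C L : Type*} [Field C] [Field L] [Algebra C L] {x y : L} {ψ : C ≃+* C} {ψL : L ≃+* L}

private theorem h2_period (ψ : C ≃+* C) (horb : ∀ c : C, ∃ m, 1 ≤ m ∧ ψ^[m] c = c)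
    (S : Finset C) : ∃ m, 1 ≤ m ∧ ∀ c ∈ S, ψ^[m] c = c := by
  classical
  induction S using Finset.induction_on with
  | empty => exact ⟨1, le_rfl, fun c hc => absurd hc (Finset.notMem_empty c)⟩
  | insert a S _ ih =>
    obtain ⟨m, hm, hS⟩ := ih
    obtain ⟨n, hn, ha⟩ := horb a
    refine ⟨m * n, Nat.mul_pos hm hn, fun c hc => ?_⟩
    rcases Finset.mem_insert.1 hc with rfl | hc
    · have h1 : Function.IsPeriodicPt ψ n c := ha
      exact h1.const_mul m
    · have h1 : Function.IsPeriodicPt ψ m c := hS c hc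
      exact h1.mul_const n

private theorem h2_shift (ψ : C ≃+* C) (m : ℕ) {u : C} (hu : ψ^[m] u = u) :
    ψ (∑ i ∈ Finset.range m, ψ^[i] u) = ∑ i ∈ Finset.range m, ψ^[i] u := by
  have h1 := Finset.sum_range_succ (fun i => ψ^[i] u) m
  have h2 := Finset.sum_range_succ' (fun i => ψ^[i] u) m
  rw [h1] at h2
  have h3 : ∀ i, ψ^[i + 1] u = ψ (ψ^[i] u) := fun i => Function.iterate_succ_apply' _ _ _
  simp only [h3, hu, Function.iterate_zero, id_eq] at h2
  rw [map_sum]
  exact (add_right_cancel h2).symm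

private theorem h2_map_aeval (hs : IsSemi x y ψ ψL) (P : C[X]) (i : ℕ) :
    ψL^[i] (aeval x P) = aeval x (P.map ((ψ : C →+* C) ^ i)) := by
  induction i with
  | zero =>
    rw [Function.iterate_zero, id_eq, pow_zero]
    congr 1
    ext n
    rw [coeff_map]
    rfl
  | succ i ih =>
    rw [Function.iterate_succ_apply', ih, hs.map_aeval, Polynomial.map_map, pow_succ']
    rfl

private theorem h2_map_ev {p : ℕ} (hs : IsSemi x y ψ ψL) (a : ℕ → C[X]) (i : ℕ) :
    ψL^[i] (ev p x y a) = ev p x y (fun j => (a j).map ((ψ : C →+* C) ^ i)) := by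
  induction i with
  | zero =>
    rw [Function.iterate_zero, id_eq]
    congr 1
    funext j
    rw [pow_zero]
    ext n
    rw [coeff_map]
    rfl
  | succ i ih =>
    rw [Function.iterate_succ_apply', ih, hs.map_ev]
    congr 1
    funext j
    rw [Polynomial.map_map, pow_succ']
    rfl

private theorem h2_coeff (ψ : C ≃+* C) (c : C) (m : ℕ) (P : C[X]) (j : ℕ) :
    (∑ i ∈ Finset.range m, Polynomial.C (ψ^[i] c) * P.map ((ψ : C →+* C) ^ i)).coeff j =
      ∑ i ∈ Finset.range m, ψ^[i] (c * P.coeff j) := by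
  rw [finsetSum_coeff]
  refine Finset.sum_congr rfl fun i _ => ?_
  rw [coeff_C_mul, coeff_map, iterate_map_mul, RingHom.coe_pow]
  rfl

private theorem h2_fixed (ψ : C ≃+* C) {c : C} {m : ℕ} (hc : ψ^[m] c = c) (P : C[X]) {j : ℕ}
    (hP : ψ^[m] (P.coeff j) = P.coeff j) :
    ψ ((∑ i ∈ Finset.range m, Polynomial.C (ψ^[i] c) * P.map ((ψ : C →+* C) ^ i)).coeff j) =
      (∑ i ∈ Finset.range m, Polynomial.C (ψ^[i] c) * P.map ((ψ : C →+* C) ^ i)).coeff j := by
  rw [h2_coeff]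
  apply h2_shift
  rw [iterate_map_mul, hc, hP]

private theorem h2_aeval_sum (hs : IsSemi x y ψ ψL) (c : C) (m : ℕ) (P : C[X]) :
    aeval x (∑ i ∈ Finset.range m, Polynomial.C (ψ^[i] c) * P.map ((ψ : C →+* C) ^ i)) =
      ∑ i ∈ Finset.range m, ψ^[i] c • ψL^[i] (aeval x P) := by
  rw [map_sum]
  refine Finset.sum_congr rfl fun i _ => ?_
  rw [map_mul, aeval_C, h2_map_aeval hs, Algebra.smul_def]

private theorem h2_ev_congr {p : ℕ} {a b : ℕ → C[X]} (h : ∀ i < p, a i = b i) :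
    ev p x y a = ev p x y b := by
  unfold ev
  refine Finset.sum_congr rfl fun i hi => ?_
  rw [h i (Finset.mem_range.1 hi)]

private theorem h2_ev_C_mul {p : ℕ} (c : C) (a : ℕ → C[X]) :
    ev p x y (fun i => Polynomial.C c * a i) = algebraMap C L c * ev p x y a := by
  unfold ev
  rw [Finset.mul_sum]
  refine Finset.sum_congr rfl fun i _ => ?_
  rw [map_mul, aeval_C, mul_assoc]

private theorem h2_ev_sum {p : ℕ} (m : ℕ) (a : ℕ → ℕ → C[X]) :
    ev p x y (fun j => ∑ i ∈ Finset.range m, a i j) =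
      ∑ i ∈ Finset.range m, ev p x y (a i) := by
  unfold ev
  rw [Finset.sum_comm]
  refine Finset.sum_congr rfl fun j _ => ?_
  rw [map_sum, Finset.sum_mul]

private theorem h2_ev_single {p : ℕ} (hp : p.Prime) (b : C[X]) :
    ev p x y (fun i => if i = 0 then b else 0) = aeval x b := by
  unfold ev
  rw [Finset.sum_eq_single 0]
  · simp
  · intro i _ hi
    simp [hi]
  · intro h
    exact absurd (Finset.mem_range.2 hp.pos) h

end aux

variable {p : ℕ} {C L : Type*} [Field C] [IsAlgClosed C] [CharZero C] [Field L] [Algebra C L]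
  {x y : L} {h : C[X]} {ψ : C ≃+* C} {ψL : L ≃+* L} {q : ℕ}

theorem fixed_repr (hp : p.Prime) (H : IsSup p x y h) (hs : IsSemi x y ψ ψL) (hq : 2 ≤ q)
    (hroot : ∀ (m : ℕ) (ξ : C), 1 ≤ m → ξ ^ (q ^ m - 1) = 1 → ψ ξ = ξ ^ q)
    (horb : ∀ c : C, ∃ m, 1 ≤ m ∧ ψ^[m] c = c) {f : L} (hf : ψL f = f) :
    ∃ (a : ℕ → C[X]) (b : C[X]), b ≠ 0 ∧ f * aeval x b = ev p x y a ∧
      (∀ i j, ψ ((a i).coeff j) = (a i).coeff j) ∧ ∀ j, ψ (b.coeff j) = b.coeff j := by
  classical
  obtain ⟨a, b, hb, hab⟩ := H.repr hp f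
  obtain ⟨m, hm, hS⟩ := h2_period ψ horb
    (b.support.image b.coeff ∪ (Finset.range p).biUnion (fun i => (a i).support.image (a i).coeff))
  have hbm : ∀ j, ψ^[m] (b.coeff j) = b.coeff j := by
    intro j
    by_cases hj : b.coeff j = 0
    · rw [hj, iterate_map_zero]
    · exact hS _ (Finset.mem_union_left _ (Finset.mem_image_of_mem _ (mem_support_iff.2 hj)))
  have ham : ∀ i < p, ∀ j, ψ^[m] ((a i).coeff j) = (a i).coeff j := by
    intro i hi j
    by_cases hj : (a i).coeff j = 0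
    · rw [hj, iterate_map_zero]
    · exact hS _ (Finset.mem_union_right _ (Finset.mem_biUnion.2 ⟨i, Finset.mem_range.2 hi,
        Finset.mem_image_of_mem _ (mem_support_iff.2 hj)⟩))
  have hz : aeval x b ≠ 0 := fun hc => hb ((transcendental_iff.1 H.tr) b hc)
  have hzm : ψL^[m] (aeval x b) = aeval x b := by
    rw [h2_map_aeval hs]
    congr 1
    ext j
    rw [coeff_map, RingHom.coe_pow]
    exact hbm j
  obtain ⟨c, hc, ht, -⟩ := exists_trace (M := L) (ψ := ψ) (Ψ := ψL) hs.const hq hroot hz hm hzm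
  have hfi : ∀ i, ψL^[i] f = f := fun i => Function.iterate_fixed hf i
  refine ⟨fun j => if j < p then
      ∑ i ∈ Finset.range m, Polynomial.C (ψ^[i] c) * (a j).map ((ψ : C →+* C) ^ i) else 0,
    ∑ i ∈ Finset.range m, Polynomial.C (ψ^[i] c) * b.map ((ψ : C →+* C) ^ i), ?_, ?_, ?_, ?_⟩
  · intro h0
    apply ht
    rw [← h2_aeval_sum hs, h0, map_zero]
  · rw [h2_aeval_sum hs, Finset.mul_sum,
      h2_ev_congr (b := fun j =>
        ∑ i ∈ Finset.range m, Polynomial.C (ψ^[i] c) * (a j).map ((ψ : C →+* C) ^ i))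
        (fun i hi => if_pos hi),
      h2_ev_sum m (fun i j => Polynomial.C (ψ^[i] c) * (a j).map ((ψ : C →+* C) ^ i))]
    refine Finset.sum_congr rfl fun i _ => ?_
    rw [h2_ev_C_mul, ← h2_map_ev hs, ← hab, iterate_map_mul, hfi, Algebra.smul_def]
    ring
  · intro i j
    dsimp only
    split_ifs with hi
    · exact h2_fixed ψ hc (a i) (ham i hi j)
    · rw [coeff_zero, map_zero]
  · intro j
    exact h2_fixed ψ hc b (hbm j)

variable {κ k : Type*} [Field κ] [Field k] [Algebra κ k] {D : Red C L κ k} {xb yb : k}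
  {hb : κ[X]}

theorem GRed.fixed_unit (hp : p.Prime) (G : GRed p D x y h xb yb hb) (hs : IsSemi x y ψ ψL)
    (hq : 2 ≤ q) (hroot : ∀ (m : ℕ) (ξ : C), 1 ≤ m → ξ ^ (q ^ m - 1) = 1 → ψ ξ = ξ ^ q)
    (horb : ∀ c : C, ∃ m, 1 ≤ m ∧ ψ^[m] c = c) {f : L} (hf : ψL f = f) (hf0 : f ≠ 0) :
    ∃ (c : C) (z : k), ψ c = c ∧ c ≠ 0 ∧ z ≠ 0 ∧ D.W.Has (algebraMap C L c * f) z := by
  obtain ⟨a, b, hb0, hab, hfa, hfb⟩ := fixed_repr hp G.sup hs hq hroot horb hf
  have hbx : aeval x b ≠ 0 := fun hc => hb0 ((transcendental_iff.1 G.sup.tr) b hc)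
  have ha : ∃ i < p, a i ≠ 0 := by
    by_contra hcon
    push Not at hcon
    have h1 : ev p x y a = 0 := by
      unfold ev
      refine Finset.sum_eq_zero fun i hi => ?_
      rw [hcon i (Finset.mem_range.1 hi), map_zero, zero_mul]
    rw [h1] at hab
    rcases mul_eq_zero.1 hab with h2 | h2
    · exact hf0 h2
    · exact hbx h2
  obtain ⟨c, hc0, hcV, i, hi, j, hij⟩ := exists_norm D.V.A ha
  have hcψ : ψ c = c := by
    have h1 : c = ((a i).coeff j)⁻¹ := eq_inv_of_mul_eq_one_left hij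
    rw [h1, map_inv₀, hfa]
  obtain ⟨z, hz0, hz⟩ := G.ev_unit hp (a := fun i => Polynomial.C c * a i)
    (fun i hi j => by rw [coeff_C_mul]; exact hcV i hi j)
    ⟨i, hi, j, by rw [coeff_C_mul]; exact hij⟩
  rw [h2_ev_C_mul] at hz
  obtain ⟨c', hc'0, hc'V, i', hi', j', hij'⟩ := exists_norm D.V.A (p := p)
    (a := fun i => if i = 0 then b else 0) ⟨0, hp.pos, by simpa using hb0⟩
  have hi0 : i' = 0 := by
    by_contra hne
    simp [hne] at hij'
  subst hi0
  have hij'' : c' * b.coeff j' = 1 := by simpa using hij'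
  have hc'ψ : ψ c' = c' := by
    have h1 : c' = (b.coeff j')⁻¹ := eq_inv_of_mul_eq_one_left hij''
    rw [h1, map_inv₀, hfb]
  obtain ⟨z', hz'0, hz'⟩ := G.ev_unit hp (a := fun i => Polynomial.C c' * if i = 0 then b else 0)
    (fun i hi j => by rw [coeff_C_mul]; exact hc'V i hi j)
    ⟨0, hi', j', by rw [coeff_C_mul]; exact hij'⟩
  rw [h2_ev_C_mul, h2_ev_single hp] at hz'
  have hd := hz.div hz' hz'0
  refine ⟨c / c', z / z', ?_, div_ne_zero hc0 hc'0, div_ne_zero hz0 hz'0, ?_⟩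
  · rw [map_div₀, hcψ, hc'ψ]
  · have h1 : algebraMap C L (c / c') * f =
        algebraMap C L c * ev p x y a / (algebraMap C L c' * aeval x b) := by
      rw [← hab, map_div₀]
      have h2 : algebraMap C L c' ≠ 0 := by
        rw [Ne, map_eq_zero]
        exact hc'0
      field_simp
    rw [h1]
    exact hd

theorem GRed.fixed_res (hp : p.Prime) (G : GRed p D x y h xb yb hb) (hs : IsSemi x y ψ ψL)
    (hq : 2 ≤ q) (hroot : ∀ (m : ℕ) (ξ : C), 1 ≤ m → ξ ^ (q ^ m - 1) = 1 → ψ ξ = ξ ^ q)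
    (horb : ∀ c : C, ∃ m, 1 ≤ m ∧ ψ^[m] c = c)
    (hψ : ∀ c z, D.V.Has c z → D.V.Has (ψ c) (z ^ q)) {f : L} {g : k} (hf : ψL f = f)
    (hfg : D.W.Has f g) :
    ∃ (ab : ℕ → κ[X]) (bb : κ[X]), bb ≠ 0 ∧ g * aeval xb bb = ev p xb yb ab ∧
      (∀ i j, ((ab i).coeff j) ^ q = (ab i).coeff j) ∧ ∀ j, (bb.coeff j) ^ q = bb.coeff j := by
  obtain ⟨a, b, hb0, hab, hfa, hfb⟩ := fixed_repr hp G.sup hs hq hroot horb hf
  obtain ⟨c, hc0, hcV, i, hi, j, hij⟩ := exists_norm D.V.A (p := p)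
    (a := fun i => if i = 0 then b else 0) ⟨0, hp.pos, by simpa using hb0⟩
  have hi0 : i = 0 := by
    by_contra hne
    simp [hne] at hij
  subst hi0
  have hij' : c * b.coeff j = 1 := by simpa using hij
  have hcψ : ψ c = c := by
    have h1 : c = (b.coeff j)⁻¹ := eq_inv_of_mul_eq_one_left hij'
    rw [h1, map_inv₀, hfb]
  have hbV : ∀ n, (Polynomial.C c * b).coeff n ∈ D.V.A := by
    intro n
    rw [coeff_C_mul]
    simpa using hcV 0 hp.pos n
  obtain ⟨bb, hbb⟩ := exists_PHas (V := D.V) hbV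
  have hbb0 : bb ≠ 0 := by
    rintro rfl
    have h1 := hbb j
    rw [coeff_C_mul, hij', coeff_zero] at h1
    exact one_ne_zero (Plc.has_one.unique h1)
  have hbx : D.W.Has (aeval x (Polynomial.C c * b)) (aeval xb bb) := hbb.aeval G.hx
  have hfb' : f * aeval x (Polynomial.C c * b) = ev p x y (fun i => Polynomial.C c * a i) := by
    rw [h2_ev_C_mul, ← hab, map_mul, aeval_C]
    ring
  have hev := hfg.mul hbx
  rw [hfb'] at hev
  have haV : ∀ i < p, ∀ j, (Polynomial.C c * a i).coeff j ∈ D.V.A := G.ev_mem hp hev.1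
  have hex : ∀ i, ∃ Pb : κ[X], (i < p → PHas D.V (Polynomial.C c * a i) Pb) ∧ (¬ i < p → Pb = 0) := by
    intro i
    by_cases hi : i < p
    · obtain ⟨Pb, hPb⟩ := exists_PHas (V := D.V) (haV i hi)
      exact ⟨Pb, fun _ => hPb, fun h => absurd hi h⟩
    · exact ⟨0, fun h => absurd h hi, fun _ => rfl⟩
  choose ab hab1 hab2 using hex
  have hev2 : D.W.Has (ev p x y (fun i => Polynomial.C c * a i)) (ev p xb yb ab) :=
    G.ev_has fun i hi => hab1 i hi
  have hfix : ∀ {u : C} {z : κ}, ψ u = u → D.V.Has u z → z ^ q = z := by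
    intro u z hu hz
    have h1 := hψ u z hz
    rw [hu] at h1
    exact h1.unique hz
  refine ⟨ab, bb, hbb0, hev.unique hev2, ?_, ?_⟩
  · intro i n
    by_cases hi : i < p
    · refine hfix ?_ (hab1 i hi n)
      rw [coeff_C_mul, map_mul, hcψ, hfa]
    · rw [hab2 i hi, coeff_zero, zero_pow (by omega)]
  · intro n
    refine hfix ?_ (hbb n)
    rw [coeff_C_mul, map_mul, hcψ, hfb]

end Pool.Agent.Lib.MP_2f3286_ag.Gl
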