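import Pool.Agent.Lib.MP_2f3286_ag.Gl.GC
import Pool.Agent.Lib.MP_2f3286_ag.Pt.KlFin
import Pool.Agent.Lib.MP_2f3286_ag.Pt.KlStep
import Pool.Agent.Lib.MP_2f3286_ag.Kummer

/-!
# The group of the roots with divisible orders   (module JD)

`IsJ p C L z`: some `z ^ (p ^ n)` is an element of `L` all of whose orders at the places over `C` are divisible by `p ^ n`.
PROOFS. `raise`: if `z ^ (p ^ n) = f`, `DivAt (p ^ n) f`, then `z ^ (p ^ (n + m)) = f ^ (p ^ m)`, `DivAt (p ^ (n + m)) (f ^ (p ^ m))`. `mul`: raise to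
a common exponent. `of_mem`: `n = 0`. `divAt`: `z ^ (p ^ m) = f₀` with `DivAt (p ^ m) f₀`. If `n ≤ m`, `f ^ (p ^ (m - n)) = f₀` (`algebraMap` injective) and
`v f ^ (p ^ (m - n)) = v c ^ (p ^ m) = (v c ^ (p ^ n)) ^ (p ^ (m - n))`, so `v f = v c ^ (p ^ n)` (`pow_left_injective` in a linearly ordered group).
If `n > m`, `f = f₀ ^ (p ^ (n - m))`. `map`: `T z ^ (p ^ n) = T f = gL f`, `divAt_semi`. `tower`: a place `Q` of `L` over `C`: `Q' = Q.comap (algebraMap L₁ L)`; if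
`Q' ≠ ⊤` use `DivAt n f Q'` (`Full.val_comap_eq_one`); if `Q' = ⊤` then `f` and `f⁻¹` are in `Q'`, so `Q.valuation f = 1`, take `c = 1`.
`div`: `z ^ (p ^ n) = f`. `Pt.kl_step` (`𝒰` = all places over `C`, `N = p ^ n`, exponent `p`): `c ≠ 0` with `DivAt (p ^ n * p) (f c ^ (p ^ n))` at all places. `z c ∈ M`
satisfies `DivAt p (z c) V` for all `V ∈ 𝒱`: the place `V' = V.comap (algebraMap L M)`, if `≠ ⊤`, gives `d : L` with `V (f c ^ (p ^ n)) = V d ^ (p ^ n * p)`,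
and `f c ^ (p ^ n) = (z c) ^ (p ^ n)`, so `V (z c) = V d ^ p`; if `V' = ⊤`, `V (z c) = 1`. `hrad`: `w ^ p = z c`; `w ^ (p ^ (n + 1)) = f c ^ (p ^ n)`.
`fin`: `Pt.kl_fin` with `n = p`, `𝒰` = all places: a finite set `T₀ ⊆ L`. For `r ∈ T₀` choose `β_r ∈ M`, `β_r ^ p = r`, if there is one (otherwise `β_r = 1`); if `β_r = 0` take
`1`. `T = {β_r}`. For `z`: `z ^ p = f`, `DivAt p f` at all places (`divAt` with `n = 1`), so `f = r c ^ p`, `c ≠ 0`, `r = (z / c) ^ p` so `β_r ^ p = r`, `β_r ≠ 0`,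
`(z / (c β_r)) ^ p = 1`, a `p`-th root of unity, in `C` (`root_of_unity_mem`, `Kummer.lean`).
-/

open Polynomial IntermediateField

namespace Pool.Agent.Lib.MP_2f3286_ag.Gl

open Pool.Agent.Lib.MP_2f3286_ag.Pt (IsPlc DivAt)

private theorem JD_val_iff {L : Type*} [Field L] (Q : ValuationSubring L) (z : L) :
    Q.valuation z = 1 ↔ (z ∈ Q ∧ z⁻¹ ∈ Q) ∧ z ≠ 0 := by
  constructor
  · intro hz
    have hz0 : z ≠ 0 := by
      rintro rfl
      rw [map_zero] at hz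
      exact zero_ne_one hz
    refine ⟨⟨(Q.valuation_le_one_iff z).1 hz.le, (Q.valuation_le_one_iff _).1 ?_⟩, hz0⟩
    rw [map_inv₀, hz, inv_one]
  · rintro ⟨⟨h1, h2⟩, h0⟩
    have h1' := (Q.valuation_le_one_iff z).2 h1
    have h2' := (Q.valuation_le_one_iff _).2 h2
    rw [map_inv₀] at h2'
    have h3 : Q.valuation z ≠ 0 := by
      rw [Ne, map_eq_zero]
      exact h0
    refine le_antisymm h1' ?_
    exact (inv_le_one₀ (zero_lt_iff.2 h3)).1 h2'

private theorem JD_comap {L M : Type*} [Field L] [Field M] (f : L →+* M)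
    (V : ValuationSubring M) (z : L) :
    (V.comap f).valuation z = 1 ↔ V.valuation (f z) = 1 := by
  rw [JD_val_iff, JD_val_iff, ValuationSubring.mem_comap, ValuationSubring.mem_comap, map_inv₀,
    map_ne_zero_iff f f.injective]

private theorem JD_pow_one {L : Type*} [Field L] (Q : ValuationSubring L) (z : L) {n : ℕ}
    (hn : n ≠ 0) (h : Q.valuation (z ^ n) = 1) : Q.valuation z = 1 := by
  rw [map_pow] at h
  exact (pow_eq_one_iff.1 h).resolve_right hn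

private theorem JD_raise {L : Type*} [Field L] {Q : ValuationSubring L} {n : ℕ} {f : L}
    (h : DivAt n f Q) (m : ℕ) : DivAt (n * m) (f ^ m) Q := by
  obtain ⟨c, hc, hv⟩ := h
  refine ⟨c, hc, ?_⟩
  have h1 : f ^ m * (c ^ (n * m))⁻¹ = (f * (c ^ n)⁻¹) ^ m := by
    rw [mul_pow, inv_pow, pow_mul]
  rw [h1, map_pow, hv, one_pow]

private theorem JD_mul {L : Type*} [Field L] {Q : ValuationSubring L} {n : ℕ} {f g : L}
    (h : DivAt n f Q) (h' : DivAt n g Q) : DivAt n (f * g) Q := by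
  obtain ⟨c, hc, hv⟩ := h
  obtain ⟨d, hd, hw⟩ := h'
  refine ⟨c * d, mul_ne_zero hc hd, ?_⟩
  have h1 : f * g * ((c * d) ^ n)⁻¹ = (f * (c ^ n)⁻¹) * (g * (d ^ n)⁻¹) := by
    rw [mul_pow, mul_inv]
    ring
  rw [h1, map_mul, hv, hw, one_mul]

/-- `z` is a root of order a power of `p` of an element of `L` with divisible orders -/
def IsJ (p : ℕ) (C L : Type*) {M : Type*} [Field C] [Field L] [Algebra C L] [Field M]
    [Algebra L M] (z : M) : Prop :=
  z ≠ 0 ∧ ∃ (n : ℕ) (f : L), z ^ p ^ n = algebraMap L M f ∧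
    ∀ Q : ValuationSubring L, IsPlc C Q → DivAt (p ^ n) f Q

/-- an automorphism of `M` which preserves `L` and `C` -/
structure SAut (C L M : Type*) [Field C] [Field L] [Field M] [Algebra C L] [Algebra L M] where
  /-- the automorphism -/
  g : M ≃+* M
  /-- its restriction to `L` -/
  gL : L ≃+* L
  /-- its restriction to `C` -/
  gC : C ≃+* C
  hL : ∀ f : L, g (algebraMap L M f) = algebraMap L M (gL f)
  hC : ∀ c : C, gL (algebraMap C L c) = algebraMap C L (gC c)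

section

variable {p : ℕ} {C L M : Type*} [Field C] [Field L] [Algebra C L] [Field M] [Algebra L M]
  {z w : M}

theorem IsJ.mul (hp : p.Prime) (hz : IsJ p C L z) (hw : IsJ p C L w) : IsJ p C L (z * w) := by
  obtain ⟨hz0, n, f, hf, hdf⟩ := hz
  obtain ⟨hw0, m, g, hg, hdg⟩ := hw
  refine ⟨mul_ne_zero hz0 hw0, n + m, f ^ p ^ m * g ^ p ^ n, ?_, ?_⟩
  · rw [map_mul, map_pow, map_pow, ← hf, ← hg, ← pow_mul, ← pow_mul, ← pow_add, ← pow_add,
      mul_pow, add_comm m n]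
  · intro Q hQ
    have h1 := JD_raise (hdf Q hQ) (p ^ m)
    have h2 := JD_raise (hdg Q hQ) (p ^ n)
    rw [← pow_add] at h1 h2
    rw [add_comm m n] at h2
    exact JD_mul h1 h2

theorem IsJ.inv (hz : IsJ p C L z) : IsJ p C L z⁻¹ := by
  obtain ⟨hz0, n, f, hf, hdf⟩ := hz
  refine ⟨inv_ne_zero hz0, n, f⁻¹, by rw [inv_pow, hf, map_inv₀], ?_⟩
  intro Q hQ
  obtain ⟨c, hc, hv⟩ := hdf Q hQ
  refine ⟨c⁻¹, inv_ne_zero hc, ?_⟩
  have h1 : f⁻¹ * (c⁻¹ ^ p ^ n)⁻¹ = (f * (c ^ p ^ n)⁻¹)⁻¹ := by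
    rw [mul_inv, inv_pow]
  rw [h1, map_inv₀, hv, inv_one]

theorem IsJ.of_mem {f : L} (hf : f ≠ 0) : IsJ p C L (algebraMap L M f) := by
  refine ⟨(map_ne_zero (algebraMap L M)).2 hf, 0, f, by rw [pow_zero, pow_one], ?_⟩
  intro Q hQ
  refine ⟨f, hf, ?_⟩
  rw [pow_zero, pow_one, mul_inv_cancel₀ hf, map_one]

theorem IsJ.divAt (hp : p.Prime) (hz : IsJ p C L z) {n : ℕ} {f : L}
    (hf : z ^ p ^ n = algebraMap L M f) (Q : ValuationSubring L) (hQ : IsPlc C Q) :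
    DivAt (p ^ n) f Q := by
  obtain ⟨hz0, m, f₀, hf₀, hd⟩ := hz
  rcases le_total n m with hnm | hnm
  · obtain ⟨k, rfl⟩ := Nat.exists_eq_add_of_le hnm
    have h1 : f ^ p ^ k = f₀ := by
      apply (algebraMap L M).injective
      rw [map_pow, ← hf, ← hf₀, ← pow_mul, ← pow_add]
    obtain ⟨c, hc, hv⟩ := hd Q hQ
    refine ⟨c, hc, ?_⟩
    refine JD_pow_one Q _ (n := p ^ k) (pow_ne_zero _ hp.ne_zero) ?_
    rw [mul_pow, inv_pow, ← pow_mul, ← pow_add, h1]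
    exact hv
  · obtain ⟨k, rfl⟩ := Nat.exists_eq_add_of_le hnm
    have h1 : f = f₀ ^ p ^ k := by
      apply (algebraMap L M).injective
      rw [map_pow, ← hf, ← hf₀, ← pow_mul, ← pow_add]
    rw [h1, pow_add]
    exact JD_raise (hd Q hQ) _

theorem IsJ.map (hz : IsJ p C L z) (T : SAut C L M) : IsJ p C L (T.g z) := by
  obtain ⟨hz0, n, f, hf, hd⟩ := hz
  refine ⟨(map_ne_zero_iff T.g T.g.injective).2 hz0, n, T.gL f, ?_, ?_⟩
  · rw [← map_pow, hf, T.hL]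
  · intro Q hQ
    exact divAt_semi (δ := T.gC) (τ := T.gL) T.hC hd Q hQ

theorem IsJ.tower {L₁ : Type*} [Field L₁] [Algebra C L₁] [Algebra L₁ L] [Algebra L₁ M]
    [IsScalarTower C L₁ L] [IsScalarTower L₁ L M] (hz : IsJ p C L₁ z) : IsJ p C L z := by
  obtain ⟨hz0, n, f, hf, hd⟩ := hz
  have hf0 : f ≠ 0 := by
    rintro rfl
    rw [map_zero] at hf
    exact pow_ne_zero _ hz0 hf
  refine ⟨hz0, n, algebraMap L₁ L f, ?_, ?_⟩
  · rw [hf]
    exact IsScalarTower.algebraMap_apply L₁ L M f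
  · intro Q hQ
    by_cases htop : Q.comap (algebraMap L₁ L) = ⊤
    · refine ⟨1, one_ne_zero, ?_⟩
      rw [one_pow, inv_one, mul_one, ← JD_comap, htop, JD_val_iff]
      exact ⟨⟨ValuationSubring.mem_top _, ValuationSubring.mem_top _⟩, hf0⟩
    · have hpl : IsPlc C (Q.comap (algebraMap L₁ L)) := by
        refine ⟨fun a => ?_, htop⟩
        rw [ValuationSubring.mem_comap, ← IsScalarTower.algebraMap_apply C L₁ L]
        exact hQ.1 a
      obtain ⟨c, hc, hv⟩ := hd _ hpl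
      refine ⟨algebraMap L₁ L c, (map_ne_zero (algebraMap L₁ L)).2 hc, ?_⟩
      rw [JD_comap, map_mul, map_inv₀, map_pow] at hv
      exact hv

end

variable {p : ℕ} {C L M : Type*} [Field C] [IsAlgClosed C] [CharZero C] [Field L] [Algebra C L]
  [Field M] [Algebra L M]

theorem IsJ.div [Algebra C M] [IsScalarTower C L M] (hp : p.Prime) (t : L)
    (ht : Transcendental C t) [FiniteDimensional (IntermediateField.adjoin C {t}) L]
    (𝒱 : Set (ValuationSubring M)) (h𝒱 : ∀ V ∈ 𝒱, ∀ a : C, algebraMap C M a ∈ V)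
    (hrad : ∀ ρ : M, ρ ≠ 0 → (∀ V ∈ 𝒱, DivAt p ρ V) → ∃ β : M, β ^ p = ρ) {z : M}
    (hz : IsJ p C L z) : ∃ w : M, IsJ p C L w ∧ ∃ c : L, c ≠ 0 ∧ w ^ p = z * algebraMap L M c := by
  obtain ⟨hz0, n, f, hf, hd⟩ := hz
  have hf0 : f ≠ 0 := by
    rintro rfl
    rw [map_zero] at hf
    exact pow_ne_zero _ hz0 hf
  obtain ⟨c, hc, hdc⟩ := Pool.Agent.Lib.MP_2f3286_ag.Pt.kl_step (C := C) t ht
    {Q : ValuationSubring L | IsPlc C Q} (fun Q hQ => hQ)
    (by
      refine Set.Finite.subset Set.finite_empty ?_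
      rintro Q ⟨h1, h2, h3⟩
      exact (h3 ⟨h1, h2⟩).elim)
    (p ^ n) p (Nat.one_le_iff_ne_zero.2 (pow_ne_zero _ hp.ne_zero)) hp.one_le f hf0
    (fun Q hQ => hd Q hQ)
  have hρ0 : z * algebraMap L M c ≠ 0 :=
    mul_ne_zero hz0 ((map_ne_zero (algebraMap L M)).2 hc)
  have hρn : (z * algebraMap L M c) ^ p ^ n = algebraMap L M (f * c ^ p ^ n) := by
    rw [mul_pow, hf, map_mul, map_pow]
  obtain ⟨w, hw⟩ := hrad (z * algebraMap L M c) hρ0 (by
    intro V hV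
    by_cases htop : V.comap (algebraMap L M) = ⊤
    · refine ⟨1, one_ne_zero, ?_⟩
      rw [one_pow, inv_one, mul_one]
      refine JD_pow_one V _ (n := p ^ n) (pow_ne_zero _ hp.ne_zero) ?_
      rw [hρn, ← JD_comap, htop, JD_val_iff]
      exact ⟨⟨ValuationSubring.mem_top _, ValuationSubring.mem_top _⟩,
        mul_ne_zero hf0 (pow_ne_zero _ hc)⟩
    · have hpl : IsPlc C (V.comap (algebraMap L M)) := by
        refine ⟨fun a => ?_, htop⟩
        rw [ValuationSubring.mem_comap, ← IsScalarTower.algebraMap_apply C L M]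
        exact h𝒱 V hV a
      obtain ⟨d, hd0, hv⟩ := hdc _ hpl
      refine ⟨algebraMap L M d, (map_ne_zero (algebraMap L M)).2 hd0, ?_⟩
      refine JD_pow_one V _ (n := p ^ n) (pow_ne_zero _ hp.ne_zero) ?_
      rw [JD_comap, map_mul, map_inv₀, map_pow, ← hρn] at hv
      rw [mul_pow, inv_pow, ← pow_mul, mul_comm p (p ^ n)]
      exact hv)
  have hw0 : w ≠ 0 := by
    rintro rfl
    rw [zero_pow hp.ne_zero] at hw
    exact hρ0 hw.symm
  refine ⟨w, ⟨hw0, n + 1, f * c ^ p ^ n, ?_, ?_⟩, c, hc, hw⟩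
  · rw [← hρn, ← hw, ← pow_mul, pow_succ, mul_comm p (p ^ n)]
  · intro Q hQ
    rw [pow_succ]
    exact hdc Q hQ

theorem IsJ.fin [Algebra C M] [IsScalarTower C L M] (hp : p.Prime) (t : L)
    (ht : Transcendental C t) [FiniteDimensional (IntermediateField.adjoin C {t}) L] :
    ∃ T : Finset M, (∀ r ∈ T, r ≠ 0) ∧ ∀ z : M, IsJ p C L z → (∃ f : L, z ^ p = algebraMap L M f) →
      ∃ r ∈ T, ∃ c : L, z = r * algebraMap L M c := by
  classical
  obtain ⟨T₀, hT₀⟩ := Pool.Agent.Lib.MP_2f3286_ag.Pt.kl_fin (C := C) t ht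
    {Q : ValuationSubring L | IsPlc C Q} (fun Q hQ => hQ)
    (by
      refine Set.Finite.subset Set.finite_empty ?_
      rintro Q ⟨h1, h2, h3⟩
      exact (h3 ⟨h1, h2⟩).elim)
    p hp.one_le
  have hβ : ∀ r : L, ∃ β : M, β ≠ 0 ∧
      ((∃ β' : M, β' ≠ 0 ∧ β' ^ p = algebraMap L M r) → β ^ p = algebraMap L M r) := by
    intro r
    by_cases h : ∃ β' : M, β' ≠ 0 ∧ β' ^ p = algebraMap L M r
    · obtain ⟨β, h1, h2⟩ := h
      exact ⟨β, h1, fun _ => h2⟩
    · exact ⟨1, one_ne_zero, fun h' => (h h').elim⟩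
  choose β hβ0 hβp using hβ
  refine ⟨T₀.image β, ?_, ?_⟩
  · intro r hr
    obtain ⟨s, -, rfl⟩ := Finset.mem_image.1 hr
    exact hβ0 s
  · rintro z hz ⟨f, hf⟩
    have hz0 : z ≠ 0 := hz.1
    have hf0 : f ≠ 0 := by
      rintro rfl
      rw [map_zero] at hf
      exact pow_ne_zero _ hz0 hf
    obtain ⟨r, hr, c, hc, hfr⟩ := hT₀ f hf0 (by
      intro Q hQ
      have h1 := hz.divAt hp (n := 1) (f := f) (by rw [pow_one, hf]) Q hQ
      rwa [pow_one] at h1)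
    have hcM : algebraMap L M c ≠ 0 := (map_ne_zero (algebraMap L M)).2 hc
    have h2 : (z / algebraMap L M c) ^ p = algebraMap L M r := by
      rw [div_pow, hf, hfr, map_mul, map_pow, mul_div_cancel_right₀ _ (pow_ne_zero _ hcM)]
    have h3 := hβp r ⟨z / algebraMap L M c, div_ne_zero hz0 hcM, h2⟩
    have h4 : (z / (algebraMap L M c * β r)) ^ p = 1 := by
      rw [← div_div, div_pow, h2, ← h3, div_self (pow_ne_zero _ (hβ0 r))]
    obtain ⟨ξ, hξ⟩ := root_of_unity_mem C M hp.pos h4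
    refine ⟨β r, Finset.mem_image_of_mem β hr, c * algebraMap C L ξ, ?_⟩
    rw [map_mul, ← IsScalarTower.algebraMap_apply C L M, hξ]
    field_simp [hcM, hβ0 r]

end Pool.Agent.Lib.MP_2f3286_ag.Gl
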