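import Pool.Agent.Lib.MP_2f3286_ag.Gl.SB

/-!
# Superelliptic function fields: polynomials in `x` which are `p`-th powers   (module SC)

PROOF of `kum`. Take `η` from `exists_eta`. `(η u) ^ p = η (u ^ p) = η (P(x)) = P(x) = u ^ p`, `u ≠ 0` as `P(x) ≠ 0`
(`x` transcendental), so `η u / u` is a `p`-th root of unity of `L`, so it is `ζ ^ j` with `j < p` (the image of `ζ` in `L` is a
primitive `p`-th root of unity, `IsPrimitiveRoot.eq_pow_of_pow_eq_one`). `eigen`: `u * b(x) = a(x) * y ^ j`, `b ≠ 0`; the `p`-th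
powers: `P(x) * b(x) ^ p = a(x) ^ p * h(x) ^ j`, so `P * b ^ p = a ^ p * h ^ j` in `C[X]` (`x` transcendental), `a ≠ 0`. Root
multiplicities at `α` (`rootMultiplicity_mul`, `rootMultiplicity_pow`): `m_P + p m_b = p m_a + j m_h`.
-/

open Polynomial IntermediateField

namespace Pool.Agent.Lib.MP_2f3286_ag.Gl

variable {p : ℕ} {C L : Type*} [Field C] [Field L] [Algebra C L] {x y : L} {h : C[X]}

theorem IsSup.kum (hp : p.Prime) (H : IsSup p x y h) {ζ : C} (hζ : IsPrimitiveRoot ζ p) {P : C[X]}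
    (hP : P ≠ 0) {u : L} (hu : u ^ p = aeval x P) :
    ∃ j : ℕ, ∀ α : C, (p : ℤ) ∣ (P.rootMultiplicity α : ℤ) - j * h.rootMultiplicity α := by
  classical
  have hp0 : p ≠ 0 := hp.ne_zero
  have : NeZero p := ⟨hp0⟩
  obtain ⟨η, hx, hy, -⟩ := H.exists_eta hp hζ
  have hηa : ∀ q : C[X], η (aeval x q) = aeval x q := by
    intro q
    have h1 : η (aeval x q) = aeval (η x) q := by
      have := Polynomial.aeval_algHom_apply (η : L →ₐ[C] L) x q
      exact this.symm
    rw [h1, hx]
  have hinj : ∀ q : C[X], aeval x q = 0 → q = 0 := fun q hq => (transcendental_iff.1 H.tr) q hq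
  have hu0 : u ≠ 0 := by
    rintro rfl
    rw [zero_pow hp0] at hu
    exact hP (hinj P hu.symm)
  have h1 : (η u / u) ^ p = 1 := by
    rw [div_pow, ← map_pow, hu, hηa, div_self]
    intro h0
    exact hP (hinj P h0)
  have hζL : IsPrimitiveRoot (algebraMap C L ζ) p :=
    hζ.map_of_injective (algebraMap C L).injective
  obtain ⟨j, hj, hjr⟩ := hζL.eq_pow_of_pow_eq_one h1
  have h2 : η u = algebraMap C L (ζ ^ j) * u := by
    rw [map_pow, hjr]
    field_simp
  obtain ⟨a, b, hb, hab⟩ := H.eigen hp hζ hx hy hj h2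
  have h3 : P * b ^ p = a ^ p * h ^ j := by
    have h4 : aeval x (P * b ^ p - a ^ p * h ^ j) = 0 := by
      rw [map_sub, map_mul, map_pow, map_mul, map_pow, map_pow, ← hu, ← mul_pow, hab, mul_pow,
        ← pow_mul, mul_comm j p, pow_mul, H.eq, sub_self]
    exact sub_eq_zero.1 (hinj _ h4)
  have hh0 : h ≠ 0 := by
    rintro rfl
    have := H.deg
    rw [natDegree_zero, Nat.coprime_zero_right] at this
    exact hp.one_lt.ne' this
  have hl0 : P * b ^ p ≠ 0 := mul_ne_zero hP (pow_ne_zero _ hb)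
  have ha0 : a ≠ 0 := by
    rintro rfl
    rw [zero_pow hp0, zero_mul] at h3
    exact hl0 h3
  have hr0 : a ^ p * h ^ j ≠ 0 := mul_ne_zero (pow_ne_zero _ ha0) (pow_ne_zero _ hh0)
  have hpow : ∀ (q : C[X]) (α : C) (n : ℕ), q ≠ 0 →
      (q ^ n).rootMultiplicity α = n * q.rootMultiplicity α := by
    intro q α n hq
    induction n with
    | zero => simp
    | succ n ih =>
      rw [pow_succ, rootMultiplicity_mul (mul_ne_zero (pow_ne_zero _ hq) hq), ih]; ring
  refine ⟨j, fun α => ?_⟩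
  have h5 := congrArg (fun q : C[X] => q.rootMultiplicity α) h3
  rw [rootMultiplicity_mul hl0, rootMultiplicity_mul hr0, hpow b α p hb, hpow a α p ha0,
    hpow h α j hh0] at h5
  refine ⟨(a.rootMultiplicity α : ℤ) - b.rootMultiplicity α, ?_⟩
  have h6 : (P.rootMultiplicity α : ℤ) + p * b.rootMultiplicity α =
      p * a.rootMultiplicity α + j * h.rootMultiplicity α := by
    exact_mod_cast h5
  linear_combination h6

end Pool.Agent.Lib.MP_2f3286_ag.Gl
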