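import Pool.Agent.Lib.MP_2f3286_ag.Gl.SB
import Pool.Agent.Lib.MP_2f3286_ag.Gl.SH
import Pool.Agent.Lib.MP_2f3286_ag.Pt.Ex2

/-!
# Superelliptic function fields: elements `f` with `f / η f` a `p`-th power   (module SI)

PROOF of `h90`. (Hilbert 90 by hand.) Let `G j = ∏ i < j, η ^ i g`, `G 0 = 1`, `G p = 1` (`hN`), `G (j + 1) = g * η (G j)`. For
`θ : L` put `u θ = ∑ j < p, G j * (η ^ j) θ`. Then `g * η (u θ) = ∑ j < p, G (j + 1) * (η ^ (j + 1)) θ = u θ` (`η ^ p = 1` and
`G p = G 0`). The automorphisms `η ^ j`, `j < p`, are distinct (`hη`: they have distinct values at `y`), so linearly independent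
(`linearIndependent_monoidHom` for `L →* L`), `G 0 = 1 ≠ 0`, so `u θ ≠ 0` for some `θ`.
PROOF of `gt`. `η ^ p = 1` (see SB: it fixes `x` and `y` and `adjoin C {x, y} = ⊤`). Let `Q` be a place with `x ∉ Q`
(`exists_inf`), `v = Q.valuation`, `γ` the generator and `N` the function of `inf_val`: `v x = γ ^ p`, `v y = γ ^ d`,
`d = h.natDegree` prime to `p`. The valuation ring `Q.comap η` has the same properties, so `Q.comap η = Q` (`inf_unique`); so
`v (η a) < 1 ↔ v a < 1`, `v (η a) = 1 ↔ v a = 1` (`η a ∈ Q ↔ a ∈ Q` and the same for inverses). (*) Every `a` with `v a = 1`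
has a constant `c ≠ 0` with `v (a - c) < 1`: `Pt.Ex2.exists_val` (`IsSup.finDim`).
(1) `v (f / η f - 1) < 1`: `DivAt p f Q` gives `c ≠ 0` with `v (f / c ^ p) = 1`; `v c = γ ^ n`, `n = N c`. With `u p + w d = 1`,
`t = x ^ u * y ^ w` has `v t = γ`, `η t = ζ ^ w t`. Write `c = t ^ n * e`, `v e = 1`; `f = t ^ (n p) * e ^ p * e'` with
`v e' = 1`, so `f = t ^ (n p) * e''`, `v e'' = 1`, and `η f = (ζ ^ w) ^ (n p) t ^ (n p) η e'' = t ^ (n p) η e''`. `e'' ≡ a`,
a constant `a ≠ 0` (*), so `η e'' ≡ a` and `f / η f = e'' / η e'' ≡ 1`.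
(2) `f / η f = g ^ p`, so `v g = 1`, `g ≡ a` a constant, `a ^ p ≡ 1` so `a ^ p = 1` (a constant with valuation `< 1` is zero).
`η ^ i g ≡ a`, so `∏ i < p, η ^ i g ≡ a ^ p = 1`. The `p`-th power of this product is `∏ i < p, η ^ i (f / η f) = 1` (telescoping,
`η ^ p = 1`), so the product is a root of unity, i.e. a constant (`ζ ^ j`), `≡ 1`, so it is `1`.
(3) `h90`: `g * η u = u`, `u ≠ 0`. So `f / u ^ p` is fixed by `η`: `η f = f / g ^ p`, `η (u ^ p) = u ^ p / g ^ p`. By `eigen` with
`j = 0`: `(f / u ^ p) * b(x) = a(x)`, `b ≠ 0`, `a ≠ 0` as `f ≠ 0`. So `f = (a b ^ (p - 1))(x) * (u / b(x)) ^ p`.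
-/

open Polynomial IntermediateField
open Pool.Agent.Lib.MP_2f3286_ag.Pt (IsPlc DivAt)

namespace Pool.Agent.Lib.MP_2f3286_ag.Gl

variable {p : ℕ} {C L : Type*} [Field C] [Field L] [Algebra C L] {x y : L} {h : C[X]}

private theorem SI_succ (η : L ≃ₐ[C] L) (i : ℕ) (f : L) : (η ^ (i + 1)) f = η ((η ^ i) f) := by
  rw [pow_succ', AlgEquiv.mul_apply]

theorem h90 (hp : p ≠ 0) {η : L ≃ₐ[C] L} (hη : ∀ i < p, ∀ j < p, η ^ i = η ^ j → i = j)
    (hηp : ∀ f, (η ^ p) f = f) {g : L} (hN : ∏ i ∈ Finset.range p, (η ^ i) g = 1) :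
    ∃ u : L, u ≠ 0 ∧ g * η u = u := by
  set G : ℕ → L := fun j => ∏ i ∈ Finset.range j, (η ^ i) g with hG
  have hG0 : G 0 = 1 := by simp [hG]
  have hGp : G p = 1 := hN
  have hGs : ∀ j, g * η (G j) = G (j + 1) := by
    intro j
    simp only [hG]
    rw [map_prod, Finset.prod_range_succ', mul_comm]
    simp only [← SI_succ, pow_zero, AlgEquiv.one_apply]
  set U : L → L := fun θ => ∑ j ∈ Finset.range p, G j * (η ^ j) θ with hU
  have hfix : ∀ θ, g * η (U θ) = U θ := by
    intro θ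
    have h1 : g * η (U θ) = ∑ j ∈ Finset.range p, G (j + 1) * (η ^ (j + 1)) θ := by
      simp only [hU]
      rw [map_sum, Finset.mul_sum]
      refine Finset.sum_congr rfl fun j _ => ?_
      rw [map_mul, ← mul_assoc, hGs, SI_succ]
    have h2 := Finset.sum_range_succ (fun j => G j * (η ^ j) θ) p
    have h3 := Finset.sum_range_succ' (fun j => G j * (η ^ j) θ) p
    rw [h1]
    simp only [hU]
    rw [h2] at h3
    rw [hGp, hG0, hηp, pow_zero, AlgEquiv.one_apply] at h3
    exact (add_right_cancel h3).symm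
  by_contra hcon
  push Not at hcon
  have hzero : ∀ θ, U θ = 0 := by
    intro θ
    by_contra hne
    exact hcon (U θ) hne (hfix θ)
  have hinj : Function.Injective (fun j : Fin p => ((η ^ (j : ℕ) : L ≃ₐ[C] L) : L →* L)) := by
    intro i j hij
    apply Fin.ext
    refine hη i i.2 j j.2 (AlgEquiv.ext fun a => ?_)
    exact DFunLike.congr_fun hij a
  have hli := (linearIndependent_monoidHom L L).comp _ hinj
  rw [Fintype.linearIndependent_iff] at hli
  have h4 := hli (fun j => G j) (by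
    funext θ
    have h5 := hzero θ
    simp only [hU] at h5
    rw [← Fin.sum_univ_eq_sum_range (fun j => G j * (η ^ j) θ) p] at h5
    simpa [Finset.sum_apply] using h5) ⟨0, Nat.pos_of_ne_zero hp⟩
  simp only at h4
  rw [hG0] at h4
  exact one_ne_zero h4

private theorem SI_lt (Q : ValuationSubring L) (a : L) :
    Q.valuation a < 1 ↔ a = 0 ∨ a⁻¹ ∉ Q := by
  by_cases ha : a = 0
  · subst ha
    simp
  · have h0 : 0 < Q.valuation a := zero_lt_iff.2 ((Valuation.ne_zero_iff _).2 ha)
    rw [← Q.valuation_le_one_iff, not_le, map_inv₀, one_lt_inv₀ h0]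
    simp [ha]

private theorem SI_const (Q : ValuationSubring L) (hQ : ∀ a : C, algebraMap C L a ∈ Q) {c : C}
    (h : Q.valuation (algebraMap C L c) < 1) : c = 0 := by
  rw [SI_lt] at h
  rcases h with h | h
  · exact (map_eq_zero _).1 h
  · exact absurd (by rw [← map_inv₀]; exact hQ _) h

private theorem SI_ne (tr : Transcendental C x) {b : C[X]} (hb : b ≠ 0) : aeval x b ≠ 0 := by
  intro h
  exact hb ((transcendental_iff.1 tr) b h)

theorem IsSup.gt [IsAlgClosed C] [CharZero C] (hp : p.Prime) (H : IsSup p x y h) {ζ : C}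
    (hζ : IsPrimitiveRoot ζ p) {η : L ≃ₐ[C] L} (hx : η x = x) (hy : η y = algebraMap C L ζ * y)
    {f g : L} (hf : f ≠ 0) (hdiv : ∀ Q : ValuationSubring L, IsPlc C Q → DivAt p f Q)
    (hg : f = η f * g ^ p) : ∃ (P : C[X]) (u : L), P ≠ 0 ∧ u ≠ 0 ∧ f = aeval x P * u ^ p := by
  have hp0 : p ≠ 0 := hp.ne_zero
  have hh0 : h ≠ 0 := H.sep.ne_zero
  have hx0 : x ≠ 0 := by
    rintro rfl
    exact H.tr isAlgebraic_zero
  have hy0 : y ≠ 0 := by
    intro h0
    have h1 := H.eq
    rw [h0, zero_pow hp0] at h1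
    exact SI_ne H.tr hh0 h1.symm
  have hg0 : g ≠ 0 := by
    rintro rfl
    rw [zero_pow hp0, mul_zero] at hg
    exact hf hg
  -- powers of `η`
  have hηx : ∀ i : ℕ, (η ^ i) x = x := by
    intro i
    induction i with
    | zero => simp
    | succ i ih => rw [SI_succ, ih, hx]
  have hηy : ∀ i : ℕ, (η ^ i) y = algebraMap C L (ζ ^ i) * y := by
    intro i
    induction i with
    | zero => simp
    | succ i ih =>
      rw [SI_succ, ih, map_mul, hy, AlgEquiv.commutes, pow_succ, map_mul]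
      ring
  have hηp : ∀ a, (η ^ p) a = a := by
    intro a
    have ha : a ∈ IntermediateField.adjoin C {x, y} := by
      rw [H.gen]
      trivial
    induction ha using IntermediateField.adjoin_induction with
    | mem z hz =>
      rcases hz with rfl | rfl
      · exact hηx p
      · rw [hηy, hζ.pow_eq_one, map_one, one_mul]
    | algebraMap c => exact AlgEquiv.commutes _ _
    | add a b _ _ ha hb => rw [map_add, ha, hb]
    | inv a _ ha => rw [map_inv₀, ha]
    | mul a b _ _ ha hb => rw [map_mul, ha, hb]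
  have hdist : ∀ i < p, ∀ j < p, η ^ i = η ^ j → i = j := by
    intro i hi j hj hij
    have h1 : (η ^ i) y = (η ^ j) y := by rw [hij]
    rw [hηy, hηy] at h1
    have h2 := mul_right_cancel₀ hy0 h1
    exact hζ.pow_inj hi hj ((algebraMap C L).injective h2)
  -- the place at infinity
  obtain ⟨N, hN⟩ := H.inf_val hp
  obtain ⟨Q, hQ, -, hxQ⟩ := exists_inf (L := L) H.tr
  obtain ⟨γ, hγ1, hvx, hvy, hvf⟩ := hN Q hQ.1 hxQ
  have hγ0 : γ ≠ 0 := (zero_lt_one.trans hγ1).ne'
  have hcomap : Q.comap (η : L →+* L) = Q := by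
    refine H.inf_unique hp (fun a => ?_) hQ.1 ?_ hxQ
    · rw [ValuationSubring.mem_comap]
      change η (algebraMap C L a) ∈ Q
      rw [AlgEquiv.commutes]
      exact hQ.1 a
    · rw [ValuationSubring.mem_comap]
      change η x ∉ Q
      rw [hx]
      exact hxQ
  have hηQ : ∀ a, η a ∈ Q ↔ a ∈ Q := by
    intro a
    conv_rhs => rw [← hcomap]
    rw [ValuationSubring.mem_comap]
    rfl
  have hηlt : ∀ a, Q.valuation (η a) < 1 ↔ Q.valuation a < 1 := by
    intro a
    rw [SI_lt, SI_lt, ← map_inv₀, hηQ, map_eq_zero_iff η η.injective]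
  have hη1 : ∀ a, Q.valuation a = 1 → Q.valuation (η a) = 1 := by
    intro a ha
    refine le_antisymm ?_ ?_
    · rw [Q.valuation_le_one_iff, hηQ, ← Q.valuation_le_one_iff]
      exact ha.le
    · rw [← not_lt, hηlt, ha]
      exact lt_irrefl _
  have hres : ∀ a, Q.valuation a = 1 → ∃ c : C, Q.valuation (a - algebraMap C L c) < 1 := by
    intro a ha
    have := H.finDim hp
    obtain ⟨v, hv, -, hv2⟩ := Pt.Ex2.exists_val x H.tr Q hQ.1 hQ.2
    have heq : v.IsEquiv Q.valuation := by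
      rw [hv]
      exact v.isEquiv_valuation_valuationSubring
    obtain ⟨c, hc⟩ := hv2 a (heq.le_one_iff_le_one.2 ha.le)
    exact ⟨c, heq.lt_one_iff_lt_one.1 hc⟩
  -- `f = T * e` with `η T = T` and `v e = 1`
  obtain ⟨c, hc0, hc⟩ := hdiv Q hQ
  have hcop : IsCoprime (p : ℤ) (h.natDegree : ℤ) := Nat.isCoprime_iff_coprime.2 H.deg
  obtain ⟨a', b', hab⟩ := hcop
  set t : L := x ^ a' * y ^ b' with ht
  have ht0 : t ≠ 0 := mul_ne_zero (zpow_ne_zero _ hx0) (zpow_ne_zero _ hy0)
  have hvt : Q.valuation t = γ := by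
    rw [ht, map_mul, map_zpow₀, map_zpow₀, hvx, hvy, ← zpow_natCast, ← zpow_natCast, ← zpow_mul,
      ← zpow_mul, ← zpow_add₀ hγ0]
    rw [show (p : ℤ) * a' + (h.natDegree : ℤ) * b' = 1 by linarith, zpow_one]
  have hηt : η t = algebraMap C L (ζ ^ b') * t := by
    rw [ht, map_mul, map_zpow₀, map_zpow₀, hx, hy, mul_zpow, map_zpow₀]
    ring
  set T : L := (t ^ N c) ^ p with hT
  have hT0 : T ≠ 0 := pow_ne_zero _ (zpow_ne_zero _ ht0)
  have hζ0 : ζ ≠ 0 := hζ.ne_zero hp0
  have hηT : η T = T := by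
    rw [hT, map_pow, map_zpow₀, hηt, mul_zpow, mul_pow, ← map_zpow₀, ← map_pow]
    have h1 : ((ζ ^ b') ^ N c) ^ p = 1 := by
      rw [← zpow_mul, ← zpow_natCast, ← zpow_mul, mul_comm, zpow_mul, zpow_natCast,
        hζ.pow_eq_one, one_zpow]
    rw [h1, map_one, one_mul]
  have hvT : Q.valuation T = Q.valuation (c ^ p) := by
    rw [hT, map_pow, map_zpow₀, hvt, map_pow, hvf c hc0]
  set e : L := f / T with he
  have hfe : f = T * e := by
    rw [he, mul_div_cancel₀ _ hT0]
  have hve : Q.valuation e = 1 := by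
    rw [map_mul, map_inv₀] at hc
    rw [he, map_div₀, hvT, div_eq_mul_inv]
    exact hc
  have he0 : e ≠ 0 := by
    intro h0
    rw [h0, mul_zero] at hfe
    exact hf hfe
  have hηe0 : η e ≠ 0 := by
    rw [Ne, map_eq_zero_iff η η.injective]
    exact he0
  have hge : e = η e * g ^ p := by
    have h1 : T * e = T * (η e * g ^ p) := by
      rw [← hfe]
      conv_lhs => rw [hg, hfe, map_mul, hηT]
      ring
    exact mul_left_cancel₀ hT0 h1
  have hvηe : Q.valuation (η e) = 1 := hη1 e hve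
  have hvg : Q.valuation g = 1 := by
    have h1 : Q.valuation (g ^ p) = 1 := by
      have h2 := congrArg Q.valuation hge
      rw [map_mul, hve, hvηe, one_mul] at h2
      exact h2.symm
    rw [map_pow] at h1
    exact (pow_eq_one_iff_of_nonneg zero_le hp0).1 h1
  -- `g ^ p` is congruent to one
  have hgp1 : Q.valuation (g ^ p - 1) < 1 := by
    obtain ⟨c1, hc1⟩ := hres e hve
    have h2 : Q.valuation (η e - algebraMap C L c1) < 1 := by
      rw [← AlgEquiv.commutes η c1, ← map_sub, hηlt]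
      exact hc1
    have h3 : Q.valuation (e - η e) < 1 := by
      have h4 : e - η e = (e - algebraMap C L c1) - (η e - algebraMap C L c1) := by ring
      rw [h4]
      exact (Q.valuation.map_sub _ _).trans_lt (max_lt hc1 h2)
    have h5 : e - η e = η e * (g ^ p - 1) := by linear_combination hge
    rw [h5, map_mul, hvηe, one_mul] at h3
    exact h3
  obtain ⟨a, ha⟩ := hres g hvg
  have hconst1 : ∀ b : C, b ≠ 0 → Q.valuation (algebraMap C L b) = 1 := by
    intro b hb
    refine le_antisymm ((Q.valuation_le_one_iff _).2 (hQ.1 b)) (not_lt.1 fun h => hb ?_)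
    exact SI_const Q hQ.1 h
  have hprod : ∀ (G : ℕ → L), (∀ i, Q.valuation (G i - algebraMap C L a) < 1) →
      (∀ i, Q.valuation (G i) ≤ 1) → ∀ n : ℕ,
      Q.valuation (∏ i ∈ Finset.range n, G i - algebraMap C L (a ^ n)) < 1 := by
    intro G hG1 hG2 n
    induction n with
    | zero => simp
    | succ n ih =>
      rw [Finset.prod_range_succ]
      have h1 : (∏ i ∈ Finset.range n, G i) * G n - algebraMap C L (a ^ (n + 1)) =
          (∏ i ∈ Finset.range n, G i - algebraMap C L (a ^ n)) * G n +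
            algebraMap C L (a ^ n) * (G n - algebraMap C L a) := by
        rw [pow_succ, map_mul]
        ring
      rw [h1]
      refine (Q.valuation.map_add _ _).trans_lt (max_lt ?_ ?_)
      · rw [map_mul]
        exact mul_lt_one_of_lt_of_le ih (hG2 n)
      · rw [map_mul]
        exact mul_lt_one_of_nonneg_of_lt_one_right ((Q.valuation_le_one_iff _).2 (hQ.1 _))
          zero_le (hG1 n)
  have hap : a ^ p = 1 := by
    have h1 := hprod (fun _ => g) (fun _ => ha) (fun _ => hvg.le) p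
    rw [Finset.prod_const, Finset.card_range] at h1
    have h2 : Q.valuation (algebraMap C L (a ^ p - 1)) < 1 := by
      have h3 : algebraMap C L (a ^ p - 1) = (g ^ p - 1) - (g ^ p - algebraMap C L (a ^ p)) := by
        rw [map_sub, map_one]
        ring
      rw [h3]
      exact (Q.valuation.map_sub _ _).trans_lt (max_lt hgp1 h1)
    exact sub_eq_zero.1 (SI_const Q hQ.1 h2)
  have hηi : ∀ i : ℕ, Q.valuation ((η ^ i) g - algebraMap C L a) < 1 ∧
      Q.valuation ((η ^ i) g) ≤ 1 := by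
    intro i
    induction i with
    | zero =>
      rw [pow_zero, AlgEquiv.one_apply]
      exact ⟨ha, hvg.le⟩
    | succ i ih =>
      rw [SI_succ]
      refine ⟨?_, ?_⟩
      · rw [← AlgEquiv.commutes η a, ← map_sub, hηlt]
        exact ih.1
      · rw [Q.valuation_le_one_iff, hηQ, ← Q.valuation_le_one_iff]
        exact ih.2
  have hPi1 := hprod (fun i => (η ^ i) g) (fun i => (hηi i).1) (fun i => (hηi i).2) p
  rw [hap, map_one] at hPi1
  -- the norm is a root of unity
  have hηi0 : ∀ i : ℕ, (η ^ i) f ≠ 0 := by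
    intro i
    rw [Ne, map_eq_zero_iff _ (η ^ i).injective]
    exact hf
  have htel : ∀ n : ℕ, f = (η ^ n) f * (∏ i ∈ Finset.range n, (η ^ i) g) ^ p := by
    intro n
    induction n with
    | zero => simp
    | succ n ih =>
      have h1 : (η ^ n) f = (η ^ (n + 1)) f * ((η ^ n) g) ^ p := by
        have h2 := congrArg (η ^ n) hg
        rw [map_mul, map_pow, ← AlgEquiv.mul_apply, ← pow_succ] at h2
        exact h2
      rw [Finset.prod_range_succ, mul_pow]
      conv_lhs => rw [ih, h1]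
      ring
  have hnorm : (∏ i ∈ Finset.range p, (η ^ i) g) ^ p = 1 := by
    have h1 := htel p
    rw [hηp] at h1
    have h2 : f * 1 = f * (∏ i ∈ Finset.range p, (η ^ i) g) ^ p := by rw [mul_one]; exact h1
    exact (mul_left_cancel₀ hf h2).symm
  have hζL : IsPrimitiveRoot (algebraMap C L ζ) p := hζ.map_of_injective (algebraMap C L).injective
  have : NeZero p := ⟨hp0⟩
  obtain ⟨j, -, hj⟩ := hζL.eq_pow_of_pow_eq_one hnorm
  have hnorm1 : ∏ i ∈ Finset.range p, (η ^ i) g = 1 := by
    rw [← hj, ← map_pow] at hPi1 ⊢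
    have h1 : Q.valuation (algebraMap C L (ζ ^ j - 1)) < 1 := by
      rw [map_sub, map_one]
      exact hPi1
    rw [sub_eq_zero.1 (SI_const Q hQ.1 h1), map_one]
  obtain ⟨u, hu0, hu⟩ := h90 hp0 hdist hηp hnorm1
  have hηu : η u = u / g := by
    rw [eq_div_iff hg0, mul_comm]
    exact hu
  have hηf : η f = f / g ^ p := by
    rw [eq_div_iff (pow_ne_zero _ hg0)]
    exact hg.symm
  have hfix : η (f / u ^ p) = algebraMap C L (ζ ^ 0) * (f / u ^ p) := by
    rw [map_div₀, map_pow, hηu, hηf, pow_zero, map_one, one_mul, div_pow,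
      div_div_div_cancel_right₀ (pow_ne_zero _ hg0)]
  obtain ⟨A, B, hB, hAB⟩ := H.eigen hp hζ hx hy hp.pos hfix
  rw [pow_zero, mul_one] at hAB
  have hBx := SI_ne H.tr hB
  have hA : A ≠ 0 := by
    rintro rfl
    rw [map_zero] at hAB
    rcases mul_eq_zero.1 hAB with h1 | h1
    · exact div_ne_zero hf (pow_ne_zero _ hu0) h1
    · exact hBx h1
  refine ⟨A * B ^ (p - 1), u / aeval x B, mul_ne_zero hA (pow_ne_zero _ hB),
    div_ne_zero hu0 hBx, ?_⟩
  rw [map_mul, map_pow, ← hAB, div_pow]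
  have h1 : aeval x B * aeval x B ^ (p - 1) = aeval x B ^ p := by
    rw [← pow_succ', Nat.sub_add_cancel hp.one_le]
  rw [← h1]
  field_simp

end Pool.Agent.Lib.MP_2f3286_ag.Gl
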