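import Pool.Agent.Lib.MP_2f3286_ag.Gl.GD
import Pool.Agent.Lib.MP_2f3286_ag.Gl.SC
import Pool.Agent.Lib.MP_2f3286_ag.Gl.SG
import Pool.Agent.Lib.MP_2f3286_ag.Gl.SI

/-!
# Good reduction: an element with all orders divisible by `p` is a `p`-th power if its residue is, a step   (module RIA)

PROOF of `ri_step`. `f = η f * g' ^ p`, so by `IsSup.gt`, `f = P(x) u ^ p`, `P ≠ 0`, `u ≠ 0`. `P(x) = f / u ^ p` satisfies `DivAt p` at all
places (`v (f / c ^ p) = 1` gives `v (P(x) / (c / u) ^ p) = 1`), so `p ∣ rootMultiplicity α P` if `h(α) ≠ 0` (`ratDiv`). `C` is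
algebraically closed: `P = l ∏_α (X - α) ^ m_α`, so with `P₁ = ∏_{α ∈ h.roots} (X - α) ^ m_α` (finite set of roots of `h`,
`m_α = P.rootMultiplicity α`) `P = P₁ * R ^ p`, `R ≠ 0` a polynomial (`l = l' ^ p`; the other exponents are divisible by `p`), so
`f = P₁(x) u₁ ^ p`, `u₁ = R(x) u ≠ 0`. The roots `α` of `h` have residues `r α` (`root_red`), so `P₁` has the reduction
`Q₁ = ∏ (X - r α) ^ m_α` (`PHas.sub_C`, `PHas.pow`, `PHas.prod`), `P₁(x)` has the residue `Q₁(xb) ≠ 0` (`G.tr`). So `u₁ ^ p =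
f / P₁(x)` has the residue `g ^ p / Q₁(xb) ≠ 0`, so the valuation of `u₁` at `W` is one and `u₁` has a residue `ub ≠ 0`, with
`Q₁(xb) = (g / ub) ^ p`. `kum` for the reduction (`GRed.supb`, a primitive root in `κ`: `κ` is algebraically closed and
`(p : κ) ≠ 0`): a `j` with `p ∣ mult_z Q₁ - j mult_z hb` for all `z : κ`. For a root `α` of `h`, `z = r α`: `mult_z Q₁ = m_α` as `r`
is injective on the roots of `h` (`roots_red`), `mult_z hb = 1` (`hb` separable, `z` a root). So `p ∣ m_α - j` for all roots `α`.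
`h = l_h ∏_{α ∈ h.roots} (X - α)` (separable), so `y ^ (p j) = h(x) ^ j = l_h ^ j ∏ (x - α) ^ j`, and
`P₁(x) = l_h ^ (-j) (y ^ j) ^ p ∏ (x - α) ^ (m_α - j)` is a `p`-th power in `L` (`l_h ^ (-j)` is a `p`-th power in `C`). So `f` is a
`p`-th power.
-/

open Polynomial IntermediateField

namespace Pool.Agent.Lib.MP_2f3286_ag.Gl

open Pool.Agent.Lib.MP_2f3286_ag.Fer (Plc)
open Pool.Agent.Lib.MP_2f3286_ag.Pt (IsPlc DivAt)

variable {p : ℕ} {C L κ k : Type*} [Field C] [IsAlgClosed C] [CharZero C] [Field L]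
  [Algebra C L] [Field κ] [IsAlgClosed κ] [Field k] [Algebra κ k] {D : Red C L κ k} {x y : L} {h : C[X]} {xb yb : k}
  {hb : κ[X]}

theorem ria_prod_form {F : Type*} [Field F] [IsAlgClosed F] {P : F[X]} (T : Finset F)
    (hT : ∀ α, P ≠ 0 → P.eval α = 0 → α ∈ T) :
    P = Polynomial.C P.leadingCoeff *
      ∏ α ∈ T, (Polynomial.X - Polynomial.C α) ^ P.rootMultiplicity α := by
  classical
  by_cases hP : P = 0
  · rw [hP]; simp
  have h1 : P = Polynomial.C P.leadingCoeff *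
      (P.roots.map (fun a => Polynomial.X - Polynomial.C a)).prod :=
    (IsAlgClosed.splits P).eq_prod_roots
  have h2 : (P.roots.map (fun a => Polynomial.X - Polynomial.C a)).prod =
      ∏ α ∈ P.roots.toFinset, (Polynomial.X - Polynomial.C α) ^ P.rootMultiplicity α := by
    rw [Finset.prod_multiset_map_count]
    apply Finset.prod_congr rfl
    intro α _
    rw [Polynomial.count_roots]
  have h3 : P.roots.toFinset ⊆ T := by
    intro α hα
    rw [Multiset.mem_toFinset, Polynomial.mem_roots hP] at hα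
    exact hT α hP hα
  have h4 : ∏ α ∈ P.roots.toFinset, (Polynomial.X - Polynomial.C α) ^ P.rootMultiplicity α =
      ∏ α ∈ T, (Polynomial.X - Polynomial.C α) ^ P.rootMultiplicity α := by
    apply Finset.prod_subset h3
    intro α _ hα
    rw [Multiset.mem_toFinset, Polynomial.mem_roots hP] at hα
    rw [Polynomial.rootMultiplicity_eq_zero hα, pow_zero]
  rw [← h4, ← h2]
  exact h1

theorem ria_split {p : ℕ} (hp : p ≠ 0) {F : Type*} [Field F] [IsAlgClosed F] {P : F[X]} (hP : P ≠ 0)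
    (H : Finset F) (hH : ∀ α, α ∉ H → p ∣ P.rootMultiplicity α) :
    ∃ R : F[X], R ≠ 0 ∧
      P = (∏ α ∈ H, (Polynomial.X - Polynomial.C α) ^ P.rootMultiplicity α) * R ^ p := by
  classical
  obtain ⟨l, hl⟩ := IsAlgClosed.exists_pow_nat_eq P.leadingCoeff (Nat.pos_of_ne_zero hp)
  have h1 := ria_prod_form (P := P) (P.roots.toFinset ∪ H) (by
    intro α _ hα
    rw [Finset.mem_union, Multiset.mem_toFinset, Polynomial.mem_roots hP]
    exact Or.inl hα)
  rw [← Finset.prod_sdiff (Finset.subset_union_right (s₁ := P.roots.toFinset) (s₂ := H))] at h1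
  have h2 : ∏ α ∈ (P.roots.toFinset ∪ H) \ H,
      (Polynomial.X - Polynomial.C α) ^ P.rootMultiplicity α =
      (∏ α ∈ (P.roots.toFinset ∪ H) \ H,
        (Polynomial.X - Polynomial.C α) ^ (P.rootMultiplicity α / p)) ^ p := by
    rw [← Finset.prod_pow]
    apply Finset.prod_congr rfl
    intro α hα
    rw [← pow_mul, Nat.div_mul_cancel (hH α (Finset.mem_sdiff.mp hα).2)]
  rw [h2] at h1
  refine ⟨Polynomial.C l * ∏ α ∈ (P.roots.toFinset ∪ H) \ H,
        (Polynomial.X - Polynomial.C α) ^ (P.rootMultiplicity α / p), ?_, ?_⟩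
  · intro h0
    rw [mul_eq_zero] at h0
    rcases h0 with h0 | h0
    · rw [Polynomial.C_eq_zero] at h0
      rw [h0, zero_pow hp] at hl
      exact hP (Polynomial.leadingCoeff_eq_zero.mp hl.symm)
    · rw [Finset.prod_eq_zero_iff] at h0
      obtain ⟨α, _, h0⟩ := h0
      exact pow_ne_zero _ (Polynomial.X_sub_C_ne_zero α) h0
  · rw [mul_pow, ← Polynomial.C_pow, hl]
    refine h1.trans ?_
    ring

theorem ria_mult {F E : Type*} [Field E] {r : F → E} (H : Finset F) (m : F → ℕ)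
    (hr : ∀ α ∈ H, ∀ α' ∈ H, r α = r α' → α = α') {α₀ : F} (h0 : α₀ ∈ H) :
    (∏ α ∈ H, (Polynomial.X - Polynomial.C (r α)) ^ m α).rootMultiplicity (r α₀) = m α₀ := by
  classical
  have hne : ∀ T : Finset F, ∏ α ∈ T, (Polynomial.X - Polynomial.C (r α)) ^ m α ≠ 0 := by
    intro T
    rw [Finset.prod_ne_zero_iff]
    intro α _
    exact pow_ne_zero _ (Polynomial.X_sub_C_ne_zero _)
  have h1 := Finset.mul_prod_erase H (fun α => (Polynomial.X - Polynomial.C (r α)) ^ m α) h0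
  rw [← h1, Polynomial.rootMultiplicity_mul (by rw [h1]; exact hne H)]
  rw [Polynomial.rootMultiplicity_X_sub_C_pow]
  rw [Polynomial.rootMultiplicity_eq_zero, add_zero]
  intro h2
  rw [Polynomial.IsRoot.def, Polynomial.eval_prod, Finset.prod_eq_zero_iff] at h2
  obtain ⟨α, hα, h2⟩ := h2
  rw [Finset.mem_erase] at hα
  rw [Polynomial.eval_pow, Polynomial.eval_sub, Polynomial.eval_X, Polynomial.eval_C] at h2
  have h4 : r α₀ - r α = 0 := by
    by_contra h5
    exact pow_ne_zero _ h5 h2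
  exact hα.1 (hr α hα.2 α₀ h0 (sub_eq_zero.mp h4).symm)

theorem ria_sep {F : Type*} [Field F] [IsAlgClosed F] {P : F[X]} (hP : P.Separable)
    (H : Finset F) (hH : ∀ α, α ∈ H ↔ P.eval α = 0) :
    P = Polynomial.C P.leadingCoeff * ∏ α ∈ H, (Polynomial.X - Polynomial.C α) := by
  classical
  have hP0 : P ≠ 0 := hP.ne_zero
  have h1 := ria_prod_form (P := P) H (fun α _ hα => (hH α).mpr hα)
  refine h1.trans ?_
  congr 1
  apply Finset.prod_congr rfl
  intro α hα
  have h2 := Polynomial.rootMultiplicity_le_one_of_separable hP α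
  have h3 := (Polynomial.rootMultiplicity_pos hP0).mpr ((hH α).mp hα)
  have h4 : P.rootMultiplicity α = 1 := by omega
  rw [h4, pow_one]

theorem GRed.ri_step (hp : p.Prime) (hpκ : (p : κ) ≠ 0)
    (G : GRed p D x y h xb yb hb) {ζ : C} (hζ : IsPrimitiveRoot ζ p) {η : L ≃ₐ[C] L}
    (hx : η x = x) (hy : η y = algebraMap C L ζ * y) {f : L} {g : k} (hg : g ≠ 0)
    (hf : D.W.Has f (g ^ p)) (hdiv : ∀ Q : ValuationSubring L, IsPlc C Q → DivAt p f Q) {g' : L}
    (hg' : f = η f * g' ^ p) : ∃ u : L, u ^ p = f := by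
  classical
  have hp0 : p ≠ 0 := hp.ne_zero
  have hpC : (p : C) ≠ 0 := Nat.cast_ne_zero.mpr hp0
  have hf0 : f ≠ 0 := hf.ne_zero (pow_ne_zero _ hg)
  obtain ⟨P, u, hP, hu, hfP⟩ := G.sup.gt hp hζ hx hy hf0 hdiv hg'
  have hh0 : h ≠ 0 := G.sup.sep.ne_zero
  have htr : ∀ Q : C[X], aeval x Q = 0 → Q = 0 := transcendental_iff.mp G.sup.tr
  have htrb : ∀ Q : κ[X], aeval xb Q = 0 → Q = 0 := transcendental_iff.mp G.tr
  -- outside the roots of `h`
  have hout : ∀ α : C, α ∉ h.roots.toFinset → p ∣ P.rootMultiplicity α := by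
    intro α hα
    rw [Multiset.mem_toFinset, Polynomial.mem_roots hh0] at hα
    refine G.sup.ratDiv hp hpC hP ?_ hα
    intro Q hQ _
    obtain ⟨c, hc, hcv⟩ := hdiv Q hQ
    refine ⟨c / u, div_ne_zero hc hu, ?_⟩
    rw [← hcv, hfP]
    congr 1
    rw [div_pow, inv_div]
    field_simp
  obtain ⟨R, hR, hPR⟩ := ria_split hp0 hP h.roots.toFinset hout
  set m : C → ℕ := fun α => P.rootMultiplicity α with hm
  set H := h.roots.toFinset with hH
  have hmem : ∀ α, α ∈ H → h.eval α = 0 := by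
    intro α hα
    rw [hH, Multiset.mem_toFinset, Polynomial.mem_roots hh0] at hα
    exact hα
  have hr0 : ∀ α : C, ∃ z : κ, α ∈ H → D.V.Has α z ∧ hb.eval z = 0 := by
    intro α
    by_cases hα : α ∈ H
    · obtain ⟨z, hz⟩ := G.root_red (hmem α hα)
      exact ⟨z, fun _ => hz⟩
    · exact ⟨0, fun h => absurd h hα⟩
  choose r hr using hr0
  have hrinj : ∀ α ∈ H, ∀ α' ∈ H, r α = r α' → α = α' := by
    intro α hα α' hα' hrr
    exact G.roots_red.1 α α' (r α) (hmem α hα) (hmem α' hα') (hr α hα).1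
      (by rw [hrr]; exact (hr α' hα').1)
  -- the reduction of the product
  have hred : PHas D.V (∏ α ∈ H, (Polynomial.X - Polynomial.C α) ^ m α)
      (∏ α ∈ H, (Polynomial.X - Polynomial.C (r α)) ^ m α) :=
    PHas.prod H (fun α hα => (PHas.sub_C (hr α hα).1).pow _)
  have hQ0 : (∏ α ∈ H, (Polynomial.X - Polynomial.C (r α)) ^ m α) ≠ 0 := by
    rw [Finset.prod_ne_zero_iff]
    intro α _
    exact pow_ne_zero _ (Polynomial.X_sub_C_ne_zero _)
  set P₁ : C[X] := ∏ α ∈ H, (Polynomial.X - Polynomial.C α) ^ m α with hP₁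
  set Q₁ : κ[X] := ∏ α ∈ H, (Polynomial.X - Polynomial.C (r α)) ^ m α with hQ₁
  have hq : aeval xb Q₁ ≠ 0 := fun h0 => hQ0 (htrb _ h0)
  have hres : D.W.Has (aeval x P₁) (aeval xb Q₁) := hred.aeval G.hx
  have hP₁x : aeval x P₁ ≠ 0 := hres.ne_zero hq
  set u₁ : L := aeval x R * u with hu₁
  have hfu : f = aeval x P₁ * u₁ ^ p := by
    rw [hfP, hPR, map_mul, map_pow, hu₁, mul_pow, mul_assoc]
  have hu1 : D.W.Has (u₁ ^ p) (g ^ p / aeval xb Q₁) := by
    have h1 := hf.div hres hq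
    have h2 : f / aeval x P₁ = u₁ ^ p := by
      rw [hfu, mul_div_cancel_left₀ _ hP₁x]
    rwa [h2] at h1
  have hval : D.W.A.valuation u₁ = 1 := by
    have h1 := has_val_eq D.W hu1 (div_ne_zero (pow_ne_zero _ hg) hq)
    rw [map_pow] at h1
    exact (pow_eq_one_iff.mp h1).resolve_right hp0
  obtain ⟨ub, hub, hubH⟩ := has_of_val_eq D.W hval
  have hgq : (g / ub) ^ p = aeval xb Q₁ := by
    have h1 : g ^ p = aeval xb Q₁ * ub ^ p := by
      have h2 := hres.mul (hubH.pow p)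
      rw [← hfu] at h2
      exact hf.unique h2
    rw [div_pow, h1, mul_div_cancel_right₀ _ (pow_ne_zero _ hub)]
  haveI : NeZero (p : κ) := ⟨hpκ⟩
  obtain ⟨ζb, hζb⟩ := HasEnoughRootsOfUnity.exists_primitiveRoot κ p
  obtain ⟨j, hj⟩ := (G.supb hp).kum hp hζb hQ0 hgq
  have hdvd : ∀ α ∈ H, (p : ℤ) ∣ (m α : ℤ) - j := by
    intro α hα
    have h1 := hj (r α)
    rw [hQ₁, ria_mult H m hrinj hα] at h1
    have h2 := Polynomial.rootMultiplicity_le_one_of_separable G.sepb (r α)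
    have h3 := (Polynomial.rootMultiplicity_pos G.sepb.ne_zero).mpr (hr α hα).2
    have h4 : hb.rootMultiplicity (r α) = 1 := by omega
    rw [h4] at h1
    simpa using h1
  have he0 : ∀ α : C, ∃ e : ℤ, α ∈ H → (m α : ℤ) = j + e * p := by
    intro α
    by_cases hα : α ∈ H
    · obtain ⟨e, he⟩ := hdvd α hα
      exact ⟨e, fun _ => by rw [mul_comm e]; omega⟩
    · exact ⟨0, fun h => absurd h hα⟩
  choose e he using he0
  have hxα : ∀ α : C, x - algebraMap C L α ≠ 0 := by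
    intro α h0
    have h1 := htr (Polynomial.X - Polynomial.C α) (by
      rw [map_sub, Polynomial.aeval_X, Polynomial.aeval_C]; exact h0)
    exact Polynomial.X_sub_C_ne_zero α h1
  have hP₁ev : aeval x P₁ = ∏ α ∈ H, (x - algebraMap C L α) ^ m α := by
    rw [hP₁, map_prod]
    apply Finset.prod_congr rfl
    intro α _
    rw [map_pow, map_sub, Polynomial.aeval_X, Polynomial.aeval_C]
  have hP₁z : aeval x P₁ = (∏ α ∈ H, (x - algebraMap C L α)) ^ j *
      (∏ α ∈ H, (x - algebraMap C L α) ^ e α) ^ p := by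
    rw [hP₁ev, ← Finset.prod_pow, ← Finset.prod_pow, ← Finset.prod_mul_distrib]
    apply Finset.prod_congr rfl
    intro α hα
    rw [← zpow_natCast, he α hα, zpow_add₀ (hxα α), zpow_mul, zpow_natCast, zpow_natCast]
  obtain ⟨l, hl⟩ := IsAlgClosed.exists_pow_nat_eq h.leadingCoeff (Nat.pos_of_ne_zero hp0)
  have hl0 : l ≠ 0 := by
    rintro rfl
    rw [zero_pow hp0] at hl
    exact hh0 (Polynomial.leadingCoeff_eq_zero.mp hl.symm)
  have hlL : algebraMap C L l ≠ 0 := by
    rw [Ne, map_eq_zero]; exact hl0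
  have hyp : y ^ p = algebraMap C L l ^ p * ∏ α ∈ H, (x - algebraMap C L α) := by
    have h1 := congrArg (aeval x) (ria_sep G.sup.sep H (fun α => by
      rw [hH, Multiset.mem_toFinset, Polynomial.mem_roots hh0]; exact Iff.rfl))
    rw [map_mul, map_prod, Polynomial.aeval_C, ← hl, map_pow] at h1
    rw [G.sup.eq, h1]
    congr 1
    apply Finset.prod_congr rfl
    intro α _
    rw [map_sub, Polynomial.aeval_X, Polynomial.aeval_C]
  have hprod : ∏ α ∈ H, (x - algebraMap C L α) = (y / algebraMap C L l) ^ p := by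
    rw [div_pow, hyp, mul_div_cancel_left₀ _ (pow_ne_zero _ hlL)]
  refine ⟨(y / algebraMap C L l) ^ j * (∏ α ∈ H, (x - algebraMap C L α) ^ e α) * u₁, ?_⟩
  rw [hfu, hP₁z, hprod, mul_pow, mul_pow]
  rw [← pow_mul, ← pow_mul, mul_comm j p]

end Pool.Agent.Lib.MP_2f3286_ag.Gl
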