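import Pool.Agent.Lib.MP_2f3286_ag.Gl.RIA
import Pool.Agent.Lib.MP_2f3286_ag.Gl.GC
import Pool.Agent.Lib.MP_2f3286_ag.Gl.DP

/-!
# Good reduction: an element with all orders divisible by `p` is a `p`-th power if its residue is   (module RIB)

PROOF of `ri1`. `delta_pow` for the group `Lˣ`, `η` from `exists_eta` (for a primitive root `ζ` of `C`), and the predicate `P f`:
`f` satisfies `DivAt p` at all places, and there is `z ≠ 0` in `k` with `W.Has f (z ^ p)`. `hP`: `f / η f`: `DivAt` by `divAt_semi` with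
`δ = 1` and quotients (`v (f / c ^ p) = 1`, `v (f' / c' ^ p) = 1`); residue: `ηb` from `exists_eta` for the reduction with the residue `ζb`
of `ζ` (`ζb` is a primitive `p`-th root of unity of `κ`: `V.Has ζ ζb` as `ζ ^ p = 1`; it is not one: see `root_lift` in GD or
`Ty.val_one_sub`); if `f` has the residue `z` then `η f` has the residue `ηb z`: by `repr_red`, `f b(x) = ev a`,
`η f * b(x) = ev (fun i => C (ζ ^ i) * a i)` with the residue `ev (fun i => C (ζb ^ i) * ab i) = ηb (ev ab)`. So `f / η f` has the residue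
`(z / ηb z) ^ p`. `hstep`: `ri_step`.
-/

open Polynomial IntermediateField

namespace Pool.Agent.Lib.MP_2f3286_ag.Gl

open Pool.Agent.Lib.MP_2f3286_ag.Fer (Plc)
open Pool.Agent.Lib.MP_2f3286_ag.Pt (IsPlc DivAt)

variable {p : ℕ} {C L κ k : Type*} [Field C] [IsAlgClosed C] [CharZero C] [Field L]
  [Algebra C L] [Field κ] [IsAlgClosed κ] [Field k] [Algebra κ k] {D : Red C L κ k} {x y : L} {h : C[X]} {xb yb : k}
  {hb : κ[X]}

private theorem rib_ev {C' L' : Type*} [Field C'] [Field L'] [Algebra C' L'] {x' y' : L'} (p : ℕ)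
    {ζ : C'} {η : L' ≃ₐ[C'] L'} (hx : η x' = x') (hy : η y' = algebraMap C' L' ζ * y')
    (a : ℕ → C'[X]) : η (ev p x' y' a) = ev p x' y' (fun i => Polynomial.C (ζ ^ i) * a i) := by
  unfold ev
  rw [map_sum]
  apply Finset.sum_congr rfl
  intro i _
  have h1 : η (aeval x' (a i)) = aeval x' (a i) := by
    have h2 := Polynomial.map_aeval_eq_aeval_map
      (φ := RingHom.id C') (ψ := (η : L' →+* L')) (by ext c; simp) (a i) x'
    rw [Polynomial.map_id] at h2
    have h3 : (η : L' →+* L') x' = x' := hx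
    rw [h3] at h2
    exact h2
  rw [map_mul, map_pow, h1, hy, mul_pow, map_mul, aeval_C, map_pow]
  ring

private theorem rib_fix {C' L' : Type*} [Field C'] [Field L'] [Algebra C' L'] {x' : L'}
    {η : L' ≃ₐ[C'] L'} (hx : η x' = x') (b : C'[X]) : η (aeval x' b) = aeval x' b := by
  have h2 := Polynomial.map_aeval_eq_aeval_map
    (φ := RingHom.id C') (ψ := (η : L' →+* L')) (by ext c; simp) b x'
  rw [Polynomial.map_id] at h2
  have h3 : (η : L' →+* L') x' = x' := hx
  rw [h3] at h2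
  exact h2

private theorem rib_div {L' : Type*} [Field L'] {n : ℕ} {f f' : L'} {Q : ValuationSubring L'}
    (h : DivAt n f Q) (h' : DivAt n f' Q) : DivAt n (f / f') Q := by
  obtain ⟨c, hc, h1⟩ := h
  obtain ⟨c', hc', h1'⟩ := h'
  refine ⟨c / c', div_ne_zero hc hc', ?_⟩
  have h2 : f / f' * ((c / c') ^ n)⁻¹ = (f * (c ^ n)⁻¹) / (f' * (c' ^ n)⁻¹) := by
    rw [div_pow, inv_div]
    simp only [div_eq_mul_inv, mul_inv, inv_inv]
    ring
  rw [h2, map_div₀, h1, h1', div_one]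

/-- residues and the automorphism `η` -/
theorem GRed.eta_has (hp : p.Prime) (G : GRed p D x y h xb yb hb) {ζ : C} {ζb : κ}
    (hζ : D.V.Has ζ ζb) {η : L ≃ₐ[C] L} (hx : η x = x) (hy : η y = algebraMap C L ζ * y)
    {ηb : k ≃ₐ[κ] k} (hxb : ηb xb = xb) (hyb : ηb yb = algebraMap κ k ζb * yb) {f : L} {g : k}
    (hf : D.W.Has f g) : D.W.Has (η f) (ηb g) := by
  obtain ⟨a, b, ab, bb, h1, h2, h3, h4, h5⟩ := G.repr_red hp hf
  have e1 : η f * aeval x b = ev p x y (fun i => Polynomial.C (ζ ^ i) * a i) := by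
    rw [← rib_ev p hx hy a, ← h4, map_mul, rib_fix hx]
  have e2 : ηb g * aeval xb bb = ev p xb yb (fun i => Polynomial.C (ζb ^ i) * ab i) := by
    rw [← rib_ev p hxb hyb ab, ← h5, map_mul, rib_fix hxb]
  have e3 : D.W.Has (η f * aeval x b) (ηb g * aeval xb bb) := by
    rw [e1, e2]
    exact G.ev_has (fun i hi => (PHas.const (hζ.pow i)).mul (h1 i hi))
  have e4 : D.W.Has (aeval x b) (aeval xb bb) := PHas.aeval h2 G.hx
  have e5 : aeval xb bb ≠ 0 := by
    intro h6
    exact h3 ((transcendental_iff.1 G.tr) bb h6)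
  have e6 : aeval x b ≠ 0 := e4.ne_zero e5
  have e7 := e3.div e4 e5
  rw [mul_div_cancel_right₀ _ e6, mul_div_cancel_right₀ _ e5] at e7
  exact e7

theorem GRed.ri1 (hp : p.Prime) (hpκ : (p : κ) ≠ 0)
    (G : GRed p D x y h xb yb hb) {f : L} {g : k} (hg : g ≠ 0)
    (hf : D.W.Has f (g ^ p)) (hdiv : ∀ Q : ValuationSubring L, IsPlc C Q → DivAt p f Q) :
    ∃ u : L, u ^ p = f := by
  haveI : NeZero ((p : ℕ) : κ) := ⟨hpκ⟩
  obtain ⟨ζb, hζb0⟩ := IsAlgClosed.exists_root (cyclotomic p κ)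
    (by
      have h1 := degree_cyclotomic_pos p κ hp.pos
      exact h1.ne')
  have hζb : IsPrimitiveRoot ζb p := isRoot_cyclotomic_iff.1 hζb0
  have h1 : D.V.Has 1 (ζb ^ p) := by
    rw [hζb.pow_eq_one]
    exact Plc.has_one
  obtain ⟨ζ, hζp, hζζ⟩ := root_lift hp hpκ D.V h1
  have hζ1 : ζ ≠ 1 := by
    rintro rfl
    exact hζb.ne_one hp.one_lt (hζζ.unique Plc.has_one)
  have hζ : IsPrimitiveRoot ζ p := by
    haveI : Fact p.Prime := ⟨hp⟩
    rw [← orderOf_eq_prime hζp hζ1]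
    exact IsPrimitiveRoot.orderOf ζ
  obtain ⟨η, hx, hy, hηp⟩ := G.sup.exists_eta hp hζ
  obtain ⟨ηb, hxb, hyb, _⟩ := (G.supb hp).exists_eta hp hζb
  have hf0 : f ≠ 0 := hf.ne_zero (pow_ne_zero p hg)
  let ηu : Lˣ →* Lˣ := Units.map (η : L →* L)
  have hηu : ∀ u : Lˣ, (ηu u).1 = η u.1 := fun u => rfl
  have hηk : ∀ (n : ℕ) (u : Lˣ), (ηu^[n] u).1 = (η ^ n) u.1 := by
    intro n u
    induction n with
    | zero => simp
    | succ n ih =>
      rw [Function.iterate_succ_apply', hηu, ih, pow_succ']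
      rfl
  have hmain : ∃ u : Lˣ, u ^ p = Units.mk0 f hf0 := by
    refine delta_pow hp ηu ?_ (fun f : Lˣ => (∀ Q : ValuationSubring L, IsPlc C Q →
      DivAt p f.1 Q) ∧ ∃ z : k, z ≠ 0 ∧ D.W.Has f.1 (z ^ p)) ?_ ?_ ?_
    · intro u
      apply Units.ext
      rw [hηk, hηp]
    · rintro u ⟨hu1, z, hz, hu2⟩
      have e1 := G.eta_has hp hζζ hx hy hxb hyb hu2
      rw [map_pow] at e1
      have hz' : ηb z ≠ 0 := (map_ne_zero ηb).2 hz
      refine ⟨?_, z / ηb z, div_ne_zero hz hz', ?_⟩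
      · intro Q hQ
        have e2 : (u / ηu u : Lˣ).1 = u.1 / η u.1 := by
          rw [Units.val_div_eq_div_val, hηu]
        rw [e2]
        apply rib_div (hu1 Q hQ)
        exact divAt_semi (δ := RingEquiv.refl C) (τ := (η : L ≃+* L))
          (fun c => η.commutes c) hu1 Q hQ
      · have e2 : (u / ηu u : Lˣ).1 = u.1 / η u.1 := by
          rw [Units.val_div_eq_div_val, hηu]
        rw [e2, div_pow]
        exact hu2.div e1 (pow_ne_zero p hz')
    · rintro u ⟨hu1, z, hz, hu2⟩ ⟨v, hv⟩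
      have e1 : u.1 = η u.1 * v.1 ^ p := by
        have e2 := congrArg Units.val hv
        rw [Units.val_pow_eq_pow_val, Units.val_div_eq_div_val, hηu] at e2
        rw [e2, mul_div_cancel₀]
        exact (map_ne_zero η).2 u.ne_zero
      obtain ⟨w, hw⟩ := G.ri_step hp hpκ hζ hx hy hz hu2 hu1 e1
      have hw0 : w ≠ 0 := by
        rintro rfl
        rw [zero_pow hp.ne_zero] at hw
        exact u.ne_zero hw.symm
      exact ⟨Units.mk0 w hw0, Units.ext (by rw [Units.val_pow_eq_pow_val]; exact hw)⟩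
    · exact ⟨hdiv, g, hg, hf⟩
  obtain ⟨u, hu⟩ := hmain
  refine ⟨u.1, ?_⟩
  have h2 := congrArg Units.val hu
  rw [Units.val_pow_eq_pow_val] at h2
  exact h2

end Pool.Agent.Lib.MP_2f3286_ag.Gl
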