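import Pool.Agent.Lib.MP_2f3286_ag.Gl.SA

/-!
# Superelliptic function fields: the automorphism `y ↦ ζ y`   (module SB)

PROOF of `exists_eta`. By `ev_indep`, `X ^ p - C h(x)` is the minimal polynomial of `y` over `K₀ = adjoin C {x}` and `L = K₀⟮y⟯`;
`ζ y` is another root, so there is a `K₀`-algebra homomorphism `η : L → L` with `η y = ζ y`
(e.g. `IntermediateField.algHomAdjoinIntegralEquiv`, `PowerBasis.lift`, or `AdjoinRoot`), bijective as `L / K₀` is finite
dimensional (`SA.finDim`) or as `η ^ p = 1`. `η ^ p` fixes `x` and `y`, and the elements fixed by `η ^ p` are an intermediate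
field (`IntermediateField.fixedField` of `Subgroup.zpowers (η ^ p)`, or `AlgHom.equalizer`), so `η ^ p = 1` as
`adjoin C {x, y} = ⊤`.
PROOF of `eigen`. `f * b(x) = ev a` (`repr`). Apply `η`: `η (ev a) = ev (fun i => C (ζ ^ i) * a i)`, and
`η f * b(x) = ζ ^ j * f * b(x) = ev (fun i => C (ζ ^ j) * a i)`. By `ev_indep` (for the difference, `ev` is additive),
`(ζ ^ i - ζ ^ j) a i = 0` for `i < p`, so `a i = 0` for `i < p`, `i ≠ j` (`IsPrimitiveRoot.pow_inj`). So
`f * b(x) = (a j)(x) y ^ j`.
-/

open Polynomial IntermediateField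

namespace Pool.Agent.Lib.MP_2f3286_ag.Gl

variable {p : ℕ} {C L : Type*} [Field C] [Field L] [Algebra C L] {x y : L} {h : C[X]}

private theorem SB_common (tr : Transcendental C x) (c : ℕ → C⟮x⟯) (n : ℕ) :
    ∃ (b : C[X]) (a : ℕ → C[X]), b ≠ 0 ∧
      ∀ i < n, (c i : L) * aeval x b = aeval x (a i) := by
  induction n with
  | zero => exact ⟨1, fun _ => 0, one_ne_zero, by simp⟩
  | succ n ih =>
    obtain ⟨b, a, hb, hab⟩ := ih
    obtain ⟨r, s, hrs⟩ := (IntermediateField.mem_adjoin_simple_iff C (c n : L)).1 (c n).2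
    by_cases hs : s = 0
    · subst hs
      refine ⟨b, fun i => if i < n then a i else 0, hb, fun i hi => ?_⟩
      by_cases h1 : i < n
      · simp only [h1, if_true]; exact hab i h1
      · have : i = n := by omega
        subst this
        simp only [lt_irrefl, if_false]
        rw [hrs]; simp
    · have hs' : aeval x s ≠ 0 := by
        intro h0
        exact hs ((transcendental_iff.1 tr) s h0)
      refine ⟨b * s, fun i => if i < n then a i * s else r * b, mul_ne_zero hb hs, fun i hi => ?_⟩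
      by_cases h1 : i < n
      · simp only [h1, if_true, map_mul]
        rw [← hab i h1]; ring
      · have : i = n := by omega
        subst this
        simp only [lt_irrefl, if_false, map_mul]
        rw [hrs]; field_simp

private theorem SB_minpoly (hp : p.Prime) (H : IsSup p x y h) {P : C⟮x⟯[X]}
    (hP : aeval y P = 0) (hP0 : P ≠ 0) : p ≤ P.natDegree := by
  by_contra hlt
  push Not at hlt
  obtain ⟨b, a, hb, hab⟩ := SB_common H.tr (fun i => P.coeff i) p
  have h1 : ev p x y a = 0 := by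
    unfold ev
    have h2 : ∀ i ∈ Finset.range p, aeval x (a i) * y ^ i =
        aeval x b * ((P.coeff i : L) * y ^ i) := by
      intro i hi
      rw [← hab i (Finset.mem_range.1 hi)]; ring
    rw [Finset.sum_congr rfl h2, ← Finset.mul_sum]
    have h3 : ∑ i ∈ Finset.range p, ((P.coeff i : L) * y ^ i) = aeval y P := by
      rw [aeval_eq_sum_range' hlt]
      refine Finset.sum_congr rfl fun i _ => ?_
      rw [Algebra.smul_def]; rfl
    rw [h3, hP, mul_zero]
  have h4 := ev_indep hp H.tr H.eq H.deg h1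
  have hb' : aeval x b ≠ 0 := fun h0 => hb ((transcendental_iff.1 H.tr) b h0)
  apply hP0
  ext i
  rw [coeff_zero]
  by_cases hi : i < p
  · have h5 := hab i hi
    rw [h4 i hi, map_zero] at h5
    rcases mul_eq_zero.1 h5 with h6 | h6
    · exact h6
    · exact absurd h6 hb'
  · rw [coeff_eq_zero_of_natDegree_lt (by omega)]

theorem IsSup.exists_eta (hp : p.Prime) (H : IsSup p x y h) {ζ : C} (hζ : IsPrimitiveRoot ζ p) :
    ∃ η : L ≃ₐ[C] L, η x = x ∧ η y = algebraMap C L ζ * y ∧ ∀ f, (η ^ p) f = f := by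
  classical
  have hp0 : p ≠ 0 := hp.ne_zero
  have hmem : aeval x h ∈ C⟮x⟯ :=
    (IntermediateField.mem_adjoin_simple_iff C (aeval x h)).2 ⟨h, 1, by simp⟩
  set hx : C⟮x⟯ := ⟨aeval x h, hmem⟩ with hhx
  have hmon : (X ^ p - Polynomial.C hx : C⟮x⟯[X]).Monic := monic_X_pow_sub_C _ hp0
  have hroot : ∀ z : L, z ^ p = aeval x h → aeval z (X ^ p - Polynomial.C hx : C⟮x⟯[X]) = 0 := by
    intro z hz
    rw [map_sub, map_pow, aeval_X, aeval_C, hz]
    exact sub_self _
  have hint : IsIntegral C⟮x⟯ y := ⟨_, hmon, by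
    have := hroot y H.eq
    rwa [aeval_def] at this⟩
  have hmin : minpoly C⟮x⟯ y = X ^ p - Polynomial.C hx := by
    have hdvd : minpoly C⟮x⟯ y ∣ X ^ p - Polynomial.C hx := minpoly.dvd _ _ (hroot y H.eq)
    have hdeg := SB_minpoly hp H (minpoly.aeval C⟮x⟯ y) (minpoly.ne_zero hint)
    refine eq_of_monic_of_associated (minpoly.monic hint) hmon ?_
    refine (associated_of_dvd_of_natDegree_le hdvd hmon.ne_zero ?_)
    rw [natDegree_X_pow_sub_C]; exact hdeg
  have htop : IntermediateField.adjoin C⟮x⟯ {y} = ⊤ := by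
    have h1 := IntermediateField.adjoin_simple_adjoin_simple C x y
    rw [H.gen] at h1
    exact (IntermediateField.restrictScalars_eq_top_iff).1 h1
  have hζy : (algebraMap C L ζ * y) ^ p = aeval x h := by
    rw [mul_pow, ← map_pow, hζ.pow_eq_one, map_one, one_mul, H.eq]
  have hmemr : algebraMap C L ζ * y ∈ (minpoly C⟮x⟯ y).aroots L := by
    rw [mem_aroots]
    exact ⟨minpoly.ne_zero hint, by rw [hmin]; exact hroot _ hζy⟩
  set φ := (IntermediateField.algHomAdjoinIntegralEquiv C⟮x⟯ hint).symm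
    ⟨algebraMap C L ζ * y, hmemr⟩ with hφ
  have hφy : φ (IntermediateField.AdjoinSimple.gen C⟮x⟯ y) = algebraMap C L ζ * y :=
    IntermediateField.algHomAdjoinIntegralEquiv_symm_apply_gen C⟮x⟯ hint _
  set e : L ≃ₐ[C⟮x⟯] IntermediateField.adjoin C⟮x⟯ {y} :=
    (IntermediateField.topEquiv (F := C⟮x⟯) (E := L)).symm.trans
      (IntermediateField.equivOfEq htop.symm) with he
  have hey : e y = IntermediateField.AdjoinSimple.gen C⟮x⟯ y := by
    apply Subtype.ext
    rfl
  set g : L →ₐ[C⟮x⟯] L := φ.comp (e : L →ₐ[C⟮x⟯] _) with hg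
  have hgy : g y = algebraMap C L ζ * y := by
    rw [hg, AlgHom.comp_apply]
    have : (e : L →ₐ[C⟮x⟯] _) y = e y := rfl
    rw [this, hey, hφy]
  have := H.finDim hp
  have hbij : Function.Bijective g := Algebra.IsAlgebraic.algHom_bijective g
  set η : L ≃ₐ[C] L := (AlgEquiv.ofBijective g hbij).restrictScalars C with hη
  have hηg : ∀ z, η z = g z := fun z => rfl
  have hηx : η x = x := by
    rw [hηg]
    exact AlgHom.commutes g ⟨x, IntermediateField.mem_adjoin_simple_self C x⟩
  have hηy : η y = algebraMap C L ζ * y := by rw [hηg, hgy]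
  refine ⟨η, hηx, hηy, ?_⟩
  have hnx : ∀ n : ℕ, (η ^ n) x = x := by
    intro n
    induction n with
    | zero => simp
    | succ n ih => rw [pow_succ, AlgEquiv.mul_apply, hηx, ih]
  have hny : ∀ n : ℕ, (η ^ n) y = algebraMap C L (ζ ^ n) * y := by
    intro n
    induction n with
    | zero => simp
    | succ n ih =>
      rw [pow_succ, AlgEquiv.mul_apply, hηy, map_mul, AlgEquiv.commutes, ih, pow_succ, map_mul]
      ring
  intro f
  have hf : f ∈ IntermediateField.adjoin C {x, y} := by rw [H.gen]; trivial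
  induction hf using IntermediateField.adjoin_induction with
  | mem z hz =>
    rcases hz with rfl | hz
    · exact hnx p
    · rw [Set.mem_singleton_iff] at hz
      subst hz
      rw [hny, hζ.pow_eq_one, map_one, one_mul]
  | algebraMap c => exact AlgEquiv.commutes _ c
  | add a b _ _ ha hb => rw [map_add, ha, hb]
  | inv a _ ha => rw [map_inv₀, ha]
  | mul a b _ _ ha hb => rw [map_mul, ha, hb]

theorem IsSup.eigen (hp : p.Prime) (H : IsSup p x y h) {ζ : C} (hζ : IsPrimitiveRoot ζ p)
    {η : L ≃ₐ[C] L} (hx : η x = x) (hy : η y = algebraMap C L ζ * y) {f : L} {j : ℕ} (hj : j < p)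
    (hf : η f = algebraMap C L (ζ ^ j) * f) :
    ∃ a b : C[X], b ≠ 0 ∧ f * aeval x b = aeval x a * y ^ j := by
  obtain ⟨a, b, hb, hab⟩ := H.repr hp f
  have hηa : ∀ q : C[X], η (aeval x q) = aeval x q := by
    intro q
    have h1 : η (aeval x q) = aeval (η x) q := by
      have := Polynomial.aeval_algHom_apply (η : L →ₐ[C] L) x q
      exact this.symm
    rw [h1, hx]
  have h1 : η (ev p x y a) = ev p x y (fun i => Polynomial.C (ζ ^ i) * a i) := by
    unfold ev
    rw [map_sum]
    refine Finset.sum_congr rfl fun i _ => ?_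
    rw [map_mul, map_pow, hηa, hy, mul_pow, map_mul, aeval_C, map_pow]
    ring
  have h2 : η (ev p x y a) = ev p x y (fun i => Polynomial.C (ζ ^ j) * a i) := by
    rw [← hab, map_mul, hηa, hf, mul_assoc, hab]
    unfold ev
    rw [Finset.mul_sum]
    refine Finset.sum_congr rfl fun i _ => ?_
    rw [map_mul, aeval_C]
    ring
  have h3 : ev p x y (fun i => Polynomial.C (ζ ^ i - ζ ^ j) * a i) = 0 := by
    have h4 : ev p x y (fun i => Polynomial.C (ζ ^ i - ζ ^ j) * a i) =
        ev p x y (fun i => Polynomial.C (ζ ^ i) * a i) -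
          ev p x y (fun i => Polynomial.C (ζ ^ j) * a i) := by
      unfold ev
      rw [← Finset.sum_sub_distrib]
      refine Finset.sum_congr rfl fun i _ => ?_
      simp only [map_sub, sub_mul]
    rw [h4, ← h1, ← h2, sub_self]
  have h5 := ev_indep hp H.tr H.eq H.deg h3
  refine ⟨a j, b, hb, ?_⟩
  rw [hab]
  unfold ev
  rw [Finset.sum_eq_single_of_mem j (Finset.mem_range.2 hj)]
  intro i hi hij
  have hi' := Finset.mem_range.1 hi
  have h6 := h5 i hi'
  rcases mul_eq_zero.1 h6 with h7 | h7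
  · exfalso
    rw [Polynomial.C_eq_zero, sub_eq_zero] at h7
    exact hij (hζ.pow_inj hi' hj h7)
  · rw [h7, map_zero, zero_mul]

end Pool.Agent.Lib.MP_2f3286_ag.Gl
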