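import Mathlib

/-!
# The value group generated by one element   (module SD)

`B` is a Noetherian domain inside the field `L`, `Q` a valuation ring of `L` which contains `B`. If every `b` with `v b < 1`
satisfies `s b = t c` with `v s = 1`, then the valuations of the nonzero elements of `B` are powers of `v t`.

PROOF. For `b : B` let `I b` be the ideal of all `a` with `s a ∈ (b)` for some `s` with `v s = 1` (closed under addition as `v` is
multiplicative: `v (s s') = 1`). Suppose the set `S` of nonzero `b` whose valuation is no power of `v t` is not empty. Choose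
`b ∈ S` with `I b` maximal among the `I b`, `b ∈ S` (`IsNoetherian` gives well-foundedness: `set_has_maximal_iff_noetherian`,
`WellFoundedGT.wf.has_min` on the image). `v b ≤ 1` (`hB`), not `1 = v t ^ 0`, so `v b < 1` and `s b = t c`, `v s = 1`. `c ≠ 0`
as `s b ≠ 0`. `v b = v t * v c`, so `c ∈ S`. `I b ≤ I c`: `s b = t c ∈ (c)`; if `s' a = d b` then `s s' a = d t c`. `I c` is
strictly larger: `c ∈ I c` (with `s = 1`), and if `c ∈ I b`, `s' c = d b`, then `s s' c = d s b = d t c`, so `s s' = d t`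
(`c ≠ 0`), but `v (s s') = 1` and `v (d t) < 1`. Contradiction.
-/

namespace Pool.Agent.Lib.MP_2f3286_ag.Gl

theorem dv {B L : Type*} [CommRing B] [IsDomain B] [IsNoetherianRing B] [Field L] (φ : B →+* L)
    (hφ : Function.Injective φ) (Q : ValuationSubring L) (hB : ∀ b, φ b ∈ Q) {t : B}
    (ht : Q.valuation (φ t) < 1)
    (h : ∀ b, Q.valuation (φ b) < 1 → ∃ s c : B, Q.valuation (φ s) = 1 ∧ s * b = t * c) {b : B}
    (hb : b ≠ 0) : ∃ n : ℕ, Q.valuation (φ b) = Q.valuation (φ t) ^ n := by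
  classical
  have hval : ∀ x y : B, Q.valuation (φ (x * y)) = Q.valuation (φ x) * Q.valuation (φ y) := by
    intro x y
    rw [map_mul, map_mul]
  have hle1 : ∀ x : B, Q.valuation (φ x) ≤ 1 := fun x => (Q.valuation_le_one_iff _).2 (hB x)
  -- the ideal I b
  let I : B → Ideal B := fun b =>
    { carrier := {a | ∃ s : B, Q.valuation (φ s) = 1 ∧ b ∣ s * a}
      zero_mem' := ⟨1, by simp, by simp⟩
      add_mem' := by
        rintro a a' ⟨s, hs, hd⟩ ⟨s', hs', hd'⟩
        refine ⟨s * s', ?_, ?_⟩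
        · rw [hval, hs, hs', one_mul]
        · have e : s * s' * (a + a') = s' * (s * a) + s * (s' * a') := by ring
          rw [e]
          exact dvd_add (dvd_mul_of_dvd_right hd _) (dvd_mul_of_dvd_right hd' _)
      smul_mem' := by
        rintro c a ⟨s, hs, hd⟩
        refine ⟨s, hs, ?_⟩
        have e : s * (c • a) = c * (s * a) := by
          rw [smul_eq_mul]; ring
        rw [e]
        exact dvd_mul_of_dvd_right hd _ }
  have hI : ∀ b a : B, a ∈ I b ↔ ∃ s : B, Q.valuation (φ s) = 1 ∧ b ∣ s * a := fun b a => Iff.rfl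
  by_contra hcon
  let S : Set B := {b | b ≠ 0 ∧ ¬ ∃ n : ℕ, Q.valuation (φ b) = Q.valuation (φ t) ^ n}
  have hS : b ∈ S := ⟨hb, hcon⟩
  obtain ⟨M, hM, hmax⟩ := set_has_maximal_iff_noetherian.2
    (inferInstance : IsNoetherian B B) (I '' S) ⟨I b, b, hS, rfl⟩
  obtain ⟨b₀, hb₀, rfl⟩ := hM
  have hlt : Q.valuation (φ b₀) < 1 := by
    refine lt_of_le_of_ne (hle1 _) fun e => hb₀.2 ⟨0, ?_⟩
    rw [e, pow_zero]
  obtain ⟨s, c, hs, hsc⟩ := h b₀ hlt
  have hs0 : s ≠ 0 := by
    rintro rfl
    rw [map_zero, map_zero] at hs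
    exact zero_ne_one hs
  have hc0 : c ≠ 0 := by
    rintro rfl
    rw [mul_zero] at hsc
    exact (mul_ne_zero hs0 hb₀.1) hsc
  have hvb : Q.valuation (φ b₀) = Q.valuation (φ t) * Q.valuation (φ c) := by
    rw [← hval, ← hsc, hval, hs, one_mul]
  have hcS : c ∈ S := by
    refine ⟨hc0, ?_⟩
    rintro ⟨n, hn⟩
    exact hb₀.2 ⟨n + 1, by rw [hvb, hn, pow_succ, mul_comm]⟩
  refine hmax (I c) ⟨c, hcS, rfl⟩ ?_
  refine lt_of_le_of_ne ?_ ?_
  · intro a ha
    obtain ⟨s', hs', d, hd⟩ := (hI b₀ a).1 ha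
    refine (hI c a).2 ⟨s * s', ?_, d * t, ?_⟩
    · rw [hval, hs, hs', one_mul]
    · calc s * s' * a = s * (s' * a) := by ring
        _ = s * (b₀ * d) := by rw [hd]
        _ = (s * b₀) * d := by ring
        _ = (t * c) * d := by rw [hsc]
        _ = c * (d * t) := by ring
  · intro e
    have hcI : c ∈ I c := (hI c c).2 ⟨1, by simp, by simp⟩
    rw [← e] at hcI
    obtain ⟨s', hs', d, hd⟩ := (hI b₀ c).1 hcI
    have h1 : (s * s') * c = (d * t) * c := by
      calc (s * s') * c = s * (s' * c) := by ring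
        _ = s * (b₀ * d) := by rw [hd]
        _ = (s * b₀) * d := by ring
        _ = (t * c) * d := by rw [hsc]
        _ = (d * t) * c := by ring
    have h2 : s * s' = d * t := mul_right_cancel₀ hc0 h1
    have h3 : Q.valuation (φ (s * s')) = 1 := by rw [hval, hs, hs', one_mul]
    rw [h2, hval] at h3
    have h4 : Q.valuation (φ d) * Q.valuation (φ t) < 1 :=
      mul_lt_one_of_nonneg_of_lt_one_right (hle1 d) zero_le ht
    exact absurd h3 h4.ne

end Pool.Agent.Lib.MP_2f3286_ag.Gl
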