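import Mathlib

/-!
# The local computation at a point of a superelliptic curve   (module SE)

`A = O[x, y]`. PROOF of `loc_key`. The set of all `f : A` such that `s * f = s * c + t * u` for some `c : O`, `u : A` contains
`O`, `x` and `y` (`hx`, `hy`), is closed under addition, and under multiplication:
`s (f f' - c c') = f' (s (f - c)) + c (s (f' - c')) = t (f' u + c u')`. Use `Algebra.adjoin_induction`.
PROOF of `loc_unit` (`t = x - a`). `s (x - a) = t s`. `s (y - b) = y ^ p - b ^ p` (`Commute.geom_sum₂_mul`) `= h(x) - h(a)`, which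
is divisible by `x - a` (`Polynomial.aeval_sub`... : `X - C a ∣ h - C (h.eval a)`, `Polynomial.X_sub_C_dvd_sub_C_eval`).
PROOF of `loc_root` (`t = y`). `h₁(x) (x - a) = h(x) = y ^ p = y * y ^ (p - 1)`.
-/

open Polynomial

namespace Pool.Agent.Lib.MP_2f3286_ag.Gl

variable {O A : Type*} [CommRing O] [CommRing A] [Algebra O A] {x y : A}

theorem loc_key (hA : Algebra.adjoin O {x, y} = ⊤) {s t : A} {a b : O}
    (hx : ∃ u, s * (x - algebraMap O A a) = t * u) (hy : ∃ u, s * (y - algebraMap O A b) = t * u)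
    (f : A) : ∃ (c : O) (u : A), s * f = s * algebraMap O A c + t * u := by
  have hf : f ∈ Algebra.adjoin O {x, y} := by rw [hA]; trivial
  induction hf using Algebra.adjoin_induction with
  | mem z hz =>
    rcases hz with rfl | hz
    · obtain ⟨u, hu⟩ := hx
      exact ⟨a, u, by linear_combination hu⟩
    · rw [Set.mem_singleton_iff] at hz
      subst hz
      obtain ⟨u, hu⟩ := hy
      exact ⟨b, u, by linear_combination hu⟩
  | algebraMap r => exact ⟨r, 0, by ring⟩
  | add f g _ _ hf hg =>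
    obtain ⟨c, u, hc⟩ := hf
    obtain ⟨c', u', hc'⟩ := hg
    exact ⟨c + c', u + u', by rw [map_add]; linear_combination hc + hc'⟩
  | mul f g _ _ hf hg =>
    obtain ⟨c, u, hc⟩ := hf
    obtain ⟨c', u', hc'⟩ := hg
    exact ⟨c * c', g * u + algebraMap O A c * u', by
      rw [map_mul]; linear_combination g * hc + algebraMap O A c * hc'⟩

theorem loc_unit {p : ℕ} {h : O[X]} (hyx : y ^ p = aeval x h) {a b : O} (hb : b ^ p = h.eval a) :
    ∃ u, (∑ i ∈ Finset.range p, y ^ i * algebraMap O A b ^ (p - 1 - i)) * (y - algebraMap O A b) =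
      (x - algebraMap O A a) * u := by
  obtain ⟨q, hq⟩ := X_sub_C_dvd_sub_C_eval (a := a) (p := h)
  refine ⟨aeval x q, ?_⟩
  rw [(Commute.all y (algebraMap O A b)).geom_sum₂_mul, hyx, ← map_pow, hb]
  have h1 := congrArg (aeval x) hq
  rw [map_sub, map_mul, map_sub, aeval_X, aeval_C, aeval_C] at h1
  exact h1

theorem loc_root {p : ℕ} (hp : p ≠ 0) {h h₁ : O[X]} (hyx : y ^ p = aeval x h) {a : O}
    (hh : h = (X - C a) * h₁) : ∃ u, aeval x h₁ * (x - algebraMap O A a) = y * u := by
  refine ⟨y ^ (p - 1), ?_⟩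
  have h1 : y * y ^ (p - 1) = y ^ p := by
    rw [← pow_succ', Nat.sub_add_cancel (Nat.one_le_iff_ne_zero.2 hp)]
  rw [h1, hyx, hh, map_mul, map_sub, aeval_X, aeval_C, mul_comm]

end Pool.Agent.Lib.MP_2f3286_ag.Gl
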