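import Pool.Agent.Lib.MP_2f3286_ag.Gl.SA
import Pool.Agent.Lib.MP_2f3286_ag.Gl.SD
import Pool.Agent.Lib.MP_2f3286_ag.Gl.SE
import Pool.Agent.Lib.MP_2f3286_ag.Pt.Ex1

/-!
# Superelliptic function fields: the places at which `x` is finite   (module SF)

`v = Q.valuation`. PROOF of `exists_center`. For a nonzero `f : C[X]` with `v (f(x)) < 1`, `f` is a product of linear factors
(`IsAlgClosed.splits`), so some `v (x - α) < 1` (`v` of a constant `≠ 0` is `1`, all `x - α ∈ Q`). There is such an `f`: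
otherwise all `v (f(x)) = 1`, `f ≠ 0`, so `adjoin C {x} ⊆ Q` (`IntermediateField.mem_adjoin_simple_iff`), `L` is algebraic over
`adjoin C {x}` (`IsSup.finDim`), so `L ⊆ Q` (`Pt.Ex1.alg_mem` with constants `adjoin C {x}`), against `Q ≠ ⊤`.
PROOF of `fin_place`. Let `α` be as above and `B = Algebra.adjoin C {x, y}`: it is a Noetherian domain (finitely generated over a
field: `Subalgebra.FG` → `Algebra.FiniteType.isNoetherianRing C B`), contained in `Q` (`x ∈ Q`, `y ^ p = h(x) ∈ Q` so `y ∈ Q`: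
`Q` is integrally closed, or `v y ^ p ≤ 1`); every element of `L` is a quotient of two elements of `B` (`IsSup.repr`), so it is
enough to show the claim (with `n : ℕ`) for nonzero elements of `B`; use `dv`. For `b ∈ B` with `v b < 1`, by `loc_key` (with
`O = C`, `A = B`) `s b = s c + t u` with `c : C`; `s c = s b - t u` has valuation `< 1`, so `v c < 1`, `c = 0` (constants `≠ 0`
have valuation one). So `s b = t u`.
Case `h(α) ≠ 0`: `v (h(x) - h(α)) < 1`, as `X - α ∣ h - h(α)`, so `v (y ^ p - h(α)) < 1`; the polynomial `Y ^ p - h(α)` is a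
product of linear factors over `C`, so `v (y - β) < 1` for a root `β`, `β ^ p = h(α)`, `β ≠ 0`. `t = x - α`,
`s = ∑ i < p, y ^ i β ^ (p - 1 - i)`; `v (s - p β ^ (p - 1)) < 1` as `y ≡ β`, so `v s = 1` (`hpC`). `loc_unit`.
Case `h(α) = 0`: `h = (X - α) h₁` with `h₁(α) ≠ 0` (`h` separable: `h' (α) = h₁(α)`, `Separable.eval₂_derivative_ne_zero`...).
`v (y ^ p) = v (h(x)) < 1`, so `v y < 1`; `t = y`, `s = h₁(x)`, `v (s - h₁(α)) < 1`, `v s = 1`. `b = 0`, `loc_root`.
-/

open Polynomial IntermediateField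
open Pool.Agent.Lib.MP_2f3286_ag.Pt (IsPlc)

namespace Pool.Agent.Lib.MP_2f3286_ag.Gl

variable {p : ℕ} {C L : Type*} [Field C] [Field L] [Algebra C L] {x y : L} {h : C[X]}

private theorem sf_val {Q : ValuationSubring L} (hQ : ∀ a : C, algebraMap C L a ∈ Q) {z : L} {β : C}
    (hz : Q.valuation (z - algebraMap C L β) < 1) {S : C[X]} (hS : S.eval β ≠ 0) :
    Q.valuation (aeval z S) = 1 := by
  have hzQ : z ∈ Q := by
    have h1 := (Q.valuation_le_one_iff _).1 hz.le
    have h2 := Q.add_mem _ _ h1 (hQ β)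
    rwa [sub_add_cancel] at h2
  obtain ⟨g, hg⟩ := X_sub_C_dvd_sub_C_eval (a := β) (p := S)
  have e : aeval z S = algebraMap C L (S.eval β) + (z - algebraMap C L β) * aeval z g := by
    have h3 := congrArg (aeval z) hg
    rw [map_sub, map_mul, map_sub, aeval_C, aeval_X, aeval_C] at h3
    linear_combination h3
  have h1 : Q.valuation ((z - algebraMap C L β) * aeval z g) < 1 := by
    rw [map_mul, mul_comm]
    exact lt_of_le_of_lt (mul_le_of_le_one_left zero_le ((Q.valuation_le_one_iff _).2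
      (Pt.Ex1.aeval_mem Q hQ z hzQ _))) hz
  rw [e, Valuation.map_add_eq_of_lt_left]
  · exact Pt.Ex1.val_C Q hQ _ hS
  · rw [Pt.Ex1.val_C Q hQ _ hS]
    exact h1

private theorem sf_root [IsAlgClosed C] {Q : ValuationSubring L}
    (hQ : ∀ a : C, algebraMap C L a ∈ Q) {z : L} (hz : z ∈ Q) :
    ∀ (n : ℕ) (f : C[X]), f.natDegree = n → f ≠ 0 → Q.valuation (aeval z f) < 1 →
      ∃ β : C, f.eval β = 0 ∧ Q.valuation (z - algebraMap C L β) < 1 := by
  intro n
  induction n with
  | zero =>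
    intro f hn hf hv
    exfalso
    rw [eq_C_of_natDegree_eq_zero hn, aeval_C, Pt.Ex1.val_C Q hQ] at hv
    · exact lt_irrefl _ hv
    · intro hc
      apply hf
      rw [eq_C_of_natDegree_eq_zero hn, hc, map_zero]
  | succ n ih =>
    intro f hn hf hv
    have hd : f.degree ≠ 0 := by
      intro hc
      have h9 := natDegree_eq_zero_iff_degree_le_zero.2 hc.le
      omega
    obtain ⟨α, hα⟩ := IsAlgClosed.exists_root f hd
    obtain ⟨g, hg⟩ := dvd_iff_isRoot.2 hα
    have hg0 : g ≠ 0 := by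
      rintro rfl
      exact hf (by rw [hg, mul_zero])
    have hgn : g.natDegree = n := by
      have h1 := congrArg natDegree hg
      rw [natDegree_mul (X_sub_C_ne_zero α) hg0, natDegree_X_sub_C, hn] at h1
      omega
    rw [hg, map_mul, map_sub, aeval_X, aeval_C, map_mul] at hv
    by_cases h1 : Q.valuation (z - algebraMap C L α) < 1
    · exact ⟨α, hα, h1⟩
    · have h2 : Q.valuation (z - algebraMap C L α) = 1 :=
        le_antisymm ((Q.valuation_le_one_iff _).2 (Q.sub_mem hz (hQ α))) (not_lt.1 h1)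
      rw [h2, one_mul] at hv
      obtain ⟨β, hβ, hβ2⟩ := ih g hgn hg0 hv
      exact ⟨β, by rw [hg, eval_mul, hβ, mul_zero], hβ2⟩

theorem IsSup.exists_center [IsAlgClosed C] (hp : p.Prime) (H : IsSup p x y h)
    {Q : ValuationSubring L} (hQ : IsPlc C Q) (hx : x ∈ Q) :
    ∃ α : C, Q.valuation (x - algebraMap C L α) < 1 := by
  by_contra hcon
  have h2 : ∀ f : C[X], f ≠ 0 → Q.valuation (aeval x f) = 1 := by
    intro f hf
    refine le_antisymm ((Q.valuation_le_one_iff _).2 (Pt.Ex1.aeval_mem Q hQ.1 x hx f)) ?_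
    by_contra h3
    obtain ⟨β, -, hβ⟩ := sf_root hQ.1 hx _ f rfl hf (not_le.1 h3)
    exact hcon ⟨β, hβ⟩
  have h3 : ∀ a : IntermediateField.adjoin C {x}, algebraMap _ L a ∈ Q := by
    intro a
    obtain ⟨r, s, hrs⟩ := (IntermediateField.mem_adjoin_simple_iff C (a : L)).1 a.2
    have h4 : algebraMap (IntermediateField.adjoin C {x}) L a = (a : L) := rfl
    rw [h4, hrs]
    by_cases hr : r = 0
    · rw [hr, map_zero, zero_div]
      exact Q.zero_mem
    by_cases hs : s = 0
    · rw [hs, map_zero, div_zero]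
      exact Q.zero_mem
    rw [← Q.valuation_le_one_iff, map_div₀, h2 r hr, h2 s hs, div_one]
  have := H.finDim hp
  apply hQ.2
  rw [eq_top_iff]
  intro z _
  exact Pt.Ex1.alg_mem Q h3 z (Algebra.IsAlgebraic.isAlgebraic z)

private theorem sf_group [IsAlgClosed C] (hp : p.Prime) (H : IsSup p x y h)
    {Q : ValuationSubring L} (hQ : IsPlc C Q) (hx : x ∈ Q) (hy : y ∈ Q)
    {s t : Algebra.adjoin C {x, y}} {a b : C} (hs : Q.valuation (s : L) = 1)
    (ht : Q.valuation (t : L) < 1)
    (hsx : ∃ u : Algebra.adjoin C {x, y}, (s : L) * (x - algebraMap C L a) = t * u)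
    (hsy : ∃ u : Algebra.adjoin C {x, y}, (s : L) * (y - algebraMap C L b) = t * u) :
    ∀ f : L, f ≠ 0 → ∃ n : ℤ, Q.valuation f = Q.valuation (t : L) ^ n := by
  have hxB : x ∈ Algebra.adjoin C {x, y} := Algebra.subset_adjoin (by simp)
  have hyB : y ∈ Algebra.adjoin C {x, y} := Algebra.subset_adjoin (by simp)
  have hBQ : ∀ b : Algebra.adjoin C {x, y}, (b : L) ∈ Q := by
    rintro ⟨b, hb⟩
    change b ∈ Q
    induction hb using Algebra.adjoin_induction with
    | mem z hz =>
      rcases hz with rfl | hz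
      · exact hx
      · rw [Set.mem_singleton_iff] at hz
        rw [hz]
        exact hy
    | algebraMap r => exact hQ.1 r
    | add u w _ _ hu hw => exact Q.add_mem _ _ hu hw
    | mul u w _ _ hu hw => exact Q.mul_mem _ _ hu hw
  have hnoe : IsNoetherianRing (Algebra.adjoin C {x, y}) := by
    have hfg : (Algebra.adjoin C ({x, y} : Set L)).FG := by
      refine Subalgebra.fg_def.2 ⟨{x, y}, ?_, rfl⟩
      exact Set.toFinite _
    have hft : Algebra.FiniteType C (Algebra.adjoin C ({x, y} : Set L)) :=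
      (Subalgebra.fg_iff_finiteType _).1 hfg
    exact Algebra.FiniteType.isNoetherianRing C _
  have hA : Algebra.adjoin C ({⟨x, hxB⟩, ⟨y, hyB⟩} : Set (Algebra.adjoin C {x, y})) = ⊤ := by
    have h1 := Algebra.adjoin_adjoin_coe_preimage (R := C) (s := ({x, y} : Set L))
    rw [← h1]
    congr 1
    ext z
    simp only [Set.mem_insert_iff, Set.mem_singleton_iff, Set.mem_preimage, Subtype.ext_iff]
  have hkey : ∀ b : Algebra.adjoin C {x, y}, Q.valuation (b : L) < 1 →
      ∃ s c : Algebra.adjoin C {x, y}, Q.valuation (s : L) = 1 ∧ s * b = t * c := by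
    intro f hf
    obtain ⟨ux, hux⟩ := hsx
    obtain ⟨uy, huy⟩ := hsy
    obtain ⟨c, u, hcu⟩ := loc_key (x := (⟨x, hxB⟩ : Algebra.adjoin C {x, y}))
      (y := (⟨y, hyB⟩ : Algebra.adjoin C {x, y})) hA (s := s) (t := t) (a := a) (b := b)
      ⟨ux, Subtype.ext hux⟩ ⟨uy, Subtype.ext huy⟩ f
    refine ⟨s, u, hs, ?_⟩
    have h1 : (s : L) * f = s * algebraMap C L c + t * u := congrArg Subtype.val hcu
    have h2 : Q.valuation ((s : L) * algebraMap C L c) < 1 := by
      have h3 : (s : L) * algebraMap C L c = s * f - t * u := by rw [h1]; ring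
      rw [h3]
      refine lt_of_le_of_lt (Valuation.map_sub _ _ _) (max_lt ?_ ?_)
      · rw [map_mul, hs, one_mul]
        exact hf
      · rw [map_mul, mul_comm]
        exact lt_of_le_of_lt (mul_le_of_le_one_left zero_le
          ((Q.valuation_le_one_iff _).2 (hBQ u))) ht
    have h4 : c = 0 := by
      by_contra hc
      rw [map_mul, hs, one_mul, Pt.Ex1.val_C Q hQ.1 c hc] at h2
      exact lt_irrefl _ h2
    rw [h4, map_zero, mul_zero, zero_add] at hcu
    exact hcu
  have hdv : ∀ b : Algebra.adjoin C {x, y}, b ≠ 0 → ∃ n : ℕ, Q.valuation (b : L) =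
      Q.valuation (t : L) ^ n := by
    intro b hb
    exact dv (algebraMap (Algebra.adjoin C {x, y}) L) Subtype.val_injective Q hBQ ht hkey hb
  intro f hf
  obtain ⟨r, q, hq, hr⟩ := H.repr hp f
  have hqB : aeval x q ∈ Algebra.adjoin C {x, y} :=
    Algebra.adjoin_mono (by simp) (Polynomial.aeval_mem_adjoin_singleton C x)
  have hq0 : aeval x q ≠ 0 := fun hc => hq ((transcendental_iff.1 H.tr) q hc)
  have hrB : ev p x y r ∈ Algebra.adjoin C {x, y} := by
    unfold ev
    refine sum_mem fun i _ => mul_mem ?_ (pow_mem hyB i)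
    exact Algebra.adjoin_mono (by simp) (Polynomial.aeval_mem_adjoin_singleton C x)
  have hr0 : ev p x y r ≠ 0 := by
    rw [← hr]
    exact mul_ne_zero hf hq0
  obtain ⟨m, hm⟩ := hdv ⟨_, hqB⟩ (fun hc => hq0 (congrArg Subtype.val hc))
  obtain ⟨n, hn⟩ := hdv ⟨_, hrB⟩ (fun hc => hr0 (congrArg Subtype.val hc))
  have ht0 : Q.valuation (t : L) ≠ 0 ∨ Q.valuation (t : L) = 0 := (em _).symm
  refine ⟨(n : ℤ) - m, ?_⟩
  have h5 : Q.valuation f * Q.valuation (aeval x q) = Q.valuation (ev p x y r) := by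
    rw [← map_mul, hr]
  change Q.valuation (aeval x q) = _ at hm
  change Q.valuation (ev p x y r) = _ at hn
  have hq1 : Q.valuation (aeval x q) ≠ 0 := (Valuation.ne_zero_iff _).2 hq0
  rcases ht0 with ht0 | ht0
  · rw [zpow_sub₀ ht0, zpow_natCast, zpow_natCast, ← hm, ← hn, ← h5,
      mul_div_cancel_right₀ _ hq1]
  · have hm0 : m = 0 := by
      by_contra hm0
      rw [ht0, zero_pow hm0] at hm
      exact hq1 hm
    have hn0 : n = 0 := by
      by_contra hn0
      rw [ht0, zero_pow hn0] at hn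
      exact (Valuation.ne_zero_iff _).2 hr0 hn
    subst hm0
    subst hn0
    rw [pow_zero] at hm hn
    rw [hm, mul_one, hn] at h5
    rw [h5]
    simp

theorem IsSup.fin_place [IsAlgClosed C] (hp : p.Prime) (hpC : (p : C) ≠ 0) (H : IsSup p x y h)
    {Q : ValuationSubring L} (hQ : IsPlc C Q) (hx : x ∈ Q) {α : C}
    (hα : Q.valuation (x - algebraMap C L α) < 1) :
    (h.eval α ≠ 0 ∧ (∃ β : C, β ^ p = h.eval α ∧ Q.valuation (y - algebraMap C L β) < 1) ∧
      ∀ f : L, f ≠ 0 → ∃ n : ℤ, Q.valuation f = Q.valuation (x - algebraMap C L α) ^ n) ∨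
    (h.eval α = 0 ∧ Q.valuation y < 1 ∧
      ∀ f : L, f ≠ 0 → ∃ n : ℤ, Q.valuation f = Q.valuation y ^ n) := by
  have hxB : x ∈ Algebra.adjoin C {x, y} := Algebra.subset_adjoin (by simp)
  have hyB : y ∈ Algebra.adjoin C {x, y} := Algebra.subset_adjoin (by simp)
  have hy : y ∈ Q := by
    rw [← Q.valuation_le_one_iff, ← pow_le_one_iff hp.ne_zero, ← map_pow, H.eq,
      Q.valuation_le_one_iff]
    exact Pt.Ex1.aeval_mem Q hQ.1 x hx h
  by_cases hh : h.eval α = 0
  · right
    obtain ⟨h₁, hh₁⟩ := dvd_iff_isRoot.2 (show h.IsRoot α from hh)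
    have hh2 : h₁.eval α ≠ 0 := by
      intro hc
      obtain ⟨u, w, huw⟩ := H.sep
      have h1 := congrArg (eval α) huw
      rw [eval_add, eval_mul, eval_mul, hh, mul_zero, zero_add, eval_one] at h1
      have h2 : (derivative h).eval α = 0 := by
        rw [hh₁, derivative_mul, eval_add, eval_mul, eval_mul, hc, mul_zero, zero_add,
          eval_sub, eval_X, eval_C, sub_self, zero_mul]
      rw [h2, mul_zero] at h1
      exact zero_ne_one h1
    have hs := sf_val hQ.1 hα hh2
    have hvy : Q.valuation y < 1 := by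
      rw [← pow_lt_one_iff hp.ne_zero, ← map_pow, H.eq, hh₁, map_mul, map_mul, hs, mul_one,
        map_sub, aeval_X, aeval_C]
      exact hα
    refine ⟨hh, hvy, ?_⟩
    obtain ⟨u, hu⟩ := loc_root (A := Algebra.adjoin C {x, y}) (x := ⟨x, hxB⟩) (y := ⟨y, hyB⟩)
      hp.ne_zero (h := h) (h₁ := h₁) (a := α) (Subtype.ext (by
        have h1 := H.eq
        have h2 : ((aeval (⟨x, hxB⟩ : Algebra.adjoin C {x, y}) h : Algebra.adjoin C {x, y}) : L)
            = aeval x h := by
          exact (aeval_algebraMap_apply L (⟨x, hxB⟩ : Algebra.adjoin C {x, y}) h).symm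
        rw [h2, ← h1]
        rfl)) hh₁
    have hs' : ((aeval (⟨x, hxB⟩ : Algebra.adjoin C {x, y}) h₁ : Algebra.adjoin C {x, y}) : L)
        = aeval x h₁ := (aeval_algebraMap_apply L (⟨x, hxB⟩ : Algebra.adjoin C {x, y}) h₁).symm
    exact sf_group hp H hQ hx hy (s := aeval (⟨x, hxB⟩ : Algebra.adjoin C {x, y}) h₁)
      (t := ⟨y, hyB⟩) (a := α) (b := 0) (by rw [hs']; exact hs) hvy
      ⟨u, congrArg Subtype.val hu⟩
      ⟨aeval (⟨x, hxB⟩ : Algebra.adjoin C {x, y}) h₁, by rw [map_zero, sub_zero, mul_comm]⟩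
  · left
    have h1 : Q.valuation (aeval y (X ^ p - Polynomial.C (h.eval α))) < 1 := by
      rw [map_sub, map_pow, aeval_X, aeval_C, H.eq]
      obtain ⟨g, hg⟩ := X_sub_C_dvd_sub_C_eval (a := α) (p := h)
      have h3 := congrArg (aeval x) hg
      rw [map_sub, map_mul, map_sub, aeval_C, aeval_X, aeval_C] at h3
      rw [h3, map_mul, mul_comm]
      exact lt_of_le_of_lt (mul_le_of_le_one_left zero_le ((Q.valuation_le_one_iff _).2
        (Pt.Ex1.aeval_mem Q hQ.1 x hx _))) hα
    obtain ⟨β, hβ, hβ2⟩ := sf_root hQ.1 hy _ _ rfl (X_pow_sub_C_ne_zero hp.pos _) h1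
    have hβ3 : β ^ p = h.eval α := by
      rw [eval_sub, eval_pow, eval_X, eval_C] at hβ
      exact sub_eq_zero.1 hβ
    have hβ0 : β ≠ 0 := by
      rintro rfl
      rw [zero_pow hp.ne_zero] at hβ3
      exact hh hβ3.symm
    refine ⟨hh, ⟨β, hβ3, hβ2⟩, ?_⟩
    obtain ⟨u, hu⟩ := loc_unit (A := Algebra.adjoin C {x, y}) (x := ⟨x, hxB⟩) (y := ⟨y, hyB⟩)
      (p := p) (h := h) (a := α) (b := β) (Subtype.ext (by
        have h1 := H.eq
        have h2 : ((aeval (⟨x, hxB⟩ : Algebra.adjoin C {x, y}) h : Algebra.adjoin C {x, y}) : L)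
            = aeval x h := by
          exact (aeval_algebraMap_apply L (⟨x, hxB⟩ : Algebra.adjoin C {x, y}) h).symm
        rw [h2, ← h1]
        rfl)) hβ3
    have hs : Q.valuation ((∑ i ∈ Finset.range p, (⟨y, hyB⟩ : Algebra.adjoin C {x, y}) ^ i *
        algebraMap C (Algebra.adjoin C {x, y}) β ^ (p - 1 - i) : Algebra.adjoin C {x, y}) : L) = 1 := by
      have h4 : ((∑ i ∈ Finset.range p, (⟨y, hyB⟩ : Algebra.adjoin C {x, y}) ^ i *
          algebraMap C (Algebra.adjoin C {x, y}) β ^ (p - 1 - i) : Algebra.adjoin C {x, y}) : L) =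
          aeval y (∑ i ∈ Finset.range p, X ^ i * Polynomial.C β ^ (p - 1 - i)) := by
        rw [map_sum, AddSubmonoidClass.coe_finsetSum]
        refine Finset.sum_congr rfl fun i _ => ?_
        rw [map_mul, map_pow, map_pow, aeval_X, aeval_C]
        rfl
      rw [h4]
      refine sf_val hQ.1 hβ2 ?_
      rw [eval_finsetSum]
      have h5 : ∀ i ∈ Finset.range p, eval β (X ^ i * Polynomial.C β ^ (p - 1 - i)) =
          β ^ (p - 1) := by
        intro i hi
        rw [Finset.mem_range] at hi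
        rw [eval_mul, eval_pow, eval_pow, eval_X, eval_C, ← pow_add]
        congr 1
        omega
      rw [Finset.sum_congr rfl h5, Finset.sum_const, Finset.card_range, nsmul_eq_mul]
      exact mul_ne_zero hpC (pow_ne_zero _ hβ0)
    exact sf_group hp H hQ hx hy
      (t := (⟨x, hxB⟩ : Algebra.adjoin C {x, y}) - algebraMap C (Algebra.adjoin C {x, y}) α)
      (a := α) (b := β) hs hα ⟨_, mul_comm _ _⟩ ⟨u, congrArg Subtype.val hu⟩

end Pool.Agent.Lib.MP_2f3286_ag.Gl
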