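import Pool.Agent.Lib.MP_2f3286_ag.Gl.SA

/-!
# Totally ramified places   (module SL)

PROOF of `repr_weak`. As `IsSup.repr` (SA), whose proof does not use that `h` is separable: copy it (`y` is integral over `adjoin C {x}`: a root of the monic `Y ^ p - h(x)`).
PROOF of `tot_unique`. Let `f ≠ 0`, `f b(x) = ev a`, `b ≠ 0` (`hrepr`); not all `a i`, `i < p`, are zero. `v ((a i)(x) y ^ i) = g ^ (p n(a i) + d i)` if `a i ≠ 0`; these exponents are distinct for distinct
`i < p` (`d (i - j)` is not divisible by `p`), so the valuation of `ev a` is `g ^ m`, `m` their maximum (`g > 1`), and `v f = g ^ (m - p n(b))`; `m` is the same for `Q` and `Q'`.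
So `f ∈ Q ↔ m - p n(b) ≤ 0 ↔ f ∈ Q'`.
-/

open Polynomial IntermediateField

namespace Pool.Agent.Lib.MP_2f3286_ag.Gl

section slaux

variable {p : ℕ} {C L : Type*} [Field C] [Field L] [Algebra C L] {x y : L} {h : C[X]}

private theorem sl_frac (tr : Transcendental C x) (α : L) (hα : α ∈ IntermediateField.adjoin C {x}) :
    ∃ r s : C[X], s ≠ 0 ∧ α * aeval x s = aeval x r := by
  obtain ⟨r, s, hrs⟩ := (IntermediateField.mem_adjoin_simple_iff C α).1 hα
  by_cases hs : s = 0
  · refine ⟨0, 1, one_ne_zero, ?_⟩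
    rw [hrs, hs]
    simp
  · refine ⟨r, s, hs, ?_⟩
    have h1 : aeval x s ≠ 0 := fun hc => hs ((transcendental_iff.1 tr) s hc)
    rw [hrs, div_mul_cancel₀ _ h1]

private theorem sl_mem (x : L) (r : C[X]) : aeval x r ∈ IntermediateField.adjoin C {x} := by
  have h2 : Algebra.adjoin C {x} ≤ (IntermediateField.adjoin C {x}).toSubalgebra :=
    IntermediateField.algebra_adjoin_le_adjoin C {x}
  exact h2 (Polynomial.aeval_mem_adjoin_singleton C x)

private theorem sl_root (eq : y ^ p = aeval x h) :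
    aeval y (X ^ p - Polynomial.C (⟨aeval x h, sl_mem x h⟩ : IntermediateField.adjoin C {x})) = 0 := by
  rw [map_sub, map_pow, aeval_X, aeval_C, eq]
  exact sub_self _

private theorem sl_top (gen : IntermediateField.adjoin C {x, y} = ⊤) :
    IntermediateField.adjoin (IntermediateField.adjoin C {x}) {y} = ⊤ := by
  have h1 := IntermediateField.adjoin_adjoin_left C ({x} : Set L) {y}
  rw [eq_top_iff]
  intro f _
  have h2 : f ∈ (IntermediateField.adjoin (IntermediateField.adjoin C {x}) {y}).restrictScalars C := by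
    rw [h1, Set.singleton_union, gen]
    trivial
  exact h2

private theorem sl_int (hp : 2 ≤ p) (eq : y ^ p = aeval x h) :
    IsIntegral (IntermediateField.adjoin C {x}) y :=
  ⟨X ^ p - Polynomial.C (⟨aeval x h, sl_mem x h⟩ : IntermediateField.adjoin C {x}),
    monic_X_pow_sub_C _ (by omega), sl_root eq⟩

/-- the valuation of `f` from a representation -/
private theorem sl_val (hp : p.Prime) (tr : Transcendental C x) (n : C[X] → ℤ) {d : ℤ} (hd : ¬ (p : ℤ) ∣ d)
    (Q : ValuationSubring L) {g : Q.ValueGroup} (hg : 1 < g)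
    (h1 : ∀ P : C[X], P ≠ 0 → Q.valuation (aeval x P) = g ^ ((p : ℤ) * n P))
    (h2 : Q.valuation y = g ^ d) {f : L} {a : ℕ → C[X]} {b : C[X]} (hb : b ≠ 0)
    (hab : f * aeval x b = ev p x y a) (j : ℕ) (hj : j < p) (haj : a j ≠ 0)
    (hmax : ∀ i < p, a i ≠ 0 → (p : ℤ) * n (a i) + d * i ≤ (p : ℤ) * n (a j) + d * j) :
    f ∈ Q ↔ (p : ℤ) * n (a j) + d * j ≤ (p : ℤ) * n b := by
  classical
  have hg0 : g ≠ 0 := (lt_trans zero_lt_one hg).ne'
  have hterm : ∀ i, a i ≠ 0 → Q.valuation (aeval x (a i) * y ^ i) = g ^ ((p : ℤ) * n (a i) + d * i) := by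
    intro i hi
    rw [map_mul, map_pow, h1 _ hi, h2, zpow_add₀ hg0, zpow_mul g d (i : ℤ), zpow_natCast]
  have hpZ : Prime (p : ℤ) := Nat.prime_iff_prime_int.mp hp
  have hstrict : ∀ i ∈ (Finset.range p) \ {j},
      Q.valuation (aeval x (a i) * y ^ i) < Q.valuation (aeval x (a j) * y ^ j) := by
    intro i hi
    rw [Finset.mem_sdiff, Finset.mem_range, Finset.mem_singleton] at hi
    rw [hterm j haj]
    by_cases hai : a i = 0
    · rw [hai, map_zero, zero_mul, map_zero]
      exact zpow_pos (lt_trans zero_lt_one hg) _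
    · rw [hterm i hai, zpow_lt_zpow_iff_right₀ hg]
      refine lt_of_le_of_ne (hmax i hi.1 hai) ?_
      intro he
      have h3 : (p : ℤ) ∣ d * ((i : ℤ) - j) := ⟨n (a j) - n (a i), by linear_combination he⟩
      rcases hpZ.dvd_or_dvd h3 with h4 | h4
      · exact hd h4
      · have h5 : ((i : ℤ) - j) = 0 := by
          refine Int.eq_zero_of_abs_lt_dvd h4 ?_
          rw [abs_lt]
          constructor
          · have : (j : ℤ) < p := by exact_mod_cast hj
            have : (0 : ℤ) ≤ i := Int.natCast_nonneg i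
            omega
          · have : (i : ℤ) < p := by exact_mod_cast hi.1
            have : (0 : ℤ) ≤ j := Int.natCast_nonneg j
            omega
        exact hi.2 (by omega)
  have hsum : Q.valuation (ev p x y a) = g ^ ((p : ℤ) * n (a j) + d * j) := by
    unfold ev
    rw [Valuation.map_sum_eq_of_lt Q.valuation (Finset.mem_range.2 hj) hstrict, hterm j haj]
  have hf : Q.valuation f = g ^ ((p : ℤ) * n (a j) + d * j - (p : ℤ) * n b) := by
    rw [← hab, map_mul, h1 b hb] at hsum
    rw [zpow_sub₀ hg0, ← hsum, mul_div_assoc, div_self (zpow_ne_zero _ hg0), mul_one]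
  rw [← ValuationSubring.valuation_le_one_iff, hf, zpow_le_one_iff_right₀ hg]
  omega

end slaux

theorem repr_weak {p : ℕ} (hp : 2 ≤ p) {C L : Type*} [Field C] [Field L] [Algebra C L] {x y : L}
    {h : C[X]} (tr : Transcendental C x) (eq : y ^ p = aeval x h)
    (gen : IntermediateField.adjoin C {x, y} = ⊤) (f : L) :
    ∃ (a : ℕ → C[X]) (b : C[X]), b ≠ 0 ∧ f * aeval x b = ev p x y a := by
  have hint := sl_int (C := C) hp eq
  have hf : f ∈ IntermediateField.adjoin (IntermediateField.adjoin C {x}) {y} := by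
    rw [sl_top gen]; trivial
  have hf2 : f ∈ Algebra.adjoin (IntermediateField.adjoin C {x}) {y} := by
    rw [← IntermediateField.adjoin_simple_toSubalgebra_of_isAlgebraic hint.isAlgebraic]
    exact hf
  rw [Algebra.adjoin_singleton_eq_range_aeval] at hf2
  obtain ⟨P, hP⟩ := hf2
  have hP' : aeval y P = f := hP
  have hp0 : p ≠ 0 := by omega
  set M : (IntermediateField.adjoin C {x})[X] :=
    X ^ p - Polynomial.C (⟨aeval x h, sl_mem x h⟩ : IntermediateField.adjoin C {x}) with hM
  have hmon : M.Monic := monic_X_pow_sub_C _ hp0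
  have hMdeg : M.natDegree = p := natDegree_X_pow_sub_C
  have hne1 : M ≠ 1 := by
    intro hc
    rw [hc, natDegree_one] at hMdeg
    exact hp0 hMdeg.symm
  have hR : aeval y (P %ₘ M) = f := by
    rw [Polynomial.aeval_modByMonic_eq_self_of_root (sl_root eq), hP']
  have hRdeg : (P %ₘ M).natDegree < p := by
    rw [← hMdeg]
    exact natDegree_modByMonic_lt P hmon hne1
  have hsum : f = ∑ i ∈ Finset.range p, ((P %ₘ M).coeff i : L) * y ^ i := by
    rw [← hR, aeval_eq_sum_range' hRdeg]
    refine Finset.sum_congr rfl (fun i _ => ?_)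
    rw [Algebra.smul_def]
    rfl
  have hfr : ∀ i, ∃ r s : C[X], s ≠ 0 ∧ ((P %ₘ M).coeff i : L) * aeval x s = aeval x r :=
    fun i => sl_frac tr _ ((P %ₘ M).coeff i).2
  choose r s hs hrs using hfr
  refine ⟨fun i => r i * ∏ j ∈ (Finset.range p).erase i, s j, ∏ j ∈ Finset.range p, s j,
    Finset.prod_ne_zero_iff.2 (fun j _ => hs j), ?_⟩
  unfold ev
  rw [hsum, Finset.sum_mul]
  refine Finset.sum_congr rfl (fun i hi => ?_)
  rw [← Finset.mul_prod_erase _ _ hi, map_mul, map_mul, ← hrs i]
  ring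

theorem finDim_weak {p : ℕ} (hp : 2 ≤ p) {C L : Type*} [Field C] [Field L] [Algebra C L] {x y : L}
    {h : C[X]} (eq : y ^ p = aeval x h) (gen : IntermediateField.adjoin C {x, y} = ⊤) :
    FiniteDimensional (IntermediateField.adjoin C {x}) L := by
  have h1 : FiniteDimensional (IntermediateField.adjoin C {x})
      (IntermediateField.adjoin (IntermediateField.adjoin C {x}) {y}) :=
    IntermediateField.adjoin.finiteDimensional (sl_int hp eq)
  rw [sl_top gen] at h1
  exact Module.Finite.equiv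
    (IntermediateField.topEquiv (F := IntermediateField.adjoin C {x}) (E := L)).toLinearEquiv

theorem tot_unique {p : ℕ} (hp : p.Prime) {C L : Type*} [Field C] [Field L] [Algebra C L]
    {x y : L} (tr : Transcendental C x)
    (hrepr : ∀ f : L, ∃ (a : ℕ → C[X]) (b : C[X]), b ≠ 0 ∧ f * aeval x b = ev p x y a)
    (n : C[X] → ℤ) {d : ℤ} (hd : ¬ (p : ℤ) ∣ d) {Q Q' : ValuationSubring L} {g : Q.ValueGroup}
    {g' : Q'.ValueGroup} (hg : 1 < g) (hg' : 1 < g')
    (h1 : ∀ P : C[X], P ≠ 0 → Q.valuation (aeval x P) = g ^ ((p : ℤ) * n P))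
    (h1' : ∀ P : C[X], P ≠ 0 → Q'.valuation (aeval x P) = g' ^ ((p : ℤ) * n P))
    (h2 : Q.valuation y = g ^ d) (h2' : Q'.valuation y = g' ^ d) : Q = Q' := by
  classical
  ext f
  by_cases hf : f = 0
  · subst hf
    exact ⟨fun _ => zero_mem _, fun _ => zero_mem _⟩
  obtain ⟨a, b, hb, hab⟩ := hrepr f
  have hS : ((Finset.range p).filter (fun i => a i ≠ 0)).Nonempty := by
    by_contra hne
    rw [Finset.not_nonempty_iff_eq_empty] at hne
    have h0 : ev p x y a = 0 := by
      unfold ev
      refine Finset.sum_eq_zero (fun i hi => ?_)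
      by_cases hai : a i = 0
      · rw [hai, map_zero, zero_mul]
      · have : i ∈ (Finset.range p).filter (fun i => a i ≠ 0) := Finset.mem_filter.2 ⟨hi, hai⟩
        rw [hne] at this
        exact absurd this (Finset.notMem_empty _)
    rw [h0] at hab
    rcases mul_eq_zero.1 hab with h3 | h3
    · exact hf h3
    · exact hb ((transcendental_iff.1 tr) b h3)
  obtain ⟨j, hj, hmax⟩ := Finset.exists_max_image _ (fun i => (p : ℤ) * n (a i) + d * i) hS
  rw [Finset.mem_filter, Finset.mem_range] at hj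
  have hmax' : ∀ i < p, a i ≠ 0 → (p : ℤ) * n (a i) + d * i ≤ (p : ℤ) * n (a j) + d * j :=
    fun i hi hai => hmax i (Finset.mem_filter.2 ⟨Finset.mem_range.2 hi, hai⟩)
  rw [sl_val hp tr n hd Q hg h1 h2 hb hab j hj.1 hj.2 hmax',
    sl_val hp tr n hd Q' hg' h1' h2' hb hab j hj.1 hj.2 hmax']

end Pool.Agent.Lib.MP_2f3286_ag.Gl
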