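import Pool.Agent.Lib.MP_2f3286_ag.Gl.GB

/-!
# The ring of integral elements `O[x, y]`   (module UA)

PROOF of `adjoin_ev`. The set of all `ev p x y a`, where the coefficients of all `a i` are in `O`, contains `O`, `x`, `y` (`p ≥ 2`: `y = ev` of
the sequence with `a 1 = 1`), is closed under addition, and under multiplication: the product of two such sums is a combination of the
`y ^ l`, `l ≤ 2 p - 2`, with coefficients polynomials in `x` over `O`; `y ^ l = h(x) y ^ (l - p)` if `l ≥ p`. `Algebra.adjoin_induction`.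
(For the polynomials with coefficients in `O` use `Polynomial.lifts (algebraMap O C)` or the subring, closed under `+`, `*`.)
PROOF of `adjoin_ker`. `u = ev a`, with coefficients in `O ⊆ V.A` (`hOV`); reductions `ab i` (`exists_PHas`), `ev ab = 0` (`ev_has`, `Has.unique`), so
`ab i = 0` for `i < p` (`ev_zero`), so all coefficients `c` of the `a i`, `i < p`, have residue zero, `c / π ∈ O` (`hπ`); `u / π = ev (π⁻¹ a)` is in
`Algebra.adjoin O {x, y}`.
PROOF of `adjoin_has`. `Algebra.adjoin_induction`: `x`, `y`, `O` are finite at `W` and finite values are closed under `+`, `*`.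
-/

open Polynomial

namespace Pool.Agent.Lib.MP_2f3286_ag.Gl

open Pool.Agent.Lib.MP_2f3286_ag.Fer (Plc)

private def uA_E {C L : Type*} [Field C] [Field L] [Algebra C L] (O : Subring C) (p : ℕ)
    (x y : L) (u : L) : Prop :=
  ∃ a : ℕ → C[X], (∀ i j, (a i).coeff j ∈ O) ∧ u = ev p x y a

private lemma uA_zero {C L : Type*} [Field C] [Field L] [Algebra C L] (O : Subring C) (p : ℕ)
    (x y : L) : uA_E O p x y (0 : L) := by
  refine ⟨fun _ => 0, fun i j => ?_, ?_⟩
  · show (0 : C[X]).coeff j ∈ O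
    rw [coeff_zero]
    exact zero_mem O
  · unfold ev
    symm
    refine Finset.sum_eq_zero (fun i _ => ?_)
    rw [map_zero, zero_mul]

private lemma uA_add {C L : Type*} [Field C] [Field L] [Algebra C L] {O : Subring C} {p : ℕ}
    {x y u v : L} (hu : uA_E O p x y u) (hv : uA_E O p x y v) : uA_E O p x y (u + v) := by
  obtain ⟨a, ha, rfl⟩ := hu
  obtain ⟨b, hb, rfl⟩ := hv
  refine ⟨fun i => a i + b i, fun i j => ?_, ?_⟩
  · show (a i + b i).coeff j ∈ O
    rw [coeff_add]
    exact add_mem (ha i j) (hb i j)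
  · unfold ev
    rw [← Finset.sum_add_distrib]
    refine Finset.sum_congr rfl (fun i _ => ?_)
    rw [map_add, add_mul]

private lemma uA_sum {C L : Type*} [Field C] [Field L] [Algebra C L] {O : Subring C} {p : ℕ}
    {x y : L} {ι : Type*} (s : Finset ι) (f : ι → L) (hf : ∀ i ∈ s, uA_E O p x y (f i)) :
    uA_E O p x y (∑ i ∈ s, f i) := by
  classical
  induction s using Finset.induction_on with
  | empty => rw [Finset.sum_empty]; exact uA_zero O p x y
  | insert i s hi ih =>
    rw [Finset.sum_insert hi]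
    exact uA_add (hf i (Finset.mem_insert_self i s))
      (ih (fun j hj => hf j (Finset.mem_insert_of_mem hj)))

private lemma uA_cmul {C : Type*} [Field C] {O : Subring C} {P Q : C[X]}
    (hP : ∀ j, P.coeff j ∈ O) (hQ : ∀ j, Q.coeff j ∈ O) : ∀ j, (P * Q).coeff j ∈ O := by
  intro j
  rw [coeff_mul]
  exact sum_mem (fun c _ => mul_mem (hP _) (hQ _))

private lemma uA_lt {C L : Type*} [Field C] [Field L] [Algebra C L] {O : Subring C} {p : ℕ}
    {x y : L} {P : C[X]} (hP : ∀ j, P.coeff j ∈ O) {i : ℕ} (hi : i < p) :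
    uA_E O p x y (aeval x P * y ^ i) := by
  classical
  refine ⟨fun l => if l = i then P else 0, fun l j => ?_, ?_⟩
  · show (if l = i then P else 0).coeff j ∈ O
    by_cases hl : l = i
    · rw [if_pos hl]; exact hP j
    · rw [if_neg hl, coeff_zero]; exact zero_mem O
  · unfold ev
    rw [Finset.sum_eq_single i]
    · dsimp only
      rw [if_pos rfl]
    · intro l _ hl
      dsimp only
      rw [if_neg hl, map_zero, zero_mul]
    · intro hni
      exact absurd (Finset.mem_range.mpr hi) hni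

private lemma uA_mul {C L : Type*} [Field C] [Field L] [Algebra C L] {O : Subring C} {p : ℕ}
    {x y u v : L} {h : C[X]} (eq : y ^ p = aeval x h) (hO : ∀ i, h.coeff i ∈ O)
    (hu : uA_E O p x y u) (hv : uA_E O p x y v) : uA_E O p x y (u * v) := by
  obtain ⟨a, ha, rfl⟩ := hu
  obtain ⟨b, hb, rfl⟩ := hv
  unfold ev
  rw [Finset.sum_mul]
  refine uA_sum _ _ (fun i hi => ?_)
  rw [Finset.mul_sum]
  refine uA_sum _ _ (fun j hj => ?_)
  have hi' := Finset.mem_range.mp hi
  have hj' := Finset.mem_range.mp hj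
  have e1 : aeval x (a i) * y ^ i * (aeval x (b j) * y ^ j) =
      aeval x (a i * b j) * y ^ (i + j) := by
    rw [map_mul, pow_add]; ring
  rw [e1]
  by_cases hij : i + j < p
  · exact uA_lt (uA_cmul (ha i) (hb j)) hij
  · push Not at hij
    have e2 : aeval x (a i * b j) * y ^ (i + j) =
        aeval x (a i * b j * h) * y ^ (i + j - p) := by
      have e3 : y ^ (i + j) = y ^ p * y ^ (i + j - p) := by
        rw [← pow_add]
        congr 1
        omega
      rw [e3, eq, map_mul _ (a i * b j) h]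
      ring
    rw [e2]
    exact uA_lt (uA_cmul (uA_cmul (ha i) (hb j)) hO) (by omega)

theorem adjoin_ev {p : ℕ} (hp : p.Prime) {C L : Type*} [Field C] [Field L] [Algebra C L] {x y : L}
    {h : C[X]} (eq : y ^ p = aeval x h) {O : Subring C} (hO : ∀ i, h.coeff i ∈ O) {u : L}
    (hu : u ∈ Algebra.adjoin O {x, y}) :
    ∃ a : ℕ → C[X], (∀ i j, (a i).coeff j ∈ O) ∧ u = ev p x y a := by
  show uA_E O p x y u
  induction hu using Algebra.adjoin_induction with
  | mem u hu =>
    rcases hu with rfl | hu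
    · have h1 : uA_E O p u y (aeval u (Polynomial.X : C[X]) * y ^ 0) :=
        uA_lt (fun j => by
          rw [coeff_X]
          split_ifs
          · exact one_mem O
          · exact zero_mem O) hp.pos
      rw [aeval_X, pow_zero, mul_one] at h1
      exact h1
    · rw [Set.mem_singleton_iff] at hu
      subst hu
      have h1 : uA_E O p x u (aeval x (1 : C[X]) * u ^ 1) :=
        uA_lt (fun j => by
          rw [coeff_one]
          split_ifs
          · exact one_mem O
          · exact zero_mem O) hp.one_lt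
      rw [map_one, one_mul, pow_one] at h1
      exact h1
  | algebraMap r =>
    have h1 : uA_E O p x y (aeval x (Polynomial.C (r : C)) * y ^ 0) :=
      uA_lt (fun j => by
        rw [coeff_C]
        split_ifs
        · exact r.2
        · exact zero_mem O) hp.pos
    rw [aeval_C, pow_zero, mul_one] at h1
    exact h1
  | add u v _ _ hu hv => exact uA_add hu hv
  | mul u v _ _ hu hv => exact uA_mul eq hO hu hv

theorem ev_adjoin {p : ℕ} {C L : Type*} [Field C] [Field L] [Algebra C L] {x y : L}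
    {O : Subring C} {a : ℕ → C[X]} (ha : ∀ i < p, ∀ j, (a i).coeff j ∈ O) :
    ev p x y a ∈ Algebra.adjoin O {x, y} := by
  unfold ev
  have hx : x ∈ Algebra.adjoin O {x, y} := Algebra.subset_adjoin (Set.mem_insert x {y})
  have hy : y ∈ Algebra.adjoin O {x, y} := Algebra.subset_adjoin (Set.mem_insert_of_mem x rfl)
  refine sum_mem (fun i hi => mul_mem ?_ (pow_mem hy i))
  rw [aeval_eq_sum_range]
  refine sum_mem (fun j _ => ?_)
  have h1 : (a i).coeff j • x ^ j =
      (⟨(a i).coeff j, ha i (Finset.mem_range.mp hi) j⟩ : O) • x ^ j := rfl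
  rw [h1]
  exact Subalgebra.smul_mem _ (pow_mem hx j) _

variable {p : ℕ} {C L κ k : Type*} [Field C] [Field L] [Algebra C L] [Field κ] [Field k]
  [Algebra κ k] {D : Red C L κ k} {x y : L} {h : C[X]} {xb yb : k} {hb : κ[X]}

theorem GRed.adjoin_has (G : GRed p D x y h xb yb hb) {O : Subring C} (hOV : ∀ c ∈ O, c ∈ D.V.A)
    {u : L} (hu : u ∈ Algebra.adjoin O {x, y}) :
    ∃ z ∈ Algebra.adjoin κ {xb, yb}, D.W.Has u z := by
  induction hu using Algebra.adjoin_induction with
  | mem u hu =>
    rcases hu with rfl | hu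
    · exact ⟨xb, Algebra.subset_adjoin (Set.mem_insert xb {yb}), G.hx⟩
    · rw [Set.mem_singleton_iff] at hu
      subst hu
      exact ⟨yb, Algebra.subset_adjoin (Set.mem_insert_of_mem xb rfl), G.hy⟩
  | algebraMap r =>
    have h1 : D.V.Has (r : C) (D.V.φ ⟨r, hOV r r.2⟩) := ⟨hOV r r.2, rfl⟩
    exact ⟨algebraMap κ k (D.V.φ ⟨r, hOV r r.2⟩), Subalgebra.algebraMap_mem _ _,
      D.base _ _ h1⟩
  | add u v _ _ hu hv =>
    obtain ⟨z, hz, hz'⟩ := hu
    obtain ⟨w, hw, hw'⟩ := hv
    exact ⟨z + w, add_mem hz hw, hz'.add hw'⟩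
  | mul u v _ _ hu hv =>
    obtain ⟨z, hz, hz'⟩ := hu
    obtain ⟨w, hw, hw'⟩ := hv
    exact ⟨z * w, mul_mem hz hw, hz'.mul hw'⟩

theorem GRed.adjoin_ker (hp : p.Prime) (G : GRed p D x y h xb yb hb) {O : Subring C}
    (hOV : ∀ c ∈ O, c ∈ D.V.A) (hO : ∀ i, h.coeff i ∈ O) {π : C} (hπ0 : π ≠ 0)
    (hπ : ∀ c ∈ O, D.V.Has c 0 → c / π ∈ O) {u : L} (hu : u ∈ Algebra.adjoin O {x, y})
    (hu0 : D.W.Has u 0) : u / algebraMap C L π ∈ Algebra.adjoin O {x, y} := by
  obtain ⟨a, ha, rfl⟩ := adjoin_ev hp G.sup.eq hO hu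
  have hex : ∀ i : ℕ, ∃ Pb : κ[X], PHas D.V (a i) Pb :=
    fun i => exists_PHas (fun j => hOV _ (ha i j))
  choose ab hab using hex
  have h1 : D.W.Has (ev p x y a) (ev p xb yb ab) := G.ev_has (fun i _ => hab i)
  have h2 : ev p xb yb ab = 0 := h1.unique hu0
  have h3 := G.ev_zero hp h2
  have h4 : ev p x y a / algebraMap C L π = ev p x y (fun i => Polynomial.C π⁻¹ * a i) := by
    unfold ev
    rw [Finset.sum_div]
    refine Finset.sum_congr rfl (fun i _ => ?_)
    rw [map_mul, aeval_C, map_inv₀, div_eq_mul_inv]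
    ring
  rw [h4]
  refine ev_adjoin (fun i hi j => ?_)
  show (Polynomial.C π⁻¹ * a i).coeff j ∈ O
  rw [coeff_C_mul, mul_comm, ← div_eq_mul_inv]
  refine hπ _ (ha i j) ?_
  have h5 := hab i j
  rw [h3 i hi, coeff_zero] at h5
  exact h5

end Pool.Agent.Lib.MP_2f3286_ag.Gl
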